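import Pool.Agent.KRing.Code

/-! Every polygon of the class has a knotted piece at the bottom, in the middle or at the top. -/

set_option autoImplicit false

open Pool.Agent.LK
open scoped ENNReal

namespace Pool.Agent.KRing

open Pool.Agent.KTube
open Pool.Agent.LatticeTube (pedges mem_pedges mem_of_mem_pedges)

variable {E F : Finset (Sym2 P3)} {k k' : ℤ} {a b a' b' v w : ℤ × ℤ} {r l r' l' A B : List P3}
  {T T' : Finset (Sym2 P3) → Prop} {Y : ℝ≥0∞}

/-- The passage from the class `T'` to the class `T`: if the upper part is knotted then the lower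
part is of class `T`. -/
def Passes (T' T : Finset (Sym2 P3) → Prop) : Prop := ∀ (k : ℤ) (a b : ℤ × ℤ) (r l : List P3),
  a ≠ b → Upper k a b r → Lower k a b l → T' (ring (r ++ l)) → ¬ UppU (ring (r ++ l)) k →
    LC T k a b l

/-- Lower halves are determined by the lower edges. -/
theorem lower_unique (hab : a ≠ b) (hr : Upper k a b r) (hr' : Upper k a b r')
    (hl : Lower k a b l) (hl' : Lower k a b l')
    (h : LowEq (ring (r ++ l)) (ring (r' ++ l')) k) : l = l' := by
  have h1 : ring (r ++ l) = ring (r ++ l') := by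
    refine edge_ext fun u v => ?_
    have key : ∀ u v : P3, u.2.2 ≤ k → (s(u, v) ∈ ring (r ++ l) ↔ s(u, v) ∈ ring (r ++ l')) :=
      fun u v hu => (h u v hu).trans (lowEq_ring hr' hr hl' u v hu)
    rcases le_or_gt u.2.2 k with hu | hu
    · exact key u v hu
    · rcases le_or_gt v.2.2 k with hv | hv
      · rw [Sym2.eq_swap]; exact key v u hv
      · rw [mem_ring_of hr hl, mem_ring_of hr hl']
        have n1 : s(u, v) ∉ pedges l := fun h => by
          have := (pedges_lev hl.lev h).1; omega
        have n2 : s(u, v) ∉ pedges l' := fun h => by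
          have := (pedges_lev hl'.lev h).1; omega
        tauto
  exact (halves_unique hab hab hr hl hr hl' h1).2.2

/-- A thin polygon with the same lower half. -/
theorem exists_UU (hab : a ≠ b) (hr : Upper k a b r) (hl : Lower k a b l) :
    ∃ r', UU k a b r' ∧ LowClose (ring (r ++ l)) k (ring (r' ++ l)) := by
  have hP : IsPolygon (ring (r ++ l)) := (ring_of hab hr hl).isPolygon
  have h2 : IsTwo (ring (r ++ l)) k := isTwo_ring_of hab hr hl
  obtain ⟨C, hC⟩ := exists_lowClose hP h2
  have hcr : cross C k = {a, b} := by rw [hC.2.1.cross le_rfl, cross_ring_of hr hl]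
  have h2C : IsTwo C k := by unfold IsTwo; rw [hcr]; exact Set.ncard_pair hab
  obtain ⟨b', r', l', hab', hr', hl', hC'⟩ := exists_halves hC.1 h2C (a := a) (by rw [hcr]; simp)
  have hbb : b' = b := by
    have h3 := cross_ring_of hr' hl'
    rw [hC', hcr] at h3
    have h4 : b' ∈ ({a, b} : Set (ℤ × ℤ)) := by rw [h3]; simp
    rcases h4 with h4 | h4
    · exact absurd h4.symm hab'
    · exact h4
  subst hbb
  have hll : l' = l := by
    refine lower_unique hab hr' hr hl' hl ?_
    rw [hC']
    exact hC.2.1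
  subst hll
  rw [← hC'] at hC
  refine ⟨r', ⟨hab, hr', l', hl', ?_⟩, hC⟩
  obtain ⟨D, hD⟩ := exists_uppClose hC.1 (isTwo_ring_of hab hr' hl')
  refine ⟨D, hD, unknotted_of_two hD.1 ?_ ?_⟩
  · intro j hj
    rcases le_or_gt j k with h3 | h3
    · exact hD.2.2 j h3 hj
    · rw [hD.2.1.cross h3.le] at hj ⊢
      exact hC.2.2 j h3.le hj
  · refine ⟨k, ?_⟩
    rw [hD.2.1.cross le_rfl, cross_ring_of hr' hl']
    exact ⟨a, by simp⟩

/-- The lower half in terms of closures. -/
theorem LC_of_close (hT : TypeClosed T) (hab : a ≠ b) (hr : Upper k a b r) (hl : Lower k a b l)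
    {C : Finset (Sym2 P3)} (hC : LowClose (ring (r ++ l)) k C) (h : T C) : LC T k a b l := by
  obtain ⟨r', hr', hC'⟩ := exists_UU hab hr hl
  have hP : IsPolygon (ring (r ++ l)) := (ring_of hab hr hl).isPolygon
  exact ⟨hl, r', hr', hT _ _ (lowClose_unique hP (isTwo_ring_of hab hr hl) hC hC') h⟩

theorem passes_prime {K : Finset (Sym2 P3)} (hK : PrimeKnot K) :
    Passes (SameType K) Unknotted := by
  intro k a b r l hab hr hl hT hU
  have hP : IsPolygon (ring (r ++ l)) := (ring_of hab hr hl).isPolygon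
  have h2 := isTwo_ring_of hab hr hl
  rcases prime_sides hP h2 hK hT with h | h
  · obtain ⟨C, hC, hCU⟩ := h.1
    exact LC_of_close typeClosed_unknotted hab hr hl hC hCU
  · exact absurd h.2 hU

theorem steps_of_chain {p : P3} {s : List P3} (h : (wk p s).IsChain Adj) : Steps s :=
  chain_wk.1 h

theorem two_finite (E : Finset (Sym2 P3)) : {j : ℤ | IsTwo E j}.Finite :=
  (planes_finite E).subset fun _ hj => two_nonempty hj

/-- **The classification.** -/
theorem classify (hH : Passes T' T) (hE : IsPolygon E) (hT : T' E) :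
    (∀ j, ¬ IsTwo E j) ∨ ∃ V, MidOf T V E ∨ BotOf V E ∨ TopOf T V E := by
  classical
  by_cases hne : ∃ j, IsTwo E j
  swap
  · exact Or.inl fun j hj => hne ⟨j, hj⟩
  right
  have hfin := two_finite E
  by_cases hU : ∃ j, IsTwo E j ∧ UppU E j
  · -- the lowest section with unknotted upper part
    have hfinU : {j : ℤ | IsTwo E j ∧ UppU E j}.Finite := hfin.subset fun j hj => hj.1
    obtain ⟨k', ⟨h2', hU'⟩, hmin⟩ := Set.exists_min_image _ id hfinU hU
    by_cases hlow : ∃ j, IsTwo E j ∧ j < k'
    · -- the middle case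
      have hfinL : {j : ℤ | IsTwo E j ∧ j < k'}.Finite := hfin.subset fun j hj => hj.1
      obtain ⟨k, ⟨h2, hk⟩, hmax⟩ := Set.exists_max_image _ id hfinL hlow
      have hnU : ¬ UppU E k := by
        intro h
        have := hmin k ⟨h2, h⟩
        simp only [id] at this
        omega
      obtain ⟨a, ha⟩ := two_nonempty h2
      obtain ⟨b, r, l, hab, hr, hl, hEr⟩ := exists_halves hE h2 ha
      subst hEr
      obtain ⟨a', b', A, r', B, hab', hb, hr', hrA⟩ := exists_block hr hl hk h2'
      subst hrA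
      have hlc := hH k a b _ l hab hr hl hT hnU
      have huu : UU k' a' b' r' := by
        refine ⟨hab', hr', B ++ (l ++ A), hb.lower hl, ?_⟩
        rw [← hb.ring_rotate hr' hl]
        exact hU'
      obtain ⟨sA, hA⟩ := exists_wk A _ hb.headA
      obtain ⟨sB, hB⟩ := exists_wk B.reverse _ (by rw [List.head?_reverse]; exact hb.lastB)
      have hB' : B = (wk (b.1, b.2, k + 1) sB).reverse := by rw [← hB, List.reverse_reverse]
      have hsA : Steps sA := steps_of_chain (hA ▸ hb.chainA)
      have hsB : Steps sB := by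
        refine steps_of_chain (p := (b.1, b.2, k + 1)) ?_
        rw [← hB, List.isChain_reverse]
        exact hb.chainB.imp fun _ _ h => h.symm
      refine ⟨brk (lets sA) + brk (lets sB), Or.inl ⟨k, k', a, b, a', b', A, B, r', l, sA, sB, hb,
        huu, hlc, rfl, hA, hB', hsA, hsB, rfl, ?_⟩⟩
      refine hb.height hab hr' hl hA hB' hsA hsB fun j hj hj' h => ?_
      have := hmax j ⟨h, hj'⟩
      simp only [id] at this
      omega
    · -- the bottom case
      obtain ⟨a, ha⟩ := two_nonempty h2'
      obtain ⟨b, r, l, hab, hr, hl, hEr⟩ := exists_halves hE h2' ha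
      subst hEr
      obtain ⟨s, hs⟩ := exists_wk l.reverse _ (by rw [List.head?_reverse]; exact hl.last)
      have hss : Steps s := by
        refine steps_of_chain (p := (a.1, a.2, k')) ?_
        rw [← hs, List.isChain_reverse]
        exact hl.chain.imp fun _ _ h => h.symm
      refine ⟨brk (lets s), Or.inr (Or.inl ⟨k', a, b, r, l, s, ⟨hab, hr, l, hl, hU'⟩, hl, rfl, hs,
        hss, rfl, ?_⟩)⟩
      exact lower_height hab hr hl hs hss fun j hj h => hlow ⟨j, h, hj⟩
  · -- the top case
    obtain ⟨k, h2, hmax⟩ := Set.exists_max_image _ id hfin hne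
    obtain ⟨a, ha⟩ := two_nonempty h2
    obtain ⟨b, r, l, hab, hr, hl, hEr⟩ := exists_halves hE h2 ha
    subst hEr
    have hlc := hH k a b _ l hab hr hl hT fun h => hU ⟨k, h2, h⟩
    obtain ⟨s, hs⟩ := exists_wk r.reverse _ (by rw [List.head?_reverse]; exact hr.last)
    have hss : Steps s := by
      refine steps_of_chain (p := (b.1, b.2, k + 1)) ?_
      rw [← hs, List.isChain_reverse]
      exact hr.chain.imp fun _ _ h => h.symm
    refine ⟨brk (lets s), Or.inr (Or.inr ⟨k, a, b, r, l, s, hlc, hr, rfl, hs, hss, rfl, ?_⟩)⟩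
    refine upper_height hab hr hl hs hss fun j hj h => ?_
    have := hmax j h
    simp only [id] at this
    omega

/-- The polygons without a section with two edges. -/
def NT (n : ℕ) : Set (Finset (Sym2 P3)) :=
  {E | IsPolygon E ∧ Normed E ∧ E.card = n ∧ ∀ j, ¬ IsTwo E j}

/-- **The sum over the pieces.** -/
theorem ZT_le (hT : GoodClass T) (hU : ∀ E, IsPolygon E → Unknotted E → T E) (hH : Passes T' T)
    (hY : 1 ≤ Y) (n : ℕ) :
    ZT Y T' n ≤ ∑' E : NT n, Y ^ span E.1 +
      ∑ V ∈ Finset.range (n + 1), ((if V + 2 ≤ n then ((V + 1) * 2 ^ V : ℕ) * Y ^ (V / 4 + 2) *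
        SFN Y T (V + 1) (n - (V + 2)) else 0) +
        2 * ((2 ^ V : ℕ) * Y ^ (V / 4 + 2) * SFN Y T (V + 1) (n - V + 2))) := by
  let XM : ℕ → Set (Finset (Sym2 P3)) := fun V => {E | MidOf T V E ∧ Normed E ∧ E.card = n}
  let XB : ℕ → Set (Finset (Sym2 P3)) := fun V => {E | BotOf V E ∧ Normed E ∧ E.card = n}
  let XT : ℕ → Set (Finset (Sym2 P3)) := fun V => {E | TopOf T V E ∧ Normed E ∧ E.card = n}
  have hsub : PT T' n ⊆ NT n ∪ ⋃ V ∈ Finset.range (n + 1), (XM V ∪ (XB V ∪ XT V)) := by
    rintro E ⟨hE, hT', hN, hc⟩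
    rcases classify hH hE hT' with h | ⟨V, h⟩
    · exact Or.inl ⟨hE, hN, hc, h⟩
    · right
      rw [Set.mem_iUnion₂]
      rcases h with h | h | h
      · have := h.le hT hc
        exact ⟨V, Finset.mem_range.2 (by omega), Or.inl ⟨h, hN, hc⟩⟩
      · have := h.le hc
        exact ⟨V, Finset.mem_range.2 (by omega), Or.inr (Or.inl ⟨h, hN, hc⟩)⟩
      · have := h.le hc
        exact ⟨V, Finset.mem_range.2 (by omega), Or.inr (Or.inr ⟨h, hN, hc⟩)⟩
  unfold ZT
  refine (ENNReal.tsum_mono_subtype (fun E => Y ^ span E) hsub).trans ?_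
  refine (ENNReal.tsum_union_le (fun E => Y ^ span E) _ _).trans ?_
  refine add_le_add le_rfl ?_
  refine (ENNReal.tsum_biUnion_le (fun E => Y ^ span E) (Finset.range (n + 1)) _).trans ?_
  refine Finset.sum_le_sum fun V _ => ?_
  refine (ENNReal.tsum_union_le (fun E => Y ^ span E) _ _).trans ?_
  refine add_le_add ?_ ?_
  · split_ifs with h
    · exact mid_le hT hY n V
    · have h1 : XM V = ∅ := by
        rw [Set.eq_empty_iff_forall_notMem]
        intro E hE
        exact h (hE.1.le hT hE.2.2)
      rw [h1]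
      simp
  · refine (ENNReal.tsum_union_le (fun E => Y ^ span E) _ _).trans ?_
    rw [two_mul]
    exact add_le_add (bot_le hU hY n V) (top_le hT hY n V)

end Pool.Agent.KRing
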