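import Pool.Agent.KRing.Ratio
import Pool.Agent.KRing.Classify

/-! All ratios; the polygons without two-sections. -/

set_option autoImplicit false

open Pool.Agent.LK Set Filter Topology
open scoped ENNReal

namespace Pool.Agent.KRing

open Pool.Agent.KTube
open Pool.Agent.KTen (Zt NSet ES NPoly)

variable {y : ℝ} {T : ES → Prop}

/-- The partition function as a real number. -/
theorem ZT_eq (hy : 0 ≤ y) (T : ES → Prop) (n : ℕ) :
    ZT (ENNReal.ofReal y) T n = ENNReal.ofReal (Zt y T n) := by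
  classical
  rw [zt_sum, ENNReal.ofReal_sum_of_nonneg fun E _ => by positivity]
  unfold ZT
  have h : PT T n = ↑((KTen.nset_finite T n).toFinset) := by
    rw [Set.Finite.coe_toFinset]
    rfl
  rw [h]
  rw [← Finset.tsum_subtype]
  refine tsum_congr fun E => ?_
  rw [ENNReal.ofReal_pow hy]

theorem zt_uclass (y : ℝ) (n : ℕ) : Zt y Unknotted n = Zt y UClass n := by
  have h : NSet Unknotted n = NSet UClass n := by
    ext E
    constructor
    · rintro ⟨h1, h2, h3, h4⟩
      exact ⟨h1, ⟨h1, h2⟩, h3, h4⟩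
    · rintro ⟨h1, h2, h3, h4⟩
      exact ⟨h1, h2.2, h3, h4⟩
  unfold Zt
  rw [h]

theorem u_pos (hy : 1 ≤ y) {n : ℕ} (hn : Even n) (h4 : 4 ≤ n) : 0 < Zt y UClass n :=
  lt_of_lt_of_le (by positivity) (u_ge hy hn h4)

/-- All ratios from above. -/
theorem ratio_up (hy : 4096 ≤ y) : ∃ A : ℝ, 1 ≤ A ∧ ∀ n, Even n → 4 ≤ n → ∀ j : ℕ,
    Zt y UClass (n + 2 * j) ≤ A * (4 * y) ^ j * Zt y UClass n := by
  obtain ⟨n0, hn0⟩ := ratio_le hy
  have hy1 : 1 ≤ y := by linarith
  have hy0 : (0 : ℝ) ≤ y := by linarith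
  set q : ℝ := 4 * y with hq
  have hq0 : 0 < q := by rw [hq]; linarith
  have hiter : ∀ n ≥ n0, ∀ j : ℕ, Zt y UClass (n + 2 * j) ≤ q ^ j * Zt y UClass n := by
    intro n hn j
    induction j with
    | zero => simp
    | succ j ih =>
      have h1 := hn0 (n + 2 * j) (by omega)
      have h2 : n + 2 * (j + 1) = n + 2 * j + 2 := by ring
      rw [h2]
      refine h1.trans ?_
      rw [pow_succ' q j, mul_assoc q (q ^ j)]
      exact mul_le_mul_of_nonneg_left ih hq0.le
  set t : ℕ → ℕ → ℝ := fun n j => Zt y UClass (n + 2 * j) / (q ^ j * Zt y UClass n)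
    with ht
  have ht0 : ∀ n j, 0 ≤ t n j := fun n j =>
    div_nonneg (KTen.zt_nonneg hy0 _ _) (mul_nonneg (by positivity) (KTen.zt_nonneg hy0 _ _))
  set A : ℝ := 1 + ∑ n ∈ Finset.range n0, ∑ j ∈ Finset.range (n0 + 1), t n j with hA
  have hA1 : 1 ≤ A := by
    have : 0 ≤ ∑ n ∈ Finset.range n0, ∑ j ∈ Finset.range (n0 + 1), t n j :=
      Finset.sum_nonneg fun n _ => Finset.sum_nonneg fun j _ => ht0 n j
    linarith
  refine ⟨A, hA1, fun n hev h4 j => ?_⟩
  have hU : 0 < Zt y UClass n := u_pos hy1 hev h4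
  -- small `j`
  have hsmall : ∀ j ≤ n0, Zt y UClass (n + 2 * j) ≤ A * q ^ j * Zt y UClass n := by
    intro j hj
    by_cases hn : n0 ≤ n
    · refine (hiter n hn j).trans ?_
      have h1 : 0 ≤ q ^ j * Zt y UClass n := by positivity
      nlinarith
    · have h1 : t n j ≤ A := by
        have h2 : t n j ≤ ∑ j ∈ Finset.range (n0 + 1), t n j :=
          Finset.single_le_sum (fun j _ => ht0 n j) (Finset.mem_range.2 (by omega))
        have h3 : (∑ j ∈ Finset.range (n0 + 1), t n j) ≤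
            ∑ n ∈ Finset.range n0, ∑ j ∈ Finset.range (n0 + 1), t n j :=
          Finset.single_le_sum (f := fun n => ∑ j ∈ Finset.range (n0 + 1), t n j)
            (fun n _ => Finset.sum_nonneg fun j _ => ht0 n j) (Finset.mem_range.2 (by omega))
        linarith
      rw [ht] at h1
      simp only at h1
      rw [div_le_iff₀ (by positivity)] at h1
      rw [mul_assoc]
      exact h1
  rcases le_total j n0 with hj | hj
  · exact hsmall j hj
  · obtain ⟨i, rfl⟩ := Nat.exists_eq_add_of_le hj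
    have h1 := hiter (n + 2 * n0) (by omega) i
    have h2 : n + 2 * (n0 + i) = n + 2 * n0 + 2 * i := by ring
    rw [h2]
    refine h1.trans ?_
    have h3 := mul_le_mul_of_nonneg_left (hsmall n0 le_rfl) (show (0 : ℝ) ≤ q ^ i by positivity)
    refine h3.trans (le_of_eq ?_)
    rw [pow_add]
    ring

theorem ratio_down (hy : 1 ≤ y) (n j : ℕ) :
    y ^ j * Zt y UClass n ≤ Zt y UClass (n + 2 * j) := by
  have h := KTen.ratio_down (one_le_sqrt' hy) n j
  rwa [sqrt_sq' (by linarith)] at h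

/-- **All ratios**, `y = s ^ 2`. -/
theorem ratio_all {s : ℝ} (hs : 64 ≤ s) : ∃ A : ℝ, 1 ≤ A ∧ ∀ n, Even n → 4 ≤ n →
    ∀ m a b : ℕ, m + a = n + b →
      Zt (s ^ 2) UClass m * s ^ a ≤ A * (2 * s) ^ b * Zt (s ^ 2) UClass n := by
  have hy : 4096 ≤ s ^ 2 := by nlinarith
  have hy1 : 1 ≤ s ^ 2 := by linarith
  have hs0 : 0 < s := by linarith
  have hs1 : 1 ≤ s := by linarith
  obtain ⟨A, hA1, hA⟩ := ratio_up hy
  refine ⟨A, hA1, fun n hn h4 m a b h => ?_⟩
  have hU0 : ∀ k, 0 ≤ Zt (s ^ 2) UClass k := fun k => KTen.zt_nonneg (by positivity) _ _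
  by_cases hm : Even m
  swap
  · rw [KTen.u_odd hm, zero_mul]
    have := hU0 n
    positivity
  rcases le_total n m with h1 | h1
  · obtain ⟨d, rfl⟩ := Nat.exists_eq_add_of_le h1
    have hd : Even d := by
      rw [Nat.even_add] at hm
      exact hm.1 hn
    obtain ⟨j, rfl⟩ := hd
    have h2 := hA n hn h4 j
    have e1 : n + 2 * j = n + (j + j) := by ring
    rw [e1] at h2
    obtain rfl : b = j + j + a := by omega
    calc Zt (s ^ 2) UClass (n + (j + j)) * s ^ a
        ≤ (A * (4 * s ^ 2) ^ j * Zt (s ^ 2) UClass n) * s ^ a :=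
          mul_le_mul_of_nonneg_right h2 (by positivity)
      _ = A * (2 * s) ^ (j + j) * s ^ a * Zt (s ^ 2) UClass n := by
          have : (4 * s ^ 2) ^ j = (2 * s) ^ (j + j) := by
            rw [← two_mul, pow_mul]; congr 1; ring
          rw [this]; ring
      _ ≤ A * (2 * s) ^ (j + j) * (2 * s) ^ a * Zt (s ^ 2) UClass n := by
          refine mul_le_mul_of_nonneg_right ?_ (hU0 n)
          refine mul_le_mul_of_nonneg_left ?_ (by positivity)
          exact pow_le_pow_left₀ hs0.le (by linarith) a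
      _ = A * (2 * s) ^ (j + j + a) * Zt (s ^ 2) UClass n := by rw [pow_add (2 * s) (j + j) a]; ring
  · obtain ⟨d, rfl⟩ := Nat.exists_eq_add_of_le h1
    have hd : Even d := by
      rw [Nat.even_add] at hn
      exact hn.1 hm
    obtain ⟨j, rfl⟩ := hd
    have h2 := ratio_down hy1 m j
    have e1 : m + 2 * j = m + (j + j) := by ring
    rw [e1, ← pow_mul] at h2
    obtain rfl : a = 2 * j + b := by omega
    calc Zt (s ^ 2) UClass m * s ^ (2 * j + b) = s ^ b * (s ^ (2 * j) * Zt (s ^ 2) UClass m) := by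
          rw [pow_add]; ring
      _ ≤ s ^ b * Zt (s ^ 2) UClass (m + (j + j)) := mul_le_mul_of_nonneg_left h2 (by positivity)
      _ ≤ A * (2 * s) ^ b * Zt (s ^ 2) UClass (m + (j + j)) := by
          refine mul_le_mul_of_nonneg_right ?_ (hU0 _)
          have h3 : s ^ b ≤ (2 * s) ^ b := pow_le_pow_left₀ hs0.le (by linarith) b
          have h4 : (0 : ℝ) ≤ (2 * s) ^ b := by positivity
          nlinarith

/-- **The polygons without two-sections.** -/
theorem nt_le (hy : 4096 ≤ y) : ∃ C : ℝ, 0 ≤ C ∧ ∀ n,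
    ∑' E : NT n, ENNReal.ofReal y ^ span E.1 ≤ ENNReal.ofReal (C * Zt y UClass n) := by
  classical
  have hy0 : 0 ≤ y := by linarith
  have hy1 : 1 ≤ y := by linarith
  obtain ⟨x, hx8, hxy⟩ : ∃ x : ℝ, 8 ≤ x ∧ x ^ 4 = y := by
    refine ⟨y ^ (1 / 4 : ℝ), ?_, ?_⟩
    · have h2 : (8 : ℝ) = (4096 : ℝ) ^ (1 / 4 : ℝ) := by
        rw [show (4096 : ℝ) = 8 ^ (4 : ℝ) by norm_num, ← Real.rpow_mul (by norm_num)]
        norm_num
      rw [h2]
      exact Real.rpow_le_rpow (by norm_num) hy (by norm_num)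
    · rw [← Real.rpow_natCast, ← Real.rpow_mul hy0]
      norm_num
  subst hxy
  have hx0 : 0 < x := by linarith
  have hx1 : 1 ≤ x := by linarith
  set z : ℝ := 1 / x ^ 2 with hz
  have hz0 : 0 < z := by positivity
  have hw : (x + 3) * z + 5 * x * z ^ 2 < 1 := by
    have e : (x + 3) * z + 5 * x * z ^ 2 = (x ^ 2 + 3 * x + 5) / x ^ 3 := by
      rw [hz]; field_simp
    rw [e, div_lt_one (by positivity)]
    have : 8 * x ^ 2 ≤ x ^ 3 := by nlinarith [sq_nonneg x]
    nlinarith
  have hsum := KTen.words_Z3 hx1 hz0 hw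
  set S0 : ℝ := ∑' E : NPoly, z ^ E.1.card * x ^ LatticeTube.vert E.1 with hS0
  have hS00 : 0 ≤ S0 := tsum_nonneg fun E => by positivity
  refine ⟨S0 * x ^ 4, by positivity, fun n => ?_⟩
  have hNT : NT n ⊆ NSet (fun E => ∀ j, ¬ IsTwo E j) n := fun E hE => ⟨hE.1, hE.2.2.2, hE.2.1, hE.2.2.1⟩
  have hfin : (NT n).Finite := (KTen.nset_finite _ n).subset hNT
  by_cases hn : Even n
  swap
  · have : NT n = ∅ := by
      rw [Set.eq_empty_iff_forall_notMem]
      intro E hE
      exact hn (hE.2.2.1 ▸ even_card hE.1)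
    rw [this]
    simp
  by_cases h4 : 4 ≤ n
  swap
  · have : NT n = ∅ := by
      rw [Set.eq_empty_iff_forall_notMem]
      intro E hE
      obtain ⟨a, b, hab⟩ := exists_edge hE.1
      obtain ⟨m, g, hc, -, -⟩ := exists_cyc hE.1 hab
      have h1 := hc.card_eq
      have h2 := hc.three
      obtain ⟨k, hk⟩ := even_card hE.1
      have := hE.2.2.1
      omega
    rw [this]
    simp
  have hle : ∀ E ∈ hfin.toFinset, (x ^ 4) ^ span E ≤ (x ^ 2) ^ n *
      (z ^ E.card * x ^ LatticeTube.vert E) := by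
    intro E hE
    rw [Set.Finite.mem_toFinset] at hE
    have h5 : 4 * span E ≤ LatticeTube.vert E + 2 * {k : ℤ | IsTwo E k}.ncard :=
      LatticeTube.sectionStatement.1 E hE.1
    have h6 : {k : ℤ | IsTwo E k} = ∅ := by
      rw [Set.eq_empty_iff_forall_notMem]
      exact fun k hk => hE.2.2.2 k hk
    rw [h6, Set.ncard_empty, mul_zero, add_zero] at h5
    have e : (x ^ 2) ^ n * z ^ n = 1 := by
      rw [← mul_pow, hz, mul_one_div_cancel (by positivity), one_pow]
    calc (x ^ 4) ^ span E = x ^ (4 * span E) := by rw [← pow_mul]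
      _ ≤ x ^ LatticeTube.vert E := pow_le_pow_right₀ hx1 h5
      _ = ((x ^ 2) ^ n * z ^ n) * x ^ LatticeTube.vert E := by rw [e, one_mul]
      _ = _ := by rw [hE.2.2.1]; ring
  have h7 : ∑' E : NT n, ENNReal.ofReal (x ^ 4) ^ span E.1 =
      ENNReal.ofReal (∑ E ∈ hfin.toFinset, (x ^ 4) ^ span E) := by
    rw [ENNReal.ofReal_sum_of_nonneg fun E _ => by positivity]
    have h : NT n = ↑(hfin.toFinset) := by rw [Set.Finite.coe_toFinset]
    conv_lhs => rw [h]
    rw [← Finset.tsum_subtype]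
    refine tsum_congr fun E => ?_
    rw [ENNReal.ofReal_pow hy0]
  rw [h7]
  refine ENNReal.ofReal_le_ofReal ?_
  refine (Finset.sum_le_sum hle).trans ?_
  rw [← Finset.mul_sum]
  have hS : ∑ E ∈ hfin.toFinset, z ^ E.card * x ^ LatticeTube.vert E ≤ S0 := by
    have hmem : ∀ E ∈ hfin.toFinset, IsPolygon E ∧ Normed E := by
      intro E hE
      rw [Set.Finite.mem_toFinset] at hE
      exact ⟨hE.1, hE.2.1⟩
    have h2 : ∑ E ∈ hfin.toFinset.attach, z ^ E.1.card * x ^ LatticeTube.vert E.1 ≤ S0 := by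
      have hinj : Function.Injective (fun E : {x // x ∈ hfin.toFinset} =>
          (⟨E.1, hmem E.1 E.2⟩ : NPoly)) := by
        intro E F h
        exact Subtype.ext (congrArg (fun x : NPoly => x.1) h)
      have h3 := hsum.sum_le_tsum (hfin.toFinset.attach.map ⟨_, hinj⟩) fun E _ => by positivity
      rwa [Finset.sum_map] at h3
    rwa [Finset.sum_attach hfin.toFinset (fun E => z ^ E.card * x ^ LatticeTube.vert E)] at h2
  have h8 : (x ^ 2) ^ (n - 2) ≤ Zt (x ^ 4) UClass n := by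
    have := KTen.u_ge (x := x ^ 2) (one_le_pow₀ hx1) hn h4
    rwa [← pow_mul x 2 2, show x ^ (2 * 2) = x ^ 4 by norm_num] at this
  calc (x ^ 2) ^ n * ∑ E ∈ hfin.toFinset, z ^ E.card * x ^ LatticeTube.vert E
      ≤ (x ^ 2) ^ n * S0 := mul_le_mul_of_nonneg_left hS (by positivity)
    _ = S0 * x ^ 4 * (x ^ 2) ^ (n - 2) := by
        have : (x ^ 2) ^ n = x ^ 4 * (x ^ 2) ^ (n - 2) := by
          have e : n = (n - 2) + 2 := by omega
          conv_lhs => rw [e, pow_add, ← pow_mul x 2 2]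
          ring
        rw [this]; ring
    _ ≤ S0 * x ^ 4 * Zt (x ^ 4) UClass n := mul_le_mul_of_nonneg_left h8 (by positivity)

end Pool.Agent.KRing
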