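import Pool.Agent.KRing.Bound
import Pool.Agent.KTen.SpliceType

/-! The upper bound for the polygons with at most `N` prime factors, for every tension
`y ≥ 4096`. -/

set_option autoImplicit false

open Pool.Agent.LK Set Filter Topology
open scoped ENNReal

namespace Pool.Agent.KRing

open Pool.Agent.KTube
open Pool.Agent.KTen (Zt NSet ES Few splice)

variable {E F A C : ES} {k : ℤ} {N : ℕ}

theorem typeClosed_few (N : ℕ) : TypeClosed (Few N) := KTen.hinv_few N

theorem few_of_unknotted (N : ℕ) (hE : IsPolygon E) (hU : Unknotted E) : Few N E := by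
  induction N with
  | zero => exact hU
  | succ N ih => exact KTen.few_succ hE ih

theorem splice_low_eq (h : LowEq A E k) : splice E A k = A := by
  refine edge_ext fun u v => ?_
  rw [KTen.mem_splice]
  constructor
  · rintro (⟨h1, h2 | h2⟩ | ⟨h1, -⟩)
    · exact (h u v h2).2 h1
    · rw [Sym2.eq_swap] at h1 ⊢
      exact (h v u h2).2 h1
    · exact h1
  · intro h1
    by_cases h2 : u.2.2 ≤ k
    · exact Or.inl ⟨(h u v h2).1 h1, Or.inl h2⟩
    · exact Or.inr ⟨h1, Or.inl (by omega)⟩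

theorem splice_upp_eq (h : UppEq A E k) : splice A E k = A := by
  refine edge_ext fun u v => ?_
  rw [KTen.mem_splice]
  constructor
  · rintro (⟨h1, -⟩ | ⟨h1, h2 | h2⟩)
    · exact h1
    · exact (h u v h2).2 h1
    · rw [Sym2.eq_swap] at h1 ⊢
      exact (h v u h2).2 h1
  · intro h1
    by_cases h2 : u.2.2 ≤ k
    · exact Or.inl ⟨h1, Or.inl h2⟩
    · exact Or.inr ⟨(h u v (by omega)).1 h1, Or.inl (by omega)⟩

theorem splice_lowEq (hF : IsPolygon F) (hc : cross F k = cross E k) :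
    LowEq (splice E F k) E k := by
  intro u v hu
  rw [KTen.mem_splice]
  constructor
  · rintro (⟨h1, -⟩ | ⟨h1, h2⟩)
    · exact h1
    · rcases adj_cases k (hF.adj u v h1) with h3 | h3 | ⟨a, b, h3⟩
      · omega
      · omega
      · rw [h3] at h1 ⊢
        have : ((a, b) : ℤ × ℤ) ∈ cross F k := h1
        rw [hc] at this
        exact this
  · intro h1
    exact Or.inl ⟨h1, Or.inl hu⟩

theorem lowU_iff (hE : IsPolygon E) (h2 : IsTwo E k) : KTen.LowU E k ↔ LowU E k := by
  constructor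
  · rintro ⟨F, hF, hc, hU⟩
    have hG := KTen.isPolygon_splice hE hF h2 hc
    have hEq := splice_lowEq (E := E) hF hc
    have h2G : IsTwo (splice E F k) k := by
      unfold IsTwo
      rw [hEq.cross le_rfl]
      exact h2
    exact ((unknotted_iff hG h2G).1 hU).1.congr hEq
  · rintro ⟨A, hA, hU⟩
    refine ⟨A, hA.1, hA.2.1.cross le_rfl, ?_⟩
    rw [splice_low_eq hA.2.1]
    exact hU

theorem passes_few (N : ℕ) : Passes (Few (N + 1)) (Few N) := by
  intro k a b r l hab hr hl hT hU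
  have hP : IsPolygon (ring (r ++ l)) := (ring_of hab hr hl).isPolygon
  have h2 := isTwo_ring_of hab hr hl
  obtain ⟨C, hC⟩ := exists_lowClose hP h2
  refine LC_of_close (typeClosed_few N) hab hr hl hC ?_
  generalize ring (r ++ l) = P at hP h2 hC hT hU
  obtain ⟨c, hc⟩ : ∃ c : ℤ, c - 1 - k = k := ⟨2 * k + 1, by ring⟩
  have hC' := hC.flip c
  rw [hc] at hC'
  have hP' := isPolygon_flipZ c hP
  have hT' : Few (N + 1) (mapE (flipZ c) P) := typeClosed_few _ _ _ (sameType_flipZ c P) hT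
  have h2' : IsTwo (mapE (flipZ c) P) k := by
    unfold IsTwo
    rw [cross_flipZ, hc]
    exact h2
  have hl' : ¬ KTen.LowU (mapE (flipZ c) P) k := by
    rw [lowU_iff hP' h2']
    intro h
    have h1 := h.flip c
    rw [mapE_flipZ_flipZ, hc] at h1
    exact hU h1
  have hcr : cross (mapE (flipZ c) C) k = cross (mapE (flipZ c) P) k := hC'.2.1.cross le_rfl
  have h2C : IsTwo (mapE (flipZ c) C) k := by
    unfold IsTwo
    rw [hcr]
    exact h2'
  have hlC : KTen.LowU (mapE (flipZ c) C) k := by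
    rw [lowU_iff hC'.1 h2C]
    obtain ⟨B, hB⟩ := exists_lowClose hC'.1 h2C
    refine ⟨B, hB, unknotted_of_two hB.1 ?_ ⟨k, ?_⟩⟩
    · intro j hj
      rcases le_or_gt j k with h1 | h1
      · rw [hB.2.1.cross h1] at hj ⊢
        exact hC'.2.2 j h1 hj
      · exact hB.2.2 j h1.le hj
    · rw [hB.2.1.cross le_rfl]
      exact two_nonempty h2C
  have h3 := KTen.few_splice hP' h2' hT' hl' hC'.1 hcr hlC
  rw [splice_upp_eq hC'.2.1] at h3
  exact typeClosed_few _ _ _ (sameType_flipZ c C).symm h3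

theorem few_le_ofReal {s : ℝ} (hs : 64 ≤ s) (N : ℕ) : ∃ D : ℝ, 0 ≤ D ∧ ∀ m,
    ZT (ENNReal.ofReal (s ^ 2)) (Few N) m ≤
      ENNReal.ofReal (D * (m : ℝ) ^ N * Zt (s ^ 2) UClass m) := by
  induction N with
  | zero =>
    refine ⟨1, zero_le_one, fun m => ?_⟩
    have e : (Few 0 : ES → Prop) = Unknotted := rfl
    rw [e, ZT_eq (by positivity), zt_uclass]
    simp
  | succ N ih =>
    obtain ⟨D, hD, h⟩ := ih
    exact main_step hs (typeClosed_few N).good (fun E hE hU => few_of_unknotted N hE hU)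
      (passes_few N) hD h

/-- **The upper bound for the polygons with at most `N` prime factors.** -/
theorem few_le {y : ℝ} (hy : 4096 ≤ y) (N : ℕ) : ∃ D : ℝ, 0 ≤ D ∧ ∀ m,
    Zt y (Few N) m ≤ D * (m : ℝ) ^ N * Zt y UClass m := by
  have hy0 : 0 ≤ y := by linarith
  have hs : 64 ≤ Real.sqrt y := by
    rw [show (64 : ℝ) = Real.sqrt 4096 by
      rw [show (4096 : ℝ) = 64 ^ 2 by norm_num]
      exact (Real.sqrt_sq (by norm_num)).symm]
    exact Real.sqrt_le_sqrt hy
  obtain ⟨D, hD, h⟩ := few_le_ofReal hs N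
  refine ⟨D, hD, fun m => ?_⟩
  have h1 := h m
  rw [sqrt_sq' hy0, ZT_eq hy0] at h1
  have h2 : 0 ≤ Zt y UClass m := KTen.zt_nonneg hy0 _ _
  exact (ENNReal.ofReal_le_ofReal_iff (by positivity)).1 h1

end Pool.Agent.KRing
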