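import Pool.Agent.KTube.Multi

/-! The sections of a polygon have an even number of edges (the proof is taken from
`LatticeTube.G1`, package LT-G1, by helper79). -/

set_option autoImplicit false

open Pool.Agent.LK

namespace Pool.Agent.KRing

open Pool.Agent.KTube (cross)

private theorem adj_cases {u v : P3} (h : Adj u v) (hk : u.2.2 < v.2.2) :
    v.1 = u.1 ∧ v.2.1 = u.2.1 ∧ v.2.2 = u.2.2 + 1 := by
  unfold Adj at h
  have h1 := abs_nonneg (u.1 - v.1)
  have h2 := abs_nonneg (u.2.1 - v.2.1)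
  have h3 : |u.2.2 - v.2.2| = v.2.2 - u.2.2 := by
    rw [abs_sub_comm, abs_of_pos (by omega)]
  rw [h3] at h
  have h4 : |u.1 - v.1| = 0 := by omega
  have h5 : |u.2.1 - v.2.1| = 0 := by omega
  rw [abs_eq_zero] at h4 h5
  refine ⟨by omega, by omega, by omega⟩

/-- an edge which crosses the height `k + 1/2` is vertical -/
private theorem crossing {E : Finset (Sym2 P3)} (hE : IsPolygon E) {k : ℤ} {u v : P3} (h : s(u, v) ∈ E)
    (hu : u.2.2 ≤ k) (hv : k < v.2.2) : (u.1, u.2.1) ∈ cross E k ∧ u.2.2 = k ∧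
      v = (u.1, u.2.1, k + 1) := by
  obtain ⟨h1, h2, h3⟩ := adj_cases (hE.adj u v h) (by omega)
  have hk : u.2.2 = k := by omega
  have hv' : v = (u.1, u.2.1, k + 1) := by
    refine Prod.ext h1 (Prod.ext h2 ?_)
    show v.2.2 = k + 1
    omega
  refine ⟨?_, hk, hv'⟩
  show s((u.1, u.2.1, k), (u.1, u.2.1, k + 1)) ∈ E
  rw [← hv']
  have hu' : (u.1, u.2.1, k) = u := Prod.ext rfl (Prod.ext rfl hk.symm)
  rw [hu']
  exact h

open Classical in
theorem even_cross {E : Finset (Sym2 P3)} (hE : IsPolygon E) (k : ℤ) : Even (cross E k).ncard := by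
  -- the lower half of the vertices
  set W : Finset P3 := (verts_finite E).toFinset.filter (fun u => u.2.2 ≤ k) with hW
  set V : Finset P3 := (verts_finite E).toFinset with hV
  have hmV : ∀ u, u ∈ V ↔ u ∈ verts E := fun u => by rw [hV, Set.Finite.mem_toFinset]
  have hmW : ∀ u, u ∈ W ↔ u ∈ verts E ∧ u.2.2 ≤ k := fun u => by
    rw [hW, Finset.mem_filter, Set.Finite.mem_toFinset]
  -- darts
  set D : Finset (P3 × P3) := (W ×ˢ V).filter (fun p => s(p.1, p.2) ∈ E) with hD
  have hmD : ∀ p : P3 × P3, p ∈ D ↔ p.1.2.2 ≤ k ∧ s(p.1, p.2) ∈ E := by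
    intro p
    rw [hD, Finset.mem_filter, Finset.mem_product, hmW, hmV]
    constructor
    · rintro ⟨⟨⟨_, h1⟩, _⟩, h2⟩
      exact ⟨h1, h2⟩
    · rintro ⟨h1, h2⟩
      exact ⟨⟨⟨left_mem_verts h2, h1⟩, right_mem_verts h2⟩, h2⟩
  have hcardD : D.card = 2 * W.card := by
    have h1 : D.card = ∑ u ∈ W, (D.filter fun p => p.1 = u).card := by
      apply Finset.card_eq_sum_card_fiberwise
      intro p hp
      rw [Finset.mem_coe, hmD] at hp
      rw [Finset.mem_coe, hmW]
      exact ⟨left_mem_verts hp.2, hp.1⟩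
    have h2 : ∀ u ∈ W, (D.filter fun p => p.1 = u).card = 2 := by
      intro u hu
      rw [hmW] at hu
      rw [← hE.deg u hu.1]
      have h3 : {w | s(u, w) ∈ E} = (D.filter fun p => p.1 = u).image Prod.snd := by
        ext w
        rw [Finset.mem_coe, Finset.mem_image]
        constructor
        · intro hw
          refine ⟨(u, w), ?_, rfl⟩
          rw [Finset.mem_filter, hmD]
          exact ⟨⟨hu.2, hw⟩, rfl⟩
        · rintro ⟨p, hp, rfl⟩
          rw [Finset.mem_filter, hmD] at hp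
          obtain ⟨⟨_, h4⟩, rfl⟩ := hp
          exact h4
      rw [h3, Set.ncard_coe_finset, Finset.card_image_of_injOn]
      rintro ⟨a, b⟩ hp ⟨a', b'⟩ hq h
      rw [Finset.mem_coe, Finset.mem_filter] at hp hq
      have e1 : a = u := hp.2
      have e2 : a' = u := hq.2
      have e3 : b = b' := h
      rw [e1, e2, e3]
    rw [h1, Finset.sum_congr rfl h2, Finset.sum_const, smul_eq_mul, mul_comm]
  -- the darts inside the lower half
  set D1 : Finset (P3 × P3) := D.filter (fun p => p.2.2.2 ≤ k) with hD1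
  set D2 : Finset (P3 × P3) := D.filter (fun p => ¬ p.2.2.2 ≤ k) with hD2
  have hsum : D1.card + D2.card = D.card := Finset.card_filter_add_card_filter_not _
  have hmD1 : ∀ p : P3 × P3, p ∈ D1 ↔ (p.1.2.2 ≤ k ∧ s(p.1, p.2) ∈ E) ∧ p.2.2.2 ≤ k := by
    intro p
    rw [hD1, Finset.mem_filter, hmD]
  have heven1 : Even D1.card := by
    rw [← ZMod.natCast_eq_zero_iff_even]
    have h1 : (D1.card : ZMod 2) = ∑ p ∈ D1, (1 : ZMod 2) := by simp
    rw [h1]
    refine Finset.sum_involution (fun p _ => (p.2, p.1)) ?_ ?_ ?_ ?_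
    · intro p _
      decide
    · intro p hp _ h2
      rw [hmD1] at hp
      have h3 : p.2 = p.1 := congrArg Prod.fst h2
      exact (hE.adj _ _ hp.1.2).ne h3.symm
    · intro p hp
      rw [hmD1] at hp ⊢
      refine ⟨⟨hp.2, ?_⟩, hp.1.1⟩
      rw [Sym2.eq_swap]
      exact hp.1.2
    · intro p _
      rfl
  have hcard2 : D2.card = (cross E k).ncard := by
    have h1 : cross E k = (D2.image fun p => (p.1.1, p.1.2.1) : Finset (ℤ × ℤ)) := by
      ext c
      rw [Finset.mem_coe, Finset.mem_image]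
      constructor
      · intro hc
        refine ⟨((c.1, c.2, k), (c.1, c.2, k + 1)), ?_, rfl⟩
        rw [hD2, Finset.mem_filter, hmD]
        refine ⟨⟨le_refl _, hc⟩, ?_⟩
        show ¬ k + 1 ≤ k
        omega
      · rintro ⟨p, hp, rfl⟩
        rw [hD2, Finset.mem_filter, hmD] at hp
        exact (crossing hE hp.1.2 hp.1.1 (by have := hp.2; omega)).1
    rw [h1, Set.ncard_coe_finset, Finset.card_image_of_injOn]
    rintro ⟨a, b⟩ hp ⟨a', b'⟩ hq h
    rw [Finset.mem_coe, hD2, Finset.mem_filter, hmD] at hp hq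
    obtain ⟨_, h3, h4⟩ := crossing hE hp.1.2 hp.1.1 (by have := hp.2; omega)
    obtain ⟨_, h3', h4'⟩ := crossing hE hq.1.2 hq.1.1 (by have := hq.2; omega)
    simp only [Prod.mk.injEq] at h
    have e1 : a = a' := Prod.ext h.1 (Prod.ext h.2 (h3.trans h3'.symm))
    have e2 : b = b' := by
      have h4a : b = (a.1, a.2.1, k + 1) := h4
      have h4b : b' = (a'.1, a'.2.1, k + 1) := h4'
      rw [h4a, h4b, e1]
    rw [e1, e2]
  rw [← hcard2]
  rw [Nat.even_iff] at heven1 ⊢
  omega


end Pool.Agent.KRing
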