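import Pool.Agent.KRing.YBlock
import Pool.Agent.KRing.Parity

/-! Classes of polygons closed under equality of types; lower halves whose closure is in a class. -/

set_option autoImplicit false

open Pool.Agent.LK

namespace Pool.Agent.KRing

open Pool.Agent.KTube
open Pool.Agent.LatticeTube (pedges mem_pedges mem_of_mem_pedges)

variable {E F : Finset (Sym2 P3)} {k k' : ℤ} {a b a' b' v w : ℤ × ℤ} {r l r' l' A B : List P3}
  {T T' : Finset (Sym2 P3) → Prop}

/-- The class `T` is closed under equality of types. -/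
def TypeClosed (T : Finset (Sym2 P3) → Prop) : Prop := ∀ E F, SameType E F → T E → T F

theorem typeClosed_unknotted : TypeClosed Unknotted := fun _ _ h hU => h.symm.unknotted hU

theorem typeClosed_type (K : Finset (Sym2 P3)) : TypeClosed (SameType K) :=
  fun _ _ h hK => hK.trans h

/-- The class `T` is closed under translations, and membership depends only on the lower part if the
upper part is unknotted. -/
structure GoodClass (T : Finset (Sym2 P3) → Prop) : Prop where
  shift : ∀ E t, T E → T (LK.shift t E)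
  half : ∀ E F k, IsPolygon E → IsPolygon F → IsTwo E k → LowEq E F k → UppU E k → UppU F k →
    T E → T F

theorem TypeClosed.good (hT : TypeClosed T) : GoodClass T := by
  refine ⟨fun E t h => hT _ _ (sameType_shift t E) h, ?_⟩
  intro E F k hE hF h2 hEF hU hU' h
  have h2' : IsTwo F k := by
    unfold IsTwo
    rw [← hEF.cross le_rfl]
    exact h2
  obtain ⟨C, hC⟩ := exists_lowClose hE h2
  have hC' : LowClose F k C :=
    ⟨hC.1, fun u v hu => (hC.2.1 u v hu).trans (hEF u v hu), hC.2.2⟩
  obtain ⟨B, hB, hBU⟩ := hU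
  obtain ⟨B', hB', hBU'⟩ := hU'
  exact hT _ _ (((split hE h2 hC hB).2.2.1 hBU).symm.trans ((split hF h2' hC' hB').2.2.1 hBU')) h

/-- The lower half `l` is of class `T`. -/
def LC (T : Finset (Sym2 P3) → Prop) (k : ℤ) (a b : ℤ × ℤ) (l : List P3) : Prop :=
  Lower k a b l ∧ ∃ r, UU k a b r ∧ T (ring (r ++ l))

theorem LC.ne (h : LC T k a b l) : a ≠ b := by
  obtain ⟨-, r, hr, -⟩ := h
  exact hr.1

theorem LC.class (hT : GoodClass T) (h : LC T k a b l) (hr : UU k a b r) : T (ring (r ++ l)) := by
  obtain ⟨hl, r', hr', hTC⟩ := h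
  exact hT.half _ _ k (ring_of hr'.1 hr'.2.1 hl).isPolygon (ring_of hr.1 hr.2.1 hl).isPolygon
    (isTwo_ring_of hr'.1 hr'.2.1 hl) (lowEq_ring hr'.2.1 hr.2.1 hl) (hr'.uppU hl) (hr.uppU hl) hTC

theorem LC.shift (hT : GoodClass T) (h : LC T k a b l) (t : P3) :
    LC T (k + t.2.2) (csh t a) (csh t b) (l.map (· + t)) := by
  obtain ⟨hl, r', hr', hTC⟩ := h
  refine ⟨hl.shift t, _, hr'.shift t, ?_⟩
  rw [← List.map_append, ring_map]
  exact hT.shift _ _ hTC

/-- A block with two strands below an unknotted upper half is an unknotted upper half. -/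
theorem Block.upper_UU (hb : Block k k' a b a' b' A B) (hab : a ≠ b) (hr : UU k' a' b' r)
    (hl : Lower k a b l)
    (hthin : ∀ j, k < j → j < k' → {c | leg c j ∈ pedges A ∨ leg c j ∈ pedges B}.ncard = 2) :
    UU k a b (A ++ (r ++ B)) := by
  refine ⟨hab, hb.upper hr.2.1, l, hl, hb.uppU hab hr.1 hr.2.1 hl hthin ?_⟩
  rw [hb.ring_rotate hr.2.1 hl]
  exact hr.uppU (hb.lower hl)

theorem Block.class (hT : GoodClass T) (hb : Block k k' a b a' b' A B) (hr : UU k' a' b' r)
    (hl : LC T k a b l)
    (hthin : ∀ j, k < j → j < k' → {c | leg c j ∈ pedges A ∨ leg c j ∈ pedges B}.ncard = 2) :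
    T (ring ((A ++ (r ++ B)) ++ l)) :=
  hl.class hT (hb.upper_UU hl.ne hr hl.1 hthin)

theorem yring_class (hT : GoodClass T) {x : List Letter} {N n : ℕ} (hx : x ∈ F0 v w N n)
    (hr : UU (k + 1 + N) a (a + w) r) (hl : LC T k a (a + v) l) :
    T (yring a k v N x r l) :=
  (yblock hx a k).class hT hr hl fun _ hj hj' => yblock_thin hx a k hj hj'

/-! ### Caps -/

/-- The smallest lower half. -/
def capL : List P3 := [(1, 0, 0), (0, 0, 0)]

/-- The smallest upper half. -/
def capU : List P3 := [(0, 0, 1), (1, 0, 1)]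

theorem lower_capL : Lower 0 (0, 0) (1, 0) capL := by
  refine ⟨by simp [capL], ?_, rfl, rfl, ?_⟩
  · simp [capL, Adj]
  · intro u hu
    simp only [capL, List.mem_cons, List.not_mem_nil, or_false] at hu
    rcases hu with rfl | rfl <;> simp

theorem upper_capU : Upper 0 (0, 0) (1, 0) capU := by
  refine ⟨by simp [capU], ?_, rfl, rfl, ?_⟩
  · simp [capU, Adj]
  · intro u hu
    simp only [capU, List.mem_cons, List.not_mem_nil, or_false] at hu
    rcases hu with rfl | rfl <;> simp

theorem unknotted_caps : Unknotted (ring (capU ++ capL)) := by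
  have hne : ((0, 0) : ℤ × ℤ) ≠ (1, 0) := by simp
  have hP := (ring_of hne upper_capU lower_capL).isPolygon
  have h0 := cross_ring_of upper_capU lower_capL
  refine unknotted_of_two hP ?_ ⟨0, by rw [h0]; exact ⟨(0, 0), by simp⟩⟩
  intro j hj
  rcases lt_trichotomy j 0 with h | rfl | h
  · exfalso
    obtain ⟨c, hc⟩ := hj
    rw [cross_ring_low upper_capU lower_capL h] at hc
    have := (mem_of_mem_pedges hc).1
    simp only [capL, List.mem_cons, Prod.mk.injEq, List.not_mem_nil, or_false] at this
    omega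
  · rw [h0]; exact Set.ncard_pair hne
  · exfalso
    obtain ⟨c, hc⟩ := hj
    rw [cross_ring_upp upper_capU lower_capL h] at hc
    have := (mem_of_mem_pedges hc).2
    simp only [capU, List.mem_cons, Prod.mk.injEq, List.not_mem_nil, or_false] at this
    omega

theorem UU_capU : UU 0 (0, 0) (1, 0) capU := by
  have hne : ((0, 0) : ℤ × ℤ) ≠ (1, 0) := by simp
  have hP := (ring_of hne upper_capU lower_capL).isPolygon
  exact ⟨hne, upper_capU, capL, lower_capL, ((unknotted_iff hP
    (isTwo_ring_of hne upper_capU lower_capL)).1 unknotted_caps).2⟩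

theorem LC_capL (hU : ∀ E, IsPolygon E → Unknotted E → T E) :
    LC T 0 (0, 0) (1, 0) capL := by
  have hne : ((0, 0) : ℤ × ℤ) ≠ (1, 0) := by simp
  have hP := (ring_of hne upper_capU lower_capL).isPolygon
  exact ⟨lower_capL, capU, UU_capU, hU _ hP unknotted_caps⟩

theorem lspan_capL : lspan capL = 0 := by
  unfold lspan
  have : planes capL = ∅ := by
    rw [Set.eq_empty_iff_forall_notMem]
    rintro j ⟨c, hc⟩
    have := mem_of_mem_pedges hc
    simp only [capL, List.mem_cons, Prod.mk.injEq, List.not_mem_nil, or_false] at this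
    omega
  rw [this, Set.ncard_empty]

theorem lspan_capU : lspan capU = 0 := by
  unfold lspan
  have : planes capU = ∅ := by
    rw [Set.eq_empty_iff_forall_notMem]
    rintro j ⟨c, hc⟩
    have := mem_of_mem_pedges hc
    simp only [capU, List.mem_cons, Prod.mk.injEq, List.not_mem_nil, or_false] at this
    omega
  rw [this, Set.ncard_empty]

end Pool.Agent.KRing
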