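import Pool.Agent.KTen.Ratio
import Pool.Agent.KTen.Words

/-! Ratios of the partition functions of unknotted polygons for the tension `t ^ 24`,
`t ^ 2 ≥ 2`, that is from `4096` on. -/

set_option autoImplicit false

open Pool.Agent.LK Set Filter Topology

namespace Pool.Agent.KRing

open Pool.Agent.KTube
open Pool.Agent.KTen (Zt NSet ES numStr numTwo hor ver IsStr NPoly)

variable {t : ℝ}

theorem vert_eq (E : ES) : Pool.Agent.LatticeTube.vert E = ver E := by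
  classical
  unfold Pool.Agent.LatticeTube.vert ver
  rw [← Set.ncard_coe_finset]
  congr 1
  ext e
  simp only [Set.mem_ofPred_eq, Finset.coe_filter]

theorem zt_sum (y : ℝ) (C : ES → Prop) (n : ℕ) :
    Zt y C n = ∑ E ∈ (KTen.nset_finite C n).toFinset, y ^ span E :=
  finsum_mem_eq_finite_toFinset_sum _ (KTen.nset_finite C n)

/-- The constants of the word bound. -/
theorem exists_delta (ht : 2 ≤ t ^ 2) (ht0 : 0 < t) : ∃ δ : ℝ, 0 < δ ∧
    (t ^ 8 + 3) * ((1 + δ) / t ^ 9) + 5 * t ^ 8 * ((1 + δ) / t ^ 9) ^ 2 < 1 := by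
  have h1 : 1 < t := by nlinarith
  have hlim : Tendsto (fun δ : ℝ => (t ^ 8 + 3) * ((1 + δ) / t ^ 9) +
      5 * t ^ 8 * ((1 + δ) / t ^ 9) ^ 2) (𝓝 0)
      (𝓝 ((t ^ 8 + 3) * ((1 + 0) / t ^ 9) + 5 * t ^ 8 * ((1 + 0) / t ^ 9) ^ 2)) := by
    have hc : Continuous fun δ : ℝ => (t ^ 8 + 3) * ((1 + δ) / t ^ 9) +
      5 * t ^ 8 * ((1 + δ) / t ^ 9) ^ 2 := by fun_prop
    exact hc.tendsto 0
  have hlt : (t ^ 8 + 3) * ((1 + 0) / t ^ 9) + 5 * t ^ 8 * ((1 + 0) / t ^ 9) ^ 2 < 1 := by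
    rw [add_zero]
    have e : (t ^ 8 + 3) * (1 / t ^ 9) + 5 * t ^ 8 * (1 / t ^ 9) ^ 2 =
        (t ^ 9 + 3 * t + 5) / t ^ 10 := by
      field_simp
    rw [e, div_lt_one (by positivity)]
    -- `t ^ 9 + 3 t + 5 < t ^ 10`
    have h2 : (1414 / 1000 : ℝ) ≤ t := by nlinarith
    have h8 : (2 : ℝ) ^ 4 ≤ (t ^ 2) ^ 4 := pow_le_pow_left₀ (by norm_num) ht 4
    have h9 : t ^ 10 - t ^ 9 = (t ^ 2) ^ 4 * (t * (t - 1)) := by ring
    have h10 : 0 ≤ t * (t - 1) := by nlinarith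
    have h11 : (2 : ℝ) ^ 4 * (t * (t - 1)) ≤ (t ^ 2) ^ 4 * (t * (t - 1)) :=
      mul_le_mul_of_nonneg_right h8 h10
    nlinarith
  have h3 := (hlim.eventually_lt_const hlt)
  have h4 : ∀ᶠ δ : ℝ in 𝓝[>] 0, (t ^ 8 + 3) * ((1 + δ) / t ^ 9) +
      5 * t ^ 8 * ((1 + δ) / t ^ 9) ^ 2 < 1 := h3.filter_mono nhdsWithin_le_nhds
  obtain ⟨δ, h5, h6⟩ := (h4.and self_mem_nhdsWithin).exists
  exact ⟨δ, h6, h5⟩

/-- **Few polygons have few straight levels.** -/
theorem few_str (ht : 2 ≤ t ^ 2) (ht0 : 0 < t) : ∃ S δ : ℝ, 0 < δ ∧ 0 ≤ S ∧ ∀ n : ℕ,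
    Zt (t ^ 24) (fun E => 8 * numStr E ≤ E.card) n ≤ S * (t ^ 12 / (1 + δ)) ^ n := by
  classical
  obtain ⟨δ, hδ, hw⟩ := exists_delta ht ht0
  have h1 : 1 < t := by nlinarith
  set z : ℝ := (1 + δ) / t ^ 9 with hz
  have hz0 : 0 < z := by positivity
  have hsum := KTen.words_Z3 (x := t ^ 8) (z := z) (one_le_pow₀ h1.le) hz0 hw
  set S0 : ℝ := ∑' E : NPoly, z ^ E.1.card * (t ^ 8) ^ LatticeTube.vert E.1 with hS0
  refine ⟨t ^ 2 * S0, δ, hδ, ?_, fun n => ?_⟩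
  · have : 0 ≤ S0 := tsum_nonneg fun E => by positivity
    positivity
  rw [zt_sum]
  set X := (KTen.nset_finite (fun E => 8 * numStr E ≤ E.card) n).toFinset with hX
  have hmem : ∀ E ∈ X, IsPolygon E ∧ 8 * numStr E ≤ E.card ∧ Normed E ∧ E.card = n := by
    intro E hE
    rw [hX, Set.Finite.mem_toFinset] at hE
    exact hE
  have hle : ∀ E ∈ X, (t ^ 24) ^ span E ≤ t ^ 2 * (t ^ 12 / (1 + δ)) ^ n *
      (z ^ E.card * (t ^ 8) ^ LatticeTube.vert E) := by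
    intro E hE
    obtain ⟨hP, h8, -, hc⟩ := hmem E hE
    have a1 := KTen.numStr_ge hP
    have a2 := KTen.two_span_le hP
    have a3 := KTen.card_eq hP
    have a4 : 24 * span E ≤ 2 + 3 * n + 8 * ver E := by omega
    rw [vert_eq, hc, ← pow_mul, ← pow_mul]
    have e1 : (t ^ 12 / (1 + δ)) ^ n * z ^ n = t ^ (3 * n) := by
      rw [← mul_pow, hz, pow_mul]
      congr 1
      field_simp
    calc t ^ (24 * span E) ≤ t ^ (2 + 3 * n + 8 * ver E) := pow_le_pow_right₀ h1.le a4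
      _ = t ^ 2 * ((t ^ 12 / (1 + δ)) ^ n * z ^ n) * t ^ (8 * ver E) := by
          rw [e1, pow_add, pow_add]
      _ = _ := by ring
  refine (Finset.sum_le_sum hle).trans ?_
  rw [← Finset.mul_sum]
  have hS : ∑ E ∈ X, z ^ E.card * (t ^ 8) ^ LatticeTube.vert E ≤ S0 := by
    have h2 : ∑ E ∈ X.attach, z ^ E.1.card * (t ^ 8) ^ LatticeTube.vert E.1 ≤ S0 := by
      have hinj : Function.Injective (fun E : {x // x ∈ X} =>
          (⟨E.1, (hmem E.1 E.2).1, (hmem E.1 E.2).2.2.1⟩ : NPoly)) := by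
        intro E F h
        exact Subtype.ext (congrArg (fun x : NPoly => x.1) h)
      have h3 := hsum.sum_le_tsum (X.attach.map ⟨_, hinj⟩) fun E _ => by positivity
      rwa [Finset.sum_map] at h3
    rwa [Finset.sum_attach X (fun E => z ^ E.card * (t ^ 8) ^ LatticeTube.vert E)] at h2
  calc t ^ 2 * (t ^ 12 / (1 + δ)) ^ n * ∑ E ∈ X, z ^ E.card * (t ^ 8) ^ LatticeTube.vert E
      ≤ t ^ 2 * (t ^ 12 / (1 + δ)) ^ n * S0 := mul_le_mul_of_nonneg_left hS (by positivity)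
    _ = _ := by ring

/-! ### The same for the tension `y` -/

variable {y : ℝ}

theorem exists_root (hy : 4096 ≤ y) : ∃ t : ℝ, 0 < t ∧ 2 ≤ t ^ 2 ∧ t ^ 24 = y := by
  have hy0 : 0 ≤ y := by linarith
  refine ⟨y ^ (1 / 24 : ℝ), by positivity, ?_, ?_⟩
  · have h1 : (y ^ (1 / 24 : ℝ)) ^ 2 = y ^ (1 / 12 : ℝ) := by
      rw [← Real.rpow_natCast, ← Real.rpow_mul hy0]
      norm_num
    rw [h1]
    have h2 : (2 : ℝ) = (4096 : ℝ) ^ (1 / 12 : ℝ) := by
      rw [show (4096 : ℝ) = 2 ^ (12 : ℝ) by norm_num, ← Real.rpow_mul (by norm_num)]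
      norm_num
    rw [h2]
    exact Real.rpow_le_rpow (by norm_num) hy (by norm_num)
  · rw [← Real.rpow_natCast, ← Real.rpow_mul hy0]
    norm_num

theorem sqrt_sq' (hy : 0 ≤ y) : Real.sqrt y ^ 2 = y := Real.sq_sqrt hy

theorem one_le_sqrt' (hy : 1 ≤ y) : 1 ≤ Real.sqrt y := by
  rw [show (1 : ℝ) = Real.sqrt 1 by simp]
  exact Real.sqrt_le_sqrt hy

theorem ratio_ge (hy : 1 ≤ y) (n : ℕ) : y * Zt y UClass n ≤ Zt y UClass (n + 2) := by
  have h := KTen.ratio_down (one_le_sqrt' hy) n 1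
  rwa [sqrt_sq' (by linarith), pow_one, mul_one] at h

theorem u_ge (hy : 1 ≤ y) {n : ℕ} (hn : Even n) (h4 : 4 ≤ n) :
    y ^ (n / 2 - 1) ≤ Zt y UClass n := by
  have h := KTen.u_ge (one_le_sqrt' hy) hn h4
  rw [sqrt_sq' (by linarith)] at h
  refine le_trans (le_of_eq ?_) h
  obtain ⟨m, rfl⟩ := hn
  have e1 : (m + m) / 2 - 1 = m - 1 := by omega
  have e2 : m + m - 2 = 2 * (m - 1) := by omega
  rw [e1, e2, pow_mul, sqrt_sq' (by linarith)]

/-- Few polygons have few straight levels. -/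
theorem bad_tendsto (hy : 4096 ≤ y) (c : ℝ) (d : ℕ) : ∃ n0 : ℕ, ∀ n ≥ n0, Even n →
    c * ((n : ℝ) + d) * Zt y (fun E => 8 * numStr E ≤ E.card) n ≤ Zt y UClass n := by
  obtain ⟨t, ht0, ht2, rfl⟩ := exists_root hy
  obtain ⟨S, δ, hδ, hS, hb⟩ := few_str ht2 ht0
  have h1 : 1 < t := by nlinarith
  have hlim : Tendsto (fun n : ℕ => |c| * ((n : ℝ) + d) * (S * t ^ 24 * (1 / (1 + δ)) ^ n)) atTop
      (𝓝 0) := by
    have hr : 1 / (1 + δ) < 1 := by rw [div_lt_one (by linarith)]; linarith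
    have hr0 : 0 ≤ 1 / (1 + δ) := by positivity
    have h2 := tendsto_self_mul_const_pow_of_lt_one hr0 hr
    have h3 := tendsto_pow_atTop_nhds_zero_of_lt_one hr0 hr
    have h4 := ((h2.const_mul (|c| * S * t ^ 24)).add (h3.const_mul (|c| * S * t ^ 24 * d)))
    rw [mul_zero, mul_zero, add_zero] at h4
    refine h4.congr fun n => ?_
    ring
  have h5 := hlim.eventually_le_const (show (0 : ℝ) < 1 by norm_num)
  obtain ⟨n0, hn0⟩ := eventually_atTop.1 h5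
  refine ⟨max n0 4, fun n hn hev => ?_⟩
  have h6 := hn0 n (le_trans (le_max_left _ _) hn)
  have h4n : 4 ≤ n := le_trans (le_max_right _ _) hn
  have h7 := KTen.u_ge (x := t ^ 12) (one_le_pow₀ h1.le) hev h4n
  have e24 : (t ^ 12) ^ 2 = t ^ 24 := by rw [← pow_mul]
  rw [e24, ← pow_mul] at h7
  refine le_trans ?_ h7
  have h8 := hb n
  have h9 : (0 : ℝ) ≤ Zt (t ^ 24) (fun E => 8 * numStr E ≤ E.card) n :=
    KTen.zt_nonneg (by positivity) _ _
  calc c * ((n : ℝ) + d) * Zt (t ^ 24) (fun E => 8 * numStr E ≤ E.card) n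
      ≤ |c| * ((n : ℝ) + d) * Zt (t ^ 24) (fun E => 8 * numStr E ≤ E.card) n :=
        mul_le_mul_of_nonneg_right (mul_le_mul_of_nonneg_right (le_abs_self c) (by positivity)) h9
    _ ≤ |c| * ((n : ℝ) + d) * (S * (t ^ 12 / (1 + δ)) ^ n) :=
        mul_le_mul_of_nonneg_left h8 (by positivity)
    _ = (|c| * ((n : ℝ) + d) * (S * t ^ 24 * (1 / (1 + δ)) ^ n)) * t ^ (12 * (n - 2)) := by
        have e : t ^ 24 * t ^ (12 * (n - 2)) = (t ^ 12) ^ n := by
          rw [← pow_add, ← pow_mul]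
          congr 1
          omega
        rw [div_pow, ← e, div_pow, one_pow]
        ring
    _ ≤ 1 * t ^ (12 * (n - 2)) := mul_le_mul_of_nonneg_right h6 (by positivity)
    _ = t ^ (12 * (n - 2)) := one_mul _

/-- **The ratio bound.** -/
theorem ratio_le (hy : 4096 ≤ y) : ∃ n0 : ℕ, ∀ n ≥ n0,
    Zt y UClass (n + 2) ≤ 4 * y * Zt y UClass n := by
  obtain ⟨n0, hn0⟩ := bad_tendsto hy 1 1
  have hy1 : 1 ≤ y := by linarith
  have hy0 : 0 ≤ y := by linarith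
  refine ⟨n0, fun n hn => ?_⟩
  have hU0 : 0 ≤ Zt y UClass n := KTen.zt_nonneg hy0 _ _
  by_cases hev : Even n
  swap
  · rw [KTen.u_odd (n := n + 2) (by
      intro h
      apply hev
      have := (Nat.even_add (m := n) (n := 2)).1 h
      exact this.2 (by decide))]
    positivity
  have hb := hn0 (n + 2) (by omega) (hev.add (by decide))
  set M : ℕ := (n + 2) / 8 + 1 with hM
  have hM' : (n : ℝ) + 3 ≤ 8 * M := by
    have : n + 3 ≤ 8 * M := by omega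
    exact_mod_cast this
  have hsplit := KTen.zt_le_add hy0 UClass (fun E => UClass E ∧ M ≤ numStr E) (n + 2)
  have hbad : Zt y (fun F => UClass F ∧ ¬ (UClass F ∧ M ≤ numStr F)) (n + 2) ≤
      Zt y (fun E => 8 * numStr E ≤ E.card) (n + 2) := by
    rw [zt_sum, zt_sum]
    refine Finset.sum_le_sum_of_subset_of_nonneg ?_ fun E _ _ => by positivity
    intro E hE
    rw [Set.Finite.mem_toFinset] at hE ⊢
    obtain ⟨h1, ⟨h2, h3⟩, h4, h5⟩ := hE
    refine ⟨h1, ?_, h4, h5⟩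
    have h6 : numStr E < M := by
      by_contra h
      exact h3 ⟨h2, not_lt.1 h⟩
    show 8 * numStr E ≤ E.card
    rw [h5]
    omega
  have hcol := KTen.collapse_le (one_le_sqrt' hy1) (n := n) (M := M)
  rw [sqrt_sq' hy0] at hcol
  set Zg := Zt y (fun E => UClass E ∧ M ≤ numStr E) (n + 2) with hZg
  set Zb := Zt y (fun E => 8 * numStr E ≤ E.card) (n + 2) with hZb
  set U := Zt y UClass n with hU
  set U' := Zt y UClass (n + 2) with hU'
  have hg0 : 0 ≤ Zg := KTen.zt_nonneg hy0 _ _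
  have hb0 : 0 ≤ Zb := KTen.zt_nonneg hy0 _ _
  have hn3 : (0 : ℝ) < (n : ℝ) + 3 := by positivity
  -- `(n + 3) Zg ≤ 4 n y U`
  have e1 : ((n : ℝ) + 3) * Zg ≤ 4 * n * (y * U) := by
    calc ((n : ℝ) + 3) * Zg ≤ 8 * M * Zg := mul_le_mul_of_nonneg_right hM' hg0
      _ = 8 * (M * Zg) := by ring
      _ ≤ 8 * (y * ((n : ℝ) / 2 * U)) := mul_le_mul_of_nonneg_left hcol (by norm_num)
      _ = 4 * n * (y * U) := by ring
  have e2 : ((n : ℝ) + 3) * Zb ≤ U' := by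
    have : (1 : ℝ) * (((n + 2 : ℕ) : ℝ) + ((1 : ℕ) : ℝ)) = (n : ℝ) + 3 := by push_cast; ring
    rwa [this] at hb
  have e3 : U' ≤ Zg + Zb := hsplit.trans (add_le_add le_rfl hbad)
  -- `(n + 3) U' ≤ 4 n y U + U'`
  have e4 : ((n : ℝ) + 2) * U' ≤ 4 * n * (y * U) := by
    have := mul_le_mul_of_nonneg_left e3 hn3.le
    nlinarith
  have e5 : ((n : ℝ) + 2) * U' ≤ ((n : ℝ) + 2) * (4 * y * U) := by
    have : (0 : ℝ) ≤ y * U := by positivity
    nlinarith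
  exact le_of_mul_le_mul_left e5 (by positivity)

/-- **At least one half of the unknotted polygons have many straight levels.** -/
theorem str_half (hy : 4096 ≤ y) : ∃ n0 : ℕ, ∀ n ≥ n0,
    Zt y UClass n ≤ 2 * Zt y (fun E => UClass E ∧ n < 8 * numStr E) n := by
  obtain ⟨n0, hn0⟩ := bad_tendsto hy 2 1
  have hy0 : 0 ≤ y := by linarith
  refine ⟨n0, fun n hn => ?_⟩
  by_cases hev : Even n
  swap
  · rw [KTen.u_odd hev]
    have : 0 ≤ Zt y (fun E => UClass E ∧ n < 8 * numStr E) n := KTen.zt_nonneg hy0 _ _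
    linarith
  have hb := hn0 n hn hev
  have hsplit := KTen.zt_le_add hy0 UClass (fun E => UClass E ∧ n < 8 * numStr E) n
  have hbad : Zt y (fun F => UClass F ∧ ¬ (UClass F ∧ n < 8 * numStr F)) n ≤
      Zt y (fun E => 8 * numStr E ≤ E.card) n := by
    rw [zt_sum, zt_sum]
    refine Finset.sum_le_sum_of_subset_of_nonneg ?_ fun E _ _ => by positivity
    intro E hE
    rw [Set.Finite.mem_toFinset] at hE ⊢
    obtain ⟨h1, ⟨h2, h3⟩, h4, h5⟩ := hE
    refine ⟨h1, ?_, h4, h5⟩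
    show 8 * numStr E ≤ E.card
    rw [h5]
    by_contra h
    exact h3 ⟨h2, by omega⟩
  have hb0 : 0 ≤ Zt y (fun E => 8 * numStr E ≤ E.card) n := KTen.zt_nonneg hy0 _ _
  have h0 : (0 : ℝ) ≤ n := by positivity
  push_cast at hb
  nlinarith

end Pool.Agent.KRing
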