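import Pool.Agent.KRing.Main
import Pool.Agent.KTen.Many

/-! The exact exponent: the lower bound for every single knot type. -/

set_option autoImplicit false

open Pool.Agent.LK Set Filter Topology

namespace Pool.Agent.KRing

open Pool.Agent.KTube
open Pool.Agent.KTen (Zt NSet ES Few numTwo numStr IsStr Tower Cong numU)

/-- **The lower bound for a type with `N` factors.** -/
theorem tower_lower {y : ℝ} (hy : 4096 ≤ y) {K R : ES} {N : ℕ} (hR : Tower N R)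
    (hKR : SameType K R) : ∃ δ : ℝ, 0 < δ ∧ ∃ n0 : ℕ, ∀ n ≥ n0,
      δ * (n : ℝ) ^ N * Zt y UClass n ≤ Zt y (KClass K) n := by
  have hy0 : 0 ≤ y := by linarith
  have hy1 : 1 ≤ y := by linarith
  obtain ⟨x, hx1, rfl⟩ : ∃ x : ℝ, 1 ≤ x ∧ y = x ^ 2 :=
    ⟨Real.sqrt y, one_le_sqrt' hy1, (Real.sq_sqrt hy0).symm⟩
  obtain ⟨c, D, ⟨c', hc⟩, hD, hmain⟩ := hR.count hx1
  obtain ⟨A, hA, hup⟩ := ratio_up hy
  obtain ⟨n1, hn1⟩ := two_half hy
  set B : ℝ := (4 * x ^ 2) ^ c' with hB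
  have hB0 : 0 < B := by positivity
  have hx0 : 0 < x := by linarith
  set Q : ℝ := (32 * ((N : ℝ) + 1)) ^ N with hQ
  have hQ0 : 0 < Q := by positivity
  have hA0 : 0 < A := by linarith
  refine ⟨1 / (Q * A * B * 2 * D), by positivity, n1 + 4 + c + c + 16 * (N + 1), ?_⟩
  intro m hm
  by_cases hev : Even m
  swap
  · rw [KTen.u_odd hev, mul_zero]
    exact KTen.zt_nonneg hy0 _ _
  obtain ⟨n, rfl⟩ : ∃ n, m = n + c := ⟨m - c, by omega⟩
  have hevn : Even n := by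
    rw [Nat.even_add] at hev
    exact hev.2 ⟨c', hc⟩
  set M : ℕ := n / (8 * (N + 1)) with hM
  have hNM : N * M ≤ n / 8 := by
    rw [Nat.le_div_iff_mul_le (by norm_num)]
    have h1 : n / (8 * (N + 1)) * (8 * (N + 1)) ≤ n := Nat.div_mul_le_self _ _
    calc N * M * 8 = M * (8 * N) := by ring
      _ ≤ M * (8 * (N + 1)) := Nat.mul_le_mul_left _ (by omega)
      _ ≤ n := h1
  have hMn : n + c ≤ 32 * (N + 1) * M := by
    have h1 : n < 8 * (N + 1) * (n / (8 * (N + 1)) + 1) := Nat.lt_mul_div_succ n (by positivity)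
    rw [← hM] at h1
    have h2 : 8 * (N + 1) * (M + 1) = 8 * (N + 1) * M + 8 * (N + 1) := by ring
    have h3 : 32 * (N + 1) * M = 4 * (8 * (N + 1) * M) := by ring
    omega
  have h1 := hn1 n (by omega)
  have h2 := hmain n 0 M
  have h3 := hup n hevn (by omega) c'
  have e3 : n + 2 * c' = n + c := by omega
  rw [e3] at h3
  have h4 : Zt (x ^ 2) (fun E => (IsPolygon E ∧ Cong R E) ∧ 0 ≤ numU E) (n + c) ≤
      Zt (x ^ 2) (KClass K) (n + c) :=
    KTen.zt_mono hy0 (fun E _ h6 => ⟨h6.1.1, hKR.trans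
      (KTen.Cong.sameType hR.poly h6.1.1 h6.1.2)⟩) _
  have h5 : Zt (x ^ 2) (fun E => UClass E ∧ n / 8 ≤ numTwo E) n ≤
      Zt (x ^ 2) (fun E => UClass E ∧ 0 + N * M ≤ numTwo E) n :=
    KTen.zt_mono hy0 (fun E _ h6 => ⟨h6.1, by omega⟩) _
  have h6 : ((n + c : ℕ) : ℝ) ^ N ≤ Q * (M : ℝ) ^ N := by
    rw [hQ, ← mul_pow]
    refine pow_le_pow_left₀ (Nat.cast_nonneg _) ?_ N
    exact_mod_cast hMn
  set U := Zt (x ^ 2) UClass n
  set U' := Zt (x ^ 2) UClass (n + c)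
  set V := Zt (x ^ 2) (fun E => UClass E ∧ 0 + N * M ≤ numTwo E) n
  set W := Zt (x ^ 2) (KClass K) (n + c)
  have hV0 : 0 ≤ V := KTen.zt_nonneg hy0 _ _
  have hU0 : 0 ≤ U := KTen.zt_nonneg hy0 _ _
  have hU0' : 0 ≤ U' := KTen.zt_nonneg hy0 _ _
  have hq : (0 : ℝ) ≤ (M : ℝ) ^ N := by positivity
  have h7 : (M : ℝ) ^ N * V ≤ D * W := h2.trans (mul_le_mul_of_nonneg_left h4 hD.le)
  have h8 : U ≤ 2 * V := h1.trans (mul_le_mul_of_nonneg_left h5 (by norm_num))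
  have h10 : 0 < Q * A * B * 2 * D := by positivity
  rw [one_div, mul_assoc, inv_mul_le_iff₀ h10]
  calc ((n + c : ℕ) : ℝ) ^ N * U' ≤ Q * (M : ℝ) ^ N * U' := mul_le_mul_of_nonneg_right h6 hU0'
    _ ≤ Q * (M : ℝ) ^ N * (A * B * U) :=
        mul_le_mul_of_nonneg_left h3 (mul_nonneg hQ0.le hq)
    _ ≤ Q * (M : ℝ) ^ N * (A * B * (2 * V)) :=
        mul_le_mul_of_nonneg_left (mul_le_mul_of_nonneg_left h8 (by positivity))
          (mul_nonneg hQ0.le hq)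
    _ = Q * A * B * 2 * ((M : ℝ) ^ N * V) := by ring
    _ ≤ Q * A * B * 2 * (D * W) := mul_le_mul_of_nonneg_left h7 (by positivity)
    _ = Q * A * B * 2 * D * W := by ring

end Pool.Agent.KRing
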