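import Pool.Agent.KRing.Block

/-! The two-strand block with one straight strand that belongs to a word which avoids the origin;
the span of composed polygons. -/

set_option autoImplicit false

open Pool.Agent.LK

namespace Pool.Agent.KRing

open Pool.Agent.KTube
open Pool.Agent.LatticeTube (pedges mem_pedges mem_of_mem_pedges)

variable {E F : Finset (Sym2 P3)} {k k' : ℤ} {a b a' b' v w : ℤ × ℤ} {r l r' l' A B : List P3}

/-! ### Words as walks -/

/-- The step of a letter: a break is a step up. -/
def up : Letter → P3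
  | none => (0, 0, 1)
  | some d => ((dv d).1, (dv d).2, 0)

theorem sum_up (x : List Letter) : (x.map up).sum = ((disp x).1, (disp x).2, (brk x : ℤ)) := by
  induction x with
  | nil => rfl
  | cons c x ih =>
    rw [List.map_cons, List.sum_cons, ih]
    cases c with
    | none =>
      refine Prod.ext ?_ (Prod.ext ?_ ?_) <;> simp [up, add_comm]
    | some d =>
      refine Prod.ext ?_ (Prod.ext ?_ ?_) <;> simp [up, lv]

theorem up_isStep (c : Letter) : IsStep (up c) := by
  cases c with
  | none => simp [up, IsStep]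
  | some d => fin_cases d <;> simp [up, IsStep, dv]

theorem up_injective : Function.Injective up := by
  intro c c' h
  cases c with
  | none =>
    cases c' with
    | none => rfl
    | some d => simp [up] at h
  | some d =>
    cases c' with
    | none => simp [up] at h
    | some d' => fin_cases d <;> fin_cases d' <;> simp_all [up, dv]

theorem none_notMem {x : List Letter} (h : brk x = 0) : none ∉ x := by
  intro hn
  obtain ⟨s, t, rfl⟩ := List.append_of_mem hn
  rw [brk_append, brk_none] at h
  omega

theorem nodup_up {p : P3} {x : List Letter} (h : RunOK x) : (wk p (x.map up)).Nodup := by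
  rw [nodup_wk]
  intro A u B h1 hu hs
  obtain ⟨A', u1, rfl, hA, h2⟩ := List.map_eq_append_iff.1 h1
  obtain ⟨u', B', rfl, hu', hB⟩ := List.map_eq_append_iff.1 h2
  subst hu'
  rw [sum_up] at hs
  have h3 : (brk u' : ℤ) = 0 := congrArg (fun p : P3 => p.2.2) hs
  have h4 : disp u' = 0 := Prod.ext (by simpa using congrArg Prod.fst hs)
    (by simpa using congrArg (fun p : P3 => p.2.1) hs)
  refine h A' u' B' rfl (none_notMem (by exact_mod_cast h3)) ?_ h4
  rintro rfl
  exact hu rfl

/-- The points of the walk of a word. -/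
theorem mem_wk_up {p u : P3} {x : List Letter} : u ∈ wk p (x.map up) ↔
    ∃ A B, x = A ++ B ∧ u = p + ((disp A).1, (disp A).2, (brk A : ℤ)) := by
  rw [mem_wk]
  constructor
  · rintro ⟨A, B, h1, h2⟩
    obtain ⟨A', B', rfl, rfl, rfl⟩ := List.map_eq_append_iff.1 h1
    exact ⟨A', B', rfl, by rw [h2, sum_up]⟩
  · rintro ⟨A, B, rfl, h2⟩
    exact ⟨A.map up, B.map up, by rw [List.map_append], by rw [h2, sum_up]⟩

/-- The vertical edges of the walk of a word. -/
theorem leg_mem_up {q c : ℤ × ℤ} {z j : ℤ} {x : List Letter} :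
    leg c j ∈ pedges (wk (q.1, q.2, z) (x.map up)) ↔
      ∃ A B, x = A ++ none :: B ∧ c = q + disp A ∧ j = z + brk A := by
  unfold leg
  rw [mem_pedges_wk]
  constructor
  · rintro ⟨A, d, B, h1, h2⟩
    obtain ⟨A', B1, rfl, rfl, h3⟩ := List.map_eq_append_iff.1 h1
    obtain ⟨e, B', rfl, rfl, rfl⟩ := List.map_eq_cons_iff.1 h3
    rw [sum_up, Sym2.eq_iff] at h2
    cases e with
    | none =>
      refine ⟨A', B', rfl, ?_⟩
      simp only [up, Prod.mk_add_mk, Prod.mk.injEq, add_zero] at h2
      rcases h2 with ⟨⟨h4, h5, h6⟩, -⟩ | ⟨⟨h4, h5, h6⟩, -, -, h7⟩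
      · exact ⟨Prod.ext h4 h5, h6⟩
      · omega
    | some d =>
      exfalso
      simp only [up, Prod.mk_add_mk, Prod.mk.injEq, add_zero] at h2
      omega
  · rintro ⟨A, B, rfl, rfl, rfl⟩
    refine ⟨A.map up, up none, B.map up, by simp, ?_⟩
    rw [sum_up]
    simp only [up, Prod.mk_add_mk, add_zero, Prod.fst_add, Prod.snd_add, add_assoc]

theorem prefix_unique {A B A' B' : List Letter} (h : A ++ none :: B = A' ++ none :: B')
    (hb : brk A = brk A') : A = A' := by
  induction A generalizing A' with
  | nil =>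
    cases A' with
    | nil => rfl
    | cons c A' =>
      simp only [List.nil_append, List.cons_append, List.cons.injEq] at h
      rw [← h.1, brk_none, brk_nil] at hb
      omega
  | cons c A ih =>
    cases A' with
    | nil =>
      simp only [List.nil_append, List.cons_append, List.cons.injEq] at h
      rw [h.1, brk_none, brk_nil] at hb
      omega
    | cons c' A' =>
      simp only [List.cons_append, List.cons.injEq] at h
      obtain ⟨rfl, h⟩ := h
      cases c with
      | none =>
        rw [brk_none, brk_none] at hb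
        rw [ih h (by omega)]
      | some d =>
        rw [brk_some, brk_some] at hb
        rw [ih h hb]

theorem exists_prefix {x : List Letter} {i : ℕ} (hi : i < brk x) :
    ∃ A B, x = A ++ none :: B ∧ brk A = i := by
  induction x generalizing i with
  | nil => simp at hi
  | cons c x ih =>
    cases c with
    | none =>
      rcases i with _ | i
      · exact ⟨[], x, rfl, rfl⟩
      · rw [brk_none] at hi
        obtain ⟨A, B, rfl, h⟩ := ih (i := i) (by omega)
        exact ⟨none :: A, B, rfl, by rw [brk_none, h]⟩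
    | some d =>
      rw [brk_some] at hi
      obtain ⟨A, B, rfl, h⟩ := ih hi
      exact ⟨some d :: A, B, rfl, by rw [brk_some, h]⟩

theorem brk_le_of_append {A B x : List Letter} (h : x = A ++ B) : brk A ≤ brk x := by
  rw [h, brk_append]; omega

theorem mem_pedges_reverse {l : List P3} {e : Sym2 P3} : e ∈ pedges l.reverse ↔ e ∈ pedges l := by
  induction l with
  | nil => simp
  | cons x l ih =>
    cases l with
    | nil => simp
    | cons y l =>
      rw [List.reverse_cons, mem_pedges_cat (a := y) (b := x) (by simp) rfl, ih, pedges_cons_cons,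
        Finset.mem_insert, Sym2.eq_swap]
      simp only [LatticeTube.pedges, Finset.notMem_empty, or_false]
      tauto

/-! ### The block -/

/-- The straight strand. -/
def colA (a : ℤ × ℤ) (k : ℤ) (N : ℕ) : List P3 :=
  wk (a.1, a.2, k + 1) ((List.replicate N (none : Letter)).map up)

/-- The other strand, traversed downwards. -/
def strB (b : ℤ × ℤ) (k : ℤ) (x : List Letter) : List P3 := (wk (b.1, b.2, k + 1) (x.map up)).reverse

theorem length_colA (a : ℤ × ℤ) (k : ℤ) (N : ℕ) : (colA a k N).length = N + 1 := by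
  simp [colA, length_wk]

theorem length_strB (b : ℤ × ℤ) (k : ℤ) (x : List Letter) :
    (strB b k x).length = brk x + stp x + 1 := by
  simp [strB, length_wk, length_eq]

theorem runOK_none (N : ℕ) : RunOK (List.replicate N none) := by
  intro A u B h hu hu'
  exfalso
  obtain ⟨c, u'', rfl⟩ := List.exists_cons_of_ne_nil hu'
  have : c ∈ List.replicate N (none : Letter) := by rw [h]; simp
  rw [(List.mem_replicate.1 this).2] at hu
  simp at hu

theorem mem_colA {u : P3} {N : ℕ} : u ∈ colA a k N ↔ ∃ i ≤ N, u = (a.1, a.2, k + 1 + (i : ℤ)) := by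
  unfold colA
  rw [mem_wk_up]
  constructor
  · rintro ⟨A, B, h, rfl⟩
    have hA : A = List.replicate A.length none := by
      rw [List.eq_replicate_iff]
      refine ⟨rfl, fun c hc => ?_⟩
      have : c ∈ List.replicate N (none : Letter) := by rw [h]; exact List.mem_append_left _ hc
      exact (List.mem_replicate.1 this).2
    have hlen : A.length ≤ N := by
      have := congrArg List.length h
      simp only [List.length_replicate, List.length_append] at this
      omega
    refine ⟨A.length, hlen, ?_⟩
    rw [hA, disp_replicate_none, brk_replicate_none]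
    simp
  · rintro ⟨i, hi, rfl⟩
    refine ⟨List.replicate i none, List.replicate (N - i) none, ?_, ?_⟩
    · rw [List.replicate_append_replicate]
      congr 1
      omega
    · rw [disp_replicate_none, brk_replicate_none]
      simp

theorem mem_strB {u : P3} {x : List Letter} : u ∈ strB b k x ↔
    ∃ A B, x = A ++ B ∧ u = (b.1 + (disp A).1, b.2 + (disp A).2, k + 1 + (brk A : ℤ)) := by
  unfold strB
  rw [List.mem_reverse, mem_wk_up]
  rfl

theorem yblock {x : List Letter} {N n : ℕ} (hx : x ∈ F0 v w N n) (a : ℤ × ℤ) (k : ℤ) :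
    Block k (k + 1 + N) a (a + v) a (a + w) (colA a k N) (strB (a + v) k x) := by
  obtain ⟨⟨h1, h2, h3, h4⟩, h5⟩ := hx
  refine ⟨by omega, nodup_up (runOK_none N), ?_, ?_, ?_, ?_, ?_, ?_, ?_, ?_, ?_, ?_⟩
  · unfold strB
    rw [List.nodup_reverse]
    exact nodup_up h4
  · intro u hu hu'
    obtain ⟨i, -, rfl⟩ := mem_colA.1 hu
    obtain ⟨A, B, h6, h7⟩ := mem_strB.1 hu'
    simp only [Prod.mk.injEq, Prod.fst_add, Prod.snd_add] at h7
    refine h5 A B h6 ?_
    refine Prod.ext ?_ ?_
    · simp only [Prod.fst_add, Prod.fst_zero]; omega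
    · simp only [Prod.snd_add, Prod.snd_zero]; omega
  · unfold colA
    rw [chain_wk]
    intro d hd
    obtain ⟨c, -, rfl⟩ := List.mem_map.1 hd
    exact up_isStep c
  · unfold strB
    rw [List.isChain_reverse]
    have : (wk ((a + v).1, (a + v).2, k + 1) (x.map up)).IsChain Adj := by
      rw [chain_wk]
      intro d hd
      obtain ⟨c, -, rfl⟩ := List.mem_map.1 hd
      exact up_isStep c
    exact this.imp fun _ _ h => h.symm
  · exact head_wk _ _
  · unfold colA
    rw [last_wk, sum_up, disp_replicate_none, brk_replicate_none]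
    simp
  · unfold strB
    rw [List.head?_reverse, last_wk, sum_up, h1, ← h3]
    simp only [Prod.mk_add_mk, Prod.fst_add, Prod.snd_add, Option.some.injEq, Prod.mk.injEq,
      and_true]
    constructor <;> ring
  · unfold strB
    rw [List.getLast?_reverse, head_wk]
  · intro u hu
    obtain ⟨i, hi, rfl⟩ := mem_colA.1 hu
    simp only
    omega
  · intro u hu
    obtain ⟨A, B, h6, rfl⟩ := mem_strB.1 hu
    have := brk_le_of_append h6
    simp only
    omega

theorem yblock_thin {x : List Letter} {N n : ℕ} (hx : x ∈ F0 v w N n) (a : ℤ × ℤ) (k : ℤ) {j : ℤ}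
    (hj : k < j) (hj' : j < k + 1 + N) :
    {c | leg c j ∈ pedges (colA a k N) ∨ leg c j ∈ pedges (strB (a + v) k x)}.ncard = 2 := by
  obtain ⟨⟨h1, h2, h3, h4⟩, h5⟩ := hx
  obtain ⟨i, hi⟩ : ∃ i : ℕ, j = k + 1 + i := ⟨(j - k - 1).toNat, by omega⟩
  have hiN : i < N := by omega
  obtain ⟨A, B, hAB, hA⟩ := exists_prefix (x := x) (i := i) (by omega)
  have hset : {c | leg c j ∈ pedges (colA a k N) ∨ leg c j ∈ pedges (strB (a + v) k x)} =
      {a, a + v + disp A} := by
    ext c
    simp only [Set.mem_ofPred_eq, Set.mem_insert_iff, Set.mem_singleton_iff]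
    unfold colA strB
    rw [mem_pedges_reverse, leg_mem_up, leg_mem_up]
    refine or_congr ?_ ?_
    · constructor
      · rintro ⟨A', B', h, rfl, -⟩
        have hA' : A' = List.replicate A'.length none := by
          rw [List.eq_replicate_iff]
          refine ⟨rfl, fun c hc => ?_⟩
          have : c ∈ List.replicate N (none : Letter) := by rw [h]; exact List.mem_append_left _ hc
          exact (List.mem_replicate.1 this).2
        rw [hA', disp_replicate_none, add_zero]
      · rintro rfl
        refine ⟨List.replicate i none, List.replicate (N - i - 1) none, ?_, ?_, ?_⟩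
        · rw [← List.replicate_succ, List.replicate_append_replicate]
          congr 1
          omega
        · rw [disp_replicate_none, add_zero]
        · rw [brk_replicate_none, hi]
    · constructor
      · rintro ⟨A', B', h, rfl, h6⟩
        have : A' = A := prefix_unique (h.symm.trans hAB) (by omega)
        rw [this]
      · rintro rfl
        exact ⟨A, B, hAB, rfl, by rw [hA, hi]⟩
  rw [hset]
  refine Set.ncard_pair ?_
  intro h
  refine h5 A (none :: B) hAB ?_
  rw [add_assoc] at h
  exact left_eq_add.1 h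

theorem F0_ne {x : List Letter} {N n : ℕ} (hx : x ∈ F0 v w N n) (a : ℤ × ℤ) :
    a ≠ a + v ∧ a ≠ a + w := by
  obtain ⟨⟨-, -, h3, -⟩, h5⟩ := hx
  constructor
  · intro h
    exact h5.start (left_eq_add.1 h)
  · intro h
    exact h5.stop (h3.trans (left_eq_add.1 h))

/-- The polygon composed of a lower half, a block and an upper half. -/
def yring (a : ℤ × ℤ) (k : ℤ) (v : ℤ × ℤ) (N : ℕ) (x : List Letter) (r l : List P3) :
    Finset (Sym2 P3) := ring ((colA a k N ++ (r ++ strB (a + v) k x)) ++ l)

/-- Decoding. -/
theorem yring_inj {a v w v1 w1 : ℤ × ℤ} {k : ℤ} {N n n1 : ℕ} {x x1 : List Letter}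
    {r l r1 l1 : List P3} (hx : x ∈ F0 v w N n) (hx1 : x1 ∈ F0 v1 w1 N n1)
    (hr : Upper (k + 1 + N) a (a + w) r) (hl : Lower k a (a + v) l)
    (hr1 : Upper (k + 1 + N) a (a + w1) r1) (hl1 : Lower k a (a + v1) l1)
    (h : yring a k v N x r l = yring a k v1 N x1 r1 l1) :
    v = v1 ∧ w = w1 ∧ x = x1 ∧ r = r1 ∧ l = l1 := by
  have hb := yblock hx a k
  have hb1 := yblock hx1 a k
  obtain ⟨h1, h2, h3⟩ := halves_unique (F0_ne hx a).1 (F0_ne hx1 a).1 (hb.upper hr) hl
    (hb1.upper hr1) hl1 h
  have hv : v = v1 := add_left_cancel h1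
  subst hv
  have h4 : r ++ strB (a + v) k x = r1 ++ strB (a + v) k x1 := List.append_cancel_left h2
  have h5 := LatticeTube.append_split (fun u : P3 => k + 1 + N + 1 ≤ u.2.2) r r1
    (strB (a + v) k x) (strB (a + v) k x1) hr.lev hr1.lev (by
      intro u hu
      rw [hb.headB] at hu
      simp only [Option.mem_def, Option.some.injEq] at hu
      subst hu
      simp) (by
      intro u hu
      rw [hb1.headB] at hu
      simp only [Option.mem_def, Option.some.injEq] at hu
      subst hu
      simp) h4
  have h6 : x = x1 := by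
    have h7 := h5.2
    unfold strB at h7
    rw [List.reverse_inj] at h7
    exact List.map_injective_iff.2 up_injective (wk_inj h7)
  refine ⟨rfl, ?_, h6, h5.1, h3⟩
  obtain ⟨⟨-, -, e1, -⟩, -⟩ := hx
  obtain ⟨⟨-, -, e2, -⟩, -⟩ := hx1
  rw [← e1, ← e2, h6]

theorem yring_isPolygon {x : List Letter} {N n : ℕ} (hx : x ∈ F0 v w N n)
    (hr : Upper (k + 1 + N) a (a + w) r) (hl : Lower k a (a + v) l) :
    IsPolygon (yring a k v N x r l) :=
  (ring_of (F0_ne hx a).1 ((yblock hx a k).upper hr) hl).isPolygon

theorem yring_card {x : List Letter} {N n : ℕ} (hx : x ∈ F0 v w N n)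
    (hr : Upper (k + 1 + N) a (a + w) r) (hl : Lower k a (a + v) l) :
    (yring a k v N x r l).card = l.length + r.length + 2 * N + 2 + n := by
  unfold yring
  rw [(ring_of (F0_ne hx a).1 ((yblock hx a k).upper hr) hl).card_eq]
  simp only [List.length_append, length_colA, length_strB]
  obtain ⟨⟨h1, h2, -⟩, -⟩ := hx
  rw [h1, h2]
  omega

theorem yring_unknotted {x : List Letter} {N n : ℕ} (hx : x ∈ F0 v w N n)
    (hr : UU (k + 1 + N) a (a + w) r) (hl : LU k a (a + v) l) :
    Unknotted (yring a k v N x r l) :=
  (yblock hx a k).unknotted hr hl fun _ hj hj' => yblock_thin hx a k hj hj'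

/-! ### Spans -/

/-- The planes crossed by a walk. -/
def planes (l : List P3) : Set ℤ := {j | ∃ c, leg c j ∈ pedges l}

theorem planes_subset (l : List P3) (P : Set ℤ) (h : ∀ u ∈ l, ∀ v ∈ l, v.2.2 = u.2.2 + 1 → u.2.2 ∈ P) :
    planes l ⊆ P := by
  rintro j ⟨c, hc⟩
  have := mem_of_mem_pedges hc
  exact h _ this.1 _ this.2 rfl

theorem planes_finite' (l : List P3) : (planes l).Finite := by
  refine ((l.toFinset.finite_toSet).image fun u : P3 => u.2.2).subset ?_
  rintro j ⟨c, hc⟩
  refine ⟨(c.1, c.2, j), ?_, rfl⟩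
  rw [Finset.mem_coe, List.mem_toFinset]
  exact (mem_of_mem_pedges hc).1

/-- The number of planes crossed by a walk. -/
noncomputable def lspan (l : List P3) : ℕ := (planes l).ncard

theorem span_ring (hr : Upper k a b r) (hl : Lower k a b l) :
    span (ring (r ++ l)) = lspan l + lspan r + 1 := by
  have hset : {j : ℤ | (cross (ring (r ++ l)) j).Nonempty} = insert k (planes l ∪ planes r) := by
    ext j
    simp only [Set.mem_ofPred_eq, Set.mem_insert_iff, Set.mem_union]
    rcases lt_trichotomy j k with h | rfl | h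
    · constructor
      · rintro ⟨c, hc⟩
        rw [cross_ring_low hr hl h] at hc
        exact Or.inr (Or.inl ⟨c, hc⟩)
      · rintro (h1 | ⟨c, hc⟩ | ⟨c, hc⟩)
        · omega
        · exact ⟨c, (cross_ring_low hr hl h).2 hc⟩
        · have := (pedges_lev hr.lev hc).1
          simp only at this
          omega
    · constructor
      · exact fun _ => Or.inl rfl
      · intro _
        rw [cross_ring_of hr hl]
        exact ⟨a, by simp⟩
    · constructor
      · rintro ⟨c, hc⟩
        rw [cross_ring_upp hr hl h] at hc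
        exact Or.inr (Or.inr ⟨c, hc⟩)
      · rintro (h1 | ⟨c, hc⟩ | ⟨c, hc⟩)
        · omega
        · have := (pedges_lev hl.lev hc).1
          simp only at this
          omega
        · exact ⟨c, (cross_ring_upp hr hl h).2 hc⟩
  have h1 : ∀ j ∈ planes l, j < k := by
    rintro j ⟨c, hc⟩
    have := (pedges_lev hl.lev hc).2
    simp only at this
    omega
  have h2 : ∀ j ∈ planes r, k < j := by
    rintro j ⟨c, hc⟩
    have := (pedges_lev hr.lev hc).1
    simp only at this
    omega
  have h3 : k ∉ planes l ∪ planes r := by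
    rintro (h3 | h3)
    · have := h1 k h3; omega
    · have := h2 k h3; omega
  have h4 : Disjoint (planes l) (planes r) := by
    rw [Set.disjoint_left]
    intro j h3 h4
    have := h1 j h3
    have := h2 j h4
    omega
  unfold KTube.span lspan
  rw [hset, Set.ncard_insert_of_notMem h3 ((planes_finite' l).union (planes_finite' r)),
    Set.ncard_union_eq h4 (planes_finite' l) (planes_finite' r)]

/-- A walk from level `z` to level `z'` crosses all planes between. -/
theorem mem_planes {l : List P3} {x y : P3} (hc : l.IsChain Adj) (hx : l.head? = some x)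
    (hy : y ∈ l) {j : ℤ} (h1 : x.2.2 ≤ j) (h2 : j < y.2.2) : j ∈ planes l := by
  obtain ⟨l1, l2, u, v, h3, h4, h5⟩ := split_while (P := fun u => u.2.2 ≤ j) l x hx h1
    ⟨y, hy, by omega⟩
  obtain ⟨c, hv, hu⟩ := edge_down (chain_mid (h3 ▸ hc)).symm (k := j) (by omega) (h4 u (by simp))
  refine ⟨c, ?_⟩
  unfold leg
  rw [← hu, ← hv, h3, List.append_assoc]
  exact mem_pedges_mid l1 l2 u v

theorem Block.lspan_upper (hb : Block k k' a b a' b' A B) (hr : Upper k' a' b' r) :
    lspan (A ++ (r ++ B)) = (k' - k).toNat + lspan r := by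
  have hlt := hb.lt
  have hset : planes (A ++ (r ++ B)) = ↑(Finset.Ico (k + 1) (k' + 1)) ∪ planes r := by
    ext j
    rw [Set.mem_union, Finset.mem_coe, Finset.mem_Ico]
    constructor
    · rintro ⟨c, hc⟩
      rw [hb.mem_upper hr] at hc
      rcases hc with h | h | h | h | h
      · have h1 := mem_of_mem_pedges h
        have h2 := hb.levA _ h1.1
        have h3 := hb.levA _ h1.2
        simp only at h2 h3
        left; omega
      · have h1 := mem_of_mem_pedges h
        have h2 := hb.levB _ h1.1
        have h3 := hb.levB _ h1.2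
        simp only at h2 h3
        left; omega
      · exact Or.inr ⟨c, h⟩
      · have := (leg_inj h).2
        left; omega
      · have := (leg_inj h).2
        left; omega
    · rintro (⟨h1, h2⟩ | ⟨c, hc⟩)
      · rcases eq_or_lt_of_le (Int.lt_add_one_iff.1 h2) with rfl | h3
        · exact ⟨a', (hb.mem_upper hr).2 (Or.inr (Or.inr (Or.inr (Or.inl rfl))))⟩
        · obtain ⟨c, hc⟩ := mem_planes hb.chainA hb.headA (List.mem_of_getLast? hb.lastA)
            (j := j) (by simp only; omega) (by simp only; omega)
          exact ⟨c, (hb.mem_upper hr).2 (Or.inl hc)⟩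
      · exact ⟨c, (hb.mem_upper hr).2 (Or.inr (Or.inr (Or.inl hc)))⟩
  have hdis : Disjoint (↑(Finset.Ico (k + 1) (k' + 1)) : Set ℤ) (planes r) := by
    rw [Set.disjoint_left]
    rintro j h3 ⟨c, hc⟩
    rw [Finset.mem_coe, Finset.mem_Ico] at h3
    have := (pedges_lev hr.lev hc).1
    simp only at this
    omega
  unfold lspan
  rw [hset, Set.ncard_union_eq hdis (Finset.finite_toSet _) (planes_finite' r),
    Set.ncard_coe_finset, Int.card_Ico]
  congr 2
  ring

theorem Block.span (hb : Block k k' a b a' b' A B) (hr : Upper k' a' b' r) (hl : Lower k a b l) :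
    span (ring ((A ++ (r ++ B)) ++ l)) = lspan l + lspan r + (k' - k).toNat + 1 := by
  rw [span_ring (hb.upper hr) hl, hb.lspan_upper hr]
  ring

theorem yring_span {x : List Letter} {N n : ℕ} (hx : x ∈ F0 v w N n)
    (hr : Upper (k + 1 + N) a (a + w) r) (hl : Lower k a (a + v) l) :
    KTube.span (yring a k v N x r l) = lspan l + lspan r + N + 2 := by
  unfold yring
  rw [(yblock hx a k).span hr hl]
  have : (k + 1 + (N : ℤ) - k).toNat = N + 1 := by omega
  rw [this]
  ring

theorem planes_map (t : P3) (l : List P3) :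
    planes (l.map (· + t)) = (fun j => j + t.2.2) '' planes l := by
  have key : ∀ (c : ℤ × ℤ) (j : ℤ), leg c j ∈ pedges (l.map (· + t)) ↔
      leg (c.1 - t.1, c.2 - t.2.1) (j - t.2.2) ∈ pedges l := by
    intro c j
    rw [pedges_map]
    have : leg c j ∈ LK.shift t (pedges l) ↔ _ := mem_shift
    refine this.trans ?_
    have e1 : ((c.1, c.2, j + 1) : P3) - t = (c.1 - t.1, c.2 - t.2.1, j - t.2.2 + 1) := by
      refine Prod.ext rfl (Prod.ext rfl ?_)
      simp only [Prod.snd_sub]; ring
    rw [e1]
    rfl
  ext j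
  constructor
  · rintro ⟨c, hc⟩
    exact ⟨j - t.2.2, ⟨_, (key c j).1 hc⟩, by simp⟩
  · rintro ⟨i, ⟨c, hc⟩, rfl⟩
    refine ⟨(c.1 + t.1, c.2 + t.2.1), (key _ _).2 ?_⟩
    simpa using hc

theorem lspan_map (t : P3) (l : List P3) : lspan (l.map (· + t)) = lspan l := by
  unfold lspan
  rw [planes_map]
  exact Set.ncard_image_of_injective _ (add_left_injective _)

end Pool.Agent.KRing
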