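import Pool.Agent.KRing.Cover

/-! The surgery inequality: the number of all words is bounded by the numbers of the words that
avoid the origin. -/

set_option autoImplicit false

namespace Pool.Agent.KRing

theorem F0_mono {v w : ℤ × ℤ} (hw : w ≠ 0) (N l k : ℕ) :
    (F0 v w N l).ncard ≤ (F0 v w (N + k) l).ncard := by
  refine Set.ncard_le_ncard_of_injOn (fun x => x ++ List.replicate k none) ?_ ?_
    (F0_finite _ _ _ _)
  · rintro x ⟨⟨h1, h2, h3, h4⟩, h5⟩
    refine ⟨⟨?_, ?_, ?_, ?_⟩, ?_⟩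
    · rw [brk_append, brk_replicate_none, h1]
    · rw [stp_append, stp_replicate_none, h2, add_zero]
    · rw [disp_append, disp_replicate_none, add_zero, h3]
    · clear h1 h2 h3 h5
      induction k with
      | zero => simpa using h4
      | succ k ih =>
        have : x ++ List.replicate (k + 1) none = (x ++ List.replicate k none) ++ none :: [] := by
          rw [List.replicate_succ', List.append_assoc]
        rw [this]
        exact ih.sep runOK_nil
    · refine avoid_append.2 ⟨h5, ?_⟩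
      rw [h3]
      exact avoid_replicate_none hw k
  · intro x _ y _ h
    exact List.append_cancel_right h

/-- Words that do not visit the whole square. -/
theorem noncover_le {v w : ℤ × ℤ} (hv : v ≠ 0) (hw : w ≠ 0) (m N l : ℕ) :
    {x | x ∈ FN v w N l ∧ ¬ sq m ⊆ pts v x}.ncard ≤
      (m + 1) ^ 2 * ∑ i ∈ Finset.range (4 * m + 5), (F0 v w (N + 6) (l + i)).ncard := by
  classical
  have hfin : {x | x ∈ FN v w N l ∧ ¬ sq m ⊆ pts v x}.Finite :=
    (FN_finite v w N l).subset fun _ h => h.1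
  have hfin' : ∀ p : ℤ × ℤ, {x | x ∈ FN v w N l ∧ Avoid v x p}.Finite := fun p =>
    (FN_finite v w N l).subset fun _ h => h.1
  rw [Set.ncard_eq_toFinset_card _ hfin]
  have hsub : hfin.toFinset ⊆ (sq m).biUnion fun p => (hfin' p).toFinset := by
    intro x hx
    rw [Set.Finite.mem_toFinset] at hx
    obtain ⟨h1, h2⟩ := hx
    rw [Finset.not_subset] at h2
    obtain ⟨p, hp, hp'⟩ := h2
    rw [Finset.mem_biUnion]
    refine ⟨p, hp, ?_⟩
    rw [Set.Finite.mem_toFinset]
    refine ⟨h1, ?_⟩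
    by_contra hcon
    exact hp' (not_avoid.1 hcon)
  refine (Finset.card_le_card hsub).trans ?_
  refine Finset.card_biUnion_le.trans ?_
  rw [← card_sq, ← smul_eq_mul, ← Finset.sum_const]
  refine Finset.sum_le_sum fun p hp => ?_
  rw [← Set.ncard_eq_toFinset_card _ (hfin' p)]
  rw [mem_sq] at hp
  have := missing_le hv hw N l (2 * m) (-p) (by simp only [Prod.fst_neg, Prod.snd_neg]; omega)
  rw [neg_neg] at this
  have e : 2 * (2 * m) + 5 = 4 * m + 5 := by ring
  rwa [e] at this

theorem sum_shift_le (G : ℕ → ℕ) (a b c : ℕ) :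
    ∑ i ∈ Finset.range a, ∑ i' ∈ Finset.range b, G (c + i + i') ≤
      a * ∑ i ∈ Finset.range (a + b), G (c + i) := by
  rw [← smul_eq_mul, ← Finset.card_range a, ← Finset.sum_const, Finset.card_range]
  refine Finset.sum_le_sum fun i hi => ?_
  rw [Finset.mem_range] at hi
  have h : ∑ i' ∈ Finset.range b, G (c + i + i') =
      ∑ k ∈ (Finset.range b).image (fun i' => i + i'), G (c + k) := by
    rw [Finset.sum_image (fun x _ y _ h => Nat.add_left_cancel h)]
    exact Finset.sum_congr rfl fun x _ => by rw [add_assoc]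
  rw [h]
  refine Finset.sum_le_sum_of_subset ?_
  intro k hk
  rw [Finset.mem_image] at hk
  obtain ⟨i', hi', rfl⟩ := hk
  rw [Finset.mem_range] at hi' ⊢
  omega

theorem geom_le (j N : ℕ) : ∑ b ∈ Finset.range (N + 1), 5 ^ (j + b) ≤ 5 ^ (j + N + 1) := by
  induction N with
  | zero =>
    rw [Finset.sum_range_one, add_zero, pow_succ]
    omega
  | succ N ih =>
    rw [Finset.sum_range_succ]
    have e : 5 ^ (j + (N + 1) + 1) = 5 * 5 ^ (j + N + 1) := by
      rw [show j + (N + 1) + 1 = (j + N + 1) + 1 by ring, pow_succ]; ring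
    have e2 : 5 ^ (j + (N + 1)) = 5 ^ (j + N + 1) := by rw [add_assoc]
    rw [e, e2]
    omega

/-- **The surgery inequality.** -/
theorem surgery {v w : ℤ × ℤ} (hv : v ≠ 0) (hw : w ≠ 0) {m : ℕ} (hm : 1 ≤ m) (N l : ℕ) :
    (FN v w N l).ncard ≤
      (m + 1) ^ 2 * ∑ i ∈ Finset.range (4 * m + 5), (F0 v w (N + 9) (l + i)).ncard +
      (m + 1) ^ 2 * (2 * m + 1) * ∑ j ∈ Finset.Icc ((m + 1) ^ 2 - 1) l, 5 ^ (j + N + 1) *
        ∑ i ∈ Finset.range (6 * m + 6), (F0 v w (N + 9) (l - j + i)).ncard := by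
  classical
  have hsplit : FN v w N l ⊆ {x | x ∈ FN v w N l ∧ ¬ sq m ⊆ pts v x} ∪
      {x | x ∈ FN v w N l ∧ sq m ⊆ pts v x} := by
    intro x hx
    by_cases h : sq m ⊆ pts v x
    · exact Or.inr ⟨hx, h⟩
    · exact Or.inl ⟨hx, h⟩
  refine (Set.ncard_le_ncard hsplit ?_).trans ((Set.ncard_union_le _ _).trans ?_)
  · exact ((FN_finite v w N l).subset fun _ h => h.1).union
      ((FN_finite v w N l).subset fun _ h => h.1)
  refine Nat.add_le_add ?_ ?_
  · refine (noncover_le hv hw m N l).trans (Nat.mul_le_mul_left _ ?_)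
    exact Finset.sum_le_sum fun i _ => F0_mono hw (N + 6) (l + i) 3
  · refine (cover_le hm v w N l).trans ?_
    rw [Finset.mul_sum]
    refine Finset.sum_le_sum fun j _ => ?_
    calc ∑ b ∈ Finset.range (N + 1), ∑ i ∈ Finset.range (2 * m + 1), 5 ^ (j + b) *
          {x | x ∈ FN v w (N + 3) (l - j + i) ∧ ¬ sq m ⊆ pts v x}.ncard
        ≤ ∑ b ∈ Finset.range (N + 1), ∑ i ∈ Finset.range (2 * m + 1), 5 ^ (j + b) *
          ((m + 1) ^ 2 * ∑ i' ∈ Finset.range (4 * m + 5),
            (F0 v w (N + 9) (l - j + i + i')).ncard) := by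
          refine Finset.sum_le_sum fun b _ => Finset.sum_le_sum fun i _ => ?_
          exact Nat.mul_le_mul_left _ (noncover_le hv hw m (N + 3) (l - j + i))
      _ = (∑ b ∈ Finset.range (N + 1), 5 ^ (j + b)) * ((m + 1) ^ 2 *
          ∑ i ∈ Finset.range (2 * m + 1), ∑ i' ∈ Finset.range (4 * m + 5),
            (F0 v w (N + 9) (l - j + i + i')).ncard) := by
          rw [Finset.sum_mul]
          refine Finset.sum_congr rfl fun b _ => ?_
          rw [Finset.mul_sum, Finset.mul_sum]
      _ ≤ 5 ^ (j + N + 1) * ((m + 1) ^ 2 * ((2 * m + 1) *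
          ∑ i ∈ Finset.range (2 * m + 1 + (4 * m + 5)), (F0 v w (N + 9) (l - j + i)).ncard)) := by
          refine Nat.mul_le_mul (geom_le j N) (Nat.mul_le_mul_left _ ?_)
          exact sum_shift_le (fun k => (F0 v w (N + 9) k).ncard) _ _ _
      _ = (m + 1) ^ 2 * (2 * m + 1) * (5 ^ (j + N + 1) *
        ∑ i ∈ Finset.range (6 * m + 6), (F0 v w (N + 9) (l - j + i)).ncard) := by
          have e : 2 * m + 1 + (4 * m + 5) = 6 * m + 6 := by ring
          rw [e]; ring

end Pool.Agent.KRing
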