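import Pool.Agent.KRing.Vert
import Pool.Agent.KRing.Surgery

/-! Partition functions and the sums over pairs of halves. -/

set_option autoImplicit false

open Pool.Agent.LK
open scoped ENNReal

namespace Pool.Agent.KRing

open Pool.Agent.KTube
open Pool.Agent.LatticeTube (pedges mem_pedges mem_of_mem_pedges)

variable {E F : Finset (Sym2 P3)} {k k' : ℤ} {a b a' b' v w : ℤ × ℤ} {r l r' l' A B : List P3}
  {T T' : Finset (Sym2 P3) → Prop} {Y : ℝ≥0∞}

/-! ### Partition functions -/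

/-- The polygons of the class `T` with `n` edges, up to translation. -/
def PT (T : Finset (Sym2 P3) → Prop) (n : ℕ) : Set (Finset (Sym2 P3)) :=
  {E | IsPolygon E ∧ T E ∧ Normed E ∧ E.card = n}

/-- Their partition function. -/
noncomputable def ZT (Y : ℝ≥0∞) (T : Finset (Sym2 P3) → Prop) (n : ℕ) : ℝ≥0∞ :=
  ∑' E : PT T n, Y ^ span E.1

/-- The polygons of the class `T` with `n` edges through the origin. -/
def QT (T : Finset (Sym2 P3) → Prop) (n : ℕ) : Set (Finset (Sym2 P3)) :=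
  {E | IsPolygon E ∧ T E ∧ (0 : P3) ∈ verts E ∧ E.card = n}

/-- Their partition function. -/
noncomputable def MT (Y : ℝ≥0∞) (T : Finset (Sym2 P3) → Prop) (n : ℕ) : ℝ≥0∞ :=
  ∑' E : QT T n, Y ^ span E.1

theorem span_shift' (t : P3) (E : Finset (Sym2 P3)) : span (shift t E) = span E := by
  have h : {j : ℤ | (cross (shift t E) j).Nonempty} =
      (fun j => j + t.2.2) '' {j : ℤ | (cross E j).Nonempty} := by
    ext j
    rw [Set.mem_image]
    simp only [Set.mem_ofPred_eq]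
    rw [nonempty_cross_shift']
    constructor
    · intro h
      exact ⟨_, h, by simp⟩
    · rintro ⟨i, hi, rfl⟩
      simpa using hi
  unfold KTube.span
  rw [h]
  exact Set.ncard_image_of_injective _ (add_left_injective _)

theorem ncard_verts (hE : IsPolygon E) : (verts E).encard = E.card := by
  obtain ⟨u, v, huv⟩ := exists_edge hE
  obtain ⟨c, hR, hc, -, -⟩ := exists_ring hE huv
  have h1 : verts E = ↑(c.toFinset) := by
    ext p
    rw [← hc, hR.mem_verts, Finset.mem_coe, List.mem_toFinset]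
  rw [h1, Set.encard_coe_eq_coe_finsetCard, List.toFinset_card_of_nodup hR.nodup, ← hc, hR.card_eq]

theorem normed_shift_eq {s t : P3} (hE : Normed E) (hF : Normed F) (h : shift s E = shift t F) :
    E = F := by
  have h1 : shift (-t + s) E = F := by
    rw [← shift_shift, h, shift_shift, neg_add_cancel, shift_zero]
  have h2 : -t + s = 0 := hE.eq_zero (by rw [h1]; exact hF)
  rw [h2, shift_zero] at h1
  exact h1

/-- Marking a vertex costs a factor `n`. -/
theorem MT_le (hT : GoodClass T) (n : ℕ) : MT Y T n ≤ n * ZT Y T n := by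
  have hex : ∀ E : QT T n, ∃ t : P3, Normed (shift t E.1) :=
    fun E => exists_normed E.2.1.verts_nonempty
  choose t ht using hex
  let φ : QT T n → Σ F : PT T n, (verts F.1 : Set P3) := fun E =>
    ⟨⟨shift (t E) E.1, isPolygon_shift E.2.1 _, hT.shift _ _ E.2.2.1, ht E, by
      rw [card_shift]; exact E.2.2.2.2⟩, ⟨t E, mem_verts_shift.2 (by
        rw [sub_self]; exact E.2.2.2.1)⟩⟩
  have hφ : Function.Injective φ := by
    intro E F h
    have h3 : t E = t F := congrArg (fun p : Σ F : PT T n, (verts F.1 : Set P3) => p.2.1) h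
    have h1 : shift (t E) E.1 = shift (t F) F.1 :=
      congrArg (fun p : Σ F : PT T n, (verts F.1 : Set P3) => p.1.1) h
    rw [h3] at h1
    exact Subtype.ext (shift_injective _ h1)
  have h1 : MT Y T n = ∑' E : QT T n, (fun p : Σ F : PT T n, (verts F.1 : Set P3) =>
      Y ^ span p.1.1) (φ E) := by
    unfold MT
    refine tsum_congr fun E => ?_
    simp only [φ]
    rw [span_shift']
  rw [h1]
  refine (ENNReal.tsum_comp_le_tsum_of_injective hφ
    (fun p : Σ F : PT T n, (verts F.1 : Set P3) => Y ^ span p.1.1)).trans ?_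
  rw [ENNReal.tsum_sigma']
  have h2 : ∀ F : PT T n, ∑' _ : (verts F.1 : Set P3), Y ^ span F.1 = n * Y ^ span F.1 := by
    intro F
    rw [ENNReal.tsum_set_const, ncard_verts F.2.1, F.2.2.2.2]
    simp
  rw [tsum_congr h2, ENNReal.tsum_mul_left]
  exact le_rfl

/-! ### Pairs of halves -/

/-- Indices: the displacements at the two ends, a lower half, an upper half. -/
abbrev Idx : Type := (ℤ × ℤ) × (ℤ × ℤ) × List P3 × List P3

/-- Indices with a lower half of class `T` and an unknotted upper half. -/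
def OkI (T : Finset (Sym2 P3) → Prop) (i : Idx) : Prop :=
  LC T 0 0 i.1 i.2.2.1 ∧ UU 0 0 i.2.1 i.2.2.2

/-- The weight of an index. -/
noncomputable def wI (Y : ℝ≥0∞) (i : Idx) : ℝ≥0∞ := Y ^ (lspan i.2.2.1 + lspan i.2.2.2)

/-- The number of points of an index. -/
def lenI (i : Idx) : ℕ := i.2.2.1.length + i.2.2.2.length

/-- The sum over the words in `FN`. -/
noncomputable def SFN (Y : ℝ≥0∞) (T : Finset (Sym2 P3) → Prop) (N s : ℕ) : ℝ≥0∞ :=
  ∑' i : {i : Idx // OkI T i}, if lenI i.1 ≤ s then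
    wI Y i.1 * (FN i.1.1 i.1.2.1 N (s - lenI i.1)).ncard else 0

/-- The sum over the words in `F0`. -/
noncomputable def SF0 (Y : ℝ≥0∞) (T : Finset (Sym2 P3) → Prop) (N s : ℕ) : ℝ≥0∞ :=
  ∑' i : {i : Idx // OkI T i}, if lenI i.1 ≤ s then
    wI Y i.1 * (F0 i.1.1 i.1.2.1 N (s - lenI i.1)).ncard else 0

theorem OkI.ne {i : Idx} (h : OkI T i) : i.1 ≠ 0 ∧ i.2.1 ≠ 0 :=
  ⟨h.1.ne.symm, h.2.1.symm⟩

theorem csh_zero_vert (z : ℤ) (w : ℤ × ℤ) : csh ((0, 0, z) : P3) w = 0 + w := by
  simp [csh]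

/-- The sum over the words that avoid the origin is bounded by the polygons through the origin. -/
theorem SF0_le (hT : GoodClass T) (N s : ℕ) :
    SF0 Y T N s * Y ^ (N + 2) ≤ MT Y T (s + 2 * N + 2) := by
  classical
  let S : {i : Idx // OkI T i} → Set (List Letter) := fun i =>
    {x | lenI i.1 ≤ s ∧ x ∈ F0 i.1.1 i.1.2.1 N (s - lenI i.1)}
  have hS : ∀ i, (S i).Finite := fun i =>
    (F0_finite i.1.1 i.1.2.1 N (s - lenI i.1)).subset fun x hx => hx.2
  have hsum : SF0 Y T N s * Y ^ (N + 2) =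
      ∑' p : Σ i : {i : Idx // OkI T i}, S i, wI Y p.1.1 * Y ^ (N + 2) := by
    rw [ENNReal.tsum_sigma']
    unfold SF0
    rw [← ENNReal.tsum_mul_right]
    refine tsum_congr fun i => ?_
    have hc : ∑' _ : S i, wI Y i.1 * Y ^ (N + 2) = (S i).encard * (wI Y i.1 * Y ^ (N + 2)) :=
      ENNReal.tsum_set_const _ _
    rw [hc]
    split_ifs with h
    · have h1 : S i = F0 i.1.1 i.1.2.1 N (s - lenI i.1) := by
        ext x
        exact ⟨fun hx => hx.2, fun hx => ⟨h, hx⟩⟩
      rw [h1, ← (F0_finite _ _ _ _).cast_ncard_eq]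
      simp only [ENat.toENNReal_coe]
      ring
    · have h1 : S i = ∅ := by
        ext x
        simp only [S, Set.mem_ofPred_eq, Set.mem_empty_iff_false, iff_false, not_and]
        exact fun h2 => absurd h2 h
      rw [h1]
      simp
  have hU : ∀ i : {i : Idx // OkI T i}, UU (0 + 1 + (N : ℤ)) 0 (0 + i.1.2.1)
      (i.1.2.2.2.map (· + ((0, 0, (N : ℤ) + 1) : P3))) := by
    intro i
    have h := i.2.2.shift ((0, 0, (N : ℤ) + 1) : P3)
    rw [csh_zero_vert, csh_zero_vert, add_zero] at h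
    have e : (0 : ℤ) + ((0, 0, (N : ℤ) + 1) : P3).2.2 = 0 + 1 + (N : ℤ) := by
      simp only; ring
    rwa [e] at h
  have hL : ∀ i : {i : Idx // OkI T i}, LC T 0 0 (0 + i.1.1) i.1.2.2.1 := by
    intro i
    rw [zero_add]
    exact i.2.1
  let f : (Σ i : {i : Idx // OkI T i}, S i) → QT T (s + 2 * N + 2) := fun p =>
    ⟨yring 0 0 p.1.1.1 N p.2.1 (p.1.1.2.2.2.map (· + ((0, 0, (N : ℤ) + 1) : P3))) p.1.1.2.2.1, by
      have hx : p.2.1 ∈ F0 p.1.1.1 p.1.1.2.1 N (s - lenI p.1.1) := p.2.2.2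
      have hle : lenI p.1.1 ≤ s := p.2.2.1
      refine ⟨yring_isPolygon hx (hU p.1).2.1 (hL p.1).1, yring_class hT hx (hU p.1) (hL p.1), ?_, ?_⟩
      · have hR := ring_of (F0_ne hx 0).1 ((yblock hx 0 0).upper (hU p.1).2.1) (hL p.1).1
        have h1 : (0 : P3) ∈ p.1.1.2.2.1 := List.mem_of_getLast? (hL p.1).1.last
        exact hR.mem_verts.2 (List.mem_append_right _ h1)
      · rw [yring_card hx (hU p.1).2.1 (hL p.1).1, List.length_map]
        unfold lenI at hle ⊢
        omega⟩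
  have hf : Function.Injective f := by
    rintro ⟨⟨⟨v, w, l, r⟩, hi⟩, ⟨x, hx⟩⟩ ⟨⟨⟨v1, w1, l1, r1⟩, hi1⟩, ⟨x1, hx1⟩⟩ h
    have h1 := congrArg Subtype.val h
    simp only [f] at h1
    have hUa := hU ⟨⟨v, w, l, r⟩, hi⟩
    have hLa := hL ⟨⟨v, w, l, r⟩, hi⟩
    have hUb := hU ⟨⟨v1, w1, l1, r1⟩, hi1⟩
    have hLb := hL ⟨⟨v1, w1, l1, r1⟩, hi1⟩
    simp only at hUa hLa hUb hLb
    obtain ⟨e1, e2, e3, e4, e5⟩ := yring_inj hx.2 hx1.2 hUa.2.1 hLa.1 hUb.2.1 hLb.1 h1
    have e6 : r = r1 := List.map_injective_iff.2 (add_left_injective _) e4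
    subst e1 e2 e3 e5 e6
    rfl
  rw [hsum]
  have h2 : ∀ p : (Σ i : {i : Idx // OkI T i}, S i), wI Y p.1.1 * Y ^ (N + 2) =
      (fun E : QT T (s + 2 * N + 2) => Y ^ span E.1) (f p) := by
    intro p
    have hx : p.2.1 ∈ F0 p.1.1.1 p.1.1.2.1 N (s - lenI p.1.1) := p.2.2.2
    simp only [f]
    rw [yring_span hx (hU p.1).2.1 (hL p.1).1, lspan_map, wI, ← pow_add]
    congr 1
  rw [tsum_congr h2]
  exact ENNReal.tsum_comp_le_tsum_of_injective hf _

/-- The surgery inequality, summed over the indices. -/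
theorem SFN_le {m : ℕ} (hm : 1 ≤ m) (N s : ℕ) :
    SFN Y T N s ≤ (m + 1) ^ 2 * ∑ i ∈ Finset.range (4 * m + 5), SF0 Y T (N + 9) (s + i) +
      (m + 1) ^ 2 * (2 * m + 1) * ∑ j ∈ Finset.Icc ((m + 1) ^ 2 - 1) s, 5 ^ (j + N + 1) *
        ∑ i ∈ Finset.range (6 * m + 6), SF0 Y T (N + 9) (s - j + i) := by
  classical
  unfold SFN SF0
  simp_rw [← Summable.tsum_finsetSum (fun i _ => ENNReal.summable), ← ENNReal.tsum_mul_left,
    ← Summable.tsum_finsetSum (fun i _ => ENNReal.summable), ← ENNReal.tsum_mul_left]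
  rw [← ENNReal.tsum_add]
  refine ENNReal.tsum_le_tsum fun i => ?_
  obtain ⟨⟨v, w, l, r⟩, hi⟩ := i
  obtain ⟨hv, hw⟩ := hi.ne
  simp only at hv hw
  set L := lenI (v, w, l, r) with hL
  set W := wI Y (v, w, l, r) with hW
  by_cases hs : L ≤ s
  · simp only [hs, if_true]
    have h1 := surgery hv hw hm N (s - L)
    have h2 : ((FN v w N (s - L)).ncard : ℝ≥0∞) ≤
        (m + 1) ^ 2 * ∑ i ∈ Finset.range (4 * m + 5), ((F0 v w (N + 9) (s - L + i)).ncard : ℝ≥0∞) +
        (m + 1) ^ 2 * (2 * m + 1) * ∑ j ∈ Finset.Icc ((m + 1) ^ 2 - 1) (s - L), 5 ^ (j + N + 1) *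
          ∑ i ∈ Finset.range (6 * m + 6), ((F0 v w (N + 9) (s - L - j + i)).ncard : ℝ≥0∞) := by
      exact_mod_cast h1
    refine (mul_le_mul_right h2 W).trans ?_
    rw [mul_add]
    refine add_le_add ?_ ?_
    · rw [mul_left_comm, Finset.mul_sum]
      refine mul_le_mul_right (Finset.sum_le_sum fun i _ => ?_) _
      rw [if_pos (by omega)]
      have e : s + i - L = s - L + i := by omega
      rw [e]
    · rw [mul_left_comm, Finset.mul_sum]
      refine mul_le_mul_right ?_ _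
      have hsub : Finset.Icc ((m + 1) ^ 2 - 1) (s - L) ⊆ Finset.Icc ((m + 1) ^ 2 - 1) s :=
        Finset.Icc_subset_Icc le_rfl (by omega)
      refine (Finset.sum_le_sum fun j hj => ?_).trans (Finset.sum_le_sum_of_subset hsub)
      rw [Finset.mem_Icc] at hj
      rw [mul_left_comm, Finset.mul_sum]
      refine mul_le_mul_right (Finset.sum_le_sum fun i _ => ?_) _
      rw [if_pos (by omega)]
      have e : s - j + i - L = s - L - j + i := by omega
      rw [e]
  · simp [hs]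

end Pool.Agent.KRing
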