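import Pool.Agent.KRing.Class

/-! The word of a block. -/

set_option autoImplicit false

open Pool.Agent.LK

namespace Pool.Agent.KRing

open Pool.Agent.KTube
open Pool.Agent.LatticeTube (pedges mem_pedges mem_of_mem_pedges)

/-! ### Letters of steps -/

/-- The letter of a step. -/
def hlet (d : P3) : Letter :=
  if d = (1, 0, 0) then some 0 else if d = (-1, 0, 0) then some 1
  else if d = (0, 1, 0) then some 2 else if d = (0, -1, 0) then some 3 else none

/-- The sign of a vertical step. -/
def sg (d : P3) : Option Bool :=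
  if d = (0, 0, 1) then some true else if d = (0, 0, -1) then some false else none

theorem step_cases {d : P3} (h : IsStep d) : d = (1, 0, 0) ∨ d = (-1, 0, 0) ∨ d = (0, 1, 0) ∨
    d = (0, -1, 0) ∨ d = (0, 0, 1) ∨ d = (0, 0, -1) := by
  obtain ⟨x, y, z⟩ := d
  unfold IsStep at h
  simp only at h
  have h1 := abs_nonneg x
  have h2 := abs_nonneg y
  have h3 := abs_nonneg z
  have hx := abs_le.1 (show |x| ≤ 1 by omega)
  have hy := abs_le.1 (show |y| ≤ 1 by omega)
  have hz := abs_le.1 (show |z| ≤ 1 by omega)
  rcases (show x = -1 ∨ x = 0 ∨ x = 1 by omega) with rfl | rfl | rfl <;>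
  rcases (show y = -1 ∨ y = 0 ∨ y = 1 by omega) with rfl | rfl | rfl <;>
  rcases (show z = -1 ∨ z = 0 ∨ z = 1 by omega) with rfl | rfl | rfl <;>
  simp_all

theorem hlet_cases {d : P3} (h : IsStep d) :
    (∃ i, hlet d = some i ∧ d = ((dv i).1, (dv i).2, 0) ∧ sg d = none) ∨
    (hlet d = none ∧ ((d = (0, 0, 1) ∧ sg d = some true) ∨ (d = (0, 0, -1) ∧ sg d = some false))) := by
  rcases step_cases h with rfl | rfl | rfl | rfl | rfl | rfl
  · exact Or.inl ⟨0, by decide, by decide, by decide⟩
  · exact Or.inl ⟨1, by decide, by decide, by decide⟩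
  · exact Or.inl ⟨2, by decide, by decide, by decide⟩
  · exact Or.inl ⟨3, by decide, by decide, by decide⟩
  · exact Or.inr ⟨by decide, Or.inl ⟨rfl, by decide⟩⟩
  · exact Or.inr ⟨by decide, Or.inr ⟨rfl, by decide⟩⟩

/-- The opposite letter. -/
def ng : Letter → Letter
  | none => none
  | some d => some (![1, 0, 3, 2] d)

theorem ng_ng (c : Letter) : ng (ng c) = c := by
  cases c with
  | none => rfl
  | some d => fin_cases d <;> rfl

theorem ng_injective : Function.Injective ng := fun c c' h => by
  have := congrArg ng h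
  rwa [ng_ng, ng_ng] at this

theorem lv_ng (c : Letter) : lv (ng c) = -lv c := by
  cases c with
  | none => rfl
  | some d => fin_cases d <;> rfl

theorem ng_eq_none {c : Letter} : ng c = none ↔ c = none := by
  cases c <;> simp [ng]

theorem disp_map_ng (x : List Letter) : disp (x.map ng) = -disp x := by
  induction x with
  | nil => simp
  | cons c x ih => rw [List.map_cons, disp_cons, disp_cons, ih, lv_ng, neg_add]

theorem brk_map_ng (x : List Letter) : brk (x.map ng) = brk x := by
  induction x with
  | nil => rfl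
  | cons c x ih =>
    cases c with
    | none => rw [List.map_cons, brk_none]; simp only [ng]; rw [brk_none, ih]
    | some d => rw [List.map_cons, brk_some]; simp only [ng]; rw [brk_some, ih]

theorem stp_map_ng (x : List Letter) : stp (x.map ng) = stp x := by
  induction x with
  | nil => rfl
  | cons c x ih =>
    cases c with
    | none => rw [List.map_cons, stp_none]; simp only [ng]; rw [stp_none, ih]
    | some d => rw [List.map_cons, stp_some]; simp only [ng]; rw [stp_some, ih]

theorem none_mem_map_ng {x : List Letter} : none ∈ x.map ng ↔ none ∈ x := by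
  rw [List.mem_map]
  constructor
  · rintro ⟨c, hc, h⟩
    rw [ng_eq_none] at h
    rwa [← h]
  · intro h
    exact ⟨none, h, rfl⟩

theorem runOK_map_ng {x : List Letter} (h : RunOK x) : RunOK (x.map ng) := by
  intro A u B h1 hu hu' h0
  obtain ⟨A', u1, rfl, hA, h2⟩ := List.map_eq_append_iff.1 h1
  obtain ⟨u', B', rfl, rfl, hB⟩ := List.map_eq_append_iff.1 h2
  refine h A' u' B' rfl (fun hn => hu (none_mem_map_ng.2 hn)) ?_ ?_
  · rintro rfl
    exact hu' rfl
  · rw [disp_map_ng] at h0
    exact neg_eq_zero.1 h0

/-- The letters of a list of steps. -/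
def lets (s : List P3) : List Letter := s.map hlet

/-- The signs of the vertical steps. -/
def sgn (s : List P3) : List Bool := s.filterMap sg

/-- All members are unit steps. -/
def Steps (s : List P3) : Prop := ∀ d ∈ s, IsStep d

theorem Steps.cons {d : P3} {s : List P3} (h : Steps (d :: s)) : IsStep d ∧ Steps s :=
  ⟨h d (by simp), fun e he => h e (List.mem_cons_of_mem _ he)⟩

@[simp] theorem lets_nil : lets [] = [] := rfl

@[simp] theorem lets_cons (d : P3) (s : List P3) : lets (d :: s) = hlet d :: lets s := rfl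

theorem lets_append (s t : List P3) : lets (s ++ t) = lets s ++ lets t := List.map_append

theorem sum_of_lets {s : List P3} (h : Steps s) : s.sum.1 = (disp (lets s)).1 ∧
    s.sum.2.1 = (disp (lets s)).2 := by
  induction s with
  | nil => exact ⟨rfl, rfl⟩
  | cons d s ih =>
    obtain ⟨hd, hs⟩ := h.cons
    obtain ⟨h1, h2⟩ := ih hs
    rw [List.sum_cons, lets_cons, disp_cons, Prod.fst_add, Prod.snd_add, Prod.fst_add,
      Prod.fst_add, Prod.snd_add, h1, h2]
    rcases hlet_cases hd with ⟨i, hi, hd', -⟩ | ⟨hi, ⟨hd', -⟩ | ⟨hd', -⟩⟩ <;>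
      rw [hi, hd'] <;> simp [lv]

theorem level_of_lets {s : List P3} (h : Steps s) (h0 : none ∉ lets s) : s.sum.2.2 = 0 := by
  induction s with
  | nil => rfl
  | cons d s ih =>
    obtain ⟨hd, hs⟩ := h.cons
    rw [lets_cons, List.mem_cons, not_or] at h0
    rw [List.sum_cons, Prod.snd_add, Prod.snd_add, ih hs h0.2]
    rcases hlet_cases hd with ⟨i, -, hd', -⟩ | ⟨hi, -⟩
    · rw [hd']; rfl
    · exact absurd hi.symm h0.1

theorem length_sgn {s : List P3} (h : Steps s) : (sgn s).length = brk (lets s) := by
  induction s with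
  | nil => rfl
  | cons d s ih =>
    obtain ⟨hd, hs⟩ := h.cons
    have ih := ih hs
    unfold sgn at ih ⊢
    rcases hlet_cases hd with ⟨i, hi, -, hg⟩ | ⟨hi, ⟨-, hg⟩ | ⟨-, hg⟩⟩
    · rw [lets_cons, hi, brk_some, List.filterMap_cons_none hg, ih]
    · rw [lets_cons, hi, brk_none, List.filterMap_cons_some hg, List.length_cons, ih]
    · rw [lets_cons, hi, brk_none, List.filterMap_cons_some hg, List.length_cons, ih]

/-- A list of steps is determined by its letters and its signs. -/
theorem steps_ext {s t : List P3} (hs : Steps s) (ht : Steps t) (h1 : lets s = lets t)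
    (h2 : sgn s = sgn t) : s = t := by
  induction s generalizing t with
  | nil =>
    cases t with
    | nil => rfl
    | cons e t => simp at h1
  | cons d s ih =>
    cases t with
    | nil => simp at h1
    | cons e t =>
      obtain ⟨hd, hs⟩ := hs.cons
      obtain ⟨he, ht⟩ := ht.cons
      rw [lets_cons, lets_cons, List.cons.injEq] at h1
      obtain ⟨h3, h4⟩ := h1
      unfold sgn at h2
      rcases hlet_cases hd with ⟨i, hi, hd', hg⟩ | ⟨hi, ⟨hd', hg⟩ | ⟨hd', hg⟩⟩ <;>
      rcases hlet_cases he with ⟨j, hj, he', hg'⟩ | ⟨hj, ⟨he', hg'⟩ | ⟨he', hg'⟩⟩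
      · rw [List.filterMap_cons_none hg, List.filterMap_cons_none hg'] at h2
        rw [hi, hj, Option.some.injEq] at h3
        rw [ih hs ht h4 h2, hd', he', h3]
      · rw [hi, hj] at h3; simp at h3
      · rw [hi, hj] at h3; simp at h3
      · rw [hi, hj] at h3; simp at h3
      · rw [List.filterMap_cons_some hg, List.filterMap_cons_some hg', List.cons.injEq] at h2
        rw [ih hs ht h4 h2.2, hd', he']
      · rw [List.filterMap_cons_some hg, List.filterMap_cons_some hg', List.cons.injEq] at h2
        simp at h2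
      · rw [hi, hj] at h3; simp at h3
      · rw [List.filterMap_cons_some hg, List.filterMap_cons_some hg', List.cons.injEq] at h2
        simp at h2
      · rw [List.filterMap_cons_some hg, List.filterMap_cons_some hg', List.cons.injEq] at h2
        rw [ih hs ht h4 h2.2, hd', he']

theorem Steps.append {s t : List P3} (h : Steps (s ++ t)) : Steps s ∧ Steps t :=
  ⟨fun d hd => h d (List.mem_append_left _ hd), fun d hd => h d (List.mem_append_right _ hd)⟩

/-- The runs of a self-avoiding walk are self-avoiding. -/
theorem runOK_lets {p : P3} {s : List P3} (hs : Steps s) (h : (wk p s).Nodup) : RunOK (lets s) := by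
  rw [nodup_wk] at h
  intro A u B h1 hu hu' h0
  obtain ⟨A', u1, rfl, hA, h2⟩ := List.map_eq_append_iff.1 h1
  obtain ⟨u', B', rfl, rfl, hB⟩ := List.map_eq_append_iff.1 h2
  have hu2 : Steps u' := (Steps.append (Steps.append hs).2).1
  refine h A' u' B' rfl (by rintro rfl; exact hu' rfl) ?_
  have h3 := sum_of_lets hu2
  have h4 := level_of_lets hu2 hu
  have h5 : disp (lets u') = 0 := h0
  rw [h5] at h3
  exact Prod.ext h3.1 (Prod.ext h3.2 h4)

theorem length_lets (s : List P3) : (lets s).length = s.length := List.length_map _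

/-- The word of a block: the letters of `α` with the opposite sign, a break, the letters of `β`. -/
def wordOf (sA sB : List P3) : List Letter := (lets sA).map ng ++ none :: lets sB

theorem brk_wordOf (sA sB : List P3) :
    brk (wordOf sA sB) = brk (lets sA) + brk (lets sB) + 1 := by
  rw [wordOf, brk_append, brk_none, brk_map_ng]; ring

theorem stp_wordOf (sA sB : List P3) : stp (wordOf sA sB) = stp (lets sA) + stp (lets sB) := by
  rw [wordOf, stp_append, stp_none, stp_map_ng]

theorem disp_wordOf (sA sB : List P3) :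
    disp (wordOf sA sB) = disp (lets sB) - disp (lets sA) := by
  rw [wordOf, disp_append, disp_cons, disp_map_ng, lv_none]; abel

theorem wordOf_inj {sA sB tA tB : List P3} (hsA : Steps sA) (hsB : Steps sB) (htA : Steps tA)
    (htB : Steps tB) (h0 : brk (lets sA) = brk (lets tA)) (h1 : wordOf sA sB = wordOf tA tB)
    (h2 : sgn sA ++ sgn sB = sgn tA ++ sgn tB) : sA = tA ∧ sB = tB := by
  unfold wordOf at h1
  have h3 : (lets sA).map ng = (lets tA).map ng :=
    prefix_unique h1 (by rw [brk_map_ng, brk_map_ng, h0])
  rw [h3] at h1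
  have h4 : lets sB = lets tB := (List.cons.inj (List.append_cancel_left h1)).2
  have h5 : lets sA = lets tA := List.map_injective_iff.2 ng_injective h3
  have h6 := List.append_inj h2 (by rw [length_sgn hsA, length_sgn htA, h0])
  exact ⟨steps_ext hsA htA h5 h6.1, steps_ext hsB htB h4 h6.2⟩

/-! ### Counting -/

/-- The pairs of lists of steps whose word lies in `S`. -/
def Pairs (S : Set (List Letter)) : Set (List P3 × List P3) :=
  {p | Steps p.1 ∧ Steps p.2 ∧ wordOf p.1 p.2 ∈ S}

theorem pairs_card {V : ℕ} {S : Set (List Letter)} (hS : S.Finite) (hb : ∀ x ∈ S, brk x = V + 1) :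
    (Pairs S).Finite ∧ (Pairs S).ncard ≤ (V + 1) * 2 ^ V * S.ncard := by
  classical
  let f : List P3 × List P3 → ℕ × (Fin V → Bool) × List Letter := fun p =>
    (brk (lets p.1), fun i => (sgn p.1 ++ sgn p.2).getD i false, wordOf p.1 p.2)
  set R : Finset (ℕ × (Fin V → Bool) × List Letter) :=
    Finset.range (V + 1) ×ˢ (Finset.univ ×ˢ hS.toFinset) with hR
  have hlen : ∀ p ∈ Pairs S, (sgn p.1 ++ sgn p.2).length = V := by
    rintro p ⟨h1, h2, h3⟩
    have := hb _ h3
    rw [brk_wordOf] at this
    rw [List.length_append, length_sgn h1, length_sgn h2]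
    omega
  have hmaps : Set.MapsTo f (Pairs S) R := by
    intro p hp
    have h4 := hlen p hp
    rw [List.length_append, length_sgn hp.1] at h4
    simp only [f, hR, Finset.coe_product, Set.mem_prod, Finset.mem_coe, Finset.mem_range,
      Finset.mem_univ, Set.Finite.mem_toFinset, true_and]
    exact ⟨by omega, hp.2.2⟩
  have hinj : Set.InjOn f (Pairs S) := by
    intro p hp q hq h
    simp only [f, Prod.mk.injEq] at h
    obtain ⟨h1, h2, h3⟩ := h
    have h4 : sgn p.1 ++ sgn p.2 = sgn q.1 ++ sgn q.2 := by
      refine List.ext_getElem (by rw [hlen p hp, hlen q hq]) fun i hi hi' => ?_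
      have h5 := congrFun h2 ⟨i, by rw [← hlen p hp]; exact hi⟩
      simp only at h5
      rwa [List.getD_eq_getElem _ _ hi, List.getD_eq_getElem _ _ hi'] at h5
    obtain ⟨h5, h6⟩ := wordOf_inj hp.1 hp.2.1 hq.1 hq.2.1 h1 h3 h4
    exact Prod.ext h5 h6
  have hfin : (Pairs S).Finite :=
    Set.Finite.of_finite_image ((Finset.finite_toSet R).subset (Set.mapsTo_iff_image_subset.1 hmaps))
      hinj
  refine ⟨hfin, ?_⟩
  have h1 := Set.ncard_le_ncard_of_injOn f hmaps hinj (Finset.finite_toSet R)
  rw [Set.ncard_coe_finset, hR, Finset.card_product, Finset.card_product, Finset.card_range,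
    Finset.card_univ, Fintype.card_fun, Fintype.card_bool, Fintype.card_fin,
    ← Set.ncard_eq_toFinset_card _ hS] at h1
  calc (Pairs S).ncard ≤ (V + 1) * (2 ^ V * S.ncard) := h1
    _ = _ := by ring

/-- The lists of steps whose letters form a word in `S`. -/
def Singles (S : Set (List Letter)) : Set (List P3) := {s | Steps s ∧ lets s ∈ S}

theorem singles_card {V : ℕ} {S : Set (List Letter)} (hS : S.Finite) (hb : ∀ x ∈ S, brk x = V) :
    (Singles S).Finite ∧ (Singles S).ncard ≤ 2 ^ V * S.ncard := by
  classical
  let f : List P3 → (Fin V → Bool) × List Letter := fun p =>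
    (fun i => (sgn p).getD i false, lets p)
  set R : Finset ((Fin V → Bool) × List Letter) := Finset.univ ×ˢ hS.toFinset with hR
  have hlen : ∀ p ∈ Singles S, (sgn p).length = V := by
    rintro p ⟨h1, h3⟩
    rw [length_sgn h1, hb _ h3]
  have hmaps : Set.MapsTo f (Singles S) R := by
    intro p hp
    simp only [f, hR, Finset.coe_product, Set.mem_prod, Finset.mem_coe,
      Finset.mem_univ, Set.Finite.mem_toFinset, true_and]
    exact hp.2
  have hinj : Set.InjOn f (Singles S) := by
    intro p hp q hq h
    simp only [f, Prod.mk.injEq] at h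
    obtain ⟨h2, h3⟩ := h
    have h4 : sgn p = sgn q := by
      refine List.ext_getElem (by rw [hlen p hp, hlen q hq]) fun i hi hi' => ?_
      have h5 := congrFun h2 ⟨i, by rw [← hlen p hp]; exact hi⟩
      simp only at h5
      rwa [List.getD_eq_getElem _ _ hi, List.getD_eq_getElem _ _ hi'] at h5
    exact steps_ext hp.1 hq.1 h3 h4
  have hfin : (Singles S).Finite :=
    Set.Finite.of_finite_image ((Finset.finite_toSet R).subset (Set.mapsTo_iff_image_subset.1 hmaps))
      hinj
  refine ⟨hfin, ?_⟩
  have h1 := Set.ncard_le_ncard_of_injOn f hmaps hinj (Finset.finite_toSet R)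
  rw [Set.ncard_coe_finset, hR, Finset.card_product,
    Finset.card_univ, Fintype.card_fun, Fintype.card_bool, Fintype.card_fin,
    ← Set.ncard_eq_toFinset_card _ hS] at h1
  exact h1

end Pool.Agent.KRing
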