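import Pool.Agent.KRing.Few
import Pool.Agent.KTen.Final

/-! The theorem on stretched polygons for every tension `y ≥ 4096`. -/

set_option autoImplicit false

open Pool.Agent.LK Set Filter Topology

namespace Pool.Agent.KRing

open Pool.Agent.KTube
open Pool.Agent.KTen (Zt NSet ES Few numTwo numStr IsStr)

theorem numStr_le (E : ES) : numStr E ≤ numTwo E :=
  Set.ncard_le_ncard (fun _ hk => hk.1) (KTen.isTwo_finite E)

/-- At least one half of the unknotted polygons have many sections with two edges. -/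
theorem two_half {y : ℝ} (hy : 4096 ≤ y) : ∃ n0 : ℕ, ∀ n ≥ n0,
    Zt y UClass n ≤ 2 * Zt y (fun E => UClass E ∧ n / 8 ≤ numTwo E) n := by
  obtain ⟨n0, hn0⟩ := str_half hy
  have hy0 : 0 ≤ y := by linarith
  refine ⟨n0, fun n hn => (hn0 n hn).trans ?_⟩
  refine mul_le_mul_of_nonneg_left (KTen.zt_mono hy0 ?_ n) (by norm_num)
  rintro E - ⟨h1, h2⟩
  have := numStr_le E
  exact ⟨h1, by omega⟩

/-- **The lower bound.** -/
theorem lower {y : ℝ} (hy : 4096 ≤ y) {K : ES} (hK : IsPolygon K) (nK : ¬ Unknotted K) :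
    ∃ δ : ℝ, 0 < δ ∧ ∃ n0 : ℕ, ∀ n ≥ n0, δ * n * Zt y UClass n ≤ Zt y (KClass K) n := by
  have hy0 : 0 ≤ y := by linarith
  have hy1 : 1 ≤ y := by linarith
  obtain ⟨x, hx1, rfl⟩ : ∃ x : ℝ, 1 ≤ x ∧ y = x ^ 2 :=
    ⟨Real.sqrt y, one_le_sqrt' hy1, (Real.sq_sqrt hy0).symm⟩
  obtain ⟨K0, h, z, hT, hL⟩ := KTen.exists_leftOf hK
  have nK0 : ¬ Unknotted K0 := fun h0 => nK (hT.unknotted h0)
  have hh : 1 ≤ h := by
    have h1 := hL.lev _ (left_mem_verts hL.edge)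
    simp only at h1
    omega
  obtain ⟨A, hA, hup⟩ := ratio_up hy
  obtain ⟨n1, hn1⟩ := two_half hy
  obtain ⟨c0, hc0⟩ := even_card hL.poly
  set B : ℝ := (4 * x ^ 2) ^ (h + c0) with hB
  have hB0 : 0 < B := by positivity
  have hh0 : (0 : ℝ) < h := by exact_mod_cast hh
  refine ⟨1 / (64 * h * A * B), by positivity, n1 + 4 + 2 * (h + c0) + 2 * (h + c0) + 28, ?_⟩
  intro m hm
  by_cases hev : Even m
  swap
  · rw [KTen.u_odd hev, mul_zero]
    exact KTen.zt_nonneg hy0 _ _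
  obtain ⟨n, rfl⟩ : ∃ n, m = n + 2 * (h + c0) := ⟨m - 2 * (h + c0), by omega⟩
  have hevn : Even n := by
    rw [Nat.even_add] at hev
    exact hev.2 (even_two_mul _)
  have h1 := hn1 n (by omega)
  have h2 := KTen.insert_le hL nK0 hx1 n (n / 8)
  have h3 := hup n hevn (by omega) (h + c0)
  have h4 : n + 2 * h + K0.card = n + 2 * (h + c0) := by omega
  rw [h4] at h2
  have h5 : Zt (x ^ 2) (KClass K0) (n + 2 * (h + c0)) ≤
      Zt (x ^ 2) (KClass K) (n + 2 * (h + c0)) :=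
    KTen.zt_mono hy0 (fun E _ h6 => ⟨h6.1, hT.trans h6.2⟩) _
  have h6 : ((n + 2 * (h + c0) : ℕ) : ℝ) ≤ 32 * ((n / 8 : ℕ) : ℝ) := by
    have : n + 2 * (h + c0) ≤ 32 * (n / 8) := by omega
    exact_mod_cast this
  set U := Zt (x ^ 2) UClass n
  set U' := Zt (x ^ 2) UClass (n + 2 * (h + c0))
  set V := Zt (x ^ 2) (fun E => UClass E ∧ n / 8 ≤ numTwo E) n
  set W := Zt (x ^ 2) (KClass K0) (n + 2 * (h + c0))
  have hV0 : 0 ≤ V := KTen.zt_nonneg hy0 _ _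
  have hU0 : 0 ≤ U := KTen.zt_nonneg hy0 _ _
  have hU0' : 0 ≤ U' := KTen.zt_nonneg hy0 _ _
  have hq : (0 : ℝ) ≤ ((n / 8 : ℕ) : ℝ) := Nat.cast_nonneg _
  have h7 : (1 : ℝ) ≤ x ^ (2 * h) := one_le_pow₀ hx1
  have h8 : ((n / 8 : ℕ) : ℝ) * V ≤ h * W := by
    refine le_trans ?_ h2
    have : 0 ≤ ((n / 8 : ℕ) : ℝ) * V := mul_nonneg hq hV0
    nlinarith
  have h9 : ((n / 8 : ℕ) : ℝ) * U' ≤ A * B * (2 * (h * W)) := by
    calc ((n / 8 : ℕ) : ℝ) * U' ≤ ((n / 8 : ℕ) : ℝ) * (A * B * U) :=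
          mul_le_mul_of_nonneg_left h3 hq
      _ ≤ ((n / 8 : ℕ) : ℝ) * (A * B * (2 * V)) := by
          refine mul_le_mul_of_nonneg_left (mul_le_mul_of_nonneg_left h1 (by positivity)) hq
      _ = A * B * (2 * (((n / 8 : ℕ) : ℝ) * V)) := by ring
      _ ≤ A * B * (2 * (h * W)) :=
          mul_le_mul_of_nonneg_left (mul_le_mul_of_nonneg_left h8 (by norm_num)) (by positivity)
  refine le_trans ?_ h5
  have h10 : 0 < 64 * (h : ℝ) * A * B := by positivity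
  rw [one_div, mul_assoc, inv_mul_le_iff₀ h10]
  calc ((n + 2 * (h + c0) : ℕ) : ℝ) * U' ≤ 32 * ((n / 8 : ℕ) : ℝ) * U' :=
        mul_le_mul_of_nonneg_right h6 hU0'
    _ = 32 * (((n / 8 : ℕ) : ℝ) * U') := by ring
    _ ≤ 32 * (A * B * (2 * (h * W))) := mul_le_mul_of_nonneg_left h9 (by norm_num)
    _ = 64 * h * A * B * W := by ring

/-- The type of an unknotted polygon. -/
theorem zt_kclass_unknotted {K : ES} (uK : Unknotted K) (y : ℝ) (n : ℕ) :
    Zt y (KClass K) n = Zt y UClass n := by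
  have hset : NSet (KClass K) n = NSet UClass n := by
    ext E
    constructor
    · rintro ⟨h1, h2, h3, h4⟩
      exact ⟨h1, ⟨h1, KTen.hinv_few 0 K E h2.2 uK⟩, h3, h4⟩
    · rintro ⟨h1, h2, h3, h4⟩
      obtain ⟨φ, hφ⟩ := uK
      obtain ⟨ψ, hψ⟩ := h2.2
      refine ⟨h1, ⟨h1, φ.trans ψ.symm, ?_⟩, h3, h4⟩
      have e1 : (φ.trans ψ.symm) '' body K = ψ.symm '' (φ '' body K) := by
        rw [← Set.image_comp]
        rfl
      rw [e1, hφ, ← hψ, ← Set.image_comp]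
      have e2 : (⇑ψ.symm ∘ ⇑ψ) = id := by
        funext p
        exact ψ.symm_apply_apply p
      rw [e2, Set.image_id]
  unfold Zt
  rw [hset]

/-- **Stretched polygons**, every tension `y ≥ 4096`. -/
theorem main {y : ℝ} (hy : 4096 ≤ y) :
    (∃ μ : ℝ, 0 < μ ∧
      Tendsto (fun k : ℕ => Zt y UClass (2 * k) ^ (((2 * k : ℕ) : ℝ)⁻¹)) atTop (𝓝 μ) ∧
      ∀ (K : ES) (N : ℕ), IsPolygon K → Few N K →
        Tendsto (fun k : ℕ => Zt y (KClass K) (2 * k) ^ (((2 * k : ℕ) : ℝ)⁻¹)) atTop (𝓝 μ)) ∧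
    (∀ N : ℕ, ∃ D : ℝ, ∀ n, Zt y (Few N) n ≤ D * (n : ℝ) ^ N * Zt y UClass n) ∧
    (∀ K : ES, IsPolygon K → ¬ Unknotted K → ∃ δ : ℝ, 0 < δ ∧ ∃ n0 : ℕ, ∀ n ≥ n0,
      δ * n * Zt y UClass n ≤ Zt y (KClass K) n) := by
  have hy0 : (0 : ℝ) ≤ y := by linarith
  have hy1 : (1 : ℝ) ≤ y := by linarith
  refine ⟨?_, fun N => ?_, fun K hK nK => lower hy hK nK⟩
  · obtain ⟨μ, hμ, hlim⟩ := KTen.exists_mu (one_le_sqrt' hy1)
    rw [sqrt_sq' hy0] at hlim
    refine ⟨μ, hμ, hlim, fun K N hK hN => ?_⟩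
    by_cases uK : Unknotted K
    · simp only [zt_kclass_unknotted uK]
      exact hlim
    · obtain ⟨D, hD0, hD⟩ := few_le hy N
      obtain ⟨δ, hδ, n0, hn0⟩ := lower hy hK uK
      refine KTen.rate_of_bounds (D := D) (δ := δ) (N := N) hμ hδ hlim
        (fun k hk => u_pos hy1 (even_two_mul k) (by omega)) ?_ ?_
      · refine Eventually.of_forall fun k => ?_
        refine le_trans (KTen.zt_mono hy0 (fun E hE hC => ?_) (2 * k)) (hD (2 * k))
        exact KTen.hinv_few N K E hC.2 hN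
      · filter_upwards [eventually_ge_atTop (max n0 1)] with k hk
        have hk1 : n0 ≤ k := le_trans (le_max_left _ _) hk
        have hk2 : 1 ≤ k := le_trans (le_max_right _ _) hk
        refine le_trans ?_ (hn0 (2 * k) (by omega))
        have hU := KTen.zt_nonneg hy0 UClass (2 * k)
        have h1 : (1 : ℝ) ≤ ((2 * k : ℕ) : ℝ) := by exact_mod_cast (by omega : 1 ≤ 2 * k)
        calc δ * Zt y UClass (2 * k) = δ * 1 * Zt y UClass (2 * k) := by
              rw [mul_one]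
          _ ≤ δ * ((2 * k : ℕ) : ℝ) * Zt y UClass (2 * k) :=
              mul_le_mul_of_nonneg_right (mul_le_mul_of_nonneg_left h1 hδ.le) hU
  · obtain ⟨D, _, hD⟩ := few_le hy N
    exact ⟨D, hD⟩

end Pool.Agent.KRing
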