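import Pool.Agent.KRing.Encode

/-! The number of vertical edges of a part of a polygon without sections with two edges. -/

set_option autoImplicit false

open Pool.Agent.LK

namespace Pool.Agent.KRing

open Pool.Agent.KTube
open Pool.Agent.LatticeTube (pedges mem_pedges mem_of_mem_pedges)

variable {E F : Finset (Sym2 P3)} {k k' : ℤ} {a b a' b' v w : ℤ × ℤ} {r l r' l' A B : List P3}

/-- Vertical edges. -/
def IsLeg (e : Sym2 P3) : Prop := ∃ (c : ℤ × ℤ) (j : ℤ), e = leg c j

open Classical in
/-- The vertical edges of a set. -/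
noncomputable def legsF (W : Finset (Sym2 P3)) : Finset (Sym2 P3) := W.filter IsLeg

theorem mem_legsF {W : Finset (Sym2 P3)} {e : Sym2 P3} : e ∈ legsF W ↔ e ∈ W ∧ IsLeg e := by
  classical
  unfold legsF
  rw [Finset.mem_filter]

/-- The vertical edges of a walk. -/
noncomputable def legs (l : List P3) : Finset (Sym2 P3) := legsF (pedges l)

theorem mem_legs {l : List P3} {e : Sym2 P3} : e ∈ legs l ↔ e ∈ pedges l ∧ IsLeg e := mem_legsF

theorem legs_reverse (l : List P3) : legs l.reverse = legs l := by
  ext e
  rw [mem_legs, mem_legs, mem_pedges_reverse]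

theorem isLeg_iff {p d : P3} (hd : IsStep d) : IsLeg s(p, p + d) ↔ hlet d = none := by
  constructor
  · rintro ⟨c, j, h⟩
    unfold leg at h
    rw [Sym2.eq_iff] at h
    rcases hlet_cases hd with ⟨i, hi, hd', -⟩ | ⟨hi, -⟩
    · exfalso
      have h2 : (p + d).2.2 = p.2.2 := by rw [hd']; simp
      rcases h with ⟨h3, h4⟩ | ⟨h3, h4⟩
      · rw [h4, h3] at h2; simp at h2
      · rw [h4, h3] at h2; simp at h2
    · exact hi
  · intro h
    rcases hlet_cases hd with ⟨i, hi, -, -⟩ | ⟨-, ⟨hd', -⟩ | ⟨hd', -⟩⟩
    · rw [h] at hi; simp at hi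
    · refine ⟨(p.1, p.2.1), p.2.2, ?_⟩
      have e1 : p + d = (p.1, p.2.1, p.2.2 + 1) := by
        rw [hd']
        refine Prod.ext ?_ (Prod.ext ?_ rfl) <;> simp
      rw [e1]
      rfl
    · refine ⟨(p.1, p.2.1), p.2.2 - 1, ?_⟩
      have e1 : p + d = (p.1, p.2.1, p.2.2 - 1) := by
        rw [hd']
        refine Prod.ext ?_ (Prod.ext ?_ rfl) <;> simp
      have e2 : p = (p.1, p.2.1, p.2.2 - 1 + 1) := by
        refine Prod.ext rfl (Prod.ext rfl ?_)
        simp
      rw [e1]
      unfold leg
      rw [Sym2.eq_swap, ← e2]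

/-- The number of vertical edges is the number of breaks. -/
theorem card_legs {p : P3} {s : List P3} (hs : Steps s) (h : (wk p s).Nodup) :
    (legs (wk p s)).card = brk (lets s) := by
  classical
  induction s generalizing p with
  | nil =>
    have : legs (wk p []) = ∅ := by
      ext e
      rw [mem_legs]
      simp [LatticeTube.pedges]
    rw [this]; rfl
  | cons d s ih =>
    obtain ⟨hd, hs⟩ := hs.cons
    rw [wk_cons, List.nodup_cons] at h
    have ih := ih hs h.2 (p := p + d)
    have hmem : ∀ e, e ∈ pedges (wk p (d :: s)) ↔ e = s(p, p + d) ∨ e ∈ pedges (wk (p + d) s) := by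
      intro e
      have h1 : wk p (d :: s) = [p] ++ wk (p + d) s := rfl
      rw [h1, mem_pedges_cat (a := p) rfl (head_wk _ _)]
      simp [LatticeTube.pedges]
    have hnot : s(p, p + d) ∉ legs (wk (p + d) s) := by
      intro h2
      exact h.1 (mem_of_mem_pedges (mem_legs.1 h2).1).1
    by_cases h3 : hlet d = none
    · have h4 : legs (wk p (d :: s)) = insert s(p, p + d) (legs (wk (p + d) s)) := by
        ext e
        rw [mem_legs, Finset.mem_insert, mem_legs, hmem]
        constructor
        · rintro ⟨rfl | h5, h6⟩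
          · exact Or.inl rfl
          · exact Or.inr ⟨h5, h6⟩
        · rintro (rfl | ⟨h5, h6⟩)
          · exact ⟨Or.inl rfl, (isLeg_iff hd).2 h3⟩
          · exact ⟨Or.inr h5, h6⟩
      rw [h4, Finset.card_insert_of_notMem hnot, ih, lets_cons, h3, brk_none]
    · have h4 : legs (wk p (d :: s)) = legs (wk (p + d) s) := by
        ext e
        rw [mem_legs, mem_legs, hmem]
        constructor
        · rintro ⟨rfl | h5, h6⟩
          · exact absurd ((isLeg_iff hd).1 h6) h3
          · exact ⟨h5, h6⟩
        · rintro ⟨h5, h6⟩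
          exact ⟨Or.inr h5, h6⟩
      obtain ⟨i, hi⟩ := Option.ne_none_iff_exists'.1 h3
      rw [h4, ih, lets_cons, hi, brk_some]

/-- Planes with at least four vertical edges. -/
theorem four_mul_le {W : Finset (Sym2 P3)} {P : Finset ℤ}
    (h : ∀ j ∈ P, 4 ≤ {c | leg c j ∈ W}.ncard) : 4 * P.card ≤ (legsF W).card := by
  classical
  have hfin : ∀ j, {c | leg c j ∈ W}.Finite := by
    intro j
    refine Set.Finite.of_finite_image (f := fun c => leg c j) ?_ ?_
    · refine (Finset.finite_toSet W).subset ?_
      rintro _ ⟨c, hc, rfl⟩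
      exact hc
    · intro c _ c' _ hcc
      exact (leg_inj hcc).1
  let f : ℤ → Finset (Sym2 P3) := fun j => (hfin j).toFinset.image fun c => leg c j
  have h1 : P.biUnion f ⊆ legsF W := by
    intro e he
    rw [Finset.mem_biUnion] at he
    obtain ⟨j, -, he⟩ := he
    obtain ⟨c, hc, rfl⟩ := Finset.mem_image.1 he
    rw [Set.Finite.mem_toFinset] at hc
    exact mem_legsF.2 ⟨hc, c, j, rfl⟩
  have h2 : (P.biUnion f).card = ∑ j ∈ P, (f j).card := by
    refine Finset.card_biUnion fun i _ j _ hij => ?_
    rw [Function.onFun, Finset.disjoint_left]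
    intro e he he'
    obtain ⟨c, -, rfl⟩ := Finset.mem_image.1 he
    obtain ⟨c', -, h3⟩ := Finset.mem_image.1 he'
    exact hij (leg_inj h3).2.symm
  have h3 : ∀ j ∈ P, 4 ≤ (f j).card := by
    intro j hj
    have h4 : (f j).card = {c | leg c j ∈ W}.ncard := by
      rw [Finset.card_image_of_injective _ (fun c c' hcc => (leg_inj hcc).1),
        ← Set.ncard_eq_toFinset_card _ (hfin j)]
    rw [h4]
    exact h j hj
  have h5 := Finset.sum_le_sum h3
  rw [Finset.sum_const, smul_eq_mul, ← h2] at h5
  have h6 := Finset.card_le_card h1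
  calc 4 * P.card = P.card * 4 := mul_comm _ _
    _ ≤ _ := h5.trans h6

/-- A section that is neither empty nor has two edges has at least four. -/
theorem four_le (hE : IsPolygon E) {j : ℤ} (hne : (cross E j).Nonempty) (h2 : ¬ IsTwo E j) :
    4 ≤ (cross E j).ncard := by
  have h3 := even_cross hE j
  rw [Nat.even_iff] at h3
  have h4 : 0 < (cross E j).ncard := (Set.ncard_pos (cross_finite E j)).2 hne
  have h5 : (cross E j).ncard ≠ 2 := h2
  omega

/-- The height of a block without sections with two edges. -/
theorem Block.height (hb : Block k k' a b a' b' A B) (hab : a ≠ b) (hr : Upper k' a' b' r)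
    (hl : Lower k a b l) {sA sB : List P3} (hA : A = wk (a.1, a.2, k + 1) sA)
    (hB : B = (wk (b.1, b.2, k + 1) sB).reverse) (hsA : Steps sA) (hsB : Steps sB)
    (h2 : ∀ j, k < j → j < k' → ¬ IsTwo (ring ((A ++ (r ++ B)) ++ l)) j) :
    4 * ((k' - k).toNat - 1) ≤ brk (lets sA) + brk (lets sB) := by
  classical
  have hP : IsPolygon (ring ((A ++ (r ++ B)) ++ l)) := (ring_of hab (hb.upper hr) hl).isPolygon
  have h3 : ∀ j ∈ Finset.Ico (k + 1) k', 4 ≤ {c | leg c j ∈ pedges A ∪ pedges B}.ncard := by
    intro j hj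
    rw [Finset.mem_Ico] at hj
    have h4 : {c | leg c j ∈ pedges A ∪ pedges B} = cross (ring ((A ++ (r ++ B)) ++ l)) j := by
      rw [hb.cross_mid hr hl (by omega) hj.2]
      ext c
      simp
    rw [h4]
    refine four_le hP ?_ (h2 j (by omega) hj.2)
    rw [← h4]
    obtain ⟨c, hc⟩ := mem_planes hb.chainA hb.headA (List.mem_of_getLast? hb.lastA)
      (j := j) (by simp only; omega) (by simp only; omega)
    exact ⟨c, Finset.mem_union_left _ hc⟩
  have h4 := four_mul_le h3
  rw [Int.card_Ico] at h4
  have h5 : legsF (pedges A ∪ pedges B) = legs A ∪ legs B := by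
    ext e
    rw [mem_legsF, Finset.mem_union, Finset.mem_union, mem_legs, mem_legs]
    tauto
  have h6 : (legs A ∪ legs B).card ≤ brk (lets sA) + brk (lets sB) := by
    refine (Finset.card_union_le _ _).trans ?_
    have e1 : (legs A).card = brk (lets sA) := by
      rw [hA]
      exact card_legs hsA (hA ▸ hb.nodupA)
    have e2 : (legs B).card = brk (lets sB) := by
      rw [hB, legs_reverse]
      refine card_legs hsB ?_
      have := hb.nodupB
      rwa [hB, List.nodup_reverse] at this
    rw [e1, e2]
  rw [h5] at h4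
  have h8 : (k' - (k + 1)).toNat = (k' - k).toNat - 1 := by
    have := hb.lt
    omega
  rw [h8] at h4
  exact h4.trans h6

/-- The height of a lower part without sections with two edges. -/
theorem lower_height (hab : a ≠ b) (hr : Upper k a b r) (hl : Lower k a b l) {p : P3}
    {s : List P3} (hls : l.reverse = wk p s) (hs : Steps s)
    (h2 : ∀ j, j < k → ¬ IsTwo (ring (r ++ l)) j) : 4 * lspan l ≤ brk (lets s) := by
  classical
  have hP : IsPolygon (ring (r ++ l)) := (ring_of hab hr hl).isPolygon
  have h3 : ∀ j ∈ (planes_finite' l).toFinset, 4 ≤ {c | leg c j ∈ pedges l}.ncard := by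
    intro j hj
    rw [Set.Finite.mem_toFinset] at hj
    obtain ⟨c, hc⟩ := hj
    have hjk : j < k := by
      have := (pedges_lev hl.lev hc).2
      simp only at this
      omega
    have h4 : {c | leg c j ∈ pedges l} = cross (ring (r ++ l)) j := by
      ext c
      exact (cross_ring_low hr hl hjk).symm
    rw [h4]
    exact four_le hP (by rw [← h4]; exact ⟨c, hc⟩) (h2 j hjk)
  have h4 := four_mul_le h3
  have h5 : (legs l).card = brk (lets s) := by
    rw [← legs_reverse, hls]
    refine card_legs hs ?_
    rw [← hls, List.nodup_reverse]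
    exact hl.nodup
  have h6 : lspan l = (planes_finite' l).toFinset.card := Set.ncard_eq_toFinset_card _ _
  rw [h6, ← h5]
  exact h4

/-- The height of an upper part without sections with two edges. -/
theorem upper_height (hab : a ≠ b) (hr : Upper k a b r) (hl : Lower k a b l) {p : P3}
    {s : List P3} (hls : r.reverse = wk p s) (hs : Steps s)
    (h2 : ∀ j, k < j → ¬ IsTwo (ring (r ++ l)) j) : 4 * lspan r ≤ brk (lets s) := by
  classical
  have hP : IsPolygon (ring (r ++ l)) := (ring_of hab hr hl).isPolygon
  have h3 : ∀ j ∈ (planes_finite' r).toFinset, 4 ≤ {c | leg c j ∈ pedges r}.ncard := by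
    intro j hj
    rw [Set.Finite.mem_toFinset] at hj
    obtain ⟨c, hc⟩ := hj
    have hjk : k < j := by
      have := (pedges_lev hr.lev hc).1
      simp only at this
      omega
    have h4 : {c | leg c j ∈ pedges r} = cross (ring (r ++ l)) j := by
      ext c
      exact (cross_ring_upp hr hl hjk).symm
    rw [h4]
    exact four_le hP (by rw [← h4]; exact ⟨c, hc⟩) (h2 j hjk)
  have h4 := four_mul_le h3
  have h5 : (legs r).card = brk (lets s) := by
    rw [← legs_reverse, hls]
    refine card_legs hs ?_
    rw [← hls, List.nodup_reverse]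
    exact hr.nodup
  have h6 : lspan r = (planes_finite' r).toFinset.card := Set.ncard_eq_toFinset_card _ _
  rw [h6, ← h5]
  exact h4

end Pool.Agent.KRing
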