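import Pool.Agent.KRing.Walk

/-! The part of a polygon between two sections with two edges. -/

set_option autoImplicit false

open Pool.Agent.LK

namespace Pool.Agent.KRing

open Pool.Agent.KTube
open Pool.Agent.LatticeTube (pedges mem_pedges mem_of_mem_pedges)

variable {E F : Finset (Sym2 P3)} {k k' : ℤ} {a b a' b' : ℤ × ℤ} {r l r' l' A B : List P3}

/-- The part of a polygon between the planes `z = k + 1/2` and `z = k' + 1/2`: a walk `A` from the
column `a` to the column `a'` and a walk `B` from the column `b'` to the column `b`. -/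
structure Block (k k' : ℤ) (a b a' b' : ℤ × ℤ) (A B : List P3) : Prop where
  lt : k < k'
  nodupA : A.Nodup
  nodupB : B.Nodup
  disj : ∀ u ∈ A, u ∉ B
  chainA : A.IsChain Adj
  chainB : B.IsChain Adj
  headA : A.head? = some (a.1, a.2, k + 1)
  lastA : A.getLast? = some (a'.1, a'.2, k')
  headB : B.head? = some (b'.1, b'.2, k')
  lastB : B.getLast? = some (b.1, b.2, k + 1)
  levA : ∀ u ∈ A, k + 1 ≤ u.2.2 ∧ u.2.2 ≤ k'
  levB : ∀ u ∈ B, k + 1 ≤ u.2.2 ∧ u.2.2 ≤ k'

theorem Block.upper (hb : Block k k' a b a' b' A B) (hr : Upper k' a' b' r) :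
    Upper k a b (A ++ (r ++ B)) := by
  have hlt := hb.lt
  refine ⟨?_, ?_, ?_, ?_, ?_⟩
  · refine List.nodup_append.2 ⟨hb.nodupA, List.nodup_append.2 ⟨hr.nodup, hb.nodupB, ?_⟩, ?_⟩
    · intro u hu v hv huv
      subst huv
      have := hr.lev u hu
      have := hb.levB u hv
      omega
    · intro u hu v hv huv
      subst huv
      rcases List.mem_append.1 hv with h | h
      · have := hr.lev u h
        have := hb.levA u hu
        omega
      · exact hb.disj u hu h
  · refine hb.chainA.append (hr.chain.append hb.chainB ?_) ?_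
    · intro x hx y hy
      rw [hr.last] at hx
      rw [hb.headB] at hy
      simp only [Option.mem_def, Option.some.injEq] at hx hy
      subst hx hy
      exact (adj_leg b' k').symm
    · intro x hx y hy
      rw [hb.lastA] at hx
      rw [List.head?_append, hr.head] at hy
      simp only [Option.some_or, Option.mem_def, Option.some.injEq] at hx hy
      subst hx hy
      exact adj_leg a' k'
  · rw [List.head?_append, hb.headA]; rfl
  · rw [List.getLast?_append, List.getLast?_append, hb.lastB]; rfl
  · intro u hu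
    rcases List.mem_append.1 hu with h | h
    · exact (hb.levA u h).1
    · rcases List.mem_append.1 h with h | h
      · have := hr.lev u h; omega
      · exact (hb.levB u h).1

theorem Block.lower (hb : Block k k' a b a' b' A B) (hl : Lower k a b l) :
    Lower k' a' b' (B ++ (l ++ A)) := by
  have hlt := hb.lt
  refine ⟨?_, ?_, ?_, ?_, ?_⟩
  · refine List.nodup_append.2 ⟨hb.nodupB, List.nodup_append.2 ⟨hl.nodup, hb.nodupA, ?_⟩, ?_⟩
    · intro u hu v hv huv
      subst huv
      have := hl.lev u hu
      have := hb.levA u hv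
      omega
    · intro u hu v hv huv
      subst huv
      rcases List.mem_append.1 hv with h | h
      · have := hl.lev u h
        have := hb.levB u hu
        omega
      · exact hb.disj u h hu
  · refine hb.chainB.append (hl.chain.append hb.chainA ?_) ?_
    · intro x hx y hy
      rw [hl.last] at hx
      rw [hb.headA] at hy
      simp only [Option.mem_def, Option.some.injEq] at hx hy
      subst hx hy
      exact adj_leg a k
    · intro x hx y hy
      rw [hb.lastB] at hx
      rw [List.head?_append, hl.head] at hy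
      simp only [Option.some_or, Option.mem_def, Option.some.injEq] at hx hy
      subst hx hy
      exact (adj_leg b k).symm
  · rw [List.head?_append, hb.headB]; rfl
  · rw [List.getLast?_append, List.getLast?_append, hb.lastA]; rfl
  · intro u hu
    rcases List.mem_append.1 hu with h | h
    · exact (hb.levB u h).2
    · rcases List.mem_append.1 h with h | h
      · have := hl.lev u h; omega
      · exact (hb.levA u h).2

theorem leg_swap (a : ℤ × ℤ) (k : ℤ) :
    (s((a.1, a.2, k + 1), (a.1, a.2, k)) : Sym2 P3) = leg a k := by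
  rw [Sym2.eq_swap]; rfl

theorem leg_def (a : ℤ × ℤ) (k : ℤ) :
    (s((a.1, a.2, k), (a.1, a.2, k + 1)) : Sym2 P3) = leg a k := rfl

/-- The edges of the upper half composed of a block and an upper half. -/
theorem Block.mem_upper (hb : Block k k' a b a' b' A B) (hr : Upper k' a' b' r) {e : Sym2 P3} :
    e ∈ pedges (A ++ (r ++ B)) ↔
      e ∈ pedges A ∨ e ∈ pedges B ∨ e ∈ pedges r ∨ e = leg a' k' ∨ e = leg b' k' := by
  have h1 : (r ++ B).head? = some (a'.1, a'.2, k' + 1) := by
    rw [List.head?_append, hr.head]; rfl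
  rw [mem_pedges_cat hb.lastA h1, mem_pedges_cat hr.last hb.headB, leg_swap, leg_def]
  tauto

theorem Block.mem_lower (hb : Block k k' a b a' b' A B) (hl : Lower k a b l) {e : Sym2 P3} :
    e ∈ pedges (B ++ (l ++ A)) ↔
      e ∈ pedges A ∨ e ∈ pedges B ∨ e ∈ pedges l ∨ e = leg a k ∨ e = leg b k := by
  have h1 : (l ++ A).head? = some (b.1, b.2, k) := by
    rw [List.head?_append, hl.head]; rfl
  rw [mem_pedges_cat hb.lastB h1, mem_pedges_cat hl.last hb.headA, leg_swap, leg_def]
  tauto

theorem Block.ring_rotate (hb : Block k k' a b a' b' A B) (hr : Upper k' a' b' r)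
    (hl : Lower k a b l) : ring ((A ++ (r ++ B)) ++ l) = ring (r ++ (B ++ (l ++ A))) := by
  ext e
  rw [mem_ring_of (hb.upper hr) hl, mem_ring_of hr (hb.lower hl), hb.mem_upper hr, hb.mem_lower hl]
  tauto

theorem Block.cross_mid (hb : Block k k' a b a' b' A B) (hr : Upper k' a' b' r)
    (hl : Lower k a b l) {j : ℤ} (hj : k < j) (hj' : j < k') :
    cross (ring ((A ++ (r ++ B)) ++ l)) j = {c | leg c j ∈ pedges A ∨ leg c j ∈ pedges B} := by
  ext c
  rw [cross_ring_upp (hb.upper hr) hl hj, hb.mem_upper hr, Set.mem_ofPred_eq]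
  constructor
  · rintro (h | h | h | h | h)
    · exact Or.inl h
    · exact Or.inr h
    · have := (pedges_lev hr.lev h).1
      simp only at this
      omega
    · have := (leg_inj h).2; omega
    · have := (leg_inj h).2; omega
  · rintro (h | h)
    · exact Or.inl h
    · exact Or.inr (Or.inl h)

theorem Block.cross_top (hb : Block k k' a b a' b' A B) (hr : Upper k' a' b' r)
    (hl : Lower k a b l) : cross (ring ((A ++ (r ++ B)) ++ l)) k' = {a', b'} := by
  rw [hb.ring_rotate hr hl]
  exact cross_ring_of hr (hb.lower hl)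

/-! ### Decomposition -/

/-- The part of a list before the first element outside `P`. -/
theorem split_while {P : P3 → Prop} : ∀ (l : List P3) (x : P3), l.head? = some x → P x →
    (∃ y ∈ l, ¬ P y) → ∃ (l1 l2 : List P3) (u v : P3), l = (l1 ++ [u]) ++ (v :: l2) ∧
      (∀ w ∈ l1 ++ [u], P w) ∧ ¬ P v
  | [], x, h, _, _ => by simp at h
  | [y], x, h, hx, ⟨z, hz, hz'⟩ => by
    simp only [List.head?_cons, Option.some.injEq] at h
    simp only [List.mem_singleton] at hz
    subst h hz
    exact absurd hx hz'
  | y :: y' :: l, x, h, hx, ⟨z, hz, hz'⟩ => by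
    simp only [List.head?_cons, Option.some.injEq] at h
    subst h
    by_cases hy : P y'
    · have hz2 : z ∈ y' :: l := by
        rcases List.mem_cons.1 hz with rfl | h1
        · exact absurd hx hz'
        · exact h1
      obtain ⟨l1, l2, u, v, h1, h2, h3⟩ := split_while (y' :: l) y' rfl hy ⟨z, hz2, hz'⟩
      refine ⟨y :: l1, l2, u, v, by rw [h1]; rfl, ?_, h3⟩
      intro w hw
      rcases List.mem_cons.1 (List.cons_append ▸ hw) with rfl | h4
      · exact hx
      · exact h2 w h4
    · refine ⟨[], l, y, y', rfl, ?_, hy⟩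
      intro w hw
      simp only [List.nil_append, List.mem_singleton] at hw
      subst hw
      exact hx

theorem chain_mid {l1 l2 : List P3} {u v : P3} (h : ((l1 ++ [u]) ++ (v :: l2)).IsChain Adj) :
    Adj u v := by
  rw [List.append_assoc, List.isChain_append] at h
  exact (List.isChain_cons_cons.1 h.2.1).1

/-- **The block between two sections with two edges.** -/
theorem exists_block (hr : Upper k a b r) (hl : Lower k a b l) (hk : k < k')
    (h2 : IsTwo (ring (r ++ l)) k') : ∃ (a' b' : ℤ × ℤ) (A r' B : List P3), a' ≠ b' ∧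
      Block k k' a b a' b' A B ∧ Upper k' a' b' r' ∧ r = A ++ (r' ++ B) := by
  set E := ring (r ++ l) with hE
  -- a vertex above the upper plane
  have hex : ∃ y ∈ r, ¬ (y.2.2 ≤ k') := by
    have hne : (cross E k').Nonempty := by
      rw [← Set.ncard_pos (cross_finite E k')]
      have : (cross E k').ncard = 2 := h2
      omega
    obtain ⟨c, hc⟩ := hne
    rw [hE, cross_ring_upp hr hl hk] at hc
    exact ⟨_, (mem_of_mem_pedges hc).2, by simp⟩
  obtain ⟨l1, l2, u, v, h3, h4, h5⟩ := split_while (P := fun u => u.2.2 ≤ k') r _ hr.head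
    (by simp only; omega) hex
  have hu : u.2.2 ≤ k' := h4 u (by simp)
  have huv : Adj u v := chain_mid (h3 ▸ hr.chain)
  obtain ⟨a', hva, hua⟩ := edge_down huv.symm (k := k') (by omega) hu
  have hlastr : (v :: l2).getLast? = some (b.1, b.2, k + 1) := by
    have := hr.last
    rw [h3, List.getLast?_append_of_ne_nil _ (by simp)] at this
    exact this
  obtain ⟨m1, m2, p, q, h6, h7, h8⟩ := split_while (P := fun u => k' + 1 ≤ u.2.2) (v :: l2) v rfl
    (by omega) ⟨_, List.mem_of_getLast? hlastr, by simp only; omega⟩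
  have hp : k' + 1 ≤ p.2.2 := h7 p (by simp)
  have hch := hr.chain
  rw [h3, List.isChain_append] at hch
  have hpq : Adj p q := chain_mid (h6 ▸ hch.2.1)
  obtain ⟨b', hpb, hqb⟩ := edge_down hpq (k := k') hp (by omega)
  have hr3 : r = (l1 ++ [u]) ++ ((m1 ++ [p]) ++ (q :: m2)) := by rw [h3, h6]
  have hnd := hr.nodup
  rw [hr3] at hnd
  obtain ⟨hndA, hnd2, hd1⟩ := List.nodup_append.1 hnd
  obtain ⟨hndr, hndB, hd2⟩ := List.nodup_append.1 hnd2
  have hab' : a' ≠ b' := by
    rintro rfl
    exact hd1 u (by simp) q (by simp) (by rw [hua, hqb])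
  -- the crossing edges
  have hea : a' ∈ cross E k' := by
    rw [mem_cross, ← hua, ← hva]
    exact mem_ring_mid (r ++ l) l1 (l2 ++ l) u v (by rw [h3]; simp)
  have heb : b' ∈ cross E k' := by
    rw [mem_cross, ← hqb, ← hpb, Sym2.eq_swap]
    exact mem_ring_mid (r ++ l) (l1 ++ [u] ++ m1) (m2 ++ l) p q (by rw [hr3]; simp)
  have hcross : cross E k' = {a', b'} := by
    have h9 : ({a', b'} : Set (ℤ × ℤ)) ⊆ cross E k' := by
      rintro x (rfl | rfl)
      · exact hea
      · exact heb
    refine (Set.eq_of_subset_of_ncard_le h9 ?_ (cross_finite E k')).symm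
    rw [Set.ncard_pair hab']
    exact h2.le
  have hchain2 := hch.2.1
  rw [h6, List.isChain_append] at hchain2
  have hv : v ∈ m1 ++ [p] := by
    have h9 := congrArg List.head? h6
    rw [List.head?_append_of_ne_nil _ (by simp)] at h9
    exact List.mem_of_mem_head? (by rw [← h9]; rfl)
  have hlevB : ∀ w ∈ q :: m2, w.2.2 ≤ k' := by
    by_contra hcon
    push Not at hcon
    obtain ⟨w, hw, hw'⟩ := hcon
    obtain ⟨n1, n2, x, y, e1, e2, e3⟩ := exists_step_out (P := fun u => u.2.2 ≤ k') (q :: m2) q
      rfl (by rw [hqb]) ⟨w, hw, by omega⟩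
    have hxy : Adj x y := by
      have := hchain2.2.1
      rw [e1, List.isChain_append] at this
      exact (List.isChain_cons_cons.1 this.2.1).1
    obtain ⟨d, hd1', hd2'⟩ := edge_down hxy.symm (k := k') (by omega) e2
    have hd : d ∈ cross E k' := by
      rw [mem_cross, ← hd1', ← hd2']
      exact mem_ring_mid (r ++ l) (l1 ++ [u] ++ (m1 ++ [p]) ++ n1) (n2 ++ l) x y
        (by rw [hr3, e1]; simp)
    have hy : y ∈ m1 ++ [p] := by
      rw [hcross] at hd
      rcases hd with rfl | hd
      · rw [hd1', ← hva]; exact hv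
      · rw [Set.mem_singleton_iff] at hd
        subst hd
        rw [hd1', ← hpb]; simp
    exact hd2 y hy y (by rw [e1]; simp) rfl
  refine ⟨a', b', l1 ++ [u], m1 ++ [p], q :: m2, hab', ⟨hk, hndA, hndB, ?_, hch.1, hchain2.2.1,
    ?_, by rw [hua]; simp, by rw [hqb]; rfl, ?_, ?_, ?_⟩, ⟨hndr, hchain2.1, ?_, by rw [hpb]; simp,
    h7⟩, hr3⟩
  · intro x hx hx'
    exact hd1 x hx x (List.mem_append_right _ hx') rfl
  · have := hr.head
    rw [h3, List.head?_append_of_ne_nil _ (by simp)] at this
    exact this
  · rw [h6, List.getLast?_append_of_ne_nil _ (by simp)] at hlastr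
    exact hlastr
  · intro x hx
    exact ⟨hr.lev x (by rw [hr3]; exact List.mem_append_left _ hx), h4 x hx⟩
  · intro x hx
    exact ⟨hr.lev x (by
      rw [hr3]; exact List.mem_append_right _ (List.mem_append_right _ hx)), hlevB x hx⟩
  · have h9 := congrArg List.head? h6
    rw [List.head?_append_of_ne_nil _ (by simp)] at h9
    rw [← h9, hva]; rfl

/-! ### Unknottedness -/

/-- A block with two strands does not change the type of the part above. -/
theorem Block.uppU (hb : Block k k' a b a' b' A B) (hab : a ≠ b) (hab' : a' ≠ b')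
    (hr : Upper k' a' b' r) (hl : Lower k a b l)
    (hthin : ∀ j, k < j → j < k' → {c | leg c j ∈ pedges A ∨ leg c j ∈ pedges B}.ncard = 2)
    (hU : UppU (ring ((A ++ (r ++ B)) ++ l)) k') : UppU (ring ((A ++ (r ++ B)) ++ l)) k := by
  set E := ring ((A ++ (r ++ B)) ++ l) with hE
  have hlt := hb.lt
  have hP : IsPolygon E := (ring_of hab (hb.upper hr) hl).isPolygon
  have h2 : IsTwo E k := isTwo_ring_of hab (hb.upper hr) hl
  have h2' : IsTwo E k' := by
    unfold IsTwo
    rw [hE, hb.cross_top hr hl]
    exact Set.ncard_pair hab'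
  obtain ⟨C, hC⟩ := exists_uppClose hP h2
  refine ⟨C, hC, hU.of_close hP h2' ⟨hC.1, ?_, ?_⟩⟩
  · intro u v hu
    exact hC.2.1 u v (by omega)
  · intro j hj hne
    rcases le_or_gt j k with h3 | h3
    · exact hC.2.2 j h3 hne
    · rw [hC.2.1.cross h3.le]
      rcases eq_or_lt_of_le hj with rfl | h4
      · exact h2'
      · rw [hE, hb.cross_mid hr hl h3 h4]
        exact hthin j h3 h4

/-! ### Translations -/

theorem pedges_map {f : P3 → P3} (l : List P3) : pedges (l.map f) = mapE f (pedges l) := by
  induction l with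
  | nil => rfl
  | cons x l ih =>
    cases l with
    | nil => rfl
    | cons y l =>
      rw [List.map_cons, List.map_cons, pedges_cons_cons, ← List.map_cons, ih, pedges_cons_cons]
      simp [mapE, Finset.image_insert]

theorem ring_map (t : P3) (c : List P3) : ring (c.map (· + t)) = shift t (ring c) := by
  unfold ring shift
  rw [← pedges_map, List.map_append, List.getLast?_map]
  congr 2
  cases c.getLast? <;> rfl

/-- Horizontal translation of a column. -/
def csh (t : P3) (a : ℤ × ℤ) : ℤ × ℤ := (a.1 + t.1, a.2 + t.2.1)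

theorem csh_ne {t : P3} (h : a ≠ b) : csh t a ≠ csh t b := by
  intro h1
  simp only [csh, Prod.mk.injEq, add_left_inj] at h1
  exact h (Prod.ext h1.1 h1.2)

theorem Upper.shift (h : Upper k a b r) (t : P3) :
    Upper (k + t.2.2) (csh t a) (csh t b) (r.map (· + t)) := by
  refine ⟨h.nodup.map (add_left_injective t), ?_, ?_, ?_, ?_⟩
  · rw [List.isChain_map]
    refine h.chain.imp fun u v huv => ?_
    simpa [Adj] using huv
  · rw [List.head?_map, h.head]
    simp only [Option.map_some, Option.some.injEq, csh]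
    refine Prod.ext rfl (Prod.ext rfl ?_)
    simp only [Prod.snd_add]; ring
  · rw [List.getLast?_map, h.last]
    simp only [Option.map_some, Option.some.injEq, csh]
    refine Prod.ext rfl (Prod.ext rfl ?_)
    simp only [Prod.snd_add]; ring
  · intro u hu
    obtain ⟨v, hv, rfl⟩ := List.mem_map.1 hu
    have := h.lev v hv
    simp only [Prod.snd_add]; omega

theorem Lower.shift (h : Lower k a b l) (t : P3) :
    Lower (k + t.2.2) (csh t a) (csh t b) (l.map (· + t)) := by
  refine ⟨h.nodup.map (add_left_injective t), ?_, ?_, ?_, ?_⟩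
  · rw [List.isChain_map]
    refine h.chain.imp fun u v huv => ?_
    simpa [Adj] using huv
  · rw [List.head?_map, h.head]
    rfl
  · rw [List.getLast?_map, h.last]
    rfl
  · intro u hu
    obtain ⟨v, hv, rfl⟩ := List.mem_map.1 hu
    have := h.lev v hv
    simp only [Prod.snd_add]; omega

/-- The upper half `r` is unknotted. -/
def UU (k : ℤ) (a b : ℤ × ℤ) (r : List P3) : Prop :=
  a ≠ b ∧ Upper k a b r ∧ ∃ l, Lower k a b l ∧ UppU (ring (r ++ l)) k

/-- The lower half `l` is unknotted. -/
def LU (k : ℤ) (a b : ℤ × ℤ) (l : List P3) : Prop :=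
  a ≠ b ∧ Lower k a b l ∧ ∃ r, Upper k a b r ∧ LowU (ring (r ++ l)) k

theorem UU.uppU (h : UU k a b r) (hl : Lower k a b l) : UppU (ring (r ++ l)) k := by
  obtain ⟨-, hr, l', hl', hU⟩ := h
  exact hU.congr (uppEq_ring hr hl' hl)

theorem LU.lowU (h : LU k a b l) (hr : Upper k a b r) : LowU (ring (r ++ l)) k := by
  obtain ⟨-, hl, r', hr', hU⟩ := h
  exact hU.congr (lowEq_ring hr' hr hl)

theorem UU.shift (h : UU k a b r) (t : P3) :
    UU (k + t.2.2) (csh t a) (csh t b) (r.map (· + t)) := by
  obtain ⟨hab, hr, l', hl', hU⟩ := h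
  refine ⟨csh_ne hab, hr.shift t, _, hl'.shift t, ?_⟩
  rw [← List.map_append, ring_map]
  exact UppU.shift hU t

theorem LU.shift (h : LU k a b l) (t : P3) :
    LU (k + t.2.2) (csh t a) (csh t b) (l.map (· + t)) := by
  obtain ⟨hab, hl, r', hr', hU⟩ := h
  refine ⟨csh_ne hab, hl.shift t, _, hr'.shift t, ?_⟩
  rw [← List.map_append, ring_map]
  exact LowU.shift hU t

/-- Two unknotted halves joined by a block with two strands form an unknotted polygon. -/
theorem Block.unknotted (hb : Block k k' a b a' b' A B) (hr : UU k' a' b' r) (hl : LU k a b l)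
    (hthin : ∀ j, k < j → j < k' → {c | leg c j ∈ pedges A ∨ leg c j ∈ pedges B}.ncard = 2) :
    Unknotted (ring ((A ++ (r ++ B)) ++ l)) := by
  have hP : IsPolygon (ring ((A ++ (r ++ B)) ++ l)) :=
    (ring_of hl.1 (hb.upper hr.2.1) hl.2.1).isPolygon
  rw [unknotted_iff hP (isTwo_ring_of hl.1 (hb.upper hr.2.1) hl.2.1)]
  refine ⟨hl.lowU (hb.upper hr.2.1), hb.uppU hl.1 hr.1 hr.2.1 hl.2.1 hthin ?_⟩
  rw [hb.ring_rotate hr.2.1 hl.2.1]
  exact hr.uppU (hb.lower hl.2.1)

/-- Two unknotted halves form an unknotted polygon. -/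
theorem unknotted_halves (hr : UU k a b r) (hl : LU k a b l) : Unknotted (ring (r ++ l)) := by
  have hP : IsPolygon (ring (r ++ l)) := (ring_of hl.1 hr.2.1 hl.2.1).isPolygon
  rw [unknotted_iff hP (isTwo_ring_of hl.1 hr.2.1 hl.2.1)]
  exact ⟨hl.lowU hr.2.1, hr.uppU hl.2.1⟩

end Pool.Agent.KRing
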