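import Mathlib

/-! The series of the weights of the pieces converges. -/

set_option autoImplicit false

open Filter Topology

namespace Pool.Agent.KRing

/-- The size of the square in the surgery. -/
def mm (V : ℕ) : ℕ := V / 64 + 1

/-- The number of lost edges. -/
def jj (V : ℕ) : ℕ := (mm V + 1) ^ 2 - 1

/-- The weight of the surgery. -/
noncomputable def c1 (s : ℝ) (p V : ℕ) : ℝ :=
  ((mm V : ℝ) + 1) ^ 2 * (4 * mm V + 5) *
    ((2 * (V : ℝ) + 40) ^ (p + 1) * (2 * s) ^ (V + 4 * mm V + 28) / s ^ (2 * V + 24)) +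
  ((mm V : ℝ) + 1) ^ 2 * (2 * mm V + 1) * (6 * mm V + 6) * 2 * 5 ^ (V + 2) * (5 / s) ^ jj V *
    ((2 * (V : ℝ) + 40) ^ (p + 1) * (2 * s) ^ (V + 6 * mm V + 29) / s ^ (2 * V + 24))

/-- The weight of the pieces with `V` inner vertical edges. -/
noncomputable def c2 (s : ℝ) (p V : ℕ) : ℝ :=
  ((V : ℝ) + 3) * 2 ^ V * s ^ (2 * (V / 4 + 2)) * c1 s p V

theorem c1_nonneg {s : ℝ} (hs : 0 ≤ s) (p V : ℕ) : 0 ≤ c1 s p V := by
  unfold c1; positivity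

theorem c2_nonneg {s : ℝ} (hs : 0 ≤ s) (p V : ℕ) : 0 ≤ c2 s p V := by
  have := c1_nonneg hs p V
  unfold c2; positivity

theorem summable_poly {r : ℝ} (hr0 : 0 ≤ r) (hr : r < 1) (q : ℕ) :
    Summable fun V : ℕ => (2 * (V : ℝ) + 40) ^ q * r ^ V := by
  have h1 : Summable fun V : ℕ => ((V : ℝ)) ^ q * r ^ V :=
    summable_pow_mul_geometric_of_norm_lt_one q (by rwa [Real.norm_eq_abs, abs_of_nonneg hr0])
  have h0 : Summable fun V : ℕ => r ^ V := summable_geometric_of_lt_one hr0 hr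
  have h2 := (h1.mul_left ((42 : ℝ) ^ q)).add (h0.mul_left ((40 : ℝ) ^ q))
  refine Summable.of_nonneg_of_le (fun V => by positivity) (fun V => ?_) h2
  rw [← mul_assoc, ← add_mul]
  refine mul_le_mul_of_nonneg_right ?_ (by positivity)
  rcases Nat.eq_zero_or_pos V with h | h
  · subst h
    simp only [Nat.cast_zero, mul_zero, zero_add]
    have : (0 : ℝ) ≤ 42 ^ q * 0 ^ q := by positivity
    linarith
  · have h3 : (1 : ℝ) ≤ V := by exact_mod_cast h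
    have h4 : (2 * (V : ℝ) + 40) ^ q ≤ (42 * V) ^ q :=
      pow_le_pow_left₀ (by positivity) (by linarith) q
    rw [mul_pow] at h4
    have : (0 : ℝ) ≤ 40 ^ q := by positivity
    linarith

/-- The first part. -/
theorem part1 {s : ℝ} (hs : 64 ≤ s) : ∃ C r : ℝ, 0 ≤ C ∧ 0 ≤ r ∧ r < 1 ∧ ∀ V : ℕ,
    2 ^ V * s ^ (2 * (V / 4 + 2)) * ((2 * s) ^ (V + 4 * mm V + 28) / s ^ (2 * V + 24)) ≤
      C * r ^ V := by
  have hs0 : 0 < s := by linarith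
  obtain ⟨g, hg0, hg, hgs⟩ : ∃ g : ℝ, 0 < g ∧ 2 ≤ g ^ 8 ∧ g ^ 48 = s := by
    refine ⟨s ^ (1 / 48 : ℝ), by positivity, ?_, ?_⟩
    · have h1 : (s ^ (1 / 48 : ℝ)) ^ 8 = s ^ (1 / 6 : ℝ) := by
        rw [← Real.rpow_natCast, ← Real.rpow_mul hs0.le]
        norm_num
      rw [h1]
      have h2 : (2 : ℝ) = (64 : ℝ) ^ (1 / 6 : ℝ) := by
        rw [show (64 : ℝ) = 2 ^ (6 : ℝ) by norm_num, ← Real.rpow_mul (by norm_num)]
        norm_num
      rw [h2]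
      exact Real.rpow_le_rpow (by norm_num) hs (by norm_num)
    · rw [← Real.rpow_natCast, ← Real.rpow_mul hs0.le]
      norm_num
  have hg1 : 1 < g := by
    by_contra h
    rw [not_lt] at h
    have : g ^ 8 ≤ 1 := pow_le_one₀ hg0.le h
    linarith
  obtain ⟨c, hc⟩ : ∃ c : ℕ, c = 832 := ⟨_, rfl⟩
  refine ⟨g ^ c, (1 / g) ^ 4, by positivity, by positivity, ?_, fun V => ?_⟩
  · refine pow_lt_one₀ (by positivity) ?_ (by norm_num)
    rw [div_lt_one hg0]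
    exact hg1
  subst hgs
  have e1 : (2 : ℝ) ^ V * (g ^ 48) ^ (2 * (V / 4 + 2)) *
      ((2 * g ^ 48) ^ (V + 4 * mm V + 28) / (g ^ 48) ^ (2 * V + 24)) =
      2 ^ (2 * V + 4 * mm V + 28) * g ^ (48 * (2 * (V / 4 + 2) + V + 4 * mm V + 28)) /
        g ^ (48 * (2 * V + 24)) := by
    rw [mul_pow, ← pow_mul, ← pow_mul, ← pow_mul]
    have e2 : (2 : ℝ) ^ (2 * V + 4 * mm V + 28) = 2 ^ V * 2 ^ (V + 4 * mm V + 28) := by
      rw [← pow_add]; congr 1; ring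
    have e3 : g ^ (48 * (2 * (V / 4 + 2) + V + 4 * mm V + 28)) =
        g ^ (48 * (2 * (V / 4 + 2))) * g ^ (48 * (V + 4 * mm V + 28)) := by
      have e4 : 48 * (2 * (V / 4 + 2) + V + 4 * mm V + 28) =
        48 * (2 * (V / 4 + 2)) + 48 * (V + 4 * mm V + 28) := by ring
      rw [e4, pow_add]
    rw [e2, e3]
    ring
  rw [e1, div_le_iff₀ (by positivity)]
  have h2 : (2 : ℝ) ^ (2 * V + 4 * mm V + 28) ≤ g ^ (8 * (2 * V + 4 * mm V + 28)) := by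
    rw [pow_mul g 8]
    exact pow_le_pow_left₀ (by norm_num) hg _
  have h3 : 8 * (2 * V + 4 * mm V + 28) + 48 * (2 * (V / 4 + 2) + V + 4 * mm V + 28) + 4 * V ≤
      c + 48 * (2 * V + 24) := by
    unfold mm
    omega
  have e4 : ((1 / g) ^ 4) ^ V * g ^ (4 * V) = 1 := by
    rw [← pow_mul, ← mul_pow, one_div_mul_cancel hg0.ne', one_pow]
  calc (2 : ℝ) ^ (2 * V + 4 * mm V + 28) * g ^ (48 * (2 * (V / 4 + 2) + V + 4 * mm V + 28))
      ≤ g ^ (8 * (2 * V + 4 * mm V + 28)) * g ^ (48 * (2 * (V / 4 + 2) + V + 4 * mm V + 28)) :=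
        mul_le_mul_of_nonneg_right h2 (by positivity)
    _ = ((1 / g) ^ 4) ^ V * g ^ (8 * (2 * V + 4 * mm V + 28) +
          48 * (2 * (V / 4 + 2) + V + 4 * mm V + 28) + 4 * V) := by
        rw [pow_add g _ (4 * V), pow_add g (8 * _)]
        calc _ = (((1 / g) ^ 4) ^ V * g ^ (4 * V)) * (g ^ (8 * (2 * V + 4 * mm V + 28)) *
              g ^ (48 * (2 * (V / 4 + 2) + V + 4 * mm V + 28))) := by rw [e4, one_mul]
          _ = _ := by ring
    _ ≤ ((1 / g) ^ 4) ^ V * g ^ (c + 48 * (2 * V + 24)) :=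
        mul_le_mul_of_nonneg_left (pow_le_pow_right₀ hg1.le h3) (by positivity)
    _ = g ^ c * ((1 / g) ^ 4) ^ V * g ^ (48 * (2 * V + 24)) := by
        rw [pow_add g c]; ring

theorem jj_ge : ∃ K : ℕ, ∀ V : ℕ, 7 * V + 41 ≤ K + 3 * jj V := by
  refine ⟨17000, fun V => ?_⟩
  have h1 : (V / 64 + 1) ^ 2 ≤ jj V := by
    have key : ∀ q : ℕ, (q + 1) ^ 2 + 1 ≤ (q + 1 + 1) ^ 2 := fun q => by
      have : (q + 1 + 1) ^ 2 = (q + 1) ^ 2 + 2 * q + 3 := by ring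
      omega
    have := key (V / 64)
    unfold jj mm
    omega
  have h2 : V < 64 * (V / 64 + 1) := by omega
  generalize V / 64 + 1 = w at h1 h2
  have h3 : 448 * w ≤ 16800 + 3 * w ^ 2 := by
    zify
    nlinarith [sq_nonneg ((w : ℤ) - 74), sq_nonneg ((w : ℤ) - 75)]
  omega

/-- The second part. -/
theorem part2 {s : ℝ} (hs : 64 ≤ s) : ∃ C : ℝ, 0 ≤ C ∧ ∀ V : ℕ,
    2 ^ V * s ^ (2 * (V / 4 + 2)) * (5 ^ (V + 2) * (5 / s) ^ jj V *
      ((2 * s) ^ (V + 6 * mm V + 29) / s ^ (2 * V + 24))) ≤ C * (1 / 2) ^ V := by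
  obtain ⟨K, hK⟩ := jj_ge
  have hs0 : 0 < s := by linarith
  have hs1 : 1 ≤ s := by linarith
  refine ⟨s ^ 15 * 2 ^ K, by positivity, fun V => ?_⟩
  have h1 : (5 / s) ^ jj V ≤ (1 / 2) ^ (3 * jj V) := by
    rw [pow_mul]
    refine pow_le_pow_left₀ (by positivity) ?_ _
    rw [div_le_iff₀ hs0]
    norm_num
    linarith
  have h2 : (5 : ℝ) ^ (V + 2) ≤ 2 ^ (3 * (V + 2)) := by
    rw [pow_mul]
    exact pow_le_pow_left₀ (by norm_num) (by norm_num) _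
  have h3 : s ^ (2 * (V / 4 + 2)) * s ^ (V + 6 * mm V + 29) ≤ s ^ 15 * s ^ (2 * V + 24) := by
    rw [← pow_add, ← pow_add]
    refine pow_le_pow_right₀ hs1 ?_
    unfold mm
    omega
  have h4 : (2 : ℝ) ^ V * 2 ^ (V + 6 * mm V + 29) * 2 ^ (3 * (V + 2)) ≤ 2 ^ (6 * V + 41) := by
    rw [← pow_add, ← pow_add]
    refine pow_le_pow_right₀ (by norm_num) ?_
    unfold mm
    omega
  have h5 : (2 : ℝ) ^ (6 * V + 41) * (1 / 2) ^ (3 * jj V) ≤ 2 ^ K * (1 / 2) ^ V := by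
    have e1 : (1 / 2 : ℝ) ^ (3 * jj V) * 2 ^ (3 * jj V) = 1 := by
      rw [← mul_pow]; norm_num
    have e2 : (1 / 2 : ℝ) ^ V * 2 ^ V = 1 := by
      rw [← mul_pow]; norm_num
    have h6 : (2 : ℝ) ^ (6 * V + 41) * 2 ^ V ≤ 2 ^ K * 2 ^ (3 * jj V) := by
      rw [← pow_add, ← pow_add]
      refine pow_le_pow_right₀ (by norm_num) ?_
      have := hK V
      omega
    have h7 : (2 : ℝ) ^ (6 * V + 41) * 2 ^ V * ((1 / 2) ^ V * (1 / 2) ^ (3 * jj V)) ≤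
        2 ^ K * 2 ^ (3 * jj V) * ((1 / 2) ^ V * (1 / 2) ^ (3 * jj V)) :=
      mul_le_mul_of_nonneg_right h6 (by positivity)
    calc (2 : ℝ) ^ (6 * V + 41) * (1 / 2) ^ (3 * jj V)
        = (2 : ℝ) ^ (6 * V + 41) * (1 / 2) ^ (3 * jj V) * ((1 / 2) ^ V * 2 ^ V) := by
          rw [e2, mul_one]
      _ = (2 : ℝ) ^ (6 * V + 41) * 2 ^ V * ((1 / 2) ^ V * (1 / 2) ^ (3 * jj V)) := by ring
      _ ≤ _ := h7
      _ = 2 ^ K * (1 / 2) ^ V * ((1 / 2) ^ (3 * jj V) * 2 ^ (3 * jj V)) := by ring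
      _ = 2 ^ K * (1 / 2) ^ V := by rw [e1, mul_one]
  have hden : 0 < s ^ (2 * V + 24) := by positivity
  calc (2 : ℝ) ^ V * s ^ (2 * (V / 4 + 2)) * (5 ^ (V + 2) * (5 / s) ^ jj V *
      ((2 * s) ^ (V + 6 * mm V + 29) / s ^ (2 * V + 24)))
      = (2 ^ V * 2 ^ (V + 6 * mm V + 29)) * (s ^ (2 * (V / 4 + 2)) * s ^ (V + 6 * mm V + 29)) /
          s ^ (2 * V + 24) * (5 ^ (V + 2) * (5 / s) ^ jj V) := by
        rw [mul_pow]; ring
    _ ≤ (2 ^ V * 2 ^ (V + 6 * mm V + 29)) * (s ^ 15 * s ^ (2 * V + 24)) /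
          s ^ (2 * V + 24) * (5 ^ (V + 2) * (5 / s) ^ jj V) := by
        refine mul_le_mul_of_nonneg_right ?_ (by positivity)
        refine div_le_div_of_nonneg_right ?_ hden.le
        exact mul_le_mul_of_nonneg_left h3 (by positivity)
    _ = s ^ 15 * ((2 ^ V * 2 ^ (V + 6 * mm V + 29)) * (5 ^ (V + 2) * (5 / s) ^ jj V)) := by
        rw [← mul_assoc (2 ^ V * 2 ^ (V + 6 * mm V + 29)), mul_div_assoc,
          div_self hden.ne', mul_one]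
        ring
    _ ≤ s ^ 15 * ((2 ^ V * 2 ^ (V + 6 * mm V + 29)) * (2 ^ (3 * (V + 2)) * (1 / 2) ^ (3 * jj V))) := by
        refine mul_le_mul_of_nonneg_left ?_ (by positivity)
        refine mul_le_mul_of_nonneg_left ?_ (by positivity)
        exact mul_le_mul h2 h1 (by positivity) (by positivity)
    _ = s ^ 15 * ((2 ^ V * 2 ^ (V + 6 * mm V + 29) * 2 ^ (3 * (V + 2))) * (1 / 2) ^ (3 * jj V)) := by
        ring
    _ ≤ s ^ 15 * (2 ^ (6 * V + 41) * (1 / 2) ^ (3 * jj V)) := by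
        refine mul_le_mul_of_nonneg_left ?_ (by positivity)
        exact mul_le_mul_of_nonneg_right h4 (by positivity)
    _ ≤ s ^ 15 * (2 ^ K * (1 / 2) ^ V) := mul_le_mul_of_nonneg_left h5 (by positivity)
    _ = _ := by ring

/-- **The series converges.** -/
theorem summable_c2 {s : ℝ} (hs : 64 ≤ s) (p : ℕ) : Summable (c2 s p) := by
  have hs0 : 0 < s := by linarith
  obtain ⟨C1, r, hC1, hr0, hr1, h1⟩ := part1 hs
  obtain ⟨C2, hC2, h2⟩ := part2 hs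
  have hS1 := (summable_poly hr0 hr1 (p + 5)).mul_left C1
  have hS2 := (summable_poly (r := 1 / 2) (by norm_num) (by norm_num) (p + 6)).mul_left (2 * C2)
  refine Summable.of_nonneg_of_le (fun V => c2_nonneg hs0.le p V) (fun V => ?_) (hS1.add hS2)
  have hX : (0 : ℝ) ≤ 2 * V + 40 := by positivity
  have hm : (mm V : ℝ) ≤ V / 64 + 1 := by
    unfold mm
    push_cast
    have : ((V / 64 : ℕ) : ℝ) ≤ (V : ℝ) / ((64 : ℕ) : ℝ) := Nat.cast_div_le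
    push_cast at this
    linarith
  have hV : (0 : ℝ) ≤ V := by positivity
  have hm0 : (0 : ℝ) ≤ mm V := by positivity
  have b1 : (V : ℝ) + 3 ≤ 2 * V + 40 := by linarith
  have b2 : (mm V : ℝ) + 1 ≤ 2 * V + 40 := by linarith
  have b3 : 4 * (mm V : ℝ) + 5 ≤ 2 * V + 40 := by linarith
  have b4 : 2 * (mm V : ℝ) + 1 ≤ 2 * V + 40 := by linarith
  have b5 : 6 * (mm V : ℝ) + 6 ≤ 2 * V + 40 := by linarith
  set X : ℝ := 2 * (V : ℝ) + 40 with hXdef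
  set P : ℝ := 2 ^ V * s ^ (2 * (V / 4 + 2)) with hP
  have hP0 : 0 ≤ P := by positivity
  set Q1 : ℝ := (2 * s) ^ (V + 4 * mm V + 28) / s ^ (2 * V + 24) with hQ1
  set Q2 : ℝ := (2 * s) ^ (V + 6 * mm V + 29) / s ^ (2 * V + 24) with hQ2
  have hQ10 : 0 ≤ Q1 := by positivity
  have hQ20 : 0 ≤ Q2 := by positivity
  have e : c2 s p V = (((V : ℝ) + 3) * ((mm V : ℝ) + 1) ^ 2 * (4 * mm V + 5)) * X ^ (p + 1) *
      (P * Q1) + 2 * ((((V : ℝ) + 3) * ((mm V : ℝ) + 1) ^ 2 * (2 * mm V + 1) * (6 * mm V + 6)) *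
        X ^ (p + 1) * (P * (5 ^ (V + 2) * (5 / s) ^ jj V * Q2))) := by
    unfold c2 c1
    rw [hP, hQ1, hQ2]
    ring
  rw [e]
  have k1 : ((V : ℝ) + 3) * ((mm V : ℝ) + 1) ^ 2 * (4 * mm V + 5) ≤ X ^ 4 := by
    calc ((V : ℝ) + 3) * ((mm V : ℝ) + 1) ^ 2 * (4 * mm V + 5) ≤ X * X ^ 2 * X := by
          gcongr
      _ = X ^ 4 := by ring
  have k2 : ((V : ℝ) + 3) * ((mm V : ℝ) + 1) ^ 2 * (2 * mm V + 1) * (6 * mm V + 6) ≤ X ^ 5 := by
    calc ((V : ℝ) + 3) * ((mm V : ℝ) + 1) ^ 2 * (2 * mm V + 1) * (6 * mm V + 6)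
        ≤ X * X ^ 2 * X * X := by
          gcongr
      _ = X ^ 5 := by ring
  have l1 : (((V : ℝ) + 3) * ((mm V : ℝ) + 1) ^ 2 * (4 * mm V + 5)) * X ^ (p + 1) * (P * Q1) ≤
      C1 * (X ^ (p + 5) * r ^ V) := by
    calc (((V : ℝ) + 3) * ((mm V : ℝ) + 1) ^ 2 * (4 * mm V + 5)) * X ^ (p + 1) * (P * Q1)
        ≤ (X ^ 4 * X ^ (p + 1)) * (C1 * r ^ V) := by
          refine mul_le_mul ?_ (h1 V) (by positivity) (by positivity)
          exact mul_le_mul_of_nonneg_right k1 (by positivity)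
      _ = C1 * (X ^ (p + 5) * r ^ V) := by ring
  have l2 : (((V : ℝ) + 3) * ((mm V : ℝ) + 1) ^ 2 * (2 * mm V + 1) * (6 * mm V + 6)) *
        X ^ (p + 1) * (P * (5 ^ (V + 2) * (5 / s) ^ jj V * Q2)) ≤
      C2 * (X ^ (p + 6) * (1 / 2) ^ V) := by
    calc (((V : ℝ) + 3) * ((mm V : ℝ) + 1) ^ 2 * (2 * mm V + 1) * (6 * mm V + 6)) *
        X ^ (p + 1) * (P * (5 ^ (V + 2) * (5 / s) ^ jj V * Q2))
        ≤ (X ^ 5 * X ^ (p + 1)) * (C2 * (1 / 2) ^ V) := by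
          refine mul_le_mul ?_ (h2 V) (by positivity) (by positivity)
          exact mul_le_mul_of_nonneg_right k2 (by positivity)
      _ = C2 * (X ^ (p + 6) * (1 / 2) ^ V) := by ring
  linarith

end Pool.Agent.KRing
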