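import Pool.Agent.KRing.RatioAll
import Pool.Agent.KRing.Series

/-! The bound for the class `T'` by the class `T`. -/

set_option autoImplicit false

open Pool.Agent.LK Set Filter Topology
open scoped ENNReal

namespace Pool.Agent.KRing

open Pool.Agent.KTube
open Pool.Agent.KTen (Zt NSet ES NPoly)

variable {s D A : ℝ} {T T' : ES → Prop} {p n : ℕ}

theorem geom_Icc {r : ℝ} (hr0 : 0 ≤ r) (hr : r ≤ 1 / 2) (a b : ℕ) :
    ∑ j ∈ Finset.Icc a b, r ^ j ≤ 2 * r ^ a := by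
  have h1 : Finset.Icc a b = Finset.Ico a (b + 1) := by
    ext j
    simp only [Finset.mem_Icc, Finset.mem_Ico]
    omega
  rw [h1]
  refine (geom_sum_Ico_le_of_lt_one hr0 (by linarith)).trans ?_
  rw [div_le_iff₀ (by linarith)]
  have : 0 ≤ r ^ a := by positivity
  nlinarith

/-- The sum over the words that avoid the origin. -/
theorem SF0_real (hs : 64 ≤ s) (hT : GoodClass T) (hD : 0 ≤ D) (hA : 0 ≤ A)
    (hZ : ∀ m, ZT (ENNReal.ofReal (s ^ 2)) T m ≤
      ENNReal.ofReal (D * (m : ℝ) ^ p * Zt (s ^ 2) UClass m))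
    (hR : ∀ m a b : ℕ, m + a = n + b →
      Zt (s ^ 2) UClass m * s ^ a ≤ A * (2 * s) ^ b * Zt (s ^ 2) UClass n)
    {V τ a b : ℕ} (h : τ + 2 * V + 22 + a = n + b) {X : ℝ} (hX : ((τ + 2 * V + 22 : ℕ) : ℝ) ≤ X)
    {b' : ℕ} (hb : b ≤ b') :
    SF0 (ENNReal.ofReal (s ^ 2)) T (V + 10) τ ≤
      ENNReal.ofReal (D * A * Zt (s ^ 2) UClass n *
        (X ^ (p + 1) * (2 * s) ^ b' / s ^ (2 * V + 24)) / s ^ a) := by
  have hs0 : 0 < s := by linarith
  have h1 := SF0_le (Y := ENNReal.ofReal (s ^ 2)) hT (V + 10) τ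
  have h2 := MT_le (Y := ENNReal.ofReal (s ^ 2)) hT (τ + 2 * (V + 10) + 2)
  have e1 : τ + 2 * (V + 10) + 2 = τ + 2 * V + 22 := by ring
  rw [e1] at h1 h2
  set M : ℕ := τ + 2 * V + 22 with hM
  have e2 : V + 10 + 2 = V + 12 := by ring
  rw [e2] at h1
  have hpow : ENNReal.ofReal (s ^ 2) ^ (V + 12) = ENNReal.ofReal (s ^ (2 * V + 24)) := by
    rw [← ENNReal.ofReal_pow (by positivity), ← pow_mul]
    congr 2
  rw [hpow] at h1
  have hden : 0 < s ^ (2 * V + 24) := by positivity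
  set u := Zt (s ^ 2) UClass n with hu
  have hu0 : 0 ≤ u := KTen.zt_nonneg (by positivity) _ _
  have hum : 0 ≤ Zt (s ^ 2) UClass M := KTen.zt_nonneg (by positivity) _ _
  have h3 : MT (ENNReal.ofReal (s ^ 2)) T M ≤
      ENNReal.ofReal (D * (M : ℝ) ^ (p + 1) * Zt (s ^ 2) UClass M) := by
    refine h2.trans ((mul_le_mul_right (hZ M) (M : ℝ≥0∞)).trans (le_of_eq ?_))
    rw [← ENNReal.ofReal_natCast, ← ENNReal.ofReal_mul (by positivity)]
    congr 1
    rw [pow_succ]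
    ring
  have h4 : SF0 (ENNReal.ofReal (s ^ 2)) T (V + 10) τ ≤
      ENNReal.ofReal (D * (M : ℝ) ^ (p + 1) * Zt (s ^ 2) UClass M / s ^ (2 * V + 24)) := by
    rw [ENNReal.ofReal_div_of_pos hden, ENNReal.le_div_iff_mul_le]
    · exact h1.trans h3
    · left
      rw [Ne, ENNReal.ofReal_eq_zero, not_le]
      exact hden
    · left
      exact ENNReal.ofReal_ne_top
  refine h4.trans (ENNReal.ofReal_le_ofReal ?_)
  have h5 := hR M a b h
  have hM0 : (0 : ℝ) ≤ M := by positivity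
  have h6 : (M : ℝ) ^ (p + 1) ≤ X ^ (p + 1) := pow_le_pow_left₀ hM0 hX _
  have hX0 : 0 ≤ X := hM0.trans hX
  have h7 : (2 * s) ^ b ≤ (2 * s) ^ b' := pow_le_pow_right₀ (by linarith) hb
  rw [le_div_iff₀ (by positivity)]
  have h8 : Zt (s ^ 2) UClass M * s ^ a ≤ A * (2 * s) ^ b' * u :=
    h5.trans (mul_le_mul_of_nonneg_right (mul_le_mul_of_nonneg_left h7 hA) hu0)
  calc D * (M : ℝ) ^ (p + 1) * Zt (s ^ 2) UClass M / s ^ (2 * V + 24) * s ^ a
      = D * (M : ℝ) ^ (p + 1) / s ^ (2 * V + 24) * (Zt (s ^ 2) UClass M * s ^ a) := by ring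
    _ ≤ D * X ^ (p + 1) / s ^ (2 * V + 24) * (A * (2 * s) ^ b' * u) := by
        refine mul_le_mul ?_ h8 (by positivity) (by positivity)
        refine div_le_div_of_nonneg_right ?_ hden.le
        exact mul_le_mul_of_nonneg_left h6 hD
    _ = _ := by ring

/-- The sum over all words. -/
theorem SFN_real (hs : 64 ≤ s) (hT : GoodClass T) (hD : 0 ≤ D) (hA : 0 ≤ A)
    (hZ : ∀ m, ZT (ENNReal.ofReal (s ^ 2)) T m ≤
      ENNReal.ofReal (D * (m : ℝ) ^ p * Zt (s ^ 2) UClass m)) (hn : 1 ≤ n)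
    (hR : ∀ m a b : ℕ, m + a = n + b →
      Zt (s ^ 2) UClass m * s ^ a ≤ A * (2 * s) ^ b * Zt (s ^ 2) UClass n)
    {V σ e : ℕ} (h : σ + V + 22 = n + e) (he : e ≤ 24) :
    SFN (ENNReal.ofReal (s ^ 2)) T (V + 1) σ ≤
      ENNReal.ofReal (D * A * (n : ℝ) ^ (p + 1) * Zt (s ^ 2) UClass n * c1 s p V) := by
  have hs0 : 0 < s := by linarith
  set u := Zt (s ^ 2) UClass n with hu
  have hu0 : 0 ≤ u := KTen.zt_nonneg (by positivity) _ _
  have hnR : (1 : ℝ) ≤ n := by exact_mod_cast hn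
  have hVR : (0 : ℝ) ≤ V := by positivity
  have hm : (mm V : ℝ) ≤ V / 64 + 1 := by
    unfold mm
    push_cast
    have : ((V / 64 : ℕ) : ℝ) ≤ (V : ℝ) / ((64 : ℕ) : ℝ) := Nat.cast_div_le
    push_cast at this
    linarith
  have hm0 : (0 : ℝ) ≤ mm V := by positivity
  have hX : ∀ c : ℝ, c ≤ V + 6 * mm V + 29 → (n : ℝ) + c ≤ n * (2 * V + 40) := by
    intro c hc
    have h1 : c ≤ 2 * V + 39 := by linarith
    have h2 : (2 * (V : ℝ) + 39) ≤ n * (2 * V + 39) := by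
      have : (0 : ℝ) ≤ 2 * V + 39 := by positivity
      nlinarith
    linarith
  have hmm1 : 1 ≤ mm V := by unfold mm; omega
  have key := SFN_le (Y := ENNReal.ofReal (s ^ 2)) (T := T) hmm1 (V + 1) σ
  have e1 : V + 1 + 9 = V + 10 := by ring
  rw [e1] at key
  refine key.trans ?_
  set G : ℝ := D * A * u with hG
  have hG0 : 0 ≤ G := by positivity
  set X : ℝ := n * (2 * (V : ℝ) + 40) with hXd
  have hX0 : 0 ≤ X := by positivity
  set W1 : ℝ := X ^ (p + 1) * (2 * s) ^ (V + 4 * mm V + 28) / s ^ (2 * V + 24) with hW1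
  set W2 : ℝ := X ^ (p + 1) * (2 * s) ^ (V + 6 * mm V + 29) / s ^ (2 * V + 24) with hW2
  have hW10 : 0 ≤ W1 := by positivity
  have hW20 : 0 ≤ W2 := by positivity
  have H1 : ∀ i ∈ Finset.range (4 * mm V + 5), SF0 (ENNReal.ofReal (s ^ 2)) T (V + 10) (σ + i) ≤
      ENNReal.ofReal (G * W1) := by
    intro i hi
    rw [Finset.mem_range] at hi
    have h1 := SF0_real hs hT hD hA hZ hR (V := V) (τ := σ + i) (a := 0) (b := V + e + i)
      (by omega) (X := X) ?_ (b' := V + 4 * mm V + 28) (by omega)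
    · rwa [pow_zero, div_one] at h1
    · have e2 : σ + i + 2 * V + 22 = n + (V + e + i) := by omega
      rw [e2]
      push_cast
      refine le_trans (le_of_eq (by ring)) (hX ((V : ℝ) + e + i) ?_)
      have h3 : V + e + i ≤ V + 6 * mm V + 29 := by omega
      exact_mod_cast h3
  have H2 : ∀ j ∈ Finset.Icc ((mm V + 1) ^ 2 - 1) σ, ∀ i ∈ Finset.range (6 * mm V + 6),
      SF0 (ENNReal.ofReal (s ^ 2)) T (V + 10) (σ - j + i) ≤
      ENNReal.ofReal (G * W2 / s ^ j) := by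
    intro j hj i hi
    rw [Finset.mem_range] at hi
    rw [Finset.mem_Icc] at hj
    refine SF0_real hs hT hD hA hZ hR (V := V) (τ := σ - j + i) (a := j) (b := V + e + i)
      (by omega) (X := X) ?_ (b' := V + 6 * mm V + 29) (by omega)
    have h2 : σ - j + i + 2 * V + 22 ≤ n + (V + e + i) := by omega
    have h3 : ((σ - j + i + 2 * V + 22 : ℕ) : ℝ) ≤ ((n + (V + e + i) : ℕ) : ℝ) := by
      exact_mod_cast h2
    refine h3.trans ?_
    push_cast
    refine le_trans (le_of_eq (by ring)) (hX ((V : ℝ) + e + i) ?_)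
    have h3 : V + e + i ≤ V + 6 * mm V + 29 := by omega
    exact_mod_cast h3
  -- first sum
  have S1 : ((mm V : ℝ≥0∞) + 1) ^ 2 *
      ∑ i ∈ Finset.range (4 * mm V + 5), SF0 (ENNReal.ofReal (s ^ 2)) T (V + 10) (σ + i) ≤
      ENNReal.ofReal (((mm V : ℝ) + 1) ^ 2 * ((4 * mm V + 5) * (G * W1))) := by
    have h1 : ((mm V : ℝ≥0∞) + 1) ^ 2 = ENNReal.ofReal (((mm V : ℝ) + 1) ^ 2) := by
      rw [ENNReal.ofReal_pow (by positivity), ENNReal.ofReal_add (by positivity) (by norm_num),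
        ENNReal.ofReal_natCast, ENNReal.ofReal_one]
    rw [h1, ENNReal.ofReal_mul (by positivity)]
    refine mul_le_mul_right ?_ _
    refine (Finset.sum_le_sum H1).trans ?_
    rw [Finset.sum_const, Finset.card_range, nsmul_eq_mul, ← ENNReal.ofReal_natCast,
      ← ENNReal.ofReal_mul (by positivity)]
    refine ENNReal.ofReal_le_ofReal (le_of_eq ?_)
    push_cast
    ring
  have S2 : ((mm V : ℝ≥0∞) + 1) ^ 2 * (2 * (mm V : ℝ≥0∞) + 1) *
      ∑ j ∈ Finset.Icc ((mm V + 1) ^ 2 - 1) σ, 5 ^ (j + (V + 1) + 1) *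
        ∑ i ∈ Finset.range (6 * mm V + 6), SF0 (ENNReal.ofReal (s ^ 2)) T (V + 10) (σ - j + i) ≤
      ENNReal.ofReal (((mm V : ℝ) + 1) ^ 2 * (2 * mm V + 1) *
        ((5 : ℝ) ^ (V + 2) * (6 * mm V + 6) * (G * W2) * (2 * (5 / s) ^ jj V))) := by
    have h1 : ((mm V : ℝ≥0∞) + 1) ^ 2 * (2 * (mm V : ℝ≥0∞) + 1) =
        ENNReal.ofReal (((mm V : ℝ) + 1) ^ 2 * (2 * mm V + 1)) := by
      rw [ENNReal.ofReal_mul (by positivity), ENNReal.ofReal_pow (by positivity),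
        ENNReal.ofReal_add (by positivity) (by norm_num),
        ENNReal.ofReal_add (by positivity) (by norm_num), ENNReal.ofReal_mul (by norm_num),
        ENNReal.ofReal_natCast, ENNReal.ofReal_one, ENNReal.ofReal_ofNat]
    rw [h1, ENNReal.ofReal_mul (p := ((mm V : ℝ) + 1) ^ 2 * (2 * mm V + 1)) (by positivity)]
    refine mul_le_mul_right ?_ _
    have h2 : ∀ j ∈ Finset.Icc ((mm V + 1) ^ 2 - 1) σ, (5 : ℝ≥0∞) ^ (j + (V + 1) + 1) *
        ∑ i ∈ Finset.range (6 * mm V + 6), SF0 (ENNReal.ofReal (s ^ 2)) T (V + 10) (σ - j + i) ≤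
        ENNReal.ofReal ((5 : ℝ) ^ (V + 2) * (6 * mm V + 6) * (G * W2) * (5 / s) ^ j) := by
      intro j hj
      have h3 : (5 : ℝ≥0∞) ^ (j + (V + 1) + 1) = ENNReal.ofReal (5 ^ (j + (V + 1) + 1)) := by
        rw [ENNReal.ofReal_pow (by norm_num), ENNReal.ofReal_ofNat]
      rw [h3]
      refine (mul_le_mul_right (Finset.sum_le_sum (H2 j hj)) _).trans ?_
      rw [Finset.sum_const, Finset.card_range, nsmul_eq_mul, ← ENNReal.ofReal_natCast,
        ← ENNReal.ofReal_mul (by positivity), ← ENNReal.ofReal_mul (by positivity)]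
      refine ENNReal.ofReal_le_ofReal (le_of_eq ?_)
      push_cast
      rw [div_pow, show j + (V + 1) + 1 = j + (V + 2) by ring, pow_add (5 : ℝ) j (V + 2)]
      ring
    refine (Finset.sum_le_sum h2).trans ?_
    rw [← ENNReal.ofReal_sum_of_nonneg fun j _ => by positivity]
    refine ENNReal.ofReal_le_ofReal ?_
    rw [← Finset.mul_sum]
    refine mul_le_mul_of_nonneg_left ?_ (by positivity)
    refine geom_Icc (by positivity) ?_ _ _
    rw [div_le_iff₀ hs0]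
    linarith
  refine (add_le_add S1 S2).trans ?_
  rw [← ENNReal.ofReal_add (by positivity) (by positivity)]
  refine ENNReal.ofReal_le_ofReal (le_of_eq ?_)
  rw [hW1, hW2, hXd, hG]
  unfold c1
  rw [mul_pow (n : ℝ)]
  ring

/-- **The bound for the class `T'` by the class `T`.** -/
theorem main_step (hs : 64 ≤ s) (hT : GoodClass T)
    (hU : ∀ E, IsPolygon E → Unknotted E → T E) (hH : Passes T' T) (hD : 0 ≤ D)
    (hZ : ∀ m, ZT (ENNReal.ofReal (s ^ 2)) T m ≤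
      ENNReal.ofReal (D * (m : ℝ) ^ p * Zt (s ^ 2) UClass m)) :
    ∃ D' : ℝ, 0 ≤ D' ∧ ∀ m, ZT (ENNReal.ofReal (s ^ 2)) T' m ≤
      ENNReal.ofReal (D' * (m : ℝ) ^ (p + 1) * Zt (s ^ 2) UClass m) := by
  have hs0 : 0 < s := by linarith
  have hy : 4096 ≤ s ^ 2 := by nlinarith
  have hy1 : 1 ≤ s ^ 2 := by linarith
  obtain ⟨A, hA1, hA⟩ := ratio_all hs
  have hA0 : 0 ≤ A := by linarith
  obtain ⟨C, hC0, hC⟩ := nt_le hy
  have hsum := summable_c2 hs p
  set B0 : ℝ := ∑' V, c2 s p V with hB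
  have hB0 : 0 ≤ B0 := tsum_nonneg fun V => c2_nonneg hs0.le p V
  refine ⟨C + D * A * B0, by positivity, fun n => ?_⟩
  by_cases hn : Even n
  swap
  · rw [ZT_eq (by positivity), KTen.u_odd hn, KTen.u_odd hn, mul_zero]
  by_cases h4 : 4 ≤ n
  swap
  · rw [ZT_eq (by positivity), KTen.u_small (not_le.1 h4), KTen.u_small (not_le.1 h4), mul_zero]
  set u := Zt (s ^ 2) UClass n with hu
  have hu0 : 0 ≤ u := KTen.zt_nonneg (by positivity) _ _
  have hn1 : 1 ≤ n := by omega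
  have hnR : (1 : ℝ) ≤ n := by exact_mod_cast hn1
  have hR := hA n hn h4
  have hY : (1 : ℝ≥0∞) ≤ ENNReal.ofReal (s ^ 2) := by
    rw [← ENNReal.ofReal_one]
    exact ENNReal.ofReal_le_ofReal hy1
  refine (ZT_le hT hU hH hY n).trans ?_
  set G : ℝ := D * A * (n : ℝ) ^ (p + 1) * u with hG
  have hG0 : 0 ≤ G := by positivity
  have hterm : ∀ V ∈ Finset.range (n + 1),
      ((if V + 2 ≤ n then (((V + 1) * 2 ^ V : ℕ) : ℝ≥0∞) * ENNReal.ofReal (s ^ 2) ^ (V / 4 + 2) *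
        SFN (ENNReal.ofReal (s ^ 2)) T (V + 1) (n - (V + 2)) else 0) +
        2 * (((2 ^ V : ℕ) : ℝ≥0∞) * ENNReal.ofReal (s ^ 2) ^ (V / 4 + 2) *
          SFN (ENNReal.ofReal (s ^ 2)) T (V + 1) (n - V + 2))) ≤
      ENNReal.ofReal (G * c2 s p V) := by
    intro V hV
    rw [Finset.mem_range] at hV
    have hc1 := c1_nonneg hs0.le p V
    have hpow : ENNReal.ofReal (s ^ 2) ^ (V / 4 + 2) = ENNReal.ofReal (s ^ (2 * (V / 4 + 2))) := by
      rw [← ENNReal.ofReal_pow (by positivity), ← pow_mul]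
    rw [hpow]
    have hP : 0 ≤ s ^ (2 * (V / 4 + 2)) := by positivity
    have h1 : (if V + 2 ≤ n then (((V + 1) * 2 ^ V : ℕ) : ℝ≥0∞) *
        ENNReal.ofReal (s ^ (2 * (V / 4 + 2))) *
        SFN (ENNReal.ofReal (s ^ 2)) T (V + 1) (n - (V + 2)) else 0) ≤
        ENNReal.ofReal (((V : ℝ) + 1) * 2 ^ V * s ^ (2 * (V / 4 + 2)) * (G * c1 s p V)) := by
      split_ifs with h
      · have h2 := SFN_real hs hT hD hA0 hZ hn1 hR (V := V) (σ := n - (V + 2)) (e := 20)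
          (by omega) (by norm_num)
        rw [← ENNReal.ofReal_natCast, ← ENNReal.ofReal_mul (by positivity),
          ENNReal.ofReal_mul (q := G * c1 s p V) (by positivity)]
        have e1 : (((V + 1) * 2 ^ V : ℕ) : ℝ) * s ^ (2 * (V / 4 + 2)) =
            ((V : ℝ) + 1) * 2 ^ V * s ^ (2 * (V / 4 + 2)) := by push_cast; ring
        rw [e1]
        exact mul_le_mul_right h2 _
      · exact zero_le
    have h3 : (2 : ℝ≥0∞) * (((2 ^ V : ℕ) : ℝ≥0∞) * ENNReal.ofReal (s ^ (2 * (V / 4 + 2))) *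
          SFN (ENNReal.ofReal (s ^ 2)) T (V + 1) (n - V + 2)) ≤
        ENNReal.ofReal (2 * (2 ^ V * s ^ (2 * (V / 4 + 2)) * (G * c1 s p V))) := by
      have h2 := SFN_real hs hT hD hA0 hZ hn1 hR (V := V) (σ := n - V + 2) (e := 24)
          (by omega) (by norm_num)
      rw [ENNReal.ofReal_mul (by norm_num), ENNReal.ofReal_ofNat]
      refine mul_le_mul_right ?_ _
      rw [← ENNReal.ofReal_natCast, ← ENNReal.ofReal_mul (by positivity),
          ENNReal.ofReal_mul (q := G * c1 s p V) (by positivity)]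
      have e1 : ((2 ^ V : ℕ) : ℝ) * s ^ (2 * (V / 4 + 2)) =
            2 ^ V * s ^ (2 * (V / 4 + 2)) := by push_cast; ring
      rw [e1]
      exact mul_le_mul_right h2 _
    refine (add_le_add h1 h3).trans ?_
    rw [← ENNReal.ofReal_add (by positivity) (by positivity)]
    refine ENNReal.ofReal_le_ofReal (le_of_eq ?_)
    unfold c2
    ring
  refine (add_le_add (hC n) (Finset.sum_le_sum hterm)).trans ?_
  rw [← ENNReal.ofReal_sum_of_nonneg fun V _ => mul_nonneg hG0 (c2_nonneg hs0.le p V),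
    ← ENNReal.ofReal_add (by positivity)
      (Finset.sum_nonneg fun V _ => mul_nonneg hG0 (c2_nonneg hs0.le p V))]
  refine ENNReal.ofReal_le_ofReal ?_
  rw [← Finset.mul_sum]
  have h5 : ∑ V ∈ Finset.range (n + 1), c2 s p V ≤ B0 :=
    hsum.sum_le_tsum _ fun V _ => c2_nonneg hs0.le p V
  have h6 : C * u ≤ C * (n : ℝ) ^ (p + 1) * u := by
    have : (1 : ℝ) ≤ (n : ℝ) ^ (p + 1) := one_le_pow₀ hnR
    have h7 : C * 1 ≤ C * (n : ℝ) ^ (p + 1) := mul_le_mul_of_nonneg_left this hC0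
    rw [mul_one] at h7
    exact mul_le_mul_of_nonneg_right h7 hu0
  calc C * u + G * ∑ V ∈ Finset.range (n + 1), c2 s p V
      ≤ C * (n : ℝ) ^ (p + 1) * u + G * B0 := add_le_add h6 (mul_le_mul_of_nonneg_left h5 hG0)
    _ = _ := by rw [hG]; ring

end Pool.Agent.KRing
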