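import Pool.Agent.KTube.Caps
import Pool.Agent.KTube.Types
import Pool.Agent.KTube.CutV0
import Pool.Agent.LatticeTube.SmallGap
import Pool.Agent.LatticeTube.M1

/-! Cutting a polygon of `ℤ³` at an arbitrary section with two edges: closures of the two parts. -/

set_option autoImplicit false

open Pool.Agent.LK

namespace Pool.Agent.KRing

open Pool.Agent.KTube

variable {E F A B C K : Finset (Sym2 P3)} {k : ℤ} {L M : ℕ}

/-- `E` and `F` have the same edges below the plane `z = k + 1/2` and the same crossing edges. -/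
def LowEq (E F : Finset (Sym2 P3)) (k : ℤ) : Prop :=
  ∀ u v : P3, u.2.2 ≤ k → (s(u, v) ∈ E ↔ s(u, v) ∈ F)

/-- `E` and `F` have the same edges above the plane `z = k + 1/2` and the same crossing edges. -/
def UppEq (E F : Finset (Sym2 P3)) (k : ℤ) : Prop :=
  ∀ u v : P3, k + 1 ≤ u.2.2 → (s(u, v) ∈ E ↔ s(u, v) ∈ F)

/-- `C` is a closure of the part of `E` below the plane `z = k + 1/2`: above the plane it has two
strands only. -/
def LowClose (E : Finset (Sym2 P3)) (k : ℤ) (C : Finset (Sym2 P3)) : Prop :=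
  IsPolygon C ∧ LowEq C E k ∧ ∀ j, k ≤ j → (cross C j).Nonempty → (cross C j).ncard = 2

/-- `C` is a closure of the part of `E` above the plane `z = k + 1/2`: below the plane it has two
strands only. -/
def UppClose (E : Finset (Sym2 P3)) (k : ℤ) (C : Finset (Sym2 P3)) : Prop :=
  IsPolygon C ∧ UppEq C E k ∧ ∀ j, j ≤ k → (cross C j).Nonempty → (cross C j).ncard = 2

theorem LowEq.cross (h : LowEq E F k) {j : ℤ} (hj : j ≤ k) : cross E j = cross F j := by
  ext c
  exact h _ _ hj

theorem UppEq.cross (h : UppEq E F k) {j : ℤ} (hj : k ≤ j) : cross E j = cross F j := by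
  ext c
  rw [mem_cross, mem_cross, Sym2.eq_swap]
  exact h _ _ (by simp only; omega)

/-- Polygons with two strands are unknotted. -/
theorem unknotted_of_two (hE : IsPolygon E)
    (h : ∀ j, (cross E j).Nonempty → (cross E j).ncard = 2) (hne : ∃ j, (cross E j).Nonempty) :
    Unknotted E := by
  obtain ⟨n, N, g, hc, hu⟩ := LatticeTube.monoCycStatement E hE ⟨hne, h⟩
  exact LatticeTube.unknotted_of_ud E hE ⟨n, N, g, hc, hu⟩

/-! ### The lower half of an inserted detour -/

/-- `E` and `F` have the same edges below the plane. -/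
def BelowEq (E F : Finset (Sym2 P3)) (k : ℤ) : Prop :=
  ∀ u v : P3, u.2.2 ≤ k → v.2.2 ≤ k → (s(u, v) ∈ E ↔ s(u, v) ∈ F)

theorem stretch_belowEq {h : ℕ} (hEF : BelowEq E F k) (hc : cross E k = cross F k) {j : ℤ}
    (hj : j ≤ k + h) : BelowEq (stretch E k h) (stretch F k h) j := by
  have key : ∀ {E F : Finset (Sym2 P3)}, BelowEq E F k → cross E k = cross F k →
      ∀ u v : P3, u.2.2 ≤ j → v.2.2 ≤ j → s(u, v) ∈ stretch E k h →
      s(u, v) ∈ stretch F k h := by
    intro E F hEF hc u v hu hv huv
    rw [mem_stretch] at huv ⊢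
    rcases huv with ⟨h0, h1, h2⟩ | ⟨h1, h2, h3⟩ | ⟨a, b, i, hi, h2, h3⟩
    · exact Or.inl ⟨(hEF u v h1 h2).1 h0, h1, h2⟩
    · omega
    · refine Or.inr (Or.inr ⟨a, b, i, hi, ?_, h3⟩)
      have : ((a, b) : ℤ × ℤ) ∈ cross E k := h2
      rw [hc] at this
      exact this
  intro u v hu hv
  exact ⟨key hEF hc u v hu hv, key (fun u v h1 h2 => (hEF u v h1 h2).symm) hc.symm u v hu hv⟩

theorem step_belowEq {a a' : ℤ × ℤ} (hEF : BelowEq E F k) (hc : cross E k = cross F k) :
    BelowEq (step E k a a') (step F k a a') (k + 1) := by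
  intro u v hu hv
  rw [mem_step, mem_step, stretch_belowEq hEF hc (j := k + 1) (by push_cast; omega) u v hu hv]

theorem run_belowEq (hS : StretchStatement) : ∀ (d : ℕ) (E F : Finset (Sym2 P3)) (k : ℤ),
    IsPolygon E → InTube L M E → (cross E k).ncard = 2 → Reach L M d (cross E k) →
    IsPolygon F → InTube L M F → BelowEq E F k → cross E k = cross F k →
    BelowEq (run L M d E k) (run L M d F k) (k + d) ∧
      cross (run L M d E k) (k + d) = cross (run L M d F k) (k + d) := by
  intro d
  induction d with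
  | zero => intro E F k hE hT h2 hr hF hT' h hc; simpa [run] using ⟨h, hc⟩
  | succ d ih =>
    intro E F k hE hT h2 hr hF hT' hEF hc
    obtain ⟨h3, h4, h5⟩ := nxt_spec hr
    have hE' : run L M (d + 1) E k =
      run L M d (step E k (nxt L M d (cross E k)).1 (nxt L M d (cross E k)).2) (k + 1) := rfl
    have hF' : run L M (d + 1) F k =
      run L M d (step F k (nxt L M d (cross F k)).1 (nxt L M d (cross F k)).2) (k + 1) := rfl
    rw [← hc] at hF'
    rw [hE', hF']
    set a := (nxt L M d (cross E k)).1 with ha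
    set a' := (nxt L M d (cross E k)).2 with ha'
    have hok : StepOk L M E k a a' := ⟨hE, hT, h4⟩
    have hok' : StepOk L M F k a a' := ⟨hF, hT', by rw [← hc]; exact h4⟩
    have hcm := hok.cross_mid
    have hcm' := hok'.cross_mid
    have := ih _ _ (k + 1) (hok.isPolygon hS) hok.inTube
      (by rw [hcm]; exact ncard_moved h4 h2) (by rw [hcm]; exact h5) (hok'.isPolygon hS)
      hok'.inTube (step_belowEq hEF hc) (by rw [hcm, hcm', hc])
    have e : k + 1 + (d : ℤ) = k + ((d + 1 : ℕ) : ℤ) := by push_cast; ring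
    rwa [e] at this

theorem run_two (hS : StretchStatement) : ∀ (d : ℕ) (E : Finset (Sym2 P3)) (k : ℤ),
    IsPolygon E → InTube L M E → (cross E k).ncard = 2 → Reach L M d (cross E k) →
    ∀ j, k ≤ j → j ≤ k + 2 * d → (cross (run L M d E k) j).ncard = 2 := by
  intro d
  induction d with
  | zero =>
    intro E k hE hT h2 hr j h3 h4
    have : j = k := by push_cast at h4; omega
    subst this
    exact h2
  | succ d ih =>
    intro E k hE hT h2 hr j hj1 hj2
    obtain ⟨h3, h4, h5⟩ := nxt_spec hr
    set a := (nxt L M d (cross E k)).1 with ha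
    set a' := (nxt L M d (cross E k)).2 with ha'
    have hok : StepOk L M E k a a' := ⟨hE, hT, h4⟩
    have hrun : run L M (d + 1) E k = run L M d (step E k a a') (k + 1) := rfl
    have hcm := hok.cross_mid
    have g1 : (cross (step E k a a') (k + 1)).ncard = 2 := by rw [hcm]; exact ncard_moved h4 h2
    have g2 : Reach L M d (cross (step E k a a') (k + 1)) := by rw [hcm]; exact h5
    have hR := run_facts hS d (step E k a a') (k + 1) (hok.isPolygon hS) hok.inTube g1 g2
    rw [hrun]
    push_cast at hj2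
    rcases eq_or_lt_of_le hj1 with rfl | hj1
    · rw [hR.low k (by omega), hok.cross_low le_rfl]; exact h2
    rcases eq_or_lt_of_le hj2 with rfl | hj2
    · rw [hR.high _ (by omega), hok.cross_high (by omega)]
      have : k + 2 * ((d : ℤ) + 1) - 2 * d - 2 = k := by ring
      rw [this]
      exact h2
    exact ih _ (k + 1) (hok.isPolygon hS) hok.inTube g1 g2 j (by omega) (by omega)

theorem ins_belowEq (hS : StretchStatement) (hL : 1 ≤ L) (hE : IsPolygon E)
    (hT : InTube L M E) (h2 : IsTwo E k) (hF : IsPolygon F)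
    (hT' : InTube L M F) (hEF : BelowEq E F k) (hc : cross E k = cross F k) :
    BelowEq (ins L M E k) (ins L M F k) (k + hgt L M) := by
  obtain ⟨hd, hr⟩ := dst_spec (M := M) hL h2 (box_cross hT)
  unfold ins
  rw [← hc]
  set d := dst L M (cross E k) with hdef
  obtain ⟨e, he⟩ : ∃ e : ℕ, hgt L M - d = e := ⟨_, rfl⟩
  rw [he]
  have hcm : cross (stretch E k (2 * e)) (k + e) = cross E k :=
    cross_stretch_mid (by omega) (by push_cast; omega)
  have hcm' : cross (stretch F k (2 * e)) (k + e) = cross F k :=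
    cross_stretch_mid (by omega) (by push_cast; omega)
  have hab : BelowEq (stretch E k (2 * e)) (stretch F k (2 * e)) (k + e) :=
    stretch_belowEq hEF hc (by push_cast; omega)
  have := (run_belowEq (L := L) (M := M) hS d (stretch E k (2 * e)) (stretch F k (2 * e)) (k + e)
    (hS E k (2 * e) hE).1 (inTube_stretch hT) (by rw [hcm]; exact h2) (by rw [hcm]; exact hr)
    (hS F k (2 * e) hF).1 (inTube_stretch hT') hab (by rw [hcm, hcm', hc])).1
  have e1 : k + (e : ℤ) + d = k + hgt L M := by omega
  rwa [e1] at this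

theorem ins_two (hS : StretchStatement) (hL : 1 ≤ L) (hE : IsPolygon E)
    (hT : InTube L M E) (h2 : IsTwo E k) {j : ℤ} (hj1 : k ≤ j) (hj2 : j ≤ k + 2 * hgt L M) :
    (cross (ins L M E k) j).ncard = 2 := by
  obtain ⟨hd, hr⟩ := dst_spec (M := M) hL h2 (box_cross hT)
  set d := dst L M (cross E k) with hdef
  obtain ⟨e, he⟩ : ∃ e : ℕ, hgt L M - d = e := ⟨_, rfl⟩
  have hde : d + e = hgt L M := by omega
  have hins : ins L M E k = run L M d (stretch E k (2 * e)) (k + (e : ℕ)) := by
    unfold ins
    rw [← hdef, he]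
  have hcm : cross (stretch E k (2 * e)) (k + e) = cross E k :=
    cross_stretch_mid (by omega) (by push_cast; omega)
  have g1 := (hS E k (2 * e) hE).1
  have g2 : InTube L M (stretch E k (2 * e)) := inTube_stretch hT
  have g3 : (cross (stretch E k (2 * e)) (k + e)).ncard = 2 := by rw [hcm]; exact h2
  have g4 : Reach L M d (cross (stretch E k (2 * e)) (k + e)) := by rw [hcm]; exact hr
  have hR := run_facts hS d _ _ g1 g2 g3 g4
  have hH : (hgt L M : ℤ) = d + e := by rw [← hde]; push_cast; ring
  rw [hins]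
  by_cases h3 : k + e ≤ j
  · by_cases h4 : j ≤ k + e + 2 * d
    · exact run_two hS d _ _ g1 g2 g3 g4 j h3 h4
    · rw [hR.high j (by omega), cross_stretch_mid (by omega) (by push_cast; omega)]
      exact h2
  · rw [hR.low j (by omega), cross_stretch_mid (by omega) (by push_cast; omega)]
    exact h2

/-! ### Lower and upper parts -/

theorem low_eq (hE : ∀ u v, s(u, v) ∈ E → Adj u v) (hF : ∀ u v, s(u, v) ∈ F → Adj u v)
    (hEF : BelowEq E F k) (hc : cross E k = cross F k) : low E k = low F k := by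
  have key : ∀ {E F : Finset (Sym2 P3)}, (∀ u v, s(u, v) ∈ E → Adj u v) → BelowEq E F k →
      cross E k = cross F k → ∀ u v, s(u, v) ∈ low E k → s(u, v) ∈ low F k := by
    intro E F hE hEF hc u v huv
    rw [mem_low_iff] at huv ⊢
    rcases huv with h1 | ⟨h1, h2⟩
    · exact Or.inl h1
    · refine Or.inr ⟨?_, h2⟩
      rcases adj_cases k (hE u v h1) with ⟨h3, h4⟩ | ⟨h3, h4⟩ | ⟨a, b, h3⟩
      · exact (hEF u v h3 h4).1 h1
      · omega
      · rw [h3] at h1 ⊢
        have : ((a, b) : ℤ × ℤ) ∈ cross E k := h1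
        rw [hc] at this
        exact this
  exact edge_ext fun u v => ⟨key hE hEF hc u v,
    key hF (fun u v h1 h2 => (hEF u v h1 h2).symm) hc.symm u v⟩

/-- The properties of the position. -/
structure Pos (L : ℕ) (E : Finset (Sym2 P3)) : Prop where
  tube : InTube L L E
  right : ∀ u ∈ verts E, 2 ≤ u.1

theorem Pos.notV0 (h : Pos L E) : ¬ IsV0 E k := by
  intro h0
  have h1 : ((0, 0) : ℤ × ℤ) ∈ cross E k := by
    rw [show cross E k = V0 from h0]
    simp [V0]
  have := h.right _ (left_mem_verts (mem_cross.1 h1))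
  simp at this

theorem close_low (hL : 1 ≤ L) (hE : IsPolygon E) (hpE : Pos L E) (h2 : IsTwo E k)
    (hA : LowClose E k A) (hpA : Pos L A) :
    SameType A (low (ins L L E k) (k + hgt L L)) := by
  obtain ⟨hAP, hAE, hAt⟩ := hA
  have hc : cross A k = cross E k := hAE.cross le_rfl
  have h2A : IsTwo A k := by unfold IsTwo; rw [hc]; exact h2
  have hIE := ins_facts stretchStatement hL hE hpE.tube h2 hpE.notV0
  have hIA := ins_facts stretchStatement hL hAP hpA.tube h2A hpA.notV0
  have hH := hgt_pos L L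
  have hVE : IsV0 (ins L L E k) (k + hgt L L) := (hIE.mid _ (by omega) (by omega)).2 rfl
  have hVA : IsV0 (ins L L A k) (k + hgt L L) := (hIA.mid _ (by omega) (by omega)).2 rfl
  have hlow : low (ins L L A k) (k + hgt L L) = low (ins L L E k) (k + hgt L L) := by
    refine low_eq hIA.poly.adj hIE.poly.adj ?_ ?_
    · exact ins_belowEq stretchStatement hL hAP hpA.tube h2A hE hpE.tube
        (fun u v hu _ => hAE u v hu) hc
    · rw [show cross _ _ = V0 from hVA, show cross _ _ = V0 from hVE]
  obtain ⟨hl, hu, hg⟩ := cutStatement _ _ hIA.poly hVA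
  have hU : Unknotted (upp (ins L L A k) (k + hgt L L)) := by
    have hne : ∀ j, k + hgt L L ≤ j →
        cross (upp (ins L L A k) (k + hgt L L)) j = cross (ins L L A k) j := by
      intro j hj
      ext c
      rw [mem_cross, mem_cross, mem_upp_iff]
      constructor
      · rintro (h | ⟨h, -⟩)
        · unfold cap at h
          rw [Sym2.eq_iff] at h
          simp only [Prod.mk.injEq] at h
          omega
        · exact h
      · intro h
        exact Or.inr ⟨h, Or.inr (by simp only; omega)⟩
    refine unknotted_of_two hu.1 ?_ ⟨k + hgt L L, ?_⟩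
    · intro j hj
      rcases lt_or_ge j (k + hgt L L) with h1 | h1
      · exfalso
        obtain ⟨c, hc'⟩ := hj
        have := hu.2.2.2 _ (left_mem_verts (mem_cross.1 hc'))
        simp only at this
        omega
      · rw [hne j h1] at hj ⊢
        rcases le_or_gt j (k + 2 * hgt L L) with h3 | h3
        · exact ins_two stretchStatement hL hAP hpA.tube h2A (by omega) h3
        · rw [hIA.high j (by omega)] at hj ⊢
          exact hAt _ (by omega) hj
    · rw [hne _ le_rfl, show cross _ _ = V0 from hVA]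
      exact ⟨(0, 0), by simp [V0]⟩
  have h5 := (typeStatement stretchStatement _ _ _ hl hu).2.2.1 hU
  rw [hg] at h5
  rw [← hlow]
  exact hIA.type.trans h5.symm

theorem close_upp (hL : 1 ≤ L) (hE : IsPolygon E) (hpE : Pos L E) (h2 : IsTwo E k)
    (hB : UppClose E k B) (hpB : Pos L B) :
    SameType B (upp (ins L L E k) (k + hgt L L)) := by
  obtain ⟨hBP, hBE, hBt⟩ := hB
  have hc : cross B k = cross E k := hBE.cross le_rfl
  have h2B : IsTwo B k := by unfold IsTwo; rw [hc]; exact h2
  have hIE := ins_facts stretchStatement hL hE hpE.tube h2 hpE.notV0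
  have hIB := ins_facts stretchStatement hL hBP hpB.tube h2B hpB.notV0
  have hH := hgt_pos L L
  have hVE : IsV0 (ins L L E k) (k + hgt L L) := (hIE.mid _ (by omega) (by omega)).2 rfl
  have hVB : IsV0 (ins L L B k) (k + hgt L L) := (hIB.mid _ (by omega) (by omega)).2 rfl
  have hupp : upp (ins L L B k) (k + hgt L L) = upp (ins L L E k) (k + hgt L L) := by
    refine upp_eq hIB.poly.adj hIE.poly.adj ?_ ?_
    · exact ins_above stretchStatement hL hBP hpB.tube h2B hE hpE.tube
        (fun u v hu _ => hBE u v hu) hc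
    · rw [show cross _ _ = V0 from hVB, show cross _ _ = V0 from hVE]
  obtain ⟨hl, hu, hg⟩ := cutStatement _ _ hIB.poly hVB
  have hU : Unknotted (low (ins L L B k) (k + hgt L L)) := by
    have hne : ∀ j, j ≤ k + hgt L L →
        cross (low (ins L L B k) (k + hgt L L)) j = cross (ins L L B k) j := by
      intro j hj
      ext c
      rw [mem_cross, mem_cross, mem_low_iff]
      constructor
      · rintro (h | ⟨h, -⟩)
        · unfold cap at h
          rw [Sym2.eq_iff] at h
          simp only [Prod.mk.injEq] at h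
          omega
        · exact h
      · intro h
        exact Or.inr ⟨h, Or.inl (by simp only; omega)⟩
    refine unknotted_of_two hl.1 ?_ ⟨k + hgt L L, ?_⟩
    · intro j hj
      rcases lt_or_ge (k + hgt L L) j with h1 | h1
      · exfalso
        obtain ⟨c, hc'⟩ := hj
        have := hl.2.2.2 _ (right_mem_verts (mem_cross.1 hc'))
        simp only at this
        omega
      · rw [hne j h1] at hj ⊢
        rcases le_or_gt k j with h3 | h3
        · exact ins_two stretchStatement hL hBP hpB.tube h2B h3 (by omega)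
        · rw [hIB.low j (by omega)] at hj ⊢
          exact hBt _ (by omega) hj
    · rw [hne _ le_rfl, show cross _ _ = V0 from hVB]
      exact ⟨(0, 0), by simp [V0]⟩
  have h5 := (typeStatement stretchStatement _ _ _ hl hu).2.1 hU
  rw [hg] at h5
  rw [← hupp]
  exact hIB.type.trans h5.symm

/-! ### Translations -/

theorem cross_shift {t : P3} (ht : t.2.2 = 0) {j : ℤ} {c : ℤ × ℤ} :
    c ∈ cross (shift t E) j ↔ (c.1 - t.1, c.2 - t.2.1) ∈ cross E j := by
  rw [mem_cross, mem_cross, mem_shift]
  have e1 : ((c.1, c.2, j) : P3) - t = (c.1 - t.1, c.2 - t.2.1, j) := by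
    refine Prod.ext rfl (Prod.ext rfl ?_)
    simp [ht]
  have e2 : ((c.1, c.2, j + 1) : P3) - t = (c.1 - t.1, c.2 - t.2.1, j + 1) := by
    refine Prod.ext rfl (Prod.ext rfl ?_)
    simp [ht]
  rw [e1, e2]

theorem cross_shift_eq {t : P3} (ht : t.2.2 = 0) (j : ℤ) :
    cross (shift t E) j = (fun c : ℤ × ℤ => (c.1 + t.1, c.2 + t.2.1)) '' cross E j := by
  ext c
  rw [cross_shift ht, Set.mem_image]
  constructor
  · intro h
    exact ⟨_, h, by simp⟩
  · rintro ⟨d, hd, rfl⟩
    simpa using hd

theorem ncard_cross_shift {t : P3} (ht : t.2.2 = 0) (j : ℤ) :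
    (cross (shift t E) j).ncard = (cross E j).ncard := by
  rw [cross_shift_eq ht]
  refine Set.ncard_image_of_injective _ ?_
  intro c d h
  simp only [Prod.mk.injEq, add_left_inj] at h
  exact Prod.ext h.1 h.2

theorem nonempty_cross_shift {t : P3} (ht : t.2.2 = 0) (j : ℤ) :
    (cross (shift t E) j).Nonempty ↔ (cross E j).Nonempty := by
  rw [cross_shift_eq ht, Set.image_nonempty]

theorem sameType_shift (t : P3) (B : Finset (Sym2 P3)) : SameType B (shift t B) :=
  moveFacts.trans t B

theorem LowClose.shift (h : LowClose E k A) {t : P3} (ht : t.2.2 = 0) :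
    LowClose (shift t E) k (shift t A) := by
  refine ⟨isPolygon_shift h.1 t, ?_, ?_⟩
  · intro u v hu
    rw [mem_shift, mem_shift]
    exact h.2.1 _ _ (by simp only [Prod.snd_sub, ht]; omega)
  · intro j hj h1
    rw [nonempty_cross_shift ht] at h1
    rw [ncard_cross_shift ht]
    exact h.2.2 j hj h1

theorem UppClose.shift (h : UppClose E k A) {t : P3} (ht : t.2.2 = 0) :
    UppClose (shift t E) k (shift t A) := by
  refine ⟨isPolygon_shift h.1 t, ?_, ?_⟩
  · intro u v hu
    rw [mem_shift, mem_shift]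
    exact h.2.1 _ _ (by simp only [Prod.snd_sub, ht]; omega)
  · intro j hj h1
    rw [nonempty_cross_shift ht] at h1
    rw [ncard_cross_shift ht]
    exact h.2.2 j hj h1

theorem exists_bound (E : Finset (Sym2 P3)) : ∃ R : ℕ, ∀ u ∈ verts E, |u.1| ≤ R ∧ |u.2.1| ≤ R := by
  obtain ⟨R, hR⟩ := ((verts_finite E).image fun u => max |u.1| |u.2.1|).bddAbove
  refine ⟨R.toNat, fun u hu => ?_⟩
  have h1 : max |u.1| |u.2.1| ≤ R := hR ⟨u, hu, rfl⟩
  have h2 := le_max_left |u.1| |u.2.1|
  have h3 := le_max_right |u.1| |u.2.1|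
  have h4 := Int.self_le_toNat R
  exact ⟨by omega, by omega⟩

theorem pos_shift {R : ℕ} (hR : ∀ u ∈ verts E, |u.1| ≤ R ∧ |u.2.1| ≤ R) :
    Pos (2 * R + 2) (shift ((R : ℤ) + 2, (R : ℤ), 0) E) := by
  have h : ∀ u ∈ verts (shift ((R : ℤ) + 2, (R : ℤ), 0) E),
      u - ((R : ℤ) + 2, (R : ℤ), 0) ∈ verts E := fun u hu => mem_verts_shift.1 hu
  refine ⟨fun u hu => ?_, fun u hu => ?_⟩
  · obtain ⟨h1, h2⟩ := hR _ (h u hu)
    simp only [Prod.fst_sub, Prod.snd_sub] at h1 h2
    rw [abs_le] at h1 h2
    push_cast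
    refine ⟨?_, ?_, ?_, ?_⟩ <;> omega
  · obtain ⟨h1, h2⟩ := hR _ (h u hu)
    simp only [Prod.fst_sub] at h1
    rw [abs_le] at h1
    omega

/-- **Cutting at an arbitrary section with two edges.** -/
theorem split (hE : IsPolygon E) (h2 : IsTwo E k) (hA : LowClose E k A) (hB : UppClose E k B) :
    (Unknotted E ↔ Unknotted A ∧ Unknotted B) ∧ (Unknotted A → SameType B E) ∧
      (Unknotted B → SameType A E) ∧ ∀ K, PrimeKnot K → SameType K E →
        (Unknotted A ∧ SameType K B) ∨ (Unknotted B ∧ SameType K A) := by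
  obtain ⟨R1, hR1⟩ := exists_bound E
  obtain ⟨R2, hR2⟩ := exists_bound A
  obtain ⟨R3, hR3⟩ := exists_bound B
  set R := R1 + R2 + R3 with hR
  set t : P3 := ((R : ℤ) + 2, (R : ℤ), 0) with ht
  have ht0 : t.2.2 = 0 := rfl
  have pE : Pos (2 * R + 2) (shift t E) := pos_shift fun u hu => by
    obtain ⟨a, b⟩ := hR1 u hu; rw [hR]; push_cast; constructor <;> omega
  have pA : Pos (2 * R + 2) (shift t A) := pos_shift fun u hu => by
    obtain ⟨a, b⟩ := hR2 u hu; rw [hR]; push_cast; constructor <;> omega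
  have pB : Pos (2 * R + 2) (shift t B) := pos_shift fun u hu => by
    obtain ⟨a, b⟩ := hR3 u hu; rw [hR]; push_cast; constructor <;> omega
  have hL : 1 ≤ 2 * R + 2 := by omega
  have hE' := isPolygon_shift hE t
  have h2' : IsTwo (shift t E) k := by unfold IsTwo; rw [ncard_cross_shift ht0]; exact h2
  have tE := sameType_shift t E
  have tA := (sameType_shift t A).trans (close_low hL hE' pE h2' (hA.shift ht0) pA)
  have tB := (sameType_shift t B).trans (close_upp hL hE' pE h2' (hB.shift ht0) pB)
  have hI := ins_facts stretchStatement hL hE' pE.tube h2' pE.notV0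
  have hH := hgt_pos (2 * R + 2) (2 * R + 2)
  have hV := (hI.mid _ (by omega) (by omega)).2 rfl
  obtain ⟨hl, hu, hg⟩ := cutStatement _ _ hI.poly hV
  obtain ⟨g1, g2, g3, g4⟩ := typeStatement stretchStatement _ _ _ hl hu
  rw [hg] at g1 g2 g3 g4
  have tF := tE.trans hI.type
  refine ⟨?_, fun h => ?_, fun h => ?_, fun K hK h => ?_⟩
  · constructor
    · intro h
      obtain ⟨a, b⟩ := g1.1 (tF.symm.unknotted h)
      exact ⟨tA.unknotted a, tB.unknotted b⟩
    · rintro ⟨a, b⟩
      exact tF.unknotted (g1.2 ⟨tA.symm.unknotted a, tB.symm.unknotted b⟩)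
  · exact (tB.trans (g2 (tA.symm.unknotted h))).trans tF.symm
  · exact (tA.trans (g3 (tB.symm.unknotted h))).trans tF.symm
  · rcases g4 K hK (h.trans tF) with ⟨a, b⟩ | ⟨a, b⟩
    · exact Or.inl ⟨tA.unknotted a, b.trans tB.symm⟩
    · exact Or.inr ⟨tB.unknotted a, b.trans tA.symm⟩

/-- The closures of the lower part have the same type. -/
theorem lowClose_unique (hE : IsPolygon E) (h2 : IsTwo E k) (hA : LowClose E k A)
    (hB : LowClose E k B) : SameType A B := by
  obtain ⟨R1, hR1⟩ := exists_bound E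
  obtain ⟨R2, hR2⟩ := exists_bound A
  obtain ⟨R3, hR3⟩ := exists_bound B
  set R := R1 + R2 + R3 with hR
  set t : P3 := ((R : ℤ) + 2, (R : ℤ), 0) with ht
  have ht0 : t.2.2 = 0 := rfl
  have pE : Pos (2 * R + 2) (shift t E) := pos_shift fun u hu => by
    obtain ⟨a, b⟩ := hR1 u hu; rw [hR]; push_cast; constructor <;> omega
  have pA : Pos (2 * R + 2) (shift t A) := pos_shift fun u hu => by
    obtain ⟨a, b⟩ := hR2 u hu; rw [hR]; push_cast; constructor <;> omega
  have pB : Pos (2 * R + 2) (shift t B) := pos_shift fun u hu => by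
    obtain ⟨a, b⟩ := hR3 u hu; rw [hR]; push_cast; constructor <;> omega
  have hL : 1 ≤ 2 * R + 2 := by omega
  have hE' := isPolygon_shift hE t
  have h2' : IsTwo (shift t E) k := by unfold IsTwo; rw [ncard_cross_shift ht0]; exact h2
  have tA := (sameType_shift t A).trans (close_low hL hE' pE h2' (hA.shift ht0) pA)
  have tB := (sameType_shift t B).trans (close_low hL hE' pE h2' (hB.shift ht0) pB)
  exact tA.trans tB.symm

/-- The closures of the upper part have the same type. -/
theorem uppClose_unique (hE : IsPolygon E) (h2 : IsTwo E k) (hA : UppClose E k A)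
    (hB : UppClose E k B) : SameType A B := by
  obtain ⟨R1, hR1⟩ := exists_bound E
  obtain ⟨R2, hR2⟩ := exists_bound A
  obtain ⟨R3, hR3⟩ := exists_bound B
  set R := R1 + R2 + R3 with hR
  set t : P3 := ((R : ℤ) + 2, (R : ℤ), 0) with ht
  have ht0 : t.2.2 = 0 := rfl
  have pE : Pos (2 * R + 2) (shift t E) := pos_shift fun u hu => by
    obtain ⟨a, b⟩ := hR1 u hu; rw [hR]; push_cast; constructor <;> omega
  have pA : Pos (2 * R + 2) (shift t A) := pos_shift fun u hu => by
    obtain ⟨a, b⟩ := hR2 u hu; rw [hR]; push_cast; constructor <;> omega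
  have pB : Pos (2 * R + 2) (shift t B) := pos_shift fun u hu => by
    obtain ⟨a, b⟩ := hR3 u hu; rw [hR]; push_cast; constructor <;> omega
  have hL : 1 ≤ 2 * R + 2 := by omega
  have hE' := isPolygon_shift hE t
  have h2' : IsTwo (shift t E) k := by unfold IsTwo; rw [ncard_cross_shift ht0]; exact h2
  have tA := (sameType_shift t A).trans (close_upp hL hE' pE h2' (hA.shift ht0) pA)
  have tB := (sameType_shift t B).trans (close_upp hL hE' pE h2' (hB.shift ht0) pB)
  exact tA.trans tB.symm

/-! ### Existence of closures -/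

theorem shift_shift_neg (t : P3) (E : Finset (Sym2 P3)) : shift (-t) (shift t E) = E := by
  refine edge_ext fun u v => ?_
  rw [mem_shift, mem_shift]
  simp

theorem exists_lowClose (hE : IsPolygon E) (h2 : IsTwo E k) : ∃ A, LowClose E k A := by
  obtain ⟨R, hR⟩ := exists_bound E
  set t : P3 := ((R : ℤ) + 2, (R : ℤ), 0) with ht
  have ht0 : t.2.2 = 0 := rfl
  have pE : Pos (2 * R + 2) (shift t E) := pos_shift hR
  have hL : 1 ≤ 2 * R + 2 := by omega
  have hE' := isPolygon_shift hE t
  have h2' : IsTwo (shift t E) k := by unfold IsTwo; rw [ncard_cross_shift ht0]; exact h2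
  have hI := ins_facts stretchStatement hL hE' pE.tube h2' pE.notV0
  have hH := hgt_pos (2 * R + 2) (2 * R + 2)
  have hV := (hI.mid _ (by omega) (by omega)).2 rfl
  set F := ins (2 * R + 2) (2 * R + 2) (shift t E) k with hF
  set m : ℤ := k + hgt (2 * R + 2) (2 * R + 2) with hm
  obtain ⟨hl, hu, hg⟩ := cutStatement _ _ hI.poly hV
  have h3 : LowClose (shift t E) k (low F m) := by
    refine ⟨hl.1, ?_, ?_⟩
    · intro u v hu
      rw [mem_low_iff]
      have h4 : s(u, v) ∈ F ↔ s(u, v) ∈ shift t E := by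
        rcases le_or_gt v.2.2 k with hv | hv
        · exact ins_below hu hv
        · constructor
          · intro h
            rcases adj_cases k (hI.poly.adj u v h) with h5 | h5 | ⟨a, b, h5⟩
            · omega
            · omega
            · rw [h5] at h ⊢
              have : ((a, b) : ℤ × ℤ) ∈ cross F k := h
              rw [hI.low k le_rfl] at this
              exact this
          · intro h
            rcases adj_cases k (hE'.adj u v h) with h5 | h5 | ⟨a, b, h5⟩
            · omega
            · omega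
            · rw [h5] at h ⊢
              have : ((a, b) : ℤ × ℤ) ∈ cross (shift t E) k := h
              rw [← hI.low k le_rfl] at this
              exact this
      constructor
      · rintro (h | ⟨h, -⟩)
        · exfalso
          rcases cap_mem_level h with ⟨a, b⟩
          omega
        · exact h4.1 h
      · intro h
        exact Or.inr ⟨h4.2 h, Or.inl (by omega)⟩
    · intro j hj hj2
      have h4 : j ≤ m := by
        obtain ⟨c, hc⟩ := hj2
        have := hl.2.2.2 _ (right_mem_verts (mem_cross.1 hc))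
        simp only at this
        omega
      have h5 : cross (low F m) j = cross F j := by
        ext c
        rw [mem_cross, mem_cross, mem_low_iff]
        constructor
        · rintro (h | ⟨h, -⟩)
          · have := cap_mem_level h
            simp only at this
            omega
          · exact h
        · intro h
          exact Or.inr ⟨h, Or.inl (by simp only; omega)⟩
      rw [h5]
      exact ins_two stretchStatement hL hE' pE.tube h2' hj (by omega)
  refine ⟨shift (-t) (low F m), ?_⟩
  have := h3.shift (t := -t) (by simp [ht])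
  rwa [shift_shift_neg] at this

/-! ### Reflection -/

theorem cross_flipZ (c j : ℤ) (E : Finset (Sym2 P3)) :
    cross (mapE (flipZ c) E) j = cross E (c - 1 - j) := by
  ext d
  rw [mem_cross, mem_cross, mem_flipZ]
  have e1 : flipZ c (d.1, d.2, j) = (d.1, d.2, c - 1 - j + 1) := by
    simp only [flipZ, Prod.mk.injEq, true_and]; ring
  have e2 : flipZ c (d.1, d.2, j + 1) = (d.1, d.2, c - 1 - j) := by
    simp only [flipZ, Prod.mk.injEq, true_and]; ring
  rw [e1, e2, Sym2.eq_swap]

theorem LowClose.flip (h : LowClose E k A) (c : ℤ) :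
    UppClose (mapE (flipZ c) E) (c - 1 - k) (mapE (flipZ c) A) := by
  refine ⟨isPolygon_flipZ c h.1, ?_, ?_⟩
  · intro u v hu
    rw [mem_flipZ, mem_flipZ]
    exact h.2.1 _ _ (by simp only [flipZ]; omega)
  · intro j hj h1
    rw [cross_flipZ] at h1 ⊢
    exact h.2.2 _ (by omega) h1

theorem UppClose.flip (h : UppClose E k A) (c : ℤ) :
    LowClose (mapE (flipZ c) E) (c - 1 - k) (mapE (flipZ c) A) := by
  refine ⟨isPolygon_flipZ c h.1, ?_, ?_⟩
  · intro u v hu
    rw [mem_flipZ, mem_flipZ]
    exact h.2.1 _ _ (by simp only [flipZ]; omega)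
  · intro j hj h1
    rw [cross_flipZ] at h1 ⊢
    exact h.2.2 _ (by omega) h1

theorem mapE_flipZ_flipZ (c : ℤ) (E : Finset (Sym2 P3)) :
    mapE (flipZ c) (mapE (flipZ c) E) = E := by
  refine edge_ext fun u v => ?_
  rw [mem_flipZ, mem_flipZ, flipZ_flipZ, flipZ_flipZ]

theorem exists_uppClose (hE : IsPolygon E) (h2 : IsTwo E k) : ∃ A, UppClose E k A := by
  have h3 : IsTwo (mapE (flipZ (2 * k + 1)) E) k := by
    unfold IsTwo
    rw [cross_flipZ]
    have : 2 * k + 1 - 1 - k = k := by ring
    rw [this]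
    exact h2
  obtain ⟨A, hA⟩ := exists_lowClose (isPolygon_flipZ (2 * k + 1) hE) h3
  have h4 := hA.flip (2 * k + 1)
  rw [mapE_flipZ_flipZ] at h4
  have : 2 * k + 1 - 1 - k = k := by ring
  rw [this] at h4
  exact ⟨_, h4⟩

/-! ### Unknotted lower and upper parts -/

/-- The part of `E` below the plane `z = k + 1/2` is unknotted. -/
def LowU (E : Finset (Sym2 P3)) (k : ℤ) : Prop := ∃ A, LowClose E k A ∧ Unknotted A

/-- The part of `E` above the plane `z = k + 1/2` is unknotted. -/
def UppU (E : Finset (Sym2 P3)) (k : ℤ) : Prop := ∃ A, UppClose E k A ∧ Unknotted A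

theorem LowU.of_close (hE : IsPolygon E) (h2 : IsTwo E k) (h : LowU E k) (hA : LowClose E k A) :
    Unknotted A := by
  obtain ⟨B, hB, hU⟩ := h
  exact (lowClose_unique hE h2 hA hB).unknotted hU

theorem UppU.of_close (hE : IsPolygon E) (h2 : IsTwo E k) (h : UppU E k) (hA : UppClose E k A) :
    Unknotted A := by
  obtain ⟨B, hB, hU⟩ := h
  exact (uppClose_unique hE h2 hA hB).unknotted hU

theorem unknotted_iff (hE : IsPolygon E) (h2 : IsTwo E k) : Unknotted E ↔ LowU E k ∧ UppU E k := by
  obtain ⟨A, hA⟩ := exists_lowClose hE h2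
  obtain ⟨B, hB⟩ := exists_uppClose hE h2
  rw [(split hE h2 hA hB).1]
  constructor
  · rintro ⟨h3, h4⟩
    exact ⟨⟨A, hA, h3⟩, ⟨B, hB, h4⟩⟩
  · rintro ⟨h3, h4⟩
    exact ⟨h3.of_close hE h2 hA, h4.of_close hE h2 hB⟩

/-- A polygon of a prime type has exactly one knotted side. -/
theorem prime_sides (hE : IsPolygon E) (h2 : IsTwo E k) (hK : PrimeKnot K) (hKE : SameType K E) :
    (LowU E k ∧ ¬ UppU E k) ∨ (¬ LowU E k ∧ UppU E k) := by
  obtain ⟨A, hA⟩ := exists_lowClose hE h2
  obtain ⟨B, hB⟩ := exists_uppClose hE h2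
  have hnU : ¬ Unknotted E := fun h => hK.2.1 (hKE.unknotted h)
  rcases (split hE h2 hA hB).2.2.2 K hK hKE with ⟨h3, h4⟩ | ⟨h3, h4⟩
  · refine Or.inl ⟨⟨A, hA, h3⟩, fun h => ?_⟩
    exact hK.2.1 (h4.unknotted (h.of_close hE h2 hB))
  · refine Or.inr ⟨fun h => ?_, ⟨B, hB, h3⟩⟩
    exact hK.2.1 (h4.unknotted (h.of_close hE h2 hA))

/-- The part below a plane depends only on the edges there. -/
theorem LowU.congr (h : LowU E k) (hEF : LowEq E F k) : LowU F k := by
  obtain ⟨A, hA, hU⟩ := h
  exact ⟨A, ⟨hA.1, fun u v hu => (hA.2.1 u v hu).trans (hEF u v hu), hA.2.2⟩, hU⟩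

theorem UppU.congr (h : UppU E k) (hEF : UppEq E F k) : UppU F k := by
  obtain ⟨A, hA, hU⟩ := h
  exact ⟨A, ⟨hA.1, fun u v hu => (hA.2.1 u v hu).trans (hEF u v hu), hA.2.2⟩, hU⟩

theorem LowU.flip (h : LowU E k) (c : ℤ) : UppU (mapE (flipZ c) E) (c - 1 - k) := by
  obtain ⟨A, hA, hU⟩ := h
  exact ⟨_, hA.flip c, (sameType_flipZ c A).symm.unknotted hU⟩

theorem UppU.flip (h : UppU E k) (c : ℤ) : LowU (mapE (flipZ c) E) (c - 1 - k) := by
  obtain ⟨A, hA, hU⟩ := h
  exact ⟨_, hA.flip c, (sameType_flipZ c A).symm.unknotted hU⟩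

/-! ### Arbitrary translations -/

theorem cross_shift' {t : P3} {j : ℤ} {c : ℤ × ℤ} :
    c ∈ cross (shift t E) j ↔ (c.1 - t.1, c.2 - t.2.1) ∈ cross E (j - t.2.2) := by
  rw [mem_cross, mem_cross, mem_shift]
  have e2 : ((c.1, c.2, j + 1) : P3) - t = (c.1 - t.1, c.2 - t.2.1, j - t.2.2 + 1) := by
    refine Prod.ext rfl (Prod.ext rfl ?_)
    simp only [Prod.snd_sub]; ring
  rw [e2]
  rfl

theorem cross_shift_eq' (t : P3) (j : ℤ) :
    cross (shift t E) j = (fun c : ℤ × ℤ => (c.1 + t.1, c.2 + t.2.1)) '' cross E (j - t.2.2) := by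
  ext c
  rw [cross_shift', Set.mem_image]
  constructor
  · intro h
    exact ⟨_, h, by simp⟩
  · rintro ⟨d, hd, rfl⟩
    simpa using hd

theorem ncard_cross_shift' (t : P3) (j : ℤ) :
    (cross (shift t E) j).ncard = (cross E (j - t.2.2)).ncard := by
  rw [cross_shift_eq']
  refine Set.ncard_image_of_injective _ ?_
  intro c d h
  simp only [Prod.mk.injEq, add_left_inj] at h
  exact Prod.ext h.1 h.2

theorem nonempty_cross_shift' (t : P3) (j : ℤ) :
    (cross (shift t E) j).Nonempty ↔ (cross E (j - t.2.2)).Nonempty := by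
  rw [cross_shift_eq', Set.image_nonempty]

theorem LowU.shift (h : LowU E k) (t : P3) : LowU (shift t E) (k + t.2.2) := by
  obtain ⟨A, hA, hU⟩ := h
  refine ⟨LK.shift t A, ⟨isPolygon_shift hA.1 t, ?_, ?_⟩, (sameType_shift t A).symm.unknotted hU⟩
  · intro u v hu
    rw [mem_shift, mem_shift]
    exact hA.2.1 _ _ (by simp only [Prod.snd_sub]; omega)
  · intro j hj h1
    rw [nonempty_cross_shift'] at h1
    rw [ncard_cross_shift']
    exact hA.2.2 _ (by omega) h1

theorem UppU.shift (h : UppU E k) (t : P3) : UppU (shift t E) (k + t.2.2) := by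
  obtain ⟨A, hA, hU⟩ := h
  refine ⟨LK.shift t A, ⟨isPolygon_shift hA.1 t, ?_, ?_⟩, (sameType_shift t A).symm.unknotted hU⟩
  · intro u v hu
    rw [mem_shift, mem_shift]
    exact hA.2.1 _ _ (by simp only [Prod.snd_sub]; omega)
  · intro j hj h1
    rw [nonempty_cross_shift'] at h1
    rw [ncard_cross_shift']
    exact hA.2.2 _ (by omega) h1

end Pool.Agent.KRing
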