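import Pool.Agent.KRing.Sums

/-! The code of a polygon with one knotted piece. -/

set_option autoImplicit false

open Pool.Agent.LK
open scoped ENNReal

namespace Pool.Agent.KRing

open Pool.Agent.KTube
open Pool.Agent.LatticeTube (pedges mem_pedges mem_of_mem_pedges)

variable {E F : Finset (Sym2 P3)} {k k' : ℤ} {a b a' b' v w : ℤ × ℤ} {r l r' l' A B : List P3}
  {T T' : Finset (Sym2 P3) → Prop} {Y : ℝ≥0∞}

/-- Sums over polygons with injective codes. -/
theorem sum_code {α : Type} {X : Set (Finset (Sym2 P3))} (hX : ∀ E ∈ X, Normed E) (hY : 1 ≤ Y)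
    (S : {i : Idx // OkI T i} → Set α) (rec : Idx → α → Finset (Sym2 P3)) (h : ℕ)
    (hc : ∀ E ∈ X, ∃ (i : {i : Idx // OkI T i}) (p : α) (t : P3), p ∈ S i ∧
      E = shift t (rec i.1 p) ∧ span E ≤ lspan i.1.2.2.1 + lspan i.1.2.2.2 + h) :
    ∑' E : X, Y ^ span E.1 ≤ ∑' i : {i : Idx // OkI T i}, (S i).encard * (wI Y i.1 * Y ^ h) := by
  have hc' : ∀ E : X, ∃ (i : {i : Idx // OkI T i}) (p : α) (t : P3), p ∈ S i ∧
      E.1 = shift t (rec i.1 p) ∧ span E.1 ≤ lspan i.1.2.2.1 + lspan i.1.2.2.2 + h :=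
    fun E => hc E.1 E.2
  choose i p t hp hE hs using hc'
  let f : X → Σ i : {i : Idx // OkI T i}, S i := fun E => ⟨i E, ⟨p E, hp E⟩⟩
  have hf : Function.Injective f := by
    intro E F h
    have h1 : i E = i F := congrArg Sigma.fst h
    have h2 : p E = p F := by
      exact congrArg (fun q : Σ i : {i : Idx // OkI T i}, S i => q.2.1) h
    have h3 : shift (-t E) E.1 = shift (-t F) F.1 := by
      rw [hE E, hE F, shift_shift, shift_shift, neg_add_cancel, neg_add_cancel, h1, h2]
    exact Subtype.ext (normed_shift_eq (hX _ E.2) (hX _ F.2) h3)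
  calc ∑' E : X, Y ^ span E.1 ≤ ∑' E : X, (fun q : Σ i : {i : Idx // OkI T i}, S i =>
        wI Y q.1.1 * Y ^ h) (f E) := by
        refine ENNReal.tsum_le_tsum fun E => ?_
        simp only [f, wI]
        rw [← pow_add]
        exact pow_le_pow_right₀ hY (hs E)
    _ ≤ ∑' q : Σ i : {i : Idx // OkI T i}, S i, wI Y q.1.1 * Y ^ h :=
        ENNReal.tsum_comp_le_tsum_of_injective hf _
    _ = _ := by
        rw [ENNReal.tsum_sigma']
        refine tsum_congr fun i => ?_
        have hc : ∑' _ : S i, wI Y i.1 * Y ^ h = (S i).encard * (wI Y i.1 * Y ^ h) :=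
          ENNReal.tsum_set_const _ _
        exact hc

theorem encard_eq {α : Type} {S : Set α} (hS : S.Finite) :
    ((S.encard : ℕ∞) : ℝ≥0∞) = (S.ncard : ℝ≥0∞) := by
  rw [← hS.cast_ncard_eq]
  simp

/-- The bound for the sum of the codes. -/
theorem sum_codes_le {α : Type} {N n M : ℕ} (S : {i : Idx // OkI T i} → Set α) (h : ℕ)
    (hle : ∀ i, (S i).Nonempty → lenI i.1 ≤ n)
    (hS : ∀ i, lenI i.1 ≤ n → (S i).Finite ∧
      (S i).ncard ≤ M * (FN i.1.1 i.1.2.1 N (n - lenI i.1)).ncard) :
    ∑' i : {i : Idx // OkI T i}, (S i).encard * (wI Y i.1 * Y ^ h) ≤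
      M * Y ^ h * SFN Y T N n := by
  unfold SFN
  rw [← ENNReal.tsum_mul_left]
  refine ENNReal.tsum_le_tsum fun i => ?_
  split_ifs with h1
  · obtain ⟨h2, h3⟩ := hS i h1
    rw [encard_eq h2]
    calc ((S i).ncard : ℝ≥0∞) * (wI Y i.1 * Y ^ h)
        ≤ ((M * (FN i.1.1 i.1.2.1 N (n - lenI i.1)).ncard : ℕ) : ℝ≥0∞) * (wI Y i.1 * Y ^ h) := by
          gcongr
      _ = _ := by push_cast; ring
  · have h2 : S i = ∅ := by
      by_contra h3
      exact h1 (hle i (Set.nonempty_iff_ne_empty.2 h3))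
    rw [h2]
    simp

/-! ### The middle case -/

/-- The polygon of a code. -/
def recM (i : Idx) (p : List P3 × List P3) : Finset (Sym2 P3) :=
  ring ((wk ((0, 0, 1) : P3) p.1 ++ (i.2.2.2.map (· + (((0, 0, 1) : P3) + p.1.sum)) ++
    (wk ((i.1.1, i.1.2, 1) : P3) p.2).reverse)) ++ i.2.2.1)

/-- The set of codes. -/
def SM (n V : ℕ) (i : Idx) : Set (List P3 × List P3) :=
  {p | V + 2 + lenI i ≤ n ∧ p ∈ Pairs (FN i.1 i.2.1 (V + 1) (n - (V + 2) - lenI i))}

/-- The polygons with a knotted piece between the planes and `V` vertical edges in it. -/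
def MidOf (T : Finset (Sym2 P3) → Prop) (V : ℕ) (E : Finset (Sym2 P3)) : Prop :=
  ∃ (k k' : ℤ) (a b a' b' : ℤ × ℤ) (A B r l sA sB : List P3),
    Block k k' a b a' b' A B ∧ UU k' a' b' r ∧ LC T k a b l ∧
    E = ring ((A ++ (r ++ B)) ++ l) ∧ A = wk (a.1, a.2, k + 1) sA ∧
    B = (wk (b.1, b.2, k + 1) sB).reverse ∧ Steps sA ∧ Steps sB ∧
    brk (lets sA) + brk (lets sB) = V ∧ 4 * ((k' - k).toNat - 1) ≤ V

theorem csh_neg (a : ℤ × ℤ) (z : ℤ) (b : ℤ × ℤ) : csh (-(a.1, a.2, z) : P3) b = b - a := by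
  simp [csh, Prod.ext_iff, sub_eq_add_neg]

theorem MidOf.code (hT : GoodClass T) {V n : ℕ} (h : MidOf T V E) (hn : E.card = n) :
    ∃ (i : {i : Idx // OkI T i}) (p : List P3 × List P3) (t : P3), p ∈ SM n V i.1 ∧
      E = shift t (recM i.1 p) ∧ span E ≤ lspan i.1.2.2.1 + lspan i.1.2.2.2 + (V / 4 + 2) := by
  obtain ⟨k, k', a, b, a', b', A, B, r, l, sA, sB, hb, hr, hl, hE, hA, hB, hsA, hsB, hV, hh⟩ := h
  have hlt := hb.lt
  -- the ends
  have hA2 := hb.lastA
  rw [hA, last_wk, Option.some.injEq] at hA2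
  have hB2 := hb.headB
  rw [hB, List.head?_reverse, last_wk, Option.some.injEq] at hB2
  have dA := sum_of_lets hsA
  have dB := sum_of_lets hsB
  have ea : a' = a + disp (lets sA) := by
    have h1 := congrArg Prod.fst hA2
    have h2 := congrArg (fun p : P3 => p.2.1) hA2
    simp only [Prod.fst_add, Prod.snd_add] at h1 h2
    exact Prod.ext (by simp only [Prod.fst_add]; omega) (by simp only [Prod.snd_add]; omega)
  have eb : b' = b + disp (lets sB) := by
    have h1 := congrArg Prod.fst hB2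
    have h2 := congrArg (fun p : P3 => p.2.1) hB2
    simp only [Prod.fst_add, Prod.snd_add] at h1 h2
    exact Prod.ext (by simp only [Prod.fst_add]; omega) (by simp only [Prod.snd_add]; omega)
  set t : P3 := (a.1, a.2, k) with ht
  set t' : P3 := (a'.1, a'.2, k') with ht'
  have hlc : LC T 0 0 (b - a) (l.map (· + -t)) := by
    have h1 := hl.shift hT (-t)
    rw [csh_neg, csh_neg, sub_self] at h1
    have e : k + (-t).2.2 = 0 := by rw [ht]; simp
    rwa [e] at h1
  have huu : UU 0 0 (b' - a') (r.map (· + -t')) := by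
    have h1 := hr.shift (-t')
    rw [csh_neg, csh_neg, sub_self] at h1
    have e : k' + (-t').2.2 = 0 := by rw [ht']; simp
    rwa [e] at h1
  have hcard : n = sA.length + 1 + r.length + (sB.length + 1) + l.length := by
    rw [← hn, hE, (ring_of hl.ne (hb.upper hr.2.1) hl.1).card_eq, hA, hB]
    simp only [List.length_append, length_wk, List.length_reverse]
    ring
  have hlA := length_eq (lets sA)
  have hlB := length_eq (lets sB)
  rw [length_lets] at hlA hlB
  have hlen : lenI (b - a, b' - a', l.map (· + -t), r.map (· + -t')) = l.length + r.length := by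
    simp [lenI]
  refine ⟨⟨(b - a, b' - a', l.map (· + -t), r.map (· + -t')), hlc, huu⟩, (sA, sB), t,
    ⟨?_, hsA, hsB, ?_, ?_, ?_, ?_⟩, ?_, ?_⟩
  · rw [hlen]; omega
  · show brk (wordOf sA sB) = V + 1
    rw [brk_wordOf, hV]
  · show stp (wordOf sA sB) = n - (V + 2) -
      lenI (b - a, b' - a', l.map (· + -t), r.map (· + -t'))
    rw [stp_wordOf, hlen]; omega
  · show b - a + disp (wordOf sA sB) = b' - a'
    rw [disp_wordOf, ea, eb]; abel
  · refine RunOK.sep (runOK_map_ng (runOK_lets hsA (hA ▸ hb.nodupA))) (runOK_lets hsB (p :=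
      (b.1, b.2, k + 1)) ?_)
    have := hb.nodupB
    rwa [hB, List.nodup_reverse] at this
  · unfold recM
    rw [← ring_map, hE]
    congr 1
    simp only [List.map_append, List.map_map]
    congr 1
    · congr 1
      · rw [hA, map_wk]
        congr 1
        rw [ht]
        simp [add_comm]
      · congr 1
        · conv_lhs => rw [← List.map_id r]
          refine List.map_congr_left fun u _ => ?_
          simp only [id, Function.comp]
          have e : t' = ((a.1, a.2, k + 1) : P3) + sA.sum := hA2.symm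
          rw [e, ht]
          refine Prod.ext ?_ (Prod.ext ?_ ?_) <;>
            simp only [Prod.fst_add, Prod.snd_add, Prod.fst_neg, Prod.snd_neg] <;> ring
        · rw [hB, List.map_reverse, map_wk]
          congr 2
          rw [ht]
          refine Prod.ext ?_ (Prod.ext ?_ ?_) <;>
            simp only [Prod.fst_add, Prod.snd_add, Prod.fst_sub, Prod.snd_sub] <;> ring
    · conv_lhs => rw [← List.map_id l]
      refine List.map_congr_left fun u _ => ?_
      simp
  · simp only
    rw [lspan_map, lspan_map, hE, hb.span hr.2.1 hl.1]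
    omega

theorem SM_card {n V : ℕ} (i : Idx) : (SM n V i).Finite ∧
    (SM n V i).ncard ≤ ((V + 1) * 2 ^ V) * (FN i.1 i.2.1 (V + 1) (n - (V + 2) - lenI i)).ncard := by
  obtain ⟨h1, h2⟩ := pairs_card (V := V) (FN_finite i.1 i.2.1 (V + 1) (n - (V + 2) - lenI i))
    fun x hx => hx.1
  have hsub : SM n V i ⊆ Pairs (FN i.1 i.2.1 (V + 1) (n - (V + 2) - lenI i)) := fun p hp => hp.2
  exact ⟨h1.subset hsub, (Set.ncard_le_ncard hsub h1).trans h2⟩

theorem mid_le (hT : GoodClass T) (hY : 1 ≤ Y) (n V : ℕ) :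
    ∑' E : {E : Finset (Sym2 P3) | MidOf T V E ∧ Normed E ∧ E.card = n}, Y ^ span E.1 ≤
      ((V + 1) * 2 ^ V : ℕ) * Y ^ (V / 4 + 2) * SFN Y T (V + 1) (n - (V + 2)) := by
  refine (sum_code (fun E hE => hE.2.1) hY (fun i => SM n V i.1) recM (V / 4 + 2)
    fun E hE => hE.1.code hT hE.2.2).trans ?_
  refine sum_codes_le _ _ ?_ ?_
  · rintro i ⟨p, hp⟩
    have := hp.1
    omega
  · intro i _
    exact SM_card i.1

theorem MidOf.le (hT : GoodClass T) {V n : ℕ} (h : MidOf T V E) (hn : E.card = n) : V + 2 ≤ n := by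
  obtain ⟨i, p, t, hp, -⟩ := h.code hT hn
  have := hp.1
  omega

/-! ### The bottom case -/

def recB (i : Idx) (s : List P3) : Finset (Sym2 P3) := ring (i.2.2.2 ++ (wk 0 s).reverse)

def SB (n V : ℕ) (i : Idx) : Set (List P3) :=
  {s | lenI i ≤ n - V + 2 ∧ s ∈ Singles {x | some 1 :: none :: x ∈
    FN i.1 i.2.1 (V + 1) (n - V + 2 - lenI i)}}

/-- The polygons whose lowest section with two edges has an unknotted upper part. -/
def BotOf (V : ℕ) (E : Finset (Sym2 P3)) : Prop :=
  ∃ (k : ℤ) (a b : ℤ × ℤ) (r l s : List P3), UU k a b r ∧ Lower k a b l ∧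
    E = ring (r ++ l) ∧ l.reverse = wk (a.1, a.2, k) s ∧ Steps s ∧ brk (lets s) = V ∧
    4 * lspan l ≤ V

theorem runOK_single (d : Fin 4) : RunOK [some d] := runOK_replicate 1 d

theorem BotOf.code (hU : ∀ E, IsPolygon E → Unknotted E → T E) {V n : ℕ} (h : BotOf V E)
    (hn : E.card = n) :
    ∃ (i : {i : Idx // OkI T i}) (p : List P3) (t : P3), p ∈ SB n V i.1 ∧
      E = shift t (recB i.1 p) ∧ span E ≤ lspan i.1.2.2.1 + lspan i.1.2.2.2 + (V / 4 + 2) := by
  obtain ⟨k, a, b, r, l, s, hr, hl, hE, hls, hs, hV, hh⟩ := h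
  have hl' : l = (wk (a.1, a.2, k) s).reverse := by rw [← hls, List.reverse_reverse]
  have h2 := hl.head
  rw [hl', List.head?_reverse, last_wk, Option.some.injEq] at h2
  have dA := sum_of_lets hs
  have eb : b = a + disp (lets s) := by
    have h1 := congrArg Prod.fst h2
    have h3 := congrArg (fun p : P3 => p.2.1) h2
    simp only [Prod.fst_add, Prod.snd_add] at h1 h3
    exact Prod.ext (by simp only [Prod.fst_add]; omega) (by simp only [Prod.snd_add]; omega)
  set t : P3 := (a.1, a.2, k) with ht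
  have huu : UU 0 0 (b - a) (r.map (· + -t)) := by
    have h1 := hr.shift (-t)
    rw [csh_neg, csh_neg, sub_self] at h1
    have e : k + (-t).2.2 = 0 := by rw [ht]; simp
    rwa [e] at h1
  have hcard : n = r.length + (s.length + 1) := by
    rw [← hn, hE, (ring_of hr.1 hr.2.1 hl).card_eq, List.length_append, hl',
      List.length_reverse, length_wk]
  have hlA := length_eq (lets s)
  rw [length_lets] at hlA
  have hlen : lenI ((1, 0), b - a, capL, r.map (· + -t)) = 2 + r.length := by
    simp [lenI, capL]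
  have hnd : (wk (a.1, a.2, k) s).Nodup := by
    have := hl.nodup
    rwa [hl', List.nodup_reverse] at this
  refine ⟨⟨((1, 0), b - a, capL, r.map (· + -t)), LC_capL hU, huu⟩, s, t,
    ⟨?_, hs, ?_, ?_, ?_, ?_⟩, ?_, ?_⟩
  · rw [hlen]; omega
  · rw [brk_some, brk_none, hV]
  · rw [stp_some, stp_none, hlen]; omega
  · show ((1, 0) : ℤ × ℤ) + disp (some 1 :: none :: lets s) = b - a
    rw [disp_cons, disp_cons, lv_none, zero_add, eb]
    simp only [lv]
    refine Prod.ext ?_ ?_ <;> simp [dv]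
  · exact RunOK.sep (x := [some 1]) (runOK_single 1) (runOK_lets hs hnd)
  · unfold recB
    rw [← ring_map, hE]
    congr 1
    simp only [List.map_append, List.map_map]
    congr 1
    · conv_lhs => rw [← List.map_id r]
      refine List.map_congr_left fun u _ => ?_
      simp
    · rw [hl', List.map_reverse, map_wk, zero_add]
  · simp only
    rw [lspan_map, lspan_capL, hE, span_ring hr.2.1 hl]
    omega

theorem SB_card {n V : ℕ} (i : Idx) : (SB n V i).Finite ∧
    (SB n V i).ncard ≤ 2 ^ V * (FN i.1 i.2.1 (V + 1) (n - V + 2 - lenI i)).ncard := by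
  set S : Set (List Letter) := {x | some 1 :: none :: x ∈
    FN i.1 i.2.1 (V + 1) (n - V + 2 - lenI i)} with hS
  have hinj : Set.InjOn (fun x : List Letter => some 1 :: none :: x) S := by
    intro x _ y _ hxy
    simpa using hxy
  have hmaps : Set.MapsTo (fun x : List Letter => some 1 :: none :: x) S
      (FN i.1 i.2.1 (V + 1) (n - V + 2 - lenI i)) := fun x hx => hx
  have hfin : S.Finite := Set.Finite.of_finite_image
    ((FN_finite _ _ _ _).subset (Set.mapsTo_iff_image_subset.1 hmaps)) hinj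
  obtain ⟨h1, h2⟩ := singles_card (V := V) hfin (fun x hx => by
    have h3 := hx.1
    rw [brk_some, brk_none] at h3
    omega)
  have hsub : SB n V i ⊆ Singles S := fun p hp => hp.2
  refine ⟨h1.subset hsub, ((Set.ncard_le_ncard hsub h1).trans h2).trans ?_⟩
  exact Nat.mul_le_mul_left _ (Set.ncard_le_ncard_of_injOn _ hmaps hinj (FN_finite _ _ _ _))

theorem bot_le (hU : ∀ E, IsPolygon E → Unknotted E → T E) (hY : 1 ≤ Y) (n V : ℕ) :
    ∑' E : {E : Finset (Sym2 P3) | BotOf V E ∧ Normed E ∧ E.card = n}, Y ^ span E.1 ≤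
      (2 ^ V : ℕ) * Y ^ (V / 4 + 2) * SFN Y T (V + 1) (n - V + 2) := by
  refine (sum_code (T := T) (fun E hE => hE.2.1) hY (fun i => SB n V i.1) recB (V / 4 + 2)
    fun E hE => hE.1.code hU hE.2.2).trans ?_
  refine sum_codes_le _ _ ?_ ?_
  · rintro i ⟨p, hp⟩
    exact hp.1
  · intro i _
    exact SB_card i.1

theorem BotOf.le {V n : ℕ} (h : BotOf V E) (hn : E.card = n) : V ≤ n := by
  obtain ⟨k, a, b, r, l, s, hr, hl, hE, hls, hs, hV, hh⟩ := h
  have hl' : l = (wk (a.1, a.2, k) s).reverse := by rw [← hls, List.reverse_reverse]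
  have hcard : n = r.length + (s.length + 1) := by
    rw [← hn, hE, (ring_of hr.1 hr.2.1 hl).card_eq, List.length_append, hl',
      List.length_reverse, length_wk]
  have hlA := length_eq (lets s)
  rw [length_lets] at hlA
  omega

/-! ### The top case -/

def recT (i : Idx) (s : List P3) : Finset (Sym2 P3) :=
  ring ((wk ((i.1.1, i.1.2, 1) : P3) s).reverse ++ i.2.2.1)

def ST (n V : ℕ) (i : Idx) : Set (List P3) :=
  {s | lenI i ≤ n - V + 2 ∧ s ∈ Singles {x | x ++ [none, some 0] ∈
    FN i.1 i.2.1 (V + 1) (n - V + 2 - lenI i)}}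

/-- The polygons whose highest section with two edges has a lower part of class `T`. -/
def TopOf (T : Finset (Sym2 P3) → Prop) (V : ℕ) (E : Finset (Sym2 P3)) : Prop :=
  ∃ (k : ℤ) (a b : ℤ × ℤ) (r l s : List P3), LC T k a b l ∧ Upper k a b r ∧
    E = ring (r ++ l) ∧ r.reverse = wk (b.1, b.2, k + 1) s ∧ Steps s ∧ brk (lets s) = V ∧
    4 * lspan r ≤ V

theorem TopOf.code (hT : GoodClass T) {V n : ℕ} (h : TopOf T V E) (hn : E.card = n) :
    ∃ (i : {i : Idx // OkI T i}) (p : List P3) (t : P3), p ∈ ST n V i.1 ∧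
      E = shift t (recT i.1 p) ∧ span E ≤ lspan i.1.2.2.1 + lspan i.1.2.2.2 + (V / 4 + 2) := by
  obtain ⟨k, a, b, r, l, s, hl, hr, hE, hrs, hs, hV, hh⟩ := h
  have hr' : r = (wk (b.1, b.2, k + 1) s).reverse := by rw [← hrs, List.reverse_reverse]
  have h2 := hr.head
  rw [hr', List.head?_reverse, last_wk, Option.some.injEq] at h2
  have dA := sum_of_lets hs
  have eb : a = b + disp (lets s) := by
    have h1 := congrArg Prod.fst h2
    have h3 := congrArg (fun p : P3 => p.2.1) h2
    simp only [Prod.fst_add, Prod.snd_add] at h1 h3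
    exact Prod.ext (by simp only [Prod.fst_add]; omega) (by simp only [Prod.snd_add]; omega)
  set t : P3 := (a.1, a.2, k) with ht
  have hlc : LC T 0 0 (b - a) (l.map (· + -t)) := by
    have h1 := hl.shift hT (-t)
    rw [csh_neg, csh_neg, sub_self] at h1
    have e : k + (-t).2.2 = 0 := by rw [ht]; simp
    rwa [e] at h1
  have hcard : n = (s.length + 1) + l.length := by
    rw [← hn, hE, (ring_of hl.ne hr hl.1).card_eq, List.length_append, hr',
      List.length_reverse, length_wk]
  have hlA := length_eq (lets s)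
  rw [length_lets] at hlA
  have hlen : lenI (b - a, (1, 0), l.map (· + -t), capU) = l.length + 2 := by
    simp [lenI, capU]
  have hnd : (wk (b.1, b.2, k + 1) s).Nodup := by
    have := hr.nodup
    rwa [hr', List.nodup_reverse] at this
  refine ⟨⟨(b - a, (1, 0), l.map (· + -t), capU), hlc, UU_capU⟩, s, t,
    ⟨?_, hs, ?_, ?_, ?_, ?_⟩, ?_, ?_⟩
  · rw [hlen]; omega
  · rw [brk_append, brk_none, brk_some, brk_nil, hV]
  · rw [stp_append, stp_none, stp_some, stp_nil, hlen]; omega
  · show b - a + disp (lets s ++ [none, some 0]) = ((1, 0) : ℤ × ℤ)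
    rw [disp_append, disp_cons, disp_cons, lv_none, zero_add, disp_nil, add_zero]
    have e : b - a + (disp (lets s) + lv (some 0)) = lv (some 0) := by
      rw [eb]; abel
    rw [e]
    simp [lv, dv]
  · exact RunOK.sep (y := [some 0]) (runOK_lets hs hnd) (runOK_single 0)
  · unfold recT
    rw [← ring_map, hE]
    congr 1
    simp only [List.map_append, List.map_map]
    congr 1
    · rw [hr', List.map_reverse, map_wk]
      congr 2
      rw [ht]
      refine Prod.ext ?_ (Prod.ext ?_ ?_) <;>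
        simp only [Prod.fst_add, Prod.snd_add, Prod.fst_sub, Prod.snd_sub] <;> ring
    · conv_lhs => rw [← List.map_id l]
      refine List.map_congr_left fun u _ => ?_
      simp
  · simp only
    rw [lspan_map, lspan_capU, hE, span_ring hr hl.1]
    omega

theorem ST_card {n V : ℕ} (i : Idx) : (ST n V i).Finite ∧
    (ST n V i).ncard ≤ 2 ^ V * (FN i.1 i.2.1 (V + 1) (n - V + 2 - lenI i)).ncard := by
  set S : Set (List Letter) := {x | x ++ [none, some 0] ∈
    FN i.1 i.2.1 (V + 1) (n - V + 2 - lenI i)} with hS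
  have hinj : Set.InjOn (fun x : List Letter => x ++ [none, some 0]) S := by
    intro x _ y _ hxy
    exact List.append_cancel_right hxy
  have hmaps : Set.MapsTo (fun x : List Letter => x ++ [none, some 0]) S
      (FN i.1 i.2.1 (V + 1) (n - V + 2 - lenI i)) := fun x hx => hx
  have hfin : S.Finite := Set.Finite.of_finite_image
    ((FN_finite _ _ _ _).subset (Set.mapsTo_iff_image_subset.1 hmaps)) hinj
  obtain ⟨h1, h2⟩ := singles_card (V := V) hfin (fun x hx => by
    have h3 := hx.1
    rw [brk_append, brk_none, brk_some, brk_nil] at h3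
    omega)
  have hsub : ST n V i ⊆ Singles S := fun p hp => hp.2
  refine ⟨h1.subset hsub, ((Set.ncard_le_ncard hsub h1).trans h2).trans ?_⟩
  exact Nat.mul_le_mul_left _ (Set.ncard_le_ncard_of_injOn _ hmaps hinj (FN_finite _ _ _ _))

theorem top_le (hT : GoodClass T) (hY : 1 ≤ Y) (n V : ℕ) :
    ∑' E : {E : Finset (Sym2 P3) | TopOf T V E ∧ Normed E ∧ E.card = n}, Y ^ span E.1 ≤
      (2 ^ V : ℕ) * Y ^ (V / 4 + 2) * SFN Y T (V + 1) (n - V + 2) := by
  refine (sum_code (T := T) (fun E hE => hE.2.1) hY (fun i => ST n V i.1) recT (V / 4 + 2)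
    fun E hE => hE.1.code hT hE.2.2).trans ?_
  refine sum_codes_le _ _ ?_ ?_
  · rintro i ⟨p, hp⟩
    exact hp.1
  · intro i _
    exact ST_card i.1

theorem TopOf.le {V n : ℕ} (h : TopOf T V E) (hn : E.card = n) : V ≤ n := by
  obtain ⟨k, a, b, r, l, s, hl, hr, hE, hrs, hs, hV, hh⟩ := h
  have hr' : r = (wk (b.1, b.2, k + 1) s).reverse := by rw [← hrs, List.reverse_reverse]
  have hcard : n = (s.length + 1) + l.length := by
    rw [← hn, hE, (ring_of hl.ne hr hl.1).card_eq, List.length_append, hr',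
      List.length_reverse, length_wk]
  have hlA := length_eq (lets s)
  rw [length_lets] at hlA
  omega

end Pool.Agent.KRing
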