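import Pool.Agent.KRing.Shift

/-! Words that visit all points of a square: cutting out the middle part. -/

set_option autoImplicit false

namespace Pool.Agent.KRing

/-- The square `[-m, 0]²`. -/
noncomputable def sq (m : ℕ) : Finset (ℤ × ℤ) := Finset.Icc (-(m : ℤ)) 0 ×ˢ Finset.Icc (-(m : ℤ)) 0

theorem mem_sq {m : ℕ} {p : ℤ × ℤ} : p ∈ sq m ↔ (-(m : ℤ) ≤ p.1 ∧ p.1 ≤ 0) ∧
    (-(m : ℤ) ≤ p.2 ∧ p.2 ≤ 0) := by
  simp [sq, Finset.mem_product]

theorem card_sq (m : ℕ) : (sq m).card = (m + 1) ^ 2 := by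
  rw [sq, Finset.card_product, Int.card_Icc]
  have : (0 + 1 - -(m : ℤ)).toNat = m + 1 := by omega
  rw [this]; ring

/-- The points visited by a word. -/
def pts (v : ℤ × ℤ) (x : List Letter) : Finset (ℤ × ℤ) :=
  (Finset.range (x.length + 1)).image fun i => v + disp (x.take i)

theorem mem_pts {v p : ℤ × ℤ} {x : List Letter} :
    p ∈ pts v x ↔ ∃ A B, x = A ++ B ∧ v + disp A = p := by
  simp only [pts, Finset.mem_image, Finset.mem_range]
  constructor
  · rintro ⟨i, _, rfl⟩
    exact ⟨x.take i, x.drop i, (List.take_append_drop i x).symm, rfl⟩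
  · rintro ⟨A, B, rfl, rfl⟩
    refine ⟨A.length, ?_, by simp⟩
    rw [List.length_append]; omega

theorem not_avoid {v p : ℤ × ℤ} {x : List Letter} : ¬ Avoid v x p ↔ p ∈ pts v x := by
  rw [mem_pts]
  unfold Avoid
  push Not
  rfl

theorem pts_nil (v : ℤ × ℤ) : pts v [] = {v} := by simp [pts]

theorem pts_append (v : ℤ × ℤ) (x y : List Letter) :
    pts v (x ++ y) = pts v x ∪ pts (v + disp x) y := by
  ext p
  rw [Finset.mem_union, ← not_avoid, ← not_avoid, ← not_avoid, avoid_append]
  tauto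

theorem pts_none (v : ℤ × ℤ) (x : List Letter) : pts v (none :: x) = pts v x := by
  ext p
  rw [← not_avoid, ← not_avoid, not_iff_not]
  refine ⟨fun h A B hx => ?_, avoid_none⟩
  have := h (none :: A) B (by rw [hx]; rfl)
  simpa using this

theorem pts_some (v : ℤ × ℤ) (d : Fin 4) (x : List Letter) :
    pts v (some d :: x) = insert v (pts (v + dv d) x) := by
  have h := pts_append v [some d] x
  rw [List.singleton_append] at h
  rw [h]
  have h2 : pts v [some d] = {v, v + dv d} := by
    ext p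
    simp only [pts, List.length_singleton, Finset.mem_image, Finset.mem_range, Finset.mem_insert,
      Finset.mem_singleton]
    constructor
    · rintro ⟨i, hi, rfl⟩
      interval_cases i
      · left; simp
      · right; simp [lv]
    · rintro (rfl | rfl)
      · exact ⟨0, by omega, by simp⟩
      · exact ⟨1, by omega, by simp [lv]⟩
  have h3 : v + disp [some d] = v + dv d := by simp [lv]
  have h4 : v + dv d ∈ pts (v + dv d) x := mem_pts.2 ⟨[], x, rfl, by simp⟩
  rw [h2, h3]
  ext p
  simp only [Finset.mem_union, Finset.mem_insert, Finset.mem_singleton]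
  constructor
  · rintro ((h | h) | h)
    · exact Or.inl h
    · right; rw [h]; exact h4
    · exact Or.inr h
  · rintro (h | h)
    · exact Or.inl (Or.inl h)
    · exact Or.inr h

theorem card_pts (v : ℤ × ℤ) (x : List Letter) : (pts v x).card ≤ stp x + 1 := by
  induction x generalizing v with
  | nil => simp [pts_nil]
  | cons a x ih =>
    cases a with
    | none => rw [pts_none, stp_none]; exact ih v
    | some d =>
      rw [pts_some, stp_some]
      exact (Finset.card_insert_le _ _).trans (Nat.add_le_add_right (ih _) 1)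

/-- first splitting: the shortest prefix that ends in `Q` -/
theorem exists_first (Q : Finset (ℤ × ℤ)) (v : ℤ × ℤ) (x : List Letter)
    (h : ∃ p ∈ Q, p ∈ pts v x) : ∃ x1 y, x = x1 ++ y ∧ v + disp x1 ∈ Q ∧
      ∀ A B, x1 = A ++ B → B ≠ [] → v + disp A ∉ Q := by
  classical
  obtain ⟨p, hp, hp'⟩ := h
  obtain ⟨A, B, rfl, hA⟩ := mem_pts.1 hp'
  have hex : ∃ n, ∃ x1 y, A ++ B = x1 ++ y ∧ v + disp x1 ∈ Q ∧ x1.length = n :=
    ⟨A.length, A, B, rfl, by rwa [hA], rfl⟩
  obtain ⟨x1, y, h1, h2, h3⟩ := Nat.find_spec hex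
  refine ⟨x1, y, h1, h2, fun C D hCD hD hC => ?_⟩
  have hlt : C.length < Nat.find hex := by
    rw [← h3, hCD, List.length_append]
    have := List.length_pos_iff.2 hD
    omega
  exact Nat.find_min hex hlt ⟨C, D ++ y, by rw [h1, hCD, List.append_assoc], hC, rfl⟩

/-- last splitting: the shortest suffix that starts in `Q` -/
theorem exists_last (Q : Finset (ℤ × ℤ)) (v : ℤ × ℤ) (x : List Letter)
    (h : ∃ p ∈ Q, p ∈ pts v x) : ∃ y x3, x = y ++ x3 ∧ v + disp y ∈ Q ∧
      ∀ A B, x3 = A ++ B → A ≠ [] → v + disp y + disp A ∉ Q := by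
  classical
  obtain ⟨p, hp, hp'⟩ := h
  obtain ⟨A, B, rfl, hA⟩ := mem_pts.1 hp'
  have hex : ∃ n, ∃ y x3, A ++ B = y ++ x3 ∧ v + disp y ∈ Q ∧ x3.length = n :=
    ⟨B.length, A, B, rfl, by rwa [hA], rfl⟩
  obtain ⟨y, x3, h1, h2, h3⟩ := Nat.find_spec hex
  refine ⟨y, x3, h1, h2, fun C D hCD hC hD => ?_⟩
  have hlt : D.length < Nat.find hex := by
    rw [← h3, hCD, List.length_append]
    have := List.length_pos_iff.2 hC
    omega
  exact Nat.find_min hex hlt ⟨y ++ C, D, by rw [h1, hCD, List.append_assoc],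
    by rw [disp_append, ← add_assoc]; exact hD, rfl⟩

/-- The shortest prefix that ends in `Q` is unique. -/
theorem first_unique {Q : Finset (ℤ × ℤ)} {v : ℤ × ℤ} {x1 y x1' y' : List Letter}
    (h : x1 ++ y = x1' ++ y') (h1 : v + disp x1 ∈ Q)
    (h2 : ∀ A B, x1 = A ++ B → B ≠ [] → v + disp A ∉ Q) (h1' : v + disp x1' ∈ Q)
    (h2' : ∀ A B, x1' = A ++ B → B ≠ [] → v + disp A ∉ Q) : x1 = x1' ∧ y = y' := by
  rcases List.append_eq_append_iff.1 h with ⟨a, ha, hb⟩ | ⟨c, ha, hb⟩
  · by_cases h0 : a = []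
    · subst h0
      exact ⟨by simpa using ha.symm, by simpa using hb⟩
    · exact absurd h1 (h2' x1 a ha h0)
  · by_cases h0 : c = []
    · subst h0
      exact ⟨by simpa using ha, by simpa using hb.symm⟩
    · exact absurd h1' (h2 x1' c ha h0)

/-- The shortest suffix that starts in `Q` is unique. -/
theorem last_unique {Q : Finset (ℤ × ℤ)} {v : ℤ × ℤ} {y x3 y' x3' : List Letter}
    (h : y ++ x3 = y' ++ x3') (h1 : v + disp y ∈ Q)
    (h2 : ∀ A B, x3 = A ++ B → A ≠ [] → v + disp y + disp A ∉ Q) (h1' : v + disp y' ∈ Q)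
    (h2' : ∀ A B, x3' = A ++ B → A ≠ [] → v + disp y' + disp A ∉ Q) : y = y' ∧ x3 = x3' := by
  rcases List.append_eq_append_iff.1 h with ⟨a, ha, hb⟩ | ⟨c, ha, hb⟩
  · by_cases h0 : a = []
    · subst h0
      exact ⟨by simpa using ha.symm, by simpa using hb⟩
    · exfalso
      apply h2 a x3' hb h0
      rw [add_assoc, ← disp_append, ← ha]; exact h1'
  · by_cases h0 : c = []
    · subst h0
      exact ⟨by simpa using ha, by simpa using hb.symm⟩
    · exfalso
      apply h2' c x3 hb h0
      rw [add_assoc, ← disp_append, ← ha]; exact h1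

/-- the two segments that connect two points of the square -/
def conn2 (p q : ℤ × ℤ) : List Letter := hseg (q.1 - p.1) ++ none :: vseg (q.2 - p.2)

theorem disp_conn2 (p q : ℤ × ℤ) : p + disp (conn2 p q) = q := by
  simp only [conn2, disp_append, disp_cons, lv_none, zero_add, disp_hseg, disp_vseg]
  ext <;> simp

theorem stp_conn2 {m : ℕ} {p q : ℤ × ℤ} (hp : p ∈ sq m) (hq : q ∈ sq m) :
    stp (conn2 p q) ≤ 2 * m := by
  rw [mem_sq] at hp hq
  simp only [conn2, stp_append, stp_none, stp_hseg, stp_vseg]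
  omega

theorem brk_conn2 (p q : ℤ × ℤ) : brk (conn2 p q) = 1 := by
  simp only [conn2, brk_append, brk_none, brk_hseg, brk_vseg]

theorem runOK_conn2 (p q : ℤ × ℤ) : RunOK (conn2 p q) := (runOK_hseg _).sep (runOK_vseg _)

/-- the new word -/
def cut (v : ℤ × ℤ) (x1 x2 x3 : List Letter) : List Letter :=
  x1 ++ none :: (conn2 (v + disp x1) (v + disp x1 + disp x2) ++
    none :: (List.replicate (brk x2) none ++ x3))

theorem disp_cut (v : ℤ × ℤ) (x1 x2 x3 : List Letter) :
    v + disp (cut v x1 x2 x3) = v + disp (x1 ++ (x2 ++ x3)) := by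
  have h := disp_conn2 (v + disp x1) (v + disp x1 + disp x2)
  simp only [cut, disp_append, disp_cons, lv_none, zero_add, disp_replicate_none] at h ⊢
  calc _ = (v + disp x1 + disp (conn2 (v + disp x1) (v + disp x1 + disp x2))) + disp x3 := by ring
    _ = _ := by rw [h]; ring

theorem brk_cut (v : ℤ × ℤ) (x1 x2 x3 : List Letter) :
    brk (cut v x1 x2 x3) = brk (x1 ++ (x2 ++ x3)) + 3 := by
  simp only [cut, brk_append, brk_none, brk_conn2, brk_replicate_none]
  omega

theorem stp_cut (v : ℤ × ℤ) (x1 x2 x3 : List Letter) :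
    stp (cut v x1 x2 x3) = stp x1 + stp (conn2 (v + disp x1) (v + disp x1 + disp x2)) + stp x3 := by
  simp only [cut, stp_append, stp_none, stp_replicate_none]
  omega

theorem runOK_replicate_none (k : ℕ) {x : List Letter} (hx : RunOK x) :
    RunOK (List.replicate k none ++ x) := by
  induction k with
  | zero => simpa using hx
  | succ k ih =>
    rw [List.replicate_succ, List.cons_append]
    exact RunOK.sep (x := []) runOK_nil ih

theorem runOK_cut {v : ℤ × ℤ} {x1 x2 x3 : List Letter} (h : RunOK (x1 ++ (x2 ++ x3))) :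
    RunOK (cut v x1 x2 x3) :=
  h.left.sep ((runOK_conn2 _ _).sep (runOK_replicate_none _ h.right.right))

/-- The decomposition of a word that visits the square. -/
structure Dec (m : ℕ) (v : ℤ × ℤ) (x x1 x2 x3 : List Letter) : Prop where
  eq : x = x1 ++ (x2 ++ x3)
  mem1 : v + disp x1 ∈ sq m
  min1 : ∀ A B, x1 = A ++ B → B ≠ [] → v + disp A ∉ sq m
  mem2 : v + disp x1 + disp x2 ∈ sq m
  min3 : ∀ A B, x3 = A ++ B → A ≠ [] → v + disp x1 + disp x2 + disp A ∉ sq m

theorem exists_dec {m : ℕ} {v : ℤ × ℤ} {x : List Letter} (h : sq m ⊆ pts v x) :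
    ∃ x1 x2 x3, Dec m v x x1 x2 x3 := by
  have h0 : (0 : ℤ × ℤ) ∈ sq m := by rw [mem_sq]; simp
  obtain ⟨x1, y, h1, h2, h3⟩ := exists_first (sq m) v x ⟨0, h0, h h0⟩
  obtain ⟨z, x3, h4, h5, h6⟩ := exists_last (sq m) v x ⟨0, h0, h h0⟩
  have h7 : x1 ++ y = z ++ x3 := by rw [← h1, h4]
  rcases List.append_eq_append_iff.1 h7 with ⟨x2, ha, hb⟩ | ⟨c, ha, hb⟩
  · refine ⟨x1, x2, x3, by rw [h1, hb], h2, h3, ?_, ?_⟩
    · rw [add_assoc, ← disp_append, ← ha]; exact h5
    · intro A B hAB hA
      rw [add_assoc v, ← disp_append, ← ha]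
      exact h6 A B hAB hA
  · by_cases h0 : c = []
    · subst h0
      rw [List.append_nil] at ha
      refine ⟨x1, [], x3, by rw [h4, ha]; simp, h2, h3, ?_, ?_⟩
      · simpa using h2
      · intro A B hAB hA
        have := h6 A B hAB hA
        rw [ha]
        simpa using this
    · exact absurd h5 (h3 z c ha h0)

theorem Dec.sub {m : ℕ} {v : ℤ × ℤ} {x x1 x2 x3 : List Letter} (h : Dec m v x x1 x2 x3)
    (hx : sq m ⊆ pts v x) : sq m ⊆ pts (v + disp x1) x2 := by
  intro p hp
  have h1 := hx hp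
  rw [h.eq, pts_append, pts_append, Finset.mem_union, Finset.mem_union] at h1
  rcases h1 with h1 | h1 | h1
  · obtain ⟨A, B, hAB, rfl⟩ := mem_pts.1 h1
    by_cases hB : B = []
    · subst hB
      rw [List.append_nil] at hAB
      rw [← hAB]
      exact mem_pts.2 ⟨[], x2, rfl, by simp⟩
    · exact absurd hp (h.min1 A B hAB hB)
  · exact h1
  · obtain ⟨A, B, hAB, rfl⟩ := mem_pts.1 h1
    by_cases hA : A = []
    · subst hA
      exact mem_pts.2 ⟨x2, [], by simp, by simp⟩
    · exact absurd hp (h.min3 A B hAB hA)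

theorem Dec.le_stp {m : ℕ} {v : ℤ × ℤ} {x x1 x2 x3 : List Letter} (h : Dec m v x x1 x2 x3)
    (hx : sq m ⊆ pts v x) : (m + 1) ^ 2 ≤ stp x2 + 1 := by
  rw [← card_sq]
  exact (Finset.card_le_card (h.sub hx)).trans (card_pts _ _)

theorem Dec.not_sub {m : ℕ} (hm : 1 ≤ m) {v : ℤ × ℤ} {x x1 x2 x3 : List Letter}
    (h : Dec m v x x1 x2 x3) : ¬ sq m ⊆ pts v (cut v x1 x2 x3) := by
  intro hx
  have hsub : sq m ⊆ pts (v + disp x1) (conn2 (v + disp x1) (v + disp x1 + disp x2)) := by
    intro p hp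
    have h1 := hx hp
    rw [cut, pts_append, pts_none, pts_append, pts_none, pts_append, Finset.mem_union,
      Finset.mem_union, Finset.mem_union, disp_conn2, disp_replicate_none, add_zero] at h1
    rcases h1 with h1 | h1 | h1 | h1
    · obtain ⟨A, B, hAB, rfl⟩ := mem_pts.1 h1
      by_cases hB : B = []
      · subst hB
        rw [List.append_nil] at hAB
        rw [← hAB]
        exact mem_pts.2 ⟨[], _, rfl, by simp⟩
      · exact absurd hp (h.min1 A B hAB hB)
    · exact h1
    · have h2 : p = v + disp x1 + disp x2 := by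
        obtain ⟨A, B, hAB, rfl⟩ := mem_pts.1 h1
        have h3 : A = List.replicate A.length none := by
          rw [List.eq_replicate_iff]
          refine ⟨rfl, fun a ha => ?_⟩
          have : a ∈ List.replicate (brk x2) none := by
            rw [hAB]; exact List.mem_append_left _ ha
          exact (List.mem_replicate.1 this).2
        rw [h3, disp_replicate_none, add_zero]
      rw [h2]
      exact mem_pts.2 ⟨_, [], by simp, disp_conn2 _ _⟩
    · obtain ⟨A, B, hAB, rfl⟩ := mem_pts.1 h1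
      by_cases hA : A = []
      · subst hA
        exact mem_pts.2 ⟨conn2 (v + disp x1) (v + disp x1 + disp x2), [], by simp,
          by rw [disp_conn2]; simp⟩
      · exact absurd hp (h.min3 A B hAB hA)
  have h1 := (Finset.card_le_card hsub).trans (card_pts _ _)
  rw [card_sq] at h1
  have h2 := stp_conn2 h.mem1 h.mem2
  nlinarith

theorem Dec.inj {m : ℕ} {v : ℤ × ℤ} {x x1 x2 x3 x' x1' x3' : List Letter}
    (h : Dec m v x x1 x2 x3) (h' : Dec m v x' x1' x2 x3')
    (he : cut v x1 x2 x3 = cut v x1' x2 x3') : x = x' := by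
  have e1 : x1 = x1' := by
    have := first_unique (Q := sq m) (v := v) he h.mem1 h.min1 h'.mem1 h'.min1
    exact this.1
  subst e1
  have e3 : x3 = x3' := by
    have h1 : cut v x1 x2 x3 = (x1 ++ none :: (conn2 (v + disp x1) (v + disp x1 + disp x2) ++
        none :: List.replicate (brk x2) none)) ++ x3 := by simp [cut]
    have h2 : cut v x1 x2 x3' = (x1 ++ none :: (conn2 (v + disp x1) (v + disp x1 + disp x2) ++
        none :: List.replicate (brk x2) none)) ++ x3' := by simp [cut]
    rw [h1, h2] at he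
    exact List.append_cancel_left he
  rw [h.eq, h'.eq, e3]

theorem card_words (n : ℕ) : ({x : List Letter | x.length = n} : Set (List Letter)).ncard ≤ 5 ^ n := by
  classical
  have h : ({x : List Letter | x.length = n} : Set (List Letter)) ⊆
      ↑((Finset.univ : Finset (List.Vector Letter n)).image fun x => x.toList) := by
    intro x hx
    rw [Finset.coe_image]
    exact ⟨⟨x, hx⟩, by simp, rfl⟩
  refine (Set.ncard_le_ncard h (Finset.finite_toSet _)).trans ?_
  rw [Set.ncard_coe_finset]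
  refine Finset.card_image_le.trans ?_
  rw [Finset.card_univ, card_vector]
  simp

/-- Words that visit the whole square. -/
theorem cover_le {m : ℕ} (hm : 1 ≤ m) (v w : ℤ × ℤ) (N l : ℕ) :
    {x | x ∈ FN v w N l ∧ sq m ⊆ pts v x}.ncard ≤
      ∑ j ∈ Finset.Icc ((m + 1) ^ 2 - 1) l, ∑ b ∈ Finset.range (N + 1),
        ∑ i ∈ Finset.range (2 * m + 1), 5 ^ (j + b) *
          {x | x ∈ FN v w (N + 3) (l - j + i) ∧ ¬ sq m ⊆ pts v x}.ncard := by
  classical
  have hfin : {x | x ∈ FN v w N l ∧ sq m ⊆ pts v x}.Finite :=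
    (FN_finite v w N l).subset fun _ h => h.1
  have hdec : ∀ x, ∃ x1 x2 x3, sq m ⊆ pts v x → Dec m v x x1 x2 x3 := by
    intro x
    by_cases h : sq m ⊆ pts v x
    · obtain ⟨x1, x2, x3, h'⟩ := exists_dec h
      exact ⟨x1, x2, x3, fun _ => h'⟩
    · exact ⟨[], [], [], fun h' => absurd h' h⟩
  choose f1 f2 f3 hf using hdec
  set g : List Letter → ℕ := fun x => stp (conn2 (v + disp (f1 x)) (v + disp (f1 x) + disp (f2 x)))
    with hg
  rw [Set.ncard_eq_toFinset_card _ hfin]
  have hsub : hfin.toFinset ⊆ (Finset.Icc ((m + 1) ^ 2 - 1) l).biUnion fun j =>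
      (Finset.range (N + 1)).biUnion fun b => (Finset.range (2 * m + 1)).biUnion fun i =>
        hfin.toFinset.filter fun x => stp (f2 x) = j ∧ brk (f2 x) = b ∧ g x = i := by
    intro x hx
    have hx' := hx
    rw [Set.Finite.mem_toFinset] at hx'
    obtain ⟨⟨h1, h2, h3, h4⟩, h5⟩ := hx'
    have hd := hf x h5
    have h6 := hd.le_stp h5
    have h7 : stp x = stp (f1 x) + (stp (f2 x) + stp (f3 x)) := by
      conv_lhs => rw [hd.eq]
      rw [stp_append, stp_append]
    have h8 : brk x = brk (f1 x) + (brk (f2 x) + brk (f3 x)) := by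
      conv_lhs => rw [hd.eq]
      rw [brk_append, brk_append]
    have h9 := stp_conn2 hd.mem1 hd.mem2
    simp only [Finset.mem_biUnion, Finset.mem_filter]
    refine ⟨stp (f2 x), ?_, brk (f2 x), ?_, g x, ?_, hx, rfl, rfl, rfl⟩
    · rw [Finset.mem_Icc]; omega
    · rw [Finset.mem_range]; omega
    · rw [Finset.mem_range]
      exact Nat.lt_succ_of_le h9
  refine (Finset.card_le_card hsub).trans ?_
  refine Finset.card_biUnion_le.trans (Finset.sum_le_sum fun j hj => ?_)
  refine Finset.card_biUnion_le.trans (Finset.sum_le_sum fun b hb => ?_)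
  refine Finset.card_biUnion_le.trans (Finset.sum_le_sum fun i hi => ?_)
  have hfin2 : {x | x ∈ FN v w (N + 3) (l - j + i) ∧ ¬ sq m ⊆ pts v x}.Finite :=
    (FN_finite _ _ _ _).subset fun _ h => h.1
  have hfin3 : ({x : List Letter | x.length = j + b} : Set (List Letter)).Finite :=
    List.finite_length_eq _ _
  have hcard : (hfin.toFinset.filter fun x => stp (f2 x) = j ∧ brk (f2 x) = b ∧ g x = i).card ≤
      (hfin3.toFinset ×ˢ hfin2.toFinset).card := by
    refine Finset.card_le_card_of_injOn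
      (fun x => (f2 x, cut v (f1 x) (f2 x) (f3 x))) ?_ ?_
    · intro x hx
      rw [Finset.mem_coe, Finset.mem_filter, Set.Finite.mem_toFinset] at hx
      obtain ⟨⟨⟨h1, h2, h3, h4⟩, h5⟩, h6, h7, h8⟩ := hx
      have hd := hf x h5
      have h9 : stp x = stp (f1 x) + (stp (f2 x) + stp (f3 x)) := by
        conv_lhs => rw [hd.eq]
        rw [stp_append, stp_append]
      rw [Finset.mem_coe, Finset.mem_product, Set.Finite.mem_toFinset, Set.Finite.mem_toFinset]
      refine ⟨?_, ⟨?_, ?_, ?_, ?_⟩, hd.not_sub hm⟩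
      · show (f2 x).length = j + b
        rw [length_eq, h6, h7, add_comm]
      · rw [brk_cut, ← hd.eq, h1]
      · rw [stp_cut]
        have : stp (conn2 (v + disp (f1 x)) (v + disp (f1 x) + disp (f2 x))) = i := h8
        rw [this]
        omega
      · rw [disp_cut, ← hd.eq, h3]
      · exact runOK_cut (hd.eq ▸ h4)
    · intro x hx y hy hxy
      rw [Finset.mem_coe, Finset.mem_filter, Set.Finite.mem_toFinset] at hx hy
      obtain ⟨h1, h2⟩ := Prod.mk.inj hxy
      have hdx := hf x hx.1.2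
      have hdy := hf y hy.1.2
      rw [← h1] at hdy
      rw [← h1] at h2
      exact hdx.inj hdy h2
  refine hcard.trans ?_
  rw [Finset.card_product, ← Set.ncard_eq_toFinset_card _ hfin3,
    ← Set.ncard_eq_toFinset_card _ hfin2]
  exact Nat.mul_le_mul_right _ (card_words _)

end Pool.Agent.KRing
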