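import Mathlib

/-! Words with breaks: sequences of self-avoiding runs in the square lattice.

A word consists of the letters `some d` (a unit step in the direction `d`) and `none` (a break).
The parts between the breaks are the runs. -/

set_option autoImplicit false

namespace Pool.Agent.KRing

/-- Letters: the four unit steps and the break. -/
abbrev Letter : Type := Option (Fin 4)

/-- The unit vectors. -/
def dv : Fin 4 → ℤ × ℤ := ![(1, 0), (-1, 0), (0, 1), (0, -1)]

/-- The vector of a letter. -/
def lv : Letter → ℤ × ℤ
  | none => 0
  | some d => dv d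

/-- The displacement of a word. -/
def disp (x : List Letter) : ℤ × ℤ := (x.map lv).sum

/-- The number of breaks. -/
def brk (x : List Letter) : ℕ := x.countP (·.isNone)

/-- The number of steps. -/
def stp (x : List Letter) : ℕ := x.countP (·.isSome)

/-- All runs are self-avoiding. -/
def RunOK (x : List Letter) : Prop :=
  ∀ A u B : List Letter, x = A ++ (u ++ B) → none ∉ u → u ≠ [] → disp u ≠ 0

/-- The walk that starts in `v` does not visit `p`. -/
def Avoid (v : ℤ × ℤ) (x : List Letter) (p : ℤ × ℤ) : Prop :=
  ∀ A B : List Letter, x = A ++ B → v + disp A ≠ p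

/-- The words with `N` breaks and `l` steps from `v` to `w`, with self-avoiding runs. -/
def FN (v w : ℤ × ℤ) (N l : ℕ) : Set (List Letter) :=
  {x | brk x = N ∧ stp x = l ∧ v + disp x = w ∧ RunOK x}

/-- Those that avoid the origin. -/
def F0 (v w : ℤ × ℤ) (N l : ℕ) : Set (List Letter) := {x | x ∈ FN v w N l ∧ Avoid v x 0}

@[simp] theorem disp_nil : disp [] = 0 := rfl

@[simp] theorem disp_cons (a : Letter) (x : List Letter) : disp (a :: x) = lv a + disp x := by
  simp [disp]

@[simp] theorem disp_append (x y : List Letter) : disp (x ++ y) = disp x + disp y := by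
  simp [disp]

@[simp] theorem lv_none : lv none = 0 := rfl

@[simp] theorem brk_nil : brk [] = 0 := rfl

@[simp] theorem brk_none (x : List Letter) : brk (none :: x) = brk x + 1 := by simp [brk]

@[simp] theorem brk_some (d : Fin 4) (x : List Letter) : brk (some d :: x) = brk x := by simp [brk]

@[simp] theorem brk_append (x y : List Letter) : brk (x ++ y) = brk x + brk y := by simp [brk]

@[simp] theorem stp_nil : stp [] = 0 := rfl

@[simp] theorem stp_none (x : List Letter) : stp (none :: x) = stp x := by simp [stp]

@[simp] theorem stp_some (d : Fin 4) (x : List Letter) : stp (some d :: x) = stp x + 1 := by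
  simp [stp]

@[simp] theorem stp_append (x y : List Letter) : stp (x ++ y) = stp x + stp y := by simp [stp]

theorem length_eq (x : List Letter) : x.length = brk x + stp x := by
  induction x with
  | nil => rfl
  | cons a x ih =>
    cases a with
    | none => simp only [List.length_cons, brk_none, stp_none]; omega
    | some d => simp only [List.length_cons, brk_some, stp_some]; omega

theorem FN_finite (v w : ℤ × ℤ) (N l : ℕ) : (FN v w N l).Finite := by
  refine (List.finite_length_eq Letter (N + l)).subset ?_
  rintro x ⟨h1, h2, _⟩
  rw [Set.mem_ofPred_eq, length_eq, h1, h2]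

theorem F0_finite (v w : ℤ × ℤ) (N l : ℕ) : (F0 v w N l).Finite :=
  (FN_finite v w N l).subset fun _ h => h.1

theorem RunOK.factor {x A B : List Letter} (h : RunOK (A ++ (x ++ B))) : RunOK x := by
  intro C u D hx hu hu'
  exact h (A ++ C) u (D ++ B) (by rw [hx]; simp [List.append_assoc]) hu hu'

theorem RunOK.left {x y : List Letter} (h : RunOK (x ++ y)) : RunOK x :=
  RunOK.factor (A := []) (B := y) h

theorem RunOK.right {x y : List Letter} (h : RunOK (x ++ y)) : RunOK y :=
  RunOK.factor (A := x) (B := []) (by simpa using h)

theorem RunOK.sep {x y : List Letter} (hx : RunOK x) (hy : RunOK y) : RunOK (x ++ none :: y) := by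
  intro A u B h hu hu'
  rcases List.append_eq_append_iff.1 h with ⟨A', h1, h2⟩ | ⟨x'', h1, h2⟩
  · -- A = x ++ A', none :: y = A' ++ (u ++ B)
    cases A' with
    | nil =>
      exfalso
      cases u with
      | nil => exact hu' rfl
      | cons a u =>
        simp only [List.nil_append, List.cons_append, List.cons.injEq] at h2
        exact hu (by rw [← h2.1]; exact List.mem_cons_self)
    | cons a A' =>
      simp only [List.cons_append, List.cons.injEq] at h2
      exact hy A' u B h2.2 hu hu'
  · -- x = A ++ x'', u ++ B = x'' ++ none :: y
    rcases List.append_eq_append_iff.1 h2 with ⟨a', h3, h4⟩ | ⟨u', h3, h4⟩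
    · -- x'' = u ++ a'
      exact hx A u a' (by rw [h1, h3]) hu hu'
    · -- u = x'' ++ u', none :: y = u' ++ B
      cases u' with
      | nil =>
        rw [List.append_nil] at h3
        exact hx A u [] (by rw [h1, h3]; simp) hu hu'
      | cons a u' =>
        exfalso
        simp only [List.cons_append, List.cons.injEq] at h4
        exact hu (by rw [h3, ← h4.1]; simp)

theorem runOK_nil : RunOK [] := by
  intro A u B h _ hu
  exfalso
  have h1 := congrArg List.length h
  simp only [List.length_nil, List.length_append] at h1
  exact hu (List.length_eq_zero_iff.1 (by omega))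

theorem dv_ne (d : Fin 4) (m : ℕ) (hm : 0 < m) : (m : ℤ) • dv d ≠ 0 := by
  have : (0 : ℤ) < m := by exact_mod_cast hm
  fin_cases d <;> simp [dv, Prod.ext_iff] <;> omega

theorem disp_replicate (k : ℕ) (d : Fin 4) :
    disp (List.replicate k (some d)) = (k : ℤ) • dv d := by
  simp [disp, lv]

theorem runOK_replicate (k : ℕ) (d : Fin 4) : RunOK (List.replicate k (some d)) := by
  intro A u B h _ hu
  have h1 : u = List.replicate u.length (some d) := by
    rw [List.eq_replicate_iff]
    refine ⟨rfl, fun a ha => ?_⟩
    have : a ∈ List.replicate k (some d) := by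
      rw [h]
      exact List.mem_append_right _ (List.mem_append_left _ ha)
    exact (List.mem_replicate.1 this).2
  rw [h1, disp_replicate]
  exact dv_ne d _ (List.length_pos_iff.2 hu)

theorem stp_replicate (k : ℕ) (d : Fin 4) : stp (List.replicate k (some d)) = k := by
  simp [stp, List.countP_replicate]

theorem brk_replicate (k : ℕ) (d : Fin 4) : brk (List.replicate k (some d)) = 0 := by
  simp [brk, List.countP_replicate]

theorem stp_replicate_none (k : ℕ) : stp (List.replicate k none) = 0 := by
  simp [stp, List.countP_replicate]

theorem brk_replicate_none (k : ℕ) : brk (List.replicate k none) = k := by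
  simp [brk, List.countP_replicate]

theorem disp_replicate_none (k : ℕ) : disp (List.replicate k none) = 0 := by
  simp [disp]

/-! ### Avoiding a point -/

theorem avoid_append {v p : ℤ × ℤ} {x y : List Letter} :
    Avoid v (x ++ y) p ↔ Avoid v x p ∧ Avoid (v + disp x) y p := by
  constructor
  · intro h
    refine ⟨fun A B hx => h A (B ++ y) (by rw [hx, List.append_assoc]), fun A B hy => ?_⟩
    have := h (x ++ A) B (by rw [hy, List.append_assoc])
    rwa [disp_append, ← add_assoc] at this
  · rintro ⟨h1, h2⟩ A B h
    rcases List.append_eq_append_iff.1 h with ⟨a', h3, h4⟩ | ⟨c', h3, h4⟩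
    · rw [h3, disp_append, ← add_assoc]
      exact h2 a' B h4
    · exact h1 A c' h3

theorem avoid_nil {v p : ℤ × ℤ} (h : v ≠ p) : Avoid v [] p := by
  intro A B hx
  have : A = [] := by
    have := congrArg List.length hx
    simp only [List.length_nil, List.length_append] at this
    exact List.length_eq_zero_iff.1 (by omega)
  rw [this, disp_nil, add_zero]
  exact h

theorem Avoid.start {v p : ℤ × ℤ} {x : List Letter} (h : Avoid v x p) : v ≠ p := by
  simpa using h [] x rfl

theorem Avoid.stop {v p : ℤ × ℤ} {x : List Letter} (h : Avoid v x p) : v + disp x ≠ p :=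
  h x [] (by simp)

theorem avoid_none {v p : ℤ × ℤ} {x : List Letter} (h : Avoid v x p) : Avoid v (none :: x) p := by
  intro A B hx
  cases A with
  | nil => simpa using h.start
  | cons a A =>
    simp only [List.cons_append, List.cons.injEq] at hx
    rw [← hx.1, disp_cons, lv_none, zero_add]
    exact h A B hx.2

theorem avoid_replicate_none {v p : ℤ × ℤ} (h : v ≠ p) (k : ℕ) :
    Avoid v (List.replicate k none) p := by
  induction k with
  | zero => exact avoid_nil h
  | succ k ih => rw [List.replicate_succ]; exact avoid_none ih

theorem avoid_replicate {v p : ℤ × ℤ} {k : ℕ} {d : Fin 4}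
    (h : ∀ i ≤ k, v + (i : ℤ) • dv d ≠ p) : Avoid v (List.replicate k (some d)) p := by
  intro A B hx
  have h1 : A = List.replicate A.length (some d) := by
    rw [List.eq_replicate_iff]
    refine ⟨rfl, fun a ha => ?_⟩
    have : a ∈ List.replicate k (some d) := by
      rw [hx]
      exact List.mem_append_left _ ha
    exact (List.mem_replicate.1 this).2
  have h2 : A.length ≤ k := by
    have := congrArg List.length hx
    simp only [List.length_replicate, List.length_append] at this
    omega
  rw [h1, disp_replicate]
  exact h _ h2

end Pool.Agent.KRing
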