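import Pool.Agent.KRing.Close
import Pool.Agent.LatticeTube.Walks

/-! Polygons as closed walks given by lists; the two halves of a polygon at a section with two
edges. -/

set_option autoImplicit false

open Pool.Agent.LK

namespace Pool.Agent.KRing

open Pool.Agent.KTube
open Pool.Agent.LatticeTube (pedges mem_pedges cyc_of isPolygon_of_cyc cyc_unique
  mem_of_mem_pedges)

variable {E F : Finset (Sym2 P3)} {k : ℤ}

/-! ### Closed walks -/

/-- `c` is a closed self-avoiding walk, given without repetition of a point. -/
structure Ring (c : List P3) : Prop where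
  three : 3 ≤ c.length
  nodup : c.Nodup
  chain : c.IsChain Adj
  close : ∀ u ∈ c.getLast?, ∀ v ∈ c.head?, Adj u v

/-- The edges of the closed walk `c`. -/
def ring (c : List P3) : Finset (Sym2 P3) := pedges (c.getLast?.toList ++ c)

theorem ring_eq {c : List P3} {u : P3} (hu : c.getLast? = some u) : ring c = pedges (u :: c) := by
  simp [ring, hu]

theorem Ring.ne_nil {c : List P3} (h : Ring c) : c ≠ [] := by
  rintro rfl
  simpa using h.three

theorem Ring.cyc {c : List P3} (h : Ring c) {u : P3} (hu : c.getLast? = some u) :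
    Cyc (ring c) c.length (fun i => (u :: c).getD i 0) := by
  rw [ring_eq hu]
  obtain ⟨c', hc'⟩ := List.getLast?_eq_some_iff.1 hu
  refine cyc_of (u :: c) c.length (by simp) h.three ?_ ?_
  · rw [hc']
    simp
  · have h1 : (u :: c).dropLast = u :: c' := by
      rw [hc', ← List.cons_append, List.dropLast_concat]
    rw [h1]
    have h2 := h.nodup
    rw [hc'] at h2
    exact (List.perm_append_singleton u c').nodup_iff.1 h2

theorem Ring.isPolygon {c : List P3} (h : Ring c) : IsPolygon (ring c) := by
  obtain ⟨u, hu⟩ : ∃ u, c.getLast? = some u := by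
    cases hc : c.getLast? with
    | none => exact absurd (List.getLast?_eq_none_iff.1 hc) h.ne_nil
    | some u => exact ⟨u, rfl⟩
  refine isPolygon_of_cyc (h.cyc hu) fun i hi => ?_
  have h1 : (u :: c).IsChain Adj := by
    rw [List.isChain_cons]
    refine ⟨fun v hv => h.close u (by rw [hu]; rfl) v hv, h.chain⟩
  have h2 := h1.getElem i (by simp only [List.length_cons]; omega)
  rw [List.getD_eq_getElem _ _ (by simp only [List.length_cons]; omega),
    List.getD_eq_getElem _ _ (by simp only [List.length_cons]; omega)]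
  exact h2

theorem Ring.exists_last {c : List P3} (h : Ring c) : ∃ u, c.getLast? = some u := by
  cases hc : c.getLast? with
  | none => exact absurd (List.getLast?_eq_none_iff.1 hc) h.ne_nil
  | some u => exact ⟨u, rfl⟩

theorem Ring.card_eq {c : List P3} (h : Ring c) : (ring c).card = c.length := by
  obtain ⟨u, hu⟩ := h.exists_last
  exact (h.cyc hu).card_eq

theorem Ring.mem_verts {c : List P3} (h : Ring c) {p : P3} : p ∈ verts (ring c) ↔ p ∈ c := by
  obtain ⟨u, hu⟩ := h.exists_last
  have hmem : u ∈ c := List.mem_of_getLast? hu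
  constructor
  · rintro ⟨q, hq⟩
    rw [ring_eq hu] at hq
    have := (mem_of_mem_pedges hq).1
    rcases List.mem_cons.1 this with rfl | h1
    · exact hmem
    · exact h1
  · intro hp
    obtain ⟨i, hi, rfl⟩ := List.mem_iff_getElem.1 hp
    refine ⟨(u :: c).getD i 0, ?_⟩
    rw [ring_eq hu, mem_pedges, Sym2.eq_swap]
    refine ⟨i, by simp only [List.length_cons]; omega, ?_⟩
    rw [Sym2.eq_swap, List.getD_cons_succ, List.getD_eq_getElem _ _ hi, Sym2.eq_swap]

/-- A closed walk is determined by its edges, its first and its last point. -/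
theorem ring_unique {c c' : List P3} (h : Ring c) (h' : Ring c') (he : ring c = ring c')
    (h0 : c.head? = c'.head?) (h1 : c.getLast? = c'.getLast?) : c = c' := by
  obtain ⟨u, hu⟩ := h.exists_last
  have hu' : c'.getLast? = some u := by rw [← h1]; exact hu
  have hc := h.cyc hu
  have hc' := h'.cyc hu'
  rw [← he] at hc'
  obtain ⟨x, t, rfl⟩ := List.exists_cons_of_ne_nil h.ne_nil
  obtain ⟨x', t', rfl⟩ := List.exists_cons_of_ne_nil h'.ne_nil
  simp only [List.head?_cons, Option.some.injEq] at h0
  subst h0
  obtain ⟨hn, hg⟩ := cyc_unique hc hc' rfl rfl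
  refine List.ext_getElem hn fun i hi hi' => ?_
  have := hg (i + 1) (by omega)
  simp only [List.getD_cons_succ] at this
  rwa [List.getD_eq_getElem _ _ hi, List.getD_eq_getElem _ _ hi'] at this

/-- Every polygon is a closed walk with prescribed last and first point. -/
theorem exists_ring (hE : IsPolygon E) {a b : P3} (hab : s(a, b) ∈ E) :
    ∃ c, Ring c ∧ ring c = E ∧ c.getLast? = some a ∧ c.head? = some b := by
  obtain ⟨n, g, hc, hg0, hg1⟩ := exists_cyc hE hab
  have h3 := hc.three
  have hlen : (List.ofFn fun i : Fin n => g (i + 1)).length = n := by simp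
  have hget : ∀ i (hi : i < n), (List.ofFn fun i : Fin n => g (i + 1))[i]'(by simpa using hi) =
      g (i + 1) := by
    intro i hi
    simp
  have hlast : (List.ofFn fun i : Fin n => g (i + 1)).getLast? = some a := by
    rw [List.getLast?_eq_getElem?, List.getElem?_eq_getElem (by simp; omega)]
    simp only [hlen]
    rw [hget _ (by omega)]
    congr 1
    rw [Nat.sub_add_cancel (by omega), hc.per, hg0]
  have hhead : (List.ofFn fun i : Fin n => g (i + 1)).head? = some b := by
    rw [List.head?_eq_getElem?, List.getElem?_eq_getElem (by simp; omega), hget _ (by omega)]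
    simp [hg1]
  have hR : Ring (List.ofFn fun i : Fin n => g (i + 1)) := by
    refine ⟨by rw [hlen]; exact h3, ?_, ?_, ?_⟩
    · rw [List.nodup_ofFn]
      intro i j hij
      simp only at hij
      have hi := i.2
      have hj := j.2
      apply Fin.ext
      rcases Nat.lt_or_ge (i + 1 : ℕ) n with h1 | h1
      · rcases Nat.lt_or_ge (j + 1 : ℕ) n with h2 | h2
        · have := hc.inj _ h1 _ h2 hij
          omega
        · have e : (j + 1 : ℕ) = n := by omega
          rw [e, hc.per] at hij
          have := hc.inj _ h1 _ (by omega) hij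
          omega
      · have e : (i + 1 : ℕ) = n := by omega
        rw [e, hc.per] at hij
        rcases Nat.lt_or_ge (j + 1 : ℕ) n with h2 | h2
        · have := hc.inj _ (by omega) _ h2 hij
          omega
        · omega
    · rw [List.isChain_iff_getElem]
      intro i hi
      rw [hlen] at hi
      rw [hget i (by omega), hget (i + 1) (by omega)]
      exact hE.adj _ _ (hc.mem_edge (by omega))
    · intro u hu v hv
      rw [hlast] at hu
      rw [hhead] at hv
      simp only [Option.mem_def, Option.some.injEq] at hu hv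
      subst hu hv
      exact hE.adj _ _ hab
  refine ⟨_, hR, ?_, hlast, hhead⟩
  refine edge_ext fun u v => ?_
  rw [ring_eq hlast, mem_pedges, hc.edge]
  have key : ∀ i < n + 1, (a :: List.ofFn fun i : Fin n => g (i + 1)).getD i 0 = g i := by
    intro i hi
    rcases i with _ | i
    · simp [hg0]
    · rw [List.getD_cons_succ, List.getD_eq_getElem _ _ (by simp; omega), hget _ (by omega)]
  constructor
  · rintro ⟨i, hi, h⟩
    rw [List.length_cons, hlen] at hi
    refine ⟨i, by omega, ?_⟩
    rw [h, key i (by omega), key (i + 1) (by omega)]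
  · rintro ⟨i, hi, h⟩
    refine ⟨i, by rw [List.length_cons, hlen]; omega, ?_⟩
    rw [h, key i (by omega), key (i + 1) (by omega)]

/-! ### Edges of concatenations -/

theorem pedges_cons_cons (a b : P3) (l : List P3) : pedges (a :: b :: l) =
    insert s(a, b) (pedges (b :: l)) := rfl

theorem mem_pedges_cat {A B : List P3} {a b : P3} (hA : A.getLast? = some a)
    (hB : B.head? = some b) {e : Sym2 P3} :
    e ∈ pedges (A ++ B) ↔ e ∈ pedges A ∨ e = s(a, b) ∨ e ∈ pedges B := by
  induction A with
  | nil => simp at hA
  | cons x A ih =>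
    cases A with
    | nil =>
      simp only [List.getLast?_singleton, Option.some.injEq] at hA
      subst hA
      cases B with
      | nil => simp at hB
      | cons y B =>
        simp only [List.head?_cons, Option.some.injEq] at hB
        subst hB
        simp only [List.cons_append, List.nil_append, pedges_cons_cons, Finset.mem_insert]
        simp [LatticeTube.pedges]
    | cons x' A =>
      have h1 : (x' :: A).getLast? = some a := by simpa [List.getLast?_cons_cons] using hA
      have h2 := ih h1
      simp only [List.cons_append, pedges_cons_cons, Finset.mem_insert] at h2 ⊢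
      rw [h2]
      tauto

/-- The edge over the column `a` from level `k` to level `k + 1`. -/
def leg (a : ℤ × ℤ) (k : ℤ) : Sym2 P3 := s((a.1, a.2, k), (a.1, a.2, k + 1))

theorem mem_cross_leg {c : ℤ × ℤ} : c ∈ cross E k ↔ leg c k ∈ E := Iff.rfl

theorem leg_inj {a b : ℤ × ℤ} {j : ℤ} (h : leg a k = leg b j) : a = b ∧ k = j := by
  unfold leg at h
  rw [Sym2.eq_iff] at h
  simp only [Prod.mk.injEq] at h
  rcases h with ⟨⟨h1, h2, h3⟩, -⟩ | ⟨⟨h1, h2, h3⟩, -, -, h4⟩
  · exact ⟨Prod.ext h1 h2, h3⟩
  · omega

/-! ### Halves -/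

/-- `l` is the upper half of a polygon at the plane `z = k + 1/2`: a walk above the plane from the
column `a` to the column `b`. -/
structure Upper (k : ℤ) (a b : ℤ × ℤ) (l : List P3) : Prop where
  nodup : l.Nodup
  chain : l.IsChain Adj
  head : l.head? = some (a.1, a.2, k + 1)
  last : l.getLast? = some (b.1, b.2, k + 1)
  lev : ∀ u ∈ l, k + 1 ≤ u.2.2

/-- `l` is the lower half of a polygon at the plane `z = k + 1/2`: a walk below the plane from the
column `b` back to the column `a`. -/
structure Lower (k : ℤ) (a b : ℤ × ℤ) (l : List P3) : Prop where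
  nodup : l.Nodup
  chain : l.IsChain Adj
  head : l.head? = some (b.1, b.2, k)
  last : l.getLast? = some (a.1, a.2, k)
  lev : ∀ u ∈ l, u.2.2 ≤ k

variable {a b a' b' : ℤ × ℤ} {r l r' l' : List P3}

theorem Upper.ne_nil (h : Upper k a b r) : r ≠ [] := by
  rintro rfl
  simpa using h.head

theorem Lower.ne_nil (h : Lower k a b l) : l ≠ [] := by
  rintro rfl
  simpa using h.head

theorem adj_leg (a : ℤ × ℤ) (k : ℤ) : Adj (a.1, a.2, k) (a.1, a.2, k + 1) := by
  simp [Adj]

theorem two_le_of_ends {l : List P3} {x y : P3} (h : l.head? = some x) (h' : l.getLast? = some y)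
    (hne : x ≠ y) : 2 ≤ l.length := by
  rcases l with _ | ⟨u, _ | ⟨v, l⟩⟩
  · simp at h
  · simp only [List.head?_cons, Option.some.injEq] at h
    simp only [List.getLast?_singleton, Option.some.injEq] at h'
    exact absurd (h.symm.trans h') hne
  · simp

theorem ne_col (hab : a ≠ b) (k : ℤ) : ((a.1, a.2, k) : P3) ≠ (b.1, b.2, k) := by
  intro h
  simp only [Prod.mk.injEq] at h
  exact hab (Prod.ext h.1 h.2.1)

/-- Two halves form a closed walk. -/
theorem ring_of (hab : a ≠ b) (hr : Upper k a b r) (hl : Lower k a b l) : Ring (r ++ l) := by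
  have h2 := two_le_of_ends hr.head hr.last (ne_col hab _)
  have h3 := two_le_of_ends hl.head hl.last (ne_col hab.symm _)
  refine ⟨by rw [List.length_append]; omega, ?_, ?_, ?_⟩
  · refine List.nodup_append.2 ⟨hr.nodup, hl.nodup, ?_⟩
    intro u hu v hv huv
    subst huv
    have := hr.lev u hu
    have := hl.lev u hv
    omega
  · refine hr.chain.append hl.chain ?_
    intro x hx y hy
    rw [hr.last] at hx
    rw [hl.head] at hy
    simp only [Option.mem_def, Option.some.injEq] at hx hy
    subst hx hy
    exact (adj_leg b k).symm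
  · intro x hx y hy
    rw [List.getLast?_append, hl.last] at hx
    rw [List.head?_append, hr.head] at hy
    simp only [Option.some_or, Option.mem_def, Option.some.injEq] at hx hy
    subst hx hy
    exact adj_leg a k

/-- The edges of a polygon with two halves. -/
theorem mem_ring_of (hr : Upper k a b r) (hl : Lower k a b l) {e : Sym2 P3} :
    e ∈ ring (r ++ l) ↔ e ∈ pedges r ∨ e ∈ pedges l ∨ e = leg a k ∨ e = leg b k := by
  have h1 : (r ++ l).getLast? = some (a.1, a.2, k) := by
    rw [List.getLast?_append, hl.last]; rfl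
  have h2 : (r ++ l).head? = some (a.1, a.2, k + 1) := by
    rw [List.head?_append, hr.head]; rfl
  rw [ring_eq h1, ← List.singleton_append, mem_pedges_cat (A := [(a.1, a.2, k)]) (a := ((a.1, a.2, k) : P3)) rfl h2,
    mem_pedges_cat hr.last hl.head]
  have h3 : e ∉ pedges [(a.1, a.2, k)] := by simp [LatticeTube.pedges]
  have h4 : (s(((b.1, b.2, k + 1) : P3), (b.1, b.2, k)) : Sym2 P3) = leg b k := by
    rw [Sym2.eq_swap]; rfl
  rw [h4]
  have h5 : (s(((a.1, a.2, k) : P3), (a.1, a.2, k + 1)) : Sym2 P3) = leg a k := rfl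
  rw [h5]
  tauto

theorem pedges_lev {l : List P3} {P : P3 → Prop} (h : ∀ u ∈ l, P u) {u v : P3}
    (huv : s(u, v) ∈ pedges l) : P u ∧ P v :=
  ⟨h u (mem_of_mem_pedges huv).1, h v (mem_of_mem_pedges huv).2⟩

theorem cross_ring_of (hr : Upper k a b r) (hl : Lower k a b l) :
    cross (ring (r ++ l)) k = {a, b} := by
  ext c
  rw [mem_cross_leg, mem_ring_of hr hl, Set.mem_insert_iff, Set.mem_singleton_iff]
  constructor
  · rintro (h | h | h | h)
    · have := (pedges_lev hr.lev h).1
      simp only at this
      omega
    · have := (pedges_lev hl.lev h).2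
      simp only at this
      omega
    · exact Or.inl (leg_inj h).1
    · exact Or.inr (leg_inj h).1
  · rintro (rfl | rfl)
    · exact Or.inr (Or.inr (Or.inl rfl))
    · exact Or.inr (Or.inr (Or.inr rfl))

theorem isTwo_ring_of (hab : a ≠ b) (hr : Upper k a b r) (hl : Lower k a b l) :
    IsTwo (ring (r ++ l)) k := by
  unfold IsTwo
  rw [cross_ring_of hr hl]
  exact Set.ncard_pair hab

theorem cross_ring_upp (hr : Upper k a b r) (hl : Lower k a b l) {j : ℤ} (hj : k < j)
    {c : ℤ × ℤ} : c ∈ cross (ring (r ++ l)) j ↔ leg c j ∈ pedges r := by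
  rw [mem_cross_leg, mem_ring_of hr hl]
  constructor
  · rintro (h | h | h | h)
    · exact h
    · have := (pedges_lev hl.lev h).1
      simp only at this
      omega
    · have := (leg_inj h).2; omega
    · have := (leg_inj h).2; omega
  · exact Or.inl

theorem cross_ring_low (hr : Upper k a b r) (hl : Lower k a b l) {j : ℤ} (hj : j < k)
    {c : ℤ × ℤ} : c ∈ cross (ring (r ++ l)) j ↔ leg c j ∈ pedges l := by
  rw [mem_cross_leg, mem_ring_of hr hl]
  constructor
  · rintro (h | h | h | h)
    · have := (pedges_lev hr.lev h).2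
      simp only at this
      omega
    · exact h
    · have := (leg_inj h).2; omega
    · have := (leg_inj h).2; omega
  · exact fun h => Or.inr (Or.inl h)

/-- The lower part is determined by the lower half. -/
theorem lowEq_ring (hr : Upper k a b r) (hr' : Upper k a b r') (hl : Lower k a b l) :
    LowEq (ring (r ++ l)) (ring (r' ++ l)) k := by
  intro u v hu
  rw [mem_ring_of hr hl, mem_ring_of hr' hl]
  have h1 : s(u, v) ∉ pedges r := fun h => by
    have := (pedges_lev hr.lev h).1; omega
  have h2 : s(u, v) ∉ pedges r' := fun h => by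
    have := (pedges_lev hr'.lev h).1; omega
  tauto

theorem uppEq_ring (hr : Upper k a b r) (hl : Lower k a b l) (hl' : Lower k a b l') :
    UppEq (ring (r ++ l)) (ring (r ++ l')) k := by
  intro u v hu
  rw [mem_ring_of hr hl, mem_ring_of hr hl']
  have h1 : s(u, v) ∉ pedges l := fun h => by
    have := (pedges_lev hl.lev h).1; omega
  have h2 : s(u, v) ∉ pedges l' := fun h => by
    have := (pedges_lev hl'.lev h).1; omega
  tauto

/-! ### Every polygon has two halves -/

/-- A chain that leaves a set contains a step that leaves it. -/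
theorem exists_step_out {P : P3 → Prop} : ∀ (l : List P3) (x : P3), l.head? = some x → P x →
    (∃ y ∈ l, ¬ P y) → ∃ (l1 l2 : List P3) (u v : P3), l = l1 ++ u :: v :: l2 ∧ P u ∧ ¬ P v
  | [], x, h, _, _ => by simp at h
  | [y], x, h, hx, ⟨z, hz, hz'⟩ => by
    simp only [List.head?_cons, Option.some.injEq] at h
    simp only [List.mem_singleton] at hz
    subst h hz
    exact absurd hx hz'
  | y :: y' :: l, x, h, hx, ⟨z, hz, hz'⟩ => by
    simp only [List.head?_cons, Option.some.injEq] at h
    subst h
    by_cases hy : P y'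
    · have hz2 : z ∈ y' :: l := by
        rcases List.mem_cons.1 hz with rfl | h1
        · exact absurd hx hz'
        · exact h1
      obtain ⟨l1, l2, u, v, h1, h2, h3⟩ := exists_step_out (y' :: l) y' rfl hy ⟨z, hz2, hz'⟩
      exact ⟨y :: l1, l2, u, v, by rw [h1]; rfl, h2, h3⟩
    · exact ⟨[], l, y, y', rfl, hx, hy⟩

theorem mem_pedges_mid (l1 l2 : List P3) (u v : P3) : s(u, v) ∈ pedges (l1 ++ u :: v :: l2) := by
  have := LatticeTube.mem_pedges_append l1 l2 u v
  rwa [List.append_assoc, List.singleton_append] at this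

theorem mem_ring_mid (c l1 l2 : List P3) (u v : P3) (hc : c = l1 ++ u :: v :: l2) :
    s(u, v) ∈ ring c := by
  unfold ring
  rw [hc, ← List.append_assoc]
  exact mem_pedges_mid _ _ _ _

/-- An edge that goes down through the plane. -/
theorem edge_down {u v : P3} (h : Adj u v) (hu : k + 1 ≤ u.2.2) (hv : v.2.2 ≤ k) :
    ∃ c : ℤ × ℤ, u = (c.1, c.2, k + 1) ∧ v = (c.1, c.2, k) := by
  rcases adj_cases k h with h1 | h1 | ⟨x, y, h1⟩
  · omega
  · omega
  · rw [Sym2.eq_iff] at h1
    rcases h1 with ⟨rfl, rfl⟩ | ⟨rfl, rfl⟩
    · simp only at hu; omega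
    · exact ⟨(x, y), rfl, rfl⟩

/-- **Halves.** -/
theorem exists_halves (hE : IsPolygon E) (h2 : IsTwo E k) (ha : a ∈ cross E k) :
    ∃ (b : ℤ × ℤ) (r l : List P3), a ≠ b ∧ Upper k a b r ∧ Lower k a b l ∧ ring (r ++ l) = E := by
  obtain ⟨c, hR, hc, hlast, hhead⟩ := exists_ring hE (mem_cross.1 ha)
  -- the first descent
  have hex : ∃ y ∈ c, ¬ (k + 1 ≤ y.2.2) := ⟨_, List.mem_of_getLast? hlast, by simp⟩
  classical
  set r := c.takeWhile fun u => decide (k + 1 ≤ u.2.2) with hr
  set l := c.dropWhile fun u => decide (k + 1 ≤ u.2.2) with hl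
  have hrl : r ++ l = c := List.takeWhile_append_dropWhile
  have hlevr : ∀ u ∈ r, k + 1 ≤ u.2.2 := by
    intro u hu
    have := List.mem_takeWhile_imp hu
    simpa using this
  have hlne : l ≠ [] := by
    intro h
    obtain ⟨y, hy, hy'⟩ := hex
    rw [← hrl, h, List.append_nil] at hy
    exact hy' (hlevr y hy)
  have hrne : r ≠ [] := by
    intro h
    obtain ⟨x, t, hx⟩ := List.exists_cons_of_ne_nil hR.ne_nil
    rw [hx] at hhead
    simp only [List.head?_cons, Option.some.injEq] at hhead
    rw [hr, hx, List.takeWhile_cons] at h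
    simp [hhead] at h
  have hheadr : r.head? = some (a.1, a.2, k + 1) := by
    rw [← hrl, List.head?_append_of_ne_nil _ hrne] at hhead
    exact hhead
  have hlastl : l.getLast? = some (a.1, a.2, k) := by
    rw [← hrl, List.getLast?_append_of_ne_nil _ hlne] at hlast
    exact hlast
  obtain ⟨v, l2, hl2⟩ := List.exists_cons_of_ne_nil hlne
  have hv : ¬ (k + 1 ≤ v.2.2) := by
    have := List.head_dropWhile_not (l := c) (fun u : P3 => decide (k + 1 ≤ u.2.2)) (by
      rw [← hl]; exact hlne)
    have e : (c.dropWhile fun u => decide (k + 1 ≤ u.2.2)).head (by rw [← hl]; exact hlne) = v := by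
      have : (c.dropWhile fun u => decide (k + 1 ≤ u.2.2)) = v :: l2 := by rw [← hl]; exact hl2
      simp only [this, List.head_cons]
    rw [e] at this
    simpa using this
  obtain ⟨r1, u, hr1⟩ : ∃ r1 u, r = r1 ++ [u] := by
    rcases List.eq_nil_or_concat' r with h | ⟨r1, u, h⟩
    · exact absurd h hrne
    · exact ⟨r1, u, h⟩
  have hu : k + 1 ≤ u.2.2 := hlevr u (by rw [hr1]; simp)
  have hcuv : c = r1 ++ u :: v :: l2 := by rw [← hrl, hr1, hl2]; simp
  have hadj : Adj u v := by
    have := hR.chain
    rw [hcuv, List.isChain_append] at this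
    exact (List.isChain_cons_cons.1 this.2.1).1
  obtain ⟨b, hub, hvb⟩ := edge_down hadj hu (by omega)
  have hb : b ∈ cross E k := by
    rw [mem_cross, ← hvb, ← hub, ← hc, Sym2.eq_swap]
    exact mem_ring_mid c r1 l2 u v hcuv
  have hnd := hR.nodup
  rw [← hrl] at hnd
  obtain ⟨hndr, hndl, hdis⟩ := List.nodup_append.1 hnd
  have hlastr : r.getLast? = some (b.1, b.2, k + 1) := by rw [hr1, hub]; simp
  have hheadl : l.head? = some (b.1, b.2, k) := by rw [hl2, hvb]; rfl
  have hab : a ≠ b := by
    rintro rfl
    have h3 := hR.three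
    have h4 : r.length ≤ 1 := by
      by_contra hcon
      obtain ⟨x, t, hx⟩ := List.exists_cons_of_ne_nil hrne
      rw [hx] at hheadr hlastr hndr hcon
      simp only [List.head?_cons, Option.some.injEq] at hheadr
      have ht : t ≠ [] := by rintro rfl; simp at hcon
      rw [List.getLast?_cons, List.getLast?_eq_getLast_of_ne_nil ht] at hlastr
      simp only [Option.getD_some, Option.some.injEq] at hlastr
      have : x ∈ t := by
        rw [hheadr, ← hlastr]; exact List.getLast_mem ht
      exact (List.nodup_cons.1 hndr).1 this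
    have h5 : l.length ≤ 1 := by
      by_contra hcon
      obtain ⟨x, t, hx⟩ := List.exists_cons_of_ne_nil hlne
      rw [hx] at hheadl hlastl hndl hcon
      simp only [List.head?_cons, Option.some.injEq] at hheadl
      have ht : t ≠ [] := by rintro rfl; simp at hcon
      rw [List.getLast?_cons, List.getLast?_eq_getLast_of_ne_nil ht] at hlastl
      simp only [Option.getD_some, Option.some.injEq] at hlastl
      have : x ∈ t := by
        rw [hheadl, ← hlastl]; exact List.getLast_mem ht
      exact (List.nodup_cons.1 hndl).1 this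
    have := congrArg List.length hrl
    rw [List.length_append] at this
    omega
  have hcross : cross E k = {a, b} := by
    have h4 : ({a, b} : Set (ℤ × ℤ)) ⊆ cross E k := by
      rintro x (rfl | rfl)
      · exact ha
      · exact hb
    refine (Set.eq_of_subset_of_ncard_le h4 ?_ (cross_finite E k)).symm
    rw [Set.ncard_pair hab]
    exact h2.le
  have hchain := hR.chain
  rw [← hrl, List.isChain_append] at hchain
  have hlevl : ∀ w ∈ l, w.2.2 ≤ k := by
    by_contra hcon
    push Not at hcon
    obtain ⟨w, hw, hw'⟩ := hcon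
    obtain ⟨m1, m2, p, q, h5, h6, h7⟩ := exists_step_out (P := fun u => u.2.2 ≤ k) l v
      (by rw [hl2]; rfl) (by omega) ⟨w, hw, by omega⟩
    have hpq : Adj p q := by
      have := hchain.2.1
      rw [h5, List.isChain_append] at this
      exact (List.isChain_cons_cons.1 this.2.1).1
    obtain ⟨d, hd1, hd2⟩ := edge_down hpq.symm (by omega) h6
    have hd : d ∈ cross E k := by
      rw [mem_cross, ← hd1, ← hd2, ← hc]
      exact mem_ring_mid c (r ++ m1) m2 p q (by rw [← hrl, h5, List.append_assoc])
    have hq : q ∈ r := by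
      rw [hcross] at hd
      rcases hd with rfl | hd
      · rw [hd1]; exact List.mem_of_mem_head? hheadr
      · rw [Set.mem_singleton_iff] at hd
        subst hd
        rw [hd1]; exact List.mem_of_getLast? hlastr
    exact hdis q hq q (by rw [h5]; simp) rfl
  exact ⟨b, r, l, hab, ⟨hndr, hchain.1, hheadr, hlastr, hlevr⟩,
    ⟨hndl, hchain.2.1, hheadl, hlastl, hlevl⟩, by rw [hrl, hc]⟩

/-- Halves are unique. -/
theorem halves_unique (hab : a ≠ b) (hab' : a ≠ b') (hr : Upper k a b r) (hl : Lower k a b l)
    (hr' : Upper k a b' r') (hl' : Lower k a b' l') (h : ring (r ++ l) = ring (r' ++ l')) :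
    b = b' ∧ r = r' ∧ l = l' := by
  have h1 : r ++ l = r' ++ l' := by
    refine ring_unique (ring_of hab hr hl) (ring_of hab' hr' hl') h ?_ ?_
    · rw [List.head?_append, hr.head, List.head?_append, hr'.head]
      simp
    · rw [List.getLast?_append, hl.last, List.getLast?_append, hl'.last]
      simp
  have h2 : r = r' ∧ l = l' := by
    refine LatticeTube.append_split (fun u : P3 => k + 1 ≤ u.2.2) r r' l l' hr.lev hr'.lev ?_ ?_ h1
    · intro u hu
      rw [hl.head] at hu
      simp only [Option.mem_def, Option.some.injEq] at hu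
      subst hu
      simp
    · intro u hu
      rw [hl'.head] at hu
      simp only [Option.mem_def, Option.some.injEq] at hu
      subst hu
      simp
  refine ⟨?_, h2⟩
  have h3 := hr.last
  rw [h2.1, hr'.last] at h3
  simp only [Option.some.injEq, Prod.mk.injEq, and_true] at h3
  exact (Prod.ext h3.1 h3.2).symm

end Pool.Agent.KRing
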