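import Pool.Agent.KRing.Letters

/-! Words that miss a point of a square can be moved off the origin. -/

set_option autoImplicit false

namespace Pool.Agent.KRing

/-- horizontal segment -/
def hseg (a : ℤ) : List Letter := List.replicate a.natAbs (some (if 0 ≤ a then 0 else 1))

/-- vertical segment -/
def vseg (a : ℤ) : List Letter := List.replicate a.natAbs (some (if 0 ≤ a then 2 else 3))

theorem disp_hseg (a : ℤ) : disp (hseg a) = (a, 0) := by
  unfold hseg
  rw [disp_replicate]
  split_ifs with h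
  · simp [dv, abs_of_nonneg h]
  · simp [dv, abs_of_neg (not_le.1 h)]

theorem disp_vseg (a : ℤ) : disp (vseg a) = (0, a) := by
  unfold vseg
  rw [disp_replicate]
  split_ifs with h
  · simp [dv, abs_of_nonneg h]
  · simp [dv, abs_of_neg (not_le.1 h)]

theorem stp_hseg (a : ℤ) : stp (hseg a) = a.natAbs := stp_replicate _ _

theorem stp_vseg (a : ℤ) : stp (vseg a) = a.natAbs := stp_replicate _ _

theorem brk_hseg (a : ℤ) : brk (hseg a) = 0 := brk_replicate _ _

theorem brk_vseg (a : ℤ) : brk (vseg a) = 0 := brk_replicate _ _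

theorem runOK_hseg (a : ℤ) : RunOK (hseg a) := runOK_replicate _ _

theorem runOK_vseg (a : ℤ) : RunOK (vseg a) := runOK_replicate _ _

theorem avoid_hseg {u : ℤ × ℤ} {a : ℤ} (h : u.2 ≠ 0 ∨ (a = 0 ∧ u ≠ 0)) :
    Avoid u (hseg a) 0 := by
  rcases h with h | ⟨rfl, h⟩
  · apply avoid_replicate
    intro i _ he
    apply h
    have := congrArg Prod.snd he
    split_ifs at this <;> simpa [dv] using this
  · exact avoid_nil h

theorem avoid_vseg {u : ℤ × ℤ} {a : ℤ} (h : u.1 ≠ 0 ∨ (a = 0 ∧ u ≠ 0)) :
    Avoid u (vseg a) 0 := by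
  rcases h with h | ⟨rfl, h⟩
  · apply avoid_replicate
    intro i _ he
    apply h
    have := congrArg Prod.fst he
    split_ifs at this <;> simpa [dv] using this
  · exact avoid_nil h

/-- three segments -/
def three (x y z : List Letter) : List Letter := x ++ none :: (y ++ none :: z)

theorem brk_three (x y z : List Letter) : brk (three x y z) = brk x + brk y + brk z + 2 := by
  simp only [three, brk_append, brk_none]; ring

theorem stp_three (x y z : List Letter) : stp (three x y z) = stp x + stp y + stp z := by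
  simp only [three, stp_append, stp_none]; ring

theorem disp_three (x y z : List Letter) : disp (three x y z) = disp x + disp y + disp z := by
  simp only [three, disp_append, disp_cons, lv_none, zero_add, add_assoc]

theorem runOK_three {x y z : List Letter} (hx : RunOK x) (hy : RunOK y) (hz : RunOK z) :
    RunOK (three x y z) := hx.sep (hy.sep hz)

theorem avoid_sep {u p : ℤ × ℤ} {x y : List Letter} (hx : Avoid u x p)
    (hy : Avoid (u + disp x) y p) : Avoid u (x ++ none :: y) p :=
  avoid_append.2 ⟨hx, avoid_none hy⟩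

theorem avoid_three {u p : ℤ × ℤ} {x y z : List Letter} (hx : Avoid u x p)
    (hy : Avoid (u + disp x) y p) (hz : Avoid (u + disp x + disp y) z p) :
    Avoid u (three x y z) p := avoid_sep hx (avoid_sep hy hz)

/-- Two points different from the origin are connected off the origin. -/
theorem exists_conn {u : ℤ × ℤ} (hu : u ≠ 0) {a b : ℤ} (hu' : u + (a, b) ≠ 0) :
    ∃ c : List Letter, brk c = 2 ∧ stp c ≤ a.natAbs + b.natAbs + 2 ∧ disp c = (a, b) ∧
      RunOK c ∧ Avoid u c 0 := by
  obtain ⟨u1, u2⟩ := u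
  have hne : ∀ x y : ℤ, ((x, y) : ℤ × ℤ) ≠ 0 ↔ x ≠ 0 ∨ y ≠ 0 := by
    intro x y
    rw [ne_eq, Prod.ext_iff]
    simp only [Prod.fst_zero, Prod.snd_zero]
    tauto
  rw [Prod.mk_add_mk, hne] at hu'
  rw [hne] at hu
  have hVHV : ∀ t : ℤ, t.natAbs + (b - t).natAbs ≤ b.natAbs + 2 →
      (u1 ≠ 0 ∨ (t = 0 ∧ (u1 ≠ 0 ∨ u2 ≠ 0))) → u2 + t ≠ 0 →
      (u1 + a ≠ 0 ∨ (b - t = 0 ∧ (u1 + a ≠ 0 ∨ u2 + t ≠ 0))) →
      ∃ c : List Letter, brk c = 2 ∧ stp c ≤ a.natAbs + b.natAbs + 2 ∧ disp c = (a, b) ∧
        RunOK c ∧ Avoid (u1, u2) c 0 := by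
    intro t ht h1 h2 h3
    refine ⟨three (vseg t) (hseg a) (vseg (b - t)), ?_, ?_, ?_, ?_, ?_⟩
    · rw [brk_three, brk_vseg, brk_hseg, brk_vseg]
    · rw [stp_three, stp_vseg, stp_hseg, stp_vseg]; omega
    · rw [disp_three, disp_vseg, disp_hseg, disp_vseg]
      simp
    · exact runOK_three (runOK_vseg _) (runOK_hseg _) (runOK_vseg _)
    · refine avoid_three (avoid_vseg ?_) (avoid_hseg (Or.inl ?_)) (avoid_vseg ?_)
      · simp only [hne]; exact h1
      · rw [disp_vseg]; simpa using h2
      · rw [disp_vseg, disp_hseg]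
        simp only [Prod.mk_add_mk, add_zero, hne]
        exact h3
  by_cases h1 : u1 = 0
  · by_cases h2 : u1 + a = 0
    · have ha : a = 0 := by omega
      have h3 : u2 ≠ 0 := by tauto
      have h4 : u2 + b ≠ 0 := by tauto
      subst h1 ha
      refine ⟨three (hseg 1) (vseg b) (hseg (-1)), ?_, ?_, ?_, ?_, ?_⟩
      · rw [brk_three, brk_vseg, brk_hseg, brk_hseg]
      · rw [stp_three, stp_vseg, stp_hseg, stp_hseg]
        have : (-1 : ℤ).natAbs = 1 := rfl
        have : (1 : ℤ).natAbs = 1 := rfl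
        omega
      · rw [disp_three, disp_vseg, disp_hseg, disp_hseg]
        simp
      · exact runOK_three (runOK_hseg _) (runOK_vseg _) (runOK_hseg _)
      · refine avoid_three (avoid_hseg (Or.inl h3)) (avoid_vseg (Or.inl ?_))
          (avoid_hseg (Or.inl ?_))
        · rw [disp_hseg]; simp
        · rw [disp_hseg, disp_vseg]; simpa using h4
    · have h3 : u2 ≠ 0 := by tauto
      exact hVHV 0 (by simp) (Or.inr ⟨rfl, Or.inr h3⟩) (by simpa using h3) (Or.inl h2)
  · by_cases h2 : u1 + a = 0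
    · have h3 : u2 + b ≠ 0 := by tauto
      exact hVHV b (by simp) (Or.inl h1) h3 (Or.inr ⟨by ring, Or.inr h3⟩)
    · by_cases h3 : u2 = 0
      · exact hVHV 1 (by omega) (Or.inl h1) (by omega) (Or.inl h2)
      · exact hVHV 0 (by simp) (Or.inl h1) (by simpa using h3) (Or.inl h2)

theorem avoid_shift {v p q : ℤ × ℤ} {x : List Letter} (h : Avoid v x p) :
    Avoid (v + q) x (p + q) := by
  intro A B hx he
  apply h A B hx
  have : v + disp A + q = p + q := by rw [← he]; ring
  exact add_right_cancel this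

/-- Words that miss the point `-R`. -/
theorem missing_le {v w : ℤ × ℤ} (hv : v ≠ 0) (hw : w ≠ 0) (N l m : ℕ) (R : ℤ × ℤ)
    (hR : R.1.natAbs + R.2.natAbs ≤ m) :
    {x | x ∈ FN v w N l ∧ Avoid v x (-R)}.ncard ≤
      ∑ i ∈ Finset.range (2 * m + 5), (F0 v w (N + 6) (l + i)).ncard := by
  rcases Set.eq_empty_or_nonempty {x | x ∈ FN v w N l ∧ Avoid v x (-R)} with h0 | ⟨x0, hx0, hx0'⟩
  · rw [h0, Set.ncard_empty]; exact Nat.zero_le _
  have hv' : v + R ≠ 0 := by
    intro h
    exact hx0'.start (eq_neg_of_add_eq_zero_left h)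
  have hw' : w + R ≠ 0 := by
    intro h
    have := hx0'.stop
    rw [hx0.2.2.1] at this
    exact this (eq_neg_of_add_eq_zero_left h)
  obtain ⟨c1, a1, a2, a3, a4, a5⟩ := exists_conn (a := R.1) (b := R.2) hv hv'
  have e : w + R + (-R.1, -R.2) = w := by
    ext <;> simp
  obtain ⟨c2, b1, b2, b3, b4, b5⟩ := exists_conn (a := -R.1) (b := -R.2) hw' (by rw [e]; exact hw)
  rw [Int.natAbs_neg, Int.natAbs_neg] at b2
  have hle : {x | x ∈ FN v w N l ∧ Avoid v x (-R)}.ncard ≤
      (F0 v w (N + 6) (l + (stp c1 + stp c2))).ncard := by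
    refine Set.ncard_le_ncard_of_injOn (fun x => c1 ++ none :: (x ++ none :: c2)) ?_ ?_
      (F0_finite _ _ _ _)
    · rintro x ⟨⟨h1, h2, h3, h4⟩, h5⟩
      have e1 : v + R + disp x = w + R := by rw [← h3]; ring
      refine ⟨⟨?_, ?_, ?_, ?_⟩, ?_⟩
      · simp only [brk_append, brk_none, a1, b1, h1]; omega
      · simp only [stp_append, stp_none, h2]; omega
      · simp only [disp_append, disp_cons, lv_none, zero_add, a3, b3]
        have : v + ((R.1, R.2) + (disp x + (-R.1, -R.2))) = v + R + disp x + (-R.1, -R.2) := by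
          ext <;> simp <;> ring
        rw [this, e1, e]
      · exact a4.sep (h4.sep b4)
      · refine avoid_sep a5 (avoid_sep ?_ ?_)
        · rw [a3]
          have := avoid_shift (q := R) h5
          rwa [neg_add_cancel] at this
        · rw [a3]
          show Avoid (v + R + disp x) c2 0
          rw [e1]; exact b5
    · intro x _ y _ hxy
      simp only [List.append_cancel_left_eq, List.cons.injEq, true_and] at hxy
      exact List.append_cancel_right hxy
  refine hle.trans ?_
  exact Finset.single_le_sum (f := fun i => (F0 v w (N + 6) (l + i)).ncard)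
    (fun _ _ => Nat.zero_le _) (Finset.mem_range.2 (by omega))

end Pool.Agent.KRing
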