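import Pool.Agent.KRing.Ring
import Pool.Agent.KRing.Letters

/-! Walks given by their steps. -/

set_option autoImplicit false

open Pool.Agent.LK

namespace Pool.Agent.KRing

open Pool.Agent.LatticeTube (pedges mem_pedges mem_of_mem_pedges)

/-- The walk that starts in `p` and has the steps `s`. -/
def wk : P3 → List P3 → List P3
  | p, [] => [p]
  | p, d :: s => p :: wk (p + d) s

@[simp] theorem wk_nil (p : P3) : wk p [] = [p] := rfl

@[simp] theorem wk_cons (p d : P3) (s : List P3) : wk p (d :: s) = p :: wk (p + d) s := rfl

theorem length_wk (p : P3) (s : List P3) : (wk p s).length = s.length + 1 := by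
  induction s generalizing p with
  | nil => rfl
  | cons d s ih => simp [ih]

theorem wk_ne_nil (p : P3) (s : List P3) : wk p s ≠ [] := by
  cases s <;> simp

theorem head_wk (p : P3) (s : List P3) : (wk p s).head? = some p := by
  cases s <;> rfl

theorem last_wk (p : P3) (s : List P3) : (wk p s).getLast? = some (p + s.sum) := by
  induction s generalizing p with
  | nil => simp
  | cons d s ih =>
    rw [wk_cons, List.getLast?_cons, ih, List.sum_cons, Option.getD_some, add_assoc]

theorem mem_wk {p u : P3} {s : List P3} : u ∈ wk p s ↔ ∃ A B, s = A ++ B ∧ u = p + A.sum := by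
  induction s generalizing p with
  | nil =>
    simp only [wk_nil, List.mem_singleton]
    constructor
    · rintro rfl; exact ⟨[], [], rfl, by simp⟩
    · rintro ⟨A, B, h, rfl⟩
      have : A = [] := (List.append_eq_nil_iff.1 h.symm).1
      simp [this]
  | cons d s ih =>
    rw [wk_cons, List.mem_cons, ih]
    constructor
    · rintro (rfl | ⟨A, B, rfl, rfl⟩)
      · exact ⟨[], d :: s, rfl, by simp⟩
      · exact ⟨d :: A, B, rfl, by rw [List.sum_cons, add_assoc]⟩
    · rintro ⟨A, B, h, rfl⟩
      cases A with
      | nil => left; simp
      | cons x A =>
        right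
        simp only [List.cons_append, List.cons.injEq] at h
        obtain ⟨rfl, rfl⟩ := h
        exact ⟨A, B, rfl, by rw [List.sum_cons, add_assoc]⟩

theorem wk_inj {p : P3} {s s' : List P3} (h : wk p s = wk p s') : s = s' := by
  induction s generalizing p s' with
  | nil =>
    cases s' with
    | nil => rfl
    | cons d s' =>
      exfalso
      have := congrArg List.length h
      simp only [length_wk, List.length_nil, List.length_cons] at this
      omega
  | cons d s ih =>
    cases s' with
    | nil =>
      exfalso
      have := congrArg List.length h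
      simp only [length_wk, List.length_nil, List.length_cons] at this
      omega
    | cons d' s' =>
      simp only [wk_cons, List.cons.injEq, true_and] at h
      have h1 : p + d = p + d' := by
        have h2 := congrArg List.head? h
        rw [head_wk, head_wk] at h2
        simpa using h2
      have h3 : d = d' := add_left_cancel h1
      subst h3
      rw [ih h]

theorem exists_wk : ∀ (l : List P3) (p : P3), l.head? = some p → ∃ s, l = wk p s
  | [], p, h => by simp at h
  | [q], p, h => by
    simp only [List.head?_cons, Option.some.injEq] at h
    subst h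
    exact ⟨[], rfl⟩
  | q :: q' :: l, p, h => by
    simp only [List.head?_cons, Option.some.injEq] at h
    subst h
    obtain ⟨s, hs⟩ := exists_wk (q' :: l) q' rfl
    refine ⟨(q' - q) :: s, ?_⟩
    rw [wk_cons, hs, add_sub_cancel]

theorem nodup_wk {p : P3} {s : List P3} :
    (wk p s).Nodup ↔ ∀ A u B : List P3, s = A ++ (u ++ B) → u ≠ [] → u.sum ≠ 0 := by
  induction s generalizing p with
  | nil =>
    simp only [wk_nil, List.nodup_singleton, true_iff]
    intro A u B h hu
    exfalso
    have := (List.append_eq_nil_iff.1 h.symm).2
    exact hu (List.append_eq_nil_iff.1 this).1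
  | cons d s ih =>
    rw [wk_cons, List.nodup_cons, ih]
    constructor
    · rintro ⟨h1, h2⟩ A u B h hu
      cases A with
      | nil =>
        rw [List.nil_append] at h
        cases u with
        | nil => exact absurd rfl hu
        | cons x u =>
          simp only [List.cons_append, List.cons.injEq] at h
          obtain ⟨rfl, h⟩ := h
          intro h0
          apply h1
          rw [mem_wk]
          refine ⟨u, B, h, ?_⟩
          rw [List.sum_cons] at h0
          rw [add_assoc, h0, add_zero]
      | cons x A =>
        simp only [List.cons_append, List.cons.injEq] at h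
        exact h2 A u B h.2 hu
    · intro h
      refine ⟨?_, fun A u B h1 hu => h (d :: A) u B (by rw [h1]; rfl) hu⟩
      intro h1
      obtain ⟨A, B, h2, h3⟩ := mem_wk.1 h1
      refine h [] (d :: A) B (by rw [h2]; rfl) (by simp) ?_
      rw [List.sum_cons]
      rw [add_assoc] at h3
      exact left_eq_add.1 h3

/-- The unit steps of the cubic lattice. -/
def IsStep (d : P3) : Prop := |d.1| + |d.2.1| + |d.2.2| = 1

theorem adj_add {p d : P3} : Adj p (p + d) ↔ IsStep d := by
  unfold Adj IsStep
  simp only [Prod.fst_add, Prod.snd_add, sub_add_cancel_left, abs_neg]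

theorem chain_wk {p : P3} {s : List P3} : (wk p s).IsChain Adj ↔ ∀ d ∈ s, IsStep d := by
  induction s generalizing p with
  | nil => simp
  | cons d s ih =>
    rw [wk_cons, List.isChain_cons, ih, head_wk]
    simp [adj_add]

theorem wk_append (p : P3) (s t : List P3) :
    wk p (s ++ t) = (wk p s).dropLast ++ wk (p + s.sum) t := by
  induction s generalizing p with
  | nil => simp
  | cons d s ih =>
    rw [List.cons_append, wk_cons, ih, wk_cons, List.sum_cons, List.dropLast_cons_of_ne_nil
      (wk_ne_nil _ _), List.cons_append, add_assoc]

theorem map_wk (t p : P3) (s : List P3) : (wk p s).map (· + t) = wk (p + t) s := by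
  induction s generalizing p with
  | nil => rfl
  | cons d s ih =>
    rw [wk_cons, List.map_cons, ih, wk_cons]
    congr 2
    abel

/-- The edges of a walk. -/
theorem mem_pedges_wk {p u v : P3} {s : List P3} : s(u, v) ∈ pedges (wk p s) ↔
    ∃ A d B, s = A ++ d :: B ∧ s(u, v) = s(p + A.sum, p + A.sum + d) := by
  induction s generalizing p with
  | nil => simp [LatticeTube.pedges]
  | cons d s ih =>
    have h1 : wk p (d :: s) = [p] ++ wk (p + d) s := rfl
    rw [h1, mem_pedges_cat (a := p) rfl (head_wk _ _), ih]
    constructor
    · rintro (h | h | ⟨A, d', B, rfl, h⟩)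
      · simp [LatticeTube.pedges] at h
      · exact ⟨[], d, s, rfl, by simpa using h⟩
      · refine ⟨d :: A, d', B, rfl, ?_⟩
        rw [h, List.sum_cons, add_assoc p d]
    · rintro ⟨A, d', B, h2, h⟩
      cases A with
      | nil =>
        simp only [List.nil_append, List.cons.injEq] at h2
        obtain ⟨rfl, rfl⟩ := h2
        right; left
        simpa using h
      | cons x A =>
        simp only [List.cons_append, List.cons.injEq] at h2
        obtain ⟨rfl, rfl⟩ := h2
        right; right
        refine ⟨A, d', B, rfl, ?_⟩
        rw [h, List.sum_cons, add_assoc p d]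

end Pool.Agent.KRing
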